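import Mathlib

/-!
MODULE Cheb (primes in (Y,4Y] prime to n; Mathlib only).
Mathlib: Chebyshev.theta, Chebyshev.theta_ge (lower bound θ(x) ≥ x log 2 - error), Chebyshev.theta_le_log4_mul_x. θ(4Y) - θ(Y) ≥ 4 log 2 Y - error -
2 log 2 Y ≥ Y for Y ≥ Y0. So (number of primes in (Y,4Y]) log(4Y) ≥ Y. At most ω(n) ≤ log n/log 2 of them divide n. If Y ≥ C n^ε with C
large: Y/log(4Y) ≥ c √Y ≥ c √C n^{ε/2} ≥ 4 log n /log 2 (and ≥ 4), hence the number prime to n is ≥ Y/(2 log(4Y)) ≥ Y/(C n^ε) (log(4Y) ≤ log(4n)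
≤ C' n^ε, as Y ≤ n).
-/

set_option autoImplicit false

namespace Pool.Agent.Work.MP_af11aa_nt.T

open Finset

private theorem cheb_aux (Y : ℕ) (s : ℝ) (hs : s = ((4 * Y : ℕ) : ℝ) ^ (1 / 4 : ℝ))
    (h100 : 100 ≤ s) : (Y : ℝ) ≤ Chebyshev.theta ((4 * Y : ℕ) : ℝ) - Chebyshev.theta (Y : ℝ) ∧
      s ^ 4 = 4 * Y ∧ Real.log ((4 * Y : ℕ) : ℝ) ≤ 4 * s := by
  set x : ℝ := ((4 * Y : ℕ) : ℝ) with hx
  have hx0 : 0 ≤ x := Nat.cast_nonneg _
  have hs4 : s ^ 4 = x := by
    rw [hs, ← Real.rpow_natCast, ← Real.rpow_mul hx0]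
    norm_num
  have hxY : x = 4 * Y := by rw [hx]; push_cast; ring
  have hs0 : 0 < s := by linarith
  have hx1 : 1 ≤ x := by
    rw [← hs4]
    exact one_le_pow₀ (by linarith)
  have hlog : Real.log x ≤ 4 * s := by
    have := Real.log_le_rpow_div hx0 (show (0 : ℝ) < 1 / 4 by norm_num)
    rw [← hs] at this
    linarith
  have hsqrt : √x = s ^ 2 := by
    rw [← hs4, show s ^ 4 = (s ^ 2) ^ 2 by ring]
    exact Real.sqrt_sq (by positivity)
  refine ⟨?_, by rw [hs4, hxY], hlog⟩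
  have h1 := Chebyshev.theta_ge (4 * Y)
  have h2 := Chebyshev.theta_le_log4_mul_x (x := (Y : ℝ)) (Nat.cast_nonneg _)
  rw [← hx] at h1
  have hl4 : Real.log 4 = 2 * Real.log 2 := by
    rw [show (4 : ℝ) = 2 ^ 2 by norm_num, Real.log_pow]
    norm_num
  have hl2 := Real.log_two_gt_d9
  have hl2' := Real.log_two_lt_d9
  have h3 : Real.log (x + 1) ≤ 1 + 4 * s := by
    have : Real.log (x + 1) ≤ Real.log (2 * x) :=
      Real.log_le_log (by linarith) (by linarith)
    rw [Real.log_mul (by norm_num) (by linarith)] at this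
    linarith
  have h4 : 2 * √x * Real.log x ≤ 8 * s ^ 3 := by
    rw [hsqrt]
    calc 2 * s ^ 2 * Real.log x ≤ 2 * s ^ 2 * (4 * s) := by gcongr
      _ = 8 * s ^ 3 := by ring
  have h5 : 8 * s ^ 3 + (1 + 4 * s) ≤ 0.0965 * x := by
    rw [← hs4]
    have e1 : s ^ 3 * 100 ≤ s ^ 4 := by
      have : s ^ 4 = s ^ 3 * s := by ring
      rw [this]
      gcongr
    have e2 : s * 1000000 ≤ s ^ 4 := by
      have : s ^ 4 = s * s ^ 3 := by ring
      rw [this]
      have : (1000000 : ℝ) ≤ s ^ 3 := by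
        calc (1000000 : ℝ) = 100 ^ 3 := by norm_num
          _ ≤ s ^ 3 := by gcongr
      gcongr
    linarith
  have h6 : x * Real.log 2 - Real.log 4 * Y = x * Real.log 2 / 2 := by
    rw [hl4, hxY]
    ring
  have h7 : x * 0.6931471803 ≤ x * Real.log 2 := by gcongr
  linarith

theorem cheb (ε : ℝ) (hε : 0 < ε) : ∃ C : ℝ, 0 < C ∧ ∀ n Y : ℕ, 0 < n → C * (n : ℝ) ^ ε ≤ Y →
    Y ≤ n → (Y : ℝ) ≤
      C * (n : ℝ) ^ ε * (((Ioc Y (4 * Y)).filter (fun Q ↦ Q.Prime ∧ Q.Coprime n)).card : ℝ) := by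
  classical
  set s0 : ℝ := max 100 (32 / ε) with hs0
  set C : ℝ := s0 ^ 4 + 2 * (Real.log 4 + 1 / ε) with hC
  have hs0100 : 100 ≤ s0 := le_max_left _ _
  have hs0e : 32 / ε ≤ s0 := le_max_right _ _
  have hl4 : 0 < Real.log 4 := Real.log_pos (by norm_num)
  have hCs : s0 ^ 4 ≤ C := by
    rw [hC]
    have : 0 < 1 / ε := by positivity
    linarith
  have hC1 : 1 ≤ C := le_trans (one_le_pow₀ (by linarith)) hCs
  refine ⟨C, by linarith, fun n Y hn hCY hYn => ?_⟩
  have hnR : (1 : ℝ) ≤ n := by exact_mod_cast hn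
  have hne : 1 ≤ (n : ℝ) ^ ε := Real.one_le_rpow hnR hε.le
  have hYC : C ≤ Y := le_trans (le_mul_of_one_le_right (by linarith) hne) hCY
  have hYs : s0 ^ 4 ≤ Y := hCs.trans hYC
  have hY1 : (1 : ℝ) ≤ Y := hC1.trans hYC
  have hYn' : (Y : ℝ) ≤ n := by exact_mod_cast hYn
  set s : ℝ := ((4 * Y : ℕ) : ℝ) ^ (1 / 4 : ℝ) with hs
  have hss0 : s0 ≤ s := by
    have h1 : s0 = (s0 ^ 4) ^ (1 / 4 : ℝ) := by
      rw [← Real.rpow_natCast, ← Real.rpow_mul (by linarith)]
      norm_num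
    rw [h1, hs]
    refine Real.rpow_le_rpow (by positivity) ?_ (by norm_num)
    push_cast
    linarith
  obtain ⟨hth, hs4, hlog⟩ := cheb_aux Y s hs (hs0100.trans hss0)
  have hspos : 0 < s := by linarith
  set L : ℝ := Real.log ((4 * Y : ℕ) : ℝ) with hL
  have hLpos : 0 < L := by
    rw [hL]
    apply Real.log_pos
    push_cast
    linarith
  set A := (Ioc Y (4 * Y)).filter (fun Q ↦ Q.Prime) with hA
  set B := (Ioc Y (4 * Y)).filter (fun Q ↦ Q.Prime ∧ Q.Coprime n) with hB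
  set D := (Ioc Y (4 * Y)).filter (fun Q ↦ Q.Prime ∧ Q ∣ n) with hD
  -- the number of primes
  have hN1 : (Y : ℝ) ≤ A.card * L := by
    refine hth.trans ?_
    have h1 : Chebyshev.theta ((4 * Y : ℕ) : ℝ) - Chebyshev.theta (Y : ℝ) =
        ∑ p ∈ A, Real.log p := by
      unfold Chebyshev.theta
      rw [Nat.floor_natCast, Nat.floor_natCast, sub_eq_iff_eq_add, hA, ← Finset.sum_union]
      · congr 1
        rw [← Finset.filter_union]
        congr 1
        ext k
        simp only [mem_union, mem_Ioc]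
        omega
      · rw [Finset.disjoint_left]
        intro k hk hk'
        simp only [mem_filter, mem_Ioc] at hk hk'
        omega
    rw [h1, ← nsmul_eq_mul]
    refine Finset.sum_le_card_nsmul _ _ _ fun p hp => ?_
    rw [hA, mem_filter, mem_Ioc] at hp
    refine Real.log_le_log (by exact_mod_cast hp.2.pos) ?_
    exact_mod_cast hp.1.2
  -- the number of prime divisors
  have hDcard : (D.card : ℝ) ≤ 1 / ε := by
    have h1 : ∏ p ∈ D, p ∣ n := by
      refine Finset.prod_primes_dvd n (fun p hp => ?_) (fun p hp => ?_)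
      · rw [hD, mem_filter] at hp
        exact hp.2.1.prime
      · rw [hD, mem_filter] at hp
        exact hp.2.2
    have h2 : Y ^ D.card ≤ n := by
      refine le_trans ?_ (Nat.le_of_dvd hn h1)
      rw [← Finset.prod_const]
      refine Finset.prod_le_prod' fun p hp => ?_
      rw [hD, mem_filter, mem_Ioc] at hp
      exact hp.1.1.le
    have h3 : ((n : ℝ) ^ ε) ^ D.card ≤ n := by
      calc ((n : ℝ) ^ ε) ^ D.card ≤ (Y : ℝ) ^ D.card := by
            refine pow_le_pow_left₀ (by positivity) ?_ _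
            exact le_trans (le_mul_of_one_le_left (by positivity) hC1) hCY
        _ ≤ n := by exact_mod_cast h2
    have hn1 : 1 < (n : ℝ) := by
      have : (100 : ℝ) ≤ Y := by
        refine le_trans ?_ hYs
        calc (100 : ℝ) ≤ 100 ^ 4 := by norm_num
          _ ≤ s0 ^ 4 := by gcongr
      linarith
    rw [← Real.rpow_natCast, ← Real.rpow_mul (by linarith)] at h3
    have h4 : (n : ℝ) ^ (ε * (D.card : ℝ)) ≤ (n : ℝ) ^ (1 : ℝ) := by
      rw [Real.rpow_one]
      exact h3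
    rw [Real.rpow_le_rpow_left_iff hn1] at h4
    rw [le_div_iff₀ hε]
    linarith
  have hAB : A.card ≤ B.card + D.card := by
    refine le_trans (card_le_card ?_) (card_union_le B D)
    intro p hp
    rw [hA, mem_filter] at hp
    rw [hB, hD, mem_union, mem_filter, mem_filter]
    by_cases h : p ∣ n
    · exact Or.inr ⟨hp.1, hp.2, h⟩
    · exact Or.inl ⟨hp.1, hp.2, (Nat.Prime.coprime_iff_not_dvd hp.2).2 h⟩
  have hAB' : (A.card : ℝ) ≤ B.card + D.card := by exact_mod_cast hAB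
  -- Y / L is large
  have hYL : 2 / ε * L ≤ Y := by
    have h1 : 32 / ε ≤ s ^ 3 := by
      calc 32 / ε ≤ s := hs0e.trans hss0
        _ = s * 1 := (mul_one s).symm
        _ ≤ s * s ^ 2 := by
            gcongr
            exact one_le_pow₀ (by linarith)
        _ = s ^ 3 := by ring
    have h2 : 2 / ε * L ≤ 2 / ε * (4 * s) := by gcongr
    have h3 : 2 / ε * (4 * s) = (32 / ε) * s / 4 := by ring
    have h4 : (32 / ε) * s / 4 ≤ s ^ 3 * s / 4 := by gcongr
    have h5 : s ^ 3 * s / 4 = Y := by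
      have : s ^ 3 * s = s ^ 4 := by ring
      rw [this, hs4]
      ring
    linarith
  have hBL : (Y : ℝ) ≤ 2 * L * B.card := by
    have h1 : A.card * L ≤ (B.card + 1 / ε) * L := by
      gcongr
      linarith
    have h2 : 1 / ε * L = (2 / ε * L) / 2 := by ring
    nlinarith
  have hLn : 2 * L ≤ C * (n : ℝ) ^ ε := by
    have h1 : L ≤ Real.log (4 * n) := by
      rw [hL]
      refine Real.log_le_log ?_ ?_
      · push_cast
        linarith
      · push_cast
        linarith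
    rw [Real.log_mul (by norm_num) (by linarith)] at h1
    have h2 := Real.log_le_rpow_div (by linarith : (0 : ℝ) ≤ n) hε
    have h3 : Real.log 4 ≤ Real.log 4 * (n : ℝ) ^ ε := le_mul_of_one_le_right hl4.le hne
    have h4 : (n : ℝ) ^ ε / ε = 1 / ε * (n : ℝ) ^ ε := by ring
    calc 2 * L ≤ 2 * (Real.log 4 + 1 / ε) * (n : ℝ) ^ ε := by
          rw [h4] at h2
          linarith
      _ ≤ C * (n : ℝ) ^ ε := by
          refine mul_le_mul_of_nonneg_right ?_ (by positivity)
          rw [hC]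
          have : 0 ≤ s0 ^ 4 := by positivity
          linarith
  calc (Y : ℝ) ≤ 2 * L * B.card := hBL
    _ ≤ C * (n : ℝ) ^ ε * B.card := mul_le_mul_of_nonneg_right hLn (Nat.cast_nonneg _)

end Pool.Agent.Work.MP_af11aa_nt.T
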