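import Mathlib
import Pool.Agent.Work.MP_af11aa_nt.W.LineOsc

/-!
MODULE QLevel (the coefficient bound averaged over levels N Q).
Adapt W/LineOsc.lean (lo_line, lo_bInt, lo_coeff) with J = K.mJ N 1 χ, u = f (trSum f 1 = f or work with f directly; K.trSum_transform with q = 1).
If f = 0 on ℍ all is trivial. J is IsMultT (N*1) (K.mJ_isMult with q = 1), hence IsMult (N*Q) since Gamma0 (N*Q) ≤ Gamma0 N.
(1) For Q ∈ S: ∫⁻ wt z ∑_{κ : SL2Z/Γ0(NQ)} hFun f (κ⁻¹ z) ≤ (Q+1) petNorm N f: hFun f is invariant under Γ0(N) and the index of Γ0(NQ) in Γ0(N)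
    is Q+1 (≤ suffices; see K.iInt_le, Index.lean, Level.lean, Level2.lean for the index and the unfolding).
(2) K.pair_bound at level N Q: ‖∫ stripF m f (eFun m)‖² ≤ (Q+1) petNorm N f * Re b_Q, Re b_Q ≥ 0, b_Q = ∫ stripF m (pSum (NQ) m (eFun m) J) (eFun m).
(3) Sum over Q: S.card ‖a‖² ≤ W petNorm * Re ∑_Q b_Q ≤ W petNorm * ‖∑_Q b_Q‖; as in lo_line/lo_bInt (exchange the sum over Q with the integrals), for
    each y the lines add up to ∑_Q (rows c = 0: norm ≤ 4) + 2 ∫ ∑_Q ∑_{N Q ∣ c} kTot m s c / c * psW m y t c dt, s = mS N 1 χ, and as Q is prime to N,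
    N Q ∣ c iff N ∣ c and Q ∣ c, so ∑_Q ∑_{NQ ∣ c} = ∑_{N ∣ c} (number of Q ∣ c): norm ≤ 4 S.card + 6 B. So ‖∑ b_Q‖ ≤ (4 S.card + 6 B)/√m.
(4) K.aInt_eq (q = 1) and K.weight_lower as in lo_coeff.
-/

set_option autoImplicit false

namespace Pool.Agent.Work.MP_af11aa_nt.T

open Finset ComplexConjugate Pool.Agent.Work.MP_af11aa_nt.W

section pre

open Pool.Agent.Work.MP_af11aa_nt Pool.Agent.Work.MP_af11aa_nt.K
open UpperHalfPlane CongruenceSubgroup MeasureTheory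
open Complex hiding Gamma
open scoped MatrixGroups Manifold Topology ComplexConjugate ENNReal NNReal Modular

attribute [local instance] Subgroup.fintypeQuotientOfFiniteIndex

private lemma ql_base {N : ℕ} [NeZero N] {χ : DirichletCharacter ℂ N} {f : ℍ → ℂ}
    (hf : IsCuspForm N χ f) (Q : ℕ) [NeZero Q] (hQ : Q.Prime) :
    ∫⁻ z, wt z * ∑ κ : SL(2, ℤ) ⧸ Gamma0 (N * Q),
      ENNReal.ofReal (hFun f ((Quotient.out κ)⁻¹ • z)) ≤
      ENNReal.ofReal (((Q : ℝ) + 1) * petNorm N f) := by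
  have hle : Gamma0 (N * Q) ≤ Gamma0 N := Gamma0_mul_le N Q
  have hrel := relIndex_Gamma0_le N Q (NeZero.pos N) hQ
  have hpt : ∀ z : ℍ, ∑ κ : SL(2, ℤ) ⧸ Gamma0 (N * Q),
      ENNReal.ofReal (hFun f ((Quotient.out κ)⁻¹ • z)) ≤
      ((Q + 1 : ℕ) : ℝ≥0∞) * ∑ κ : SL(2, ℤ) ⧸ Gamma0 N,
        ENNReal.ofReal (hFun f ((Quotient.out κ)⁻¹ • z)) := by
    intro z
    have h1 : ∑ κ : SL(2, ℤ) ⧸ Gamma0 (N * Q), hFun f ((Quotient.out κ)⁻¹ • z) =
        ((Gamma0 (N * Q)).relIndex (Gamma0 N)) *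
          ∑ κ : SL(2, ℤ) ⧸ Gamma0 N, hFun f ((Quotient.out κ)⁻¹ • z) :=
      sum_quotient_le hle (fun g ↦ hFun f (g⁻¹ • z)) (by
        intro g k hk
        rw [mul_inv_rev, mul_smul, hFun_inv hf (inv_mem hk)])
    rw [← ENNReal.ofReal_sum_of_nonneg fun κ _ ↦ hFun_nonneg f _, h1,
      ← ENNReal.ofReal_sum_of_nonneg fun κ _ ↦ hFun_nonneg f _,
      ENNReal.ofReal_mul (by positivity), ENNReal.ofReal_natCast]
    gcongr
  calc ∫⁻ z, wt z * ∑ κ : SL(2, ℤ) ⧸ Gamma0 (N * Q),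
      ENNReal.ofReal (hFun f ((Quotient.out κ)⁻¹ • z))
      ≤ ∫⁻ z, ((Q + 1 : ℕ) : ℝ≥0∞) * (wt z * ∑ κ : SL(2, ℤ) ⧸ Gamma0 N,
        ENNReal.ofReal (hFun f ((Quotient.out κ)⁻¹ • z))) := by
        refine lintegral_mono fun z ↦ ?_
        simp only
        rw [mul_left_comm]
        exact mul_le_mul' le_rfl (hpt z)
    _ = ((Q + 1 : ℕ) : ℝ≥0∞) * iBase f N := by
        rw [lintegral_const_mul' _ _ (ENNReal.natCast_ne_top _)]; rfl
    _ ≤ ((Q + 1 : ℕ) : ℝ≥0∞) * ENNReal.ofReal (petNorm N f) :=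
        mul_le_mul' le_rfl (iBase_le_petNorm hf)
    _ = _ := by
        rw [ENNReal.ofReal_mul (by positivity)]
        congr 1
        rw [← ENNReal.ofReal_natCast]; push_cast; rfl

private lemma ql_trSum (f : ℍ → ℂ) : trSum f 1 = f := by
  funext z
  unfold trSum
  have h : ∀ x : ZMod 1, shiftDiv 1 (x.val : ℤ) z = z := by
    intro x
    apply UpperHalfPlane.ext
    rw [coe_shiftDiv]
    have : (x.val : ℤ) = 0 := by
      have h0 : x = 0 := Subsingleton.elim _ _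
      rw [h0]; simp
    rw [this]; simp
  simp only [h]
  rw [Finset.sum_const, Finset.card_univ, ZMod.card, one_smul]

private lemma ql_mult {N Q : ℕ} {J : SL(2, ℤ) → ℍ → ℂ} (hJ : IsMultT N J) :
    IsMultT (N * Q) J :=
  ⟨⟨fun k₁ h₁ k₂ h₂ z ↦ hJ.cocycle k₁ (Gamma0_mul_le N Q h₁) k₂ (Gamma0_mul_le N Q h₂) z,
    fun k hk z ↦ hJ.norm_eq k (Gamma0_mul_le N Q hk) z,
    fun k hk ↦ hJ.meas k (Gamma0_mul_le N Q hk)⟩, hJ.T_eq, hJ.neg_eq⟩

private lemma ql_line {M : ℕ} [NeZero M] {J : SL(2, ℤ) → ℍ → ℂ}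
    (hJ : IsMultT M J) {s : ℤ → ℤ → ℂ}
    (hs : ∀ k ∈ Gamma0 M, ∀ z, J k z = s (k 1 0) (k 1 1) * (lowerForm k z ^ (1 / 2 : ℂ)) ^ 3)
    (hsp : ∀ c : ℕ, M ∣ c → ∀ d : ℤ, IsCoprime (c : ℤ) d → s c (d + c) = s c d)
    {m : ℕ} (hm : 0 < m) {y : ℝ} (hy : y ∈ Set.Ico (1 / (m : ℝ)) (2 / m)) :
    ∃ g0 : ℂ, ‖g0‖ ≤ 4 ∧
    ∫ x in Set.Ico (0 : ℝ) 1, pSum M m (eFun m) J (pt x y) * conj (eFun m (pt x y)) =
      g0 + 2 * ∫ t, ∑ c ∈ (Finset.Icc 1 ⌊Real.sqrt 2 * m⌋₊).filter (M ∣ ·),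
        kTot m s c / c * psW m y t c := by
  classical
  have hY : (0 : ℝ) < m := by exact_mod_cast hm
  rw [line_eq_sum hY hJ m hy]
  unfold rowBox
  rw [Finset.sum_product]
  set Y : ℝ := (m : ℝ) with hYdef
  set D := Finset.Icc (-(⌊Real.sqrt 2 * Y⌋₊ + 2 : ℤ)) (⌊Real.sqrt 2 * Y⌋₊ + 2) with hD
  set g : ℤ → ℂ := fun c ↦ ∑ d ∈ D, rowI M Y m J y (c, d) with hg
  have hgeven : ∀ c, g (-c) = g c := by
    intro c
    rw [hg]
    simp only
    refine Finset.sum_bij' (fun d _ ↦ -d) (fun d _ ↦ -d) ?_ ?_ ?_ ?_ ?_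
    · intro d hd
      rw [hD, Finset.mem_Icc] at hd ⊢
      constructor <;> linarith [hd.1, hd.2]
    · intro d hd
      rw [hD, Finset.mem_Icc] at hd ⊢
      constructor <;> linarith [hd.1, hd.2]
    · intro d _; simp
    · intro d _; simp
    · intro d _
      rw [← rowI_neg hJ]
      simp
  have hg0 : ‖g 0‖ ≤ 4 := by
    rw [hg]
    simp only
    have hz : ∀ d : ℤ, d ∉ ({1, -1} : Finset ℤ) → rowI M Y m J y (0, d) = 0 := by
      intro d hd
      have hnc : ¬ IsCoprime (0 : ℤ) d := by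
        intro h
        rw [isCoprime_zero_left, Int.isUnit_iff] at h
        apply hd
        simpa using h
      unfold rowI rowG
      simp [hnc]
    calc ‖∑ d ∈ D, rowI M Y m J y (0, d)‖ ≤ ∑ d ∈ D, ‖rowI M Y m J y (0, d)‖ := norm_sum_le _ _
      _ ≤ ∑ d ∈ D ∪ {1, -1}, ‖rowI M Y m J y (0, d)‖ :=
          Finset.sum_le_sum_of_subset_of_nonneg Finset.subset_union_left
            fun _ _ _ ↦ norm_nonneg _
      _ = ∑ d ∈ ({1, -1} : Finset ℤ), ‖rowI M Y m J y (0, d)‖ := by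
          symm
          refine Finset.sum_subset Finset.subset_union_right ?_
          intro d _ hd
          rw [hz d hd, norm_zero]
      _ ≤ ∑ d ∈ ({1, -1} : Finset ℤ), 2 :=
          Finset.sum_le_sum fun d _ ↦ norm_rowI_le hY hJ.toIsMult m hy.1 _
      _ = 4 := by
          rw [Finset.sum_const, Finset.card_insert_of_notMem (by simp), Finset.card_singleton]
          norm_num
  have hgc : ∀ c ∈ Finset.Icc 1 ⌊Real.sqrt 2 * Y⌋₊, g (c : ℤ) =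
      if M ∣ c then ∫ t, kTot m s c / c * psW m y t c else 0 := by
    intro c hc
    rw [Finset.mem_Icc] at hc
    have : NeZero c := ⟨by omega⟩
    split_ifs with hMc
    · rw [kTot_eq, integral_const_mul]
      have h1 := lo_row hY hs m hy hMc (hsp c hMc)
      rw [lo_int] at h1
      rw [hg]
      simp only
      rw [h1]
      ring
    · rw [hg]
      simp only
      apply Finset.sum_eq_zero
      intro d _
      have hnd : ¬ ((M : ℤ) ∣ (c : ℤ)) := by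
        intro h; exact hMc (Int.natCast_dvd_natCast.1 h)
      unfold rowI rowG
      simp [hnd]
  have hsum : ∑ c ∈ Finset.Icc 1 ⌊Real.sqrt 2 * Y⌋₊, g (c : ℤ) =
      ∫ t, ∑ c ∈ (Finset.Icc 1 ⌊Real.sqrt 2 * Y⌋₊).filter (M ∣ ·), kTot m s c / c * psW m y t c := by
    rw [integral_finsetSum, Finset.sum_congr rfl hgc, Finset.sum_filter]
    intro c hc
    rw [Finset.mem_filter, Finset.mem_Icc] at hc
    have : NeZero c := ⟨by omega⟩
    exact (lo_integrable hm hy).const_mul _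
  refine ⟨g 0, hg0, ?_⟩
  rw [← hsum]
  exact lo_even hgeven _

private lemma ql_lines {N : ℕ} [NeZero N] {J : SL(2, ℤ) → ℍ → ℂ}
    (hJ : IsMultT N J) {s : ℤ → ℤ → ℂ}
    (hs : ∀ k ∈ Gamma0 N, ∀ z, J k z = s (k 1 0) (k 1 1) * (lowerForm k z ^ (1 / 2 : ℂ)) ^ 3)
    (hsp : ∀ c : ℕ, N ∣ c → ∀ d : ℤ, IsCoprime (c : ℤ) d → s c (d + c) = s c d)
    (S : Finset ℕ) (hS : ∀ Q ∈ S, Q.Prime ∧ Q.Coprime N)
    {m : ℕ} (hm : 0 < m) {y : ℝ} (hy : y ∈ Set.Ico (1 / (m : ℝ)) (2 / m)) {B : ℝ}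
    (h : ∀ t ∈ Set.Icc (-(3 / 2) : ℝ) (3 / 2),
      ‖∑ c ∈ (Finset.Icc 1 ⌊Real.sqrt 2 * m⌋₊).filter (N ∣ ·),
        ((S.filter (· ∣ c)).card : ℂ) * (kTot m s c / c * psW m y t c)‖ ≤ B) :
    ‖∑ Q ∈ S, ∫ x in Set.Ico (0 : ℝ) 1,
      pSum (N * Q) m (eFun m) J (pt x y) * conj (eFun m (pt x y))‖ ≤ 4 * S.card + 6 * B := by
  classical
  have hex : ∀ Q : ℕ, ∃ g0 : ℂ, Q ∈ S → ‖g0‖ ≤ 4 ∧
      ∫ x in Set.Ico (0 : ℝ) 1, pSum (N * Q) m (eFun m) J (pt x y) * conj (eFun m (pt x y)) =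
      g0 + 2 * ∫ t, ∑ c ∈ (Finset.Icc 1 ⌊Real.sqrt 2 * m⌋₊).filter (N * Q ∣ ·),
        kTot m s c / c * psW m y t c := by
    intro Q
    by_cases hQ : Q ∈ S
    · haveI : NeZero Q := ⟨(hS Q hQ).1.ne_zero⟩
      obtain ⟨g0, h1, h2⟩ := ql_line (M := N * Q) (ql_mult hJ)
        (fun k hk z ↦ hs k (Gamma0_mul_le N Q hk) z)
        (fun c hc d hd ↦ hsp c (dvd_of_mul_right_dvd hc) d hd) hm hy
      exact ⟨g0, fun _ ↦ ⟨h1, h2⟩⟩
    · exact ⟨0, fun h ↦ absurd h hQ⟩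
  choose g hg using hex
  have hintc : ∀ c ∈ Finset.Icc 1 ⌊Real.sqrt 2 * (m : ℝ)⌋₊,
      Integrable (fun t ↦ kTot m s c / c * psW m y t c) := by
    intro c hc
    rw [Finset.mem_Icc] at hc
    have : NeZero c := ⟨by omega⟩
    exact (lo_integrable hm hy).const_mul _
  have hsum : ∑ Q ∈ S, ∫ x in Set.Ico (0 : ℝ) 1,
      pSum (N * Q) m (eFun m) J (pt x y) * conj (eFun m (pt x y)) =
      ∑ Q ∈ S, g Q + 2 * ∫ t, ∑ c ∈ (Finset.Icc 1 ⌊Real.sqrt 2 * m⌋₊).filter (N ∣ ·),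
        ((S.filter (· ∣ c)).card : ℂ) * (kTot m s c / c * psW m y t c) := by
    have h1 : ∀ t : ℝ, ∑ c ∈ (Finset.Icc 1 ⌊Real.sqrt 2 * (m : ℝ)⌋₊).filter (N ∣ ·),
        ((S.filter (· ∣ c)).card : ℂ) * (kTot m s c / c * psW m y t c) =
        ∑ Q ∈ S, ∑ c ∈ (Finset.Icc 1 ⌊Real.sqrt 2 * (m : ℝ)⌋₊).filter (N * Q ∣ ·),
          kTot m s c / c * psW m y t c := by
      intro t
      simp_rw [Finset.sum_filter]
      rw [Finset.sum_comm]
      refine Finset.sum_congr rfl fun c _ ↦ ?_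
      by_cases hN : N ∣ c
      · rw [if_pos hN, Finset.card_filter]
        push_cast
        rw [Finset.sum_mul]
        refine Finset.sum_congr rfl fun Q hQ ↦ ?_
        by_cases hQc : Q ∣ c
        · rw [if_pos hQc, if_pos (Nat.Coprime.mul_dvd_of_dvd_of_dvd (hS Q hQ).2.symm hN hQc)]
          ring
        · rw [if_neg hQc, if_neg (fun h ↦ hQc (dvd_of_mul_left_dvd h)), zero_mul]
      · rw [if_neg hN]
        symm
        refine Finset.sum_eq_zero fun Q _ ↦ ?_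
        rw [if_neg (fun h ↦ hN (dvd_of_mul_right_dvd h))]
    simp_rw [h1]
    rw [integral_finsetSum, Finset.mul_sum, ← Finset.sum_add_distrib]
    · exact Finset.sum_congr rfl fun Q hQ ↦ (hg Q hQ).2
    · intro Q _
      refine integrable_finsetSum _ fun c hc ↦ ?_
      exact hintc c (Finset.mem_of_mem_filter c hc)
  have hint : ‖∫ t, ∑ c ∈ (Finset.Icc 1 ⌊Real.sqrt 2 * m⌋₊).filter (N ∣ ·),
      ((S.filter (· ∣ c)).card : ℂ) * (kTot m s c / c * psW m y t c)‖ ≤ 3 * B := by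
    have h1 : Integrable ((Set.Icc (-(3 / 2) : ℝ) (3 / 2)).indicator (fun _ ↦ B)) := by
      rw [integrable_indicator_iff measurableSet_Icc]
      exact integrableOn_const (by simp)
    refine (norm_integral_le_of_norm_le h1 (Filter.Eventually.of_forall fun t ↦ ?_)).trans
      (le_of_eq ?_)
    · by_cases ht : t ∈ Set.Icc (-(3 / 2) : ℝ) (3 / 2)
      · rw [Set.indicator_of_mem ht]
        exact h t ht
      · rw [Set.indicator_of_notMem ht, Finset.sum_eq_zero, norm_zero]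
        intro c hc
        rw [Finset.mem_filter, Finset.mem_Icc] at hc
        have : NeZero c := ⟨by omega⟩
        rw [lo_support hm hy ht, mul_zero, mul_zero]
    · rw [integral_indicator measurableSet_Icc, setIntegral_const, Measure.real, Real.volume_Icc,
        ENNReal.toReal_ofReal (by norm_num)]
      simp only [smul_eq_mul]
      ring
  rw [hsum]
  have hg4 : ‖∑ Q ∈ S, g Q‖ ≤ 4 * S.card := by
    refine (norm_sum_le _ _).trans ?_
    refine (Finset.sum_le_sum fun Q hQ ↦ (hg Q hQ).1).trans (le_of_eq ?_)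
    rw [Finset.sum_const, nsmul_eq_mul]; ring
  refine (norm_add_le _ _).trans ?_
  rw [norm_mul]
  have h2 : ‖(2 : ℂ)‖ = 2 := by norm_num
  rw [h2]
  linarith

private lemma ql_intOn {M : ℕ} [NeZero M] {J : SL(2, ℤ) → ℍ → ℂ} (hJ : IsMultT M J)
    {m : ℕ} (hm : 0 < m) {y : ℝ} (hy : y ∈ Set.Ico (1 / (m : ℝ)) (2 / m)) :
    IntegrableOn (fun x ↦ pSum M m (eFun m) J (pt x y) * conj (eFun m (pt x y)))
      (Set.Ico (0 : ℝ) 1) := by
  have hm0 : (0 : ℝ) < m := by exact_mod_cast hm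
  have hy0 : 0 < y := lt_of_lt_of_le (by positivity) hy.1
  have hmeas : Measurable (fun x ↦ pSum M m (eFun m) J (pt x y) * conj (eFun m (pt x y))) :=
    ((measurable_pSum hJ.toIsMult (measurable_eFun m)).comp measurable_pt').mul
      (Complex.continuous_conj.measurable.comp ((measurable_eFun m).comp measurable_pt'))
  refine Measure.integrableOn_of_bounded (M := 2 * (rowBox (m : ℝ)).card) (by simp)
    hmeas.aestronglyMeasurable ?_
  refine (ae_restrict_iff' measurableSet_Ico).2 (Filter.Eventually.of_forall fun x hx ↦ ?_)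
  exact pSum_bound hm0 hJ m ((hstrip_pt_iff hy0).2 ⟨hx, hy⟩)

private lemma ql_bInt {N : ℕ} [NeZero N] {J : SL(2, ℤ) → ℍ → ℂ}
    (hJ : IsMultT N J) {s : ℤ → ℤ → ℂ}
    (hs : ∀ k ∈ Gamma0 N, ∀ z, J k z = s (k 1 0) (k 1 1) * (lowerForm k z ^ (1 / 2 : ℂ)) ^ 3)
    (hsp : ∀ c : ℕ, N ∣ c → ∀ d : ℤ, IsCoprime (c : ℤ) d → s c (d + c) = s c d)
    (S : Finset ℕ) (hS : ∀ Q ∈ S, Q.Prime ∧ Q.Coprime N)
    {m : ℕ} (hm : 0 < m) {B : ℝ} (hB : 0 ≤ B)
    (h : ∀ y ∈ Set.Ico (1 / (m : ℝ)) (2 / m), ∀ t ∈ Set.Icc (-(3 / 2) : ℝ) (3 / 2),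
      ‖∑ c ∈ (Finset.Icc 1 ⌊Real.sqrt 2 * m⌋₊).filter (N ∣ ·),
        ((S.filter (· ∣ c)).card : ℂ) * (kTot m s c / c * psW m y t c)‖ ≤ B) :
    ‖∑ Q ∈ S, ∫ z, stripF m (pSum (N * Q) m (eFun m) J) (eFun m) z‖ ≤
      (4 * S.card + 6 * B) / Real.sqrt m := by
  classical
  have hm0 : (0 : ℝ) < m := by exact_mod_cast hm
  set T : ℝ := 4 * S.card + 6 * B with hT
  have hT0 : 0 ≤ T := by positivity
  have hJQ : ∀ Q ∈ S, IsMultT (N * Q) J := fun Q _ ↦ ql_mult hJ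
  have hbd : ∀ Q ∈ S, ∀ z ∈ hstrip (m : ℝ),
      ‖pSum (N * Q) m (eFun m) J z * conj (eFun m z)‖ ≤ 2 * (rowBox (m : ℝ)).card := by
    intro Q hQ z hz
    haveI : NeZero Q := ⟨(hS Q hQ).1.ne_zero⟩
    exact pSum_bound hm0 (hJQ Q hQ) m hz
  have hmeas : ∀ Q ∈ S, Measurable (pSum (N * Q) (m : ℝ) (eFun m) J) := fun Q hQ ↦
    measurable_pSum (hJQ Q hQ).toIsMult (measurable_eFun m)
  have hint : ∀ Q ∈ S, Integrable (fun z ↦ stripF m (pSum (N * Q) m (eFun m) J) (eFun m) z) := by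
    intro Q hQ
    refine ⟨(measurable_stripF (hmeas Q hQ) (measurable_eFun m)).aestronglyMeasurable, ?_⟩
    unfold HasFiniteIntegral
    exact lt_top_iff_ne_top.2 (lintegral_stripF_ne_top hm0 (hbd Q hQ))
  have hsum : ∑ Q ∈ S, ∫ z, stripF m (pSum (N * Q) m (eFun m) J) (eFun m) z =
      ∫ z, stripF m (fun z ↦ ∑ Q ∈ S, pSum (N * Q) m (eFun m) J z) (eFun m) z := by
    rw [← integral_finsetSum _ hint]
    refine integral_congr_ae (Filter.Eventually.of_forall fun z ↦ ?_)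
    simp only
    unfold stripF
    by_cases hz : z ∈ hstrip (m : ℝ)
    · simp only [Set.indicator_of_mem hz]
      rw [Finset.sum_mul, Finset.sum_mul]
    · simp only [Set.indicator_of_notMem hz]
      rw [Finset.sum_const_zero]
  rw [hsum, integral_stripF hm0 (Finset.measurable_fun_sum _ hmeas) (measurable_eFun m)
    (C := ∑ Q ∈ S, 2 * ((rowBox (m : ℝ)).card : ℝ)) (fun z hz ↦ by
      rw [Finset.sum_mul]
      exact (norm_sum_le _ _).trans (Finset.sum_le_sum fun Q hQ ↦ hbd Q hQ z hz))]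
  have hpos : 0 < 1 / (m : ℝ) := by positivity
  have h1 : ∀ y ∈ Set.Ico (1 / (m : ℝ)) (2 / m),
      ‖∫ x in Set.Ico (0 : ℝ) 1, (∑ Q ∈ S, pSum (N * Q) m (eFun m) J (pt x y)) *
        conj (eFun m (pt x y)) *
        ((y ^ (-(1 / 2) : ℝ) : ℝ) : ℂ)‖ ≤ T * (1 / (m : ℝ)) ^ (-(1 / 2) : ℝ) := by
    intro y hy
    have hy0 : 0 < y := lt_of_lt_of_le hpos hy.1
    rw [integral_mul_const, norm_mul, Complex.norm_real,
      Real.norm_of_nonneg (Real.rpow_pos_of_pos hy0 _).le]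
    have h2 := ql_lines hJ hs hsp S hS hm hy (h y hy)
    have h2' : ∫ x in Set.Ico (0 : ℝ) 1, (∑ Q ∈ S, pSum (N * Q) m (eFun m) J (pt x y)) *
        conj (eFun m (pt x y)) = ∑ Q ∈ S, ∫ x in Set.Ico (0 : ℝ) 1,
        pSum (N * Q) m (eFun m) J (pt x y) * conj (eFun m (pt x y)) := by
      rw [← integral_finsetSum]
      · refine integral_congr_ae (Filter.Eventually.of_forall fun x ↦ ?_)
        simp only
        rw [Finset.sum_mul]
      · intro Q hQ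
        haveI : NeZero Q := ⟨(hS Q hQ).1.ne_zero⟩
        exact ql_intOn (hJQ Q hQ) hm hy
    rw [h2']
    have h3 : y ^ (-(1 / 2) : ℝ) ≤ (1 / (m : ℝ)) ^ (-(1 / 2) : ℝ) :=
      Real.rpow_le_rpow_of_nonpos hpos hy.1 (by norm_num)
    exact mul_le_mul h2 h3 (Real.rpow_pos_of_pos hy0 _).le hT0
  refine (norm_setIntegral_le_of_norm_le_const (by simp) h1).trans (le_of_eq ?_)
  rw [Measure.real, Real.volume_Ico, ENNReal.toReal_ofReal (by
      rw [div_sub_div_same]; positivity)]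
  have e : (1 / (m : ℝ)) ^ (-(1 / 2) : ℝ) = Real.sqrt m := by
    rw [Real.rpow_neg (by positivity), ← Real.sqrt_eq_rpow, ← Real.sqrt_inv]
    simp
  rw [e]
  have h4 : (2 / (m : ℝ) - 1 / m) = 1 / m := by ring
  rw [h4]
  have h5 : Real.sqrt m * Real.sqrt m = m := Real.mul_self_sqrt hm0.le
  have h6 : Real.sqrt m ≠ 0 := by positivity
  exact alg0 h6 hm0.ne' h5 T

private lemma ql_alg {s A W T P m r t e E : ℝ} (hr : 0 < r) (hm : 0 < m) (hrr : r * r = m)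
    (ht : t ^ 2 = 2 * m) (heE : e ^ 2 * E = 1) (hE : 0 ≤ E)
    (h : s * (A * (e / t)) ^ 2 ≤ W * P * (T / r)) :
    s * A ^ 2 ≤ 2 * E * r * W * T * P := by
  have h1 : s * A ^ 2 = s * (A * (e / t)) ^ 2 * (2 * m * E) := by
    have : (A * (e / t)) ^ 2 = A ^ 2 * (e ^ 2 / (2 * m)) := by
      rw [mul_pow, div_pow, ht]
    rw [this]
    have h2 : s * (A ^ 2 * (e ^ 2 / (2 * m))) * (2 * m * E) = s * A ^ 2 * (e ^ 2 * E) := by
      field_simp
    rw [h2, heE, mul_one]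
  rw [h1]
  calc s * (A * (e / t)) ^ 2 * (2 * m * E) ≤ W * P * (T / r) * (2 * m * E) := by
        gcongr
    _ = _ := by
        rw [← hrr]
        field_simp

private lemma ql_main {N : ℕ} [NeZero N] {χ : DirichletCharacter ℂ N} {f : ℍ → ℂ}
    (hf : IsCuspForm N χ f) (h4 : 4 ∣ N) (S : Finset ℕ) (W : ℕ)
    (hS : ∀ Q ∈ S, Q.Prime ∧ Q.Coprime N ∧ Q + 1 ≤ W) {m : ℕ} (hm : 0 < m) {B : ℝ} (hB : 0 ≤ B)
    (h : ∀ y ∈ Set.Ico (1 / (m : ℝ)) (2 / m), ∀ t ∈ Set.Icc (-(3 / 2) : ℝ) (3 / 2),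
      ‖∑ c ∈ (Finset.Icc 1 ⌊Real.sqrt 2 * m⌋₊).filter (N ∣ ·),
        ((S.filter (· ∣ c)).card : ℂ) *
          (kTot m (mS N 1 χ) c / c * psW m y t c)‖ ≤ B) :
    (S.card : ℝ) * ‖fourierCoeff f m‖ ^ 2 ≤ 2 * Real.exp (16 * Real.pi) * Real.sqrt m * W *
      (4 * S.card + 6 * B) * petNorm N f := by
  classical
  have hm0 : (0 : ℝ) < m := by exact_mod_cast hm
  have hP := petNorm_nonneg (N := N) f
  by_cases hne : ∃ z, trSum f 1 z ≠ 0
  swap
  · push Not at hne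
    have h1 := trSum_coeff hf 1 m one_pos
    simp_rw [hne] at h1
    simp only [zero_mul, intervalIntegral.integral_zero] at h1
    have h2 : fourierCoeff f m = 0 := by
      have h3 : (Real.exp (-(2 * Real.pi * m * 1)) : ℂ) ≠ 0 := by
        exact_mod_cast (Real.exp_pos _).ne'
      have h5 := h1.symm
      rw [one_mul] at h5
      rcases mul_eq_zero.1 h5 with h | h
      · rcases mul_eq_zero.1 h with h | h
        · exact absurd h (by norm_num)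
        · exact h
      · exact absurd h h3
    rw [h2, norm_zero, zero_pow two_ne_zero, mul_zero]
    positivity
  have hJ := mJ_isMult hf h4 hne
  rw [mul_one] at hJ
  have hs : ∀ k ∈ Gamma0 N, ∀ z, mJ N 1 χ k z =
      mS N 1 χ (k 1 0) (k 1 1) * (lowerForm k z ^ (1 / 2 : ℂ)) ^ 3 :=
    fun k _ z ↦ mJ_eq N 1 χ k z
  have hsp : ∀ c : ℕ, N ∣ c → ∀ d : ℤ, IsCoprime (c : ℤ) d →
      mS N 1 χ c (d + c) = mS N 1 χ c d :=
    fun c hc d hd ↦ mS_period (q := 1) h4 c (by rwa [mul_one]) d hd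
  have hS' : ∀ Q ∈ S, Q.Prime ∧ Q.Coprime N := fun Q hQ ↦ ⟨(hS Q hQ).1, (hS Q hQ).2.1⟩
  have hBn := ql_bInt hJ hs hsp S hS' hm hB h
  set J := mJ N 1 χ with hJdef
  obtain ⟨C, hC⟩ := trSum_bound hf 1 hm0
  rw [ql_trSum] at hC
  have hb : ∀ z ∈ hstrip (m : ℝ), ‖f z * conj (eFun m z)‖ ≤ C := by
    intro z hz
    rw [norm_mul, Complex.norm_conj]
    have h1 := hC z hz
    have h2 := norm_eFun_le m z
    calc ‖f z‖ * ‖eFun m z‖ ≤ C * 1 :=
          mul_le_mul h1 h2 (norm_nonneg _) (le_trans (norm_nonneg _) h1)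
      _ = C := mul_one _
  have hpair : ∀ Q ∈ S, ‖∫ z, stripF m f (eFun m) z‖ ^ 2 ≤ (W : ℝ) * petNorm N f *
      (∫ z, stripF m (pSum (N * Q) m (eFun m) J) (eFun m) z).re := by
    intro Q hQ
    haveI : NeZero Q := ⟨(hS Q hQ).1.ne_zero⟩
    have hJQ : IsMultT (N * Q) J := ql_mult hJ
    have htr : ∀ k ∈ Gamma0 (N * Q), ∀ z, f (k • z) = J k z * f z := by
      intro k hk z
      have h1 := trSum_transform (q := 1) hf h4 (γ := k)
        (by rw [mul_one]; exact Gamma0_mul_le N Q hk) z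
      rw [ql_trSum] at h1
      exact h1
    have ha0 : 0 ≤ ((Q : ℝ) + 1) * petNorm N f := by positivity
    have hmain := pair_bound hm0 hJQ.toIsMult hf.continuous.measurable htr (measurable_eFun m) ha0
      (ql_base hf Q (hS Q hQ).1) (lintegral_stripF_ne_top hm0 hb)
      (lintegral_stripF_ne_top hm0 (fun z hz ↦ pSum_bound hm0 hJQ m hz))
    refine hmain.1.trans ?_
    have hW : ((Q : ℝ) + 1) ≤ W := by exact_mod_cast (hS Q hQ).2.2
    exact mul_le_mul_of_nonneg_right (mul_le_mul_of_nonneg_right hW hP) hmain.2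
  have hsumre : ∑ Q ∈ S, (∫ z, stripF m (pSum (N * Q) m (eFun m) J) (eFun m) z).re ≤
      (4 * S.card + 6 * B) / Real.sqrt m := by
    rw [← Complex.re_sum]
    exact (Complex.re_le_norm _).trans hBn
  have hWP : 0 ≤ (W : ℝ) * petNorm N f := by positivity
  have htot : (S.card : ℝ) * ‖∫ z, stripF m f (eFun m) z‖ ^ 2 ≤
      (W : ℝ) * petNorm N f * ((4 * S.card + 6 * B) / Real.sqrt m) := by
    calc (S.card : ℝ) * ‖∫ z, stripF m f (eFun m) z‖ ^ 2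
        = ∑ Q ∈ S, ‖∫ z, stripF m f (eFun m) z‖ ^ 2 := by
          rw [Finset.sum_const, nsmul_eq_mul]
      _ ≤ ∑ Q ∈ S, (W : ℝ) * petNorm N f *
          (∫ z, stripF m (pSum (N * Q) m (eFun m) J) (eFun m) z).re := Finset.sum_le_sum hpair
      _ = (W : ℝ) * petNorm N f *
          ∑ Q ∈ S, (∫ z, stripF m (pSum (N * Q) m (eFun m) J) (eFun m) z).re := by
          rw [Finset.mul_sum]
      _ ≤ _ := mul_le_mul_of_nonneg_left hsumre hWP
  have haI := aInt_eq hf 1 (m := m) hm0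
  rw [ql_trSum] at haI
  set I := ∫ y in Set.Ico (1 / (m : ℝ)) (2 / m),
        Real.exp (-(4 * Real.pi * m * y)) * y ^ (-(1 / 2) : ℝ) with hI
  have hIl := weight_lower hm
  rw [← hI] at hIl
  have hL0 : 0 < Real.exp (-(8 * Real.pi)) / Real.sqrt (2 * m) := by positivity
  have hI0 : 0 < I := lt_of_lt_of_le hL0 hIl
  rw [haI, norm_mul, norm_mul, Complex.norm_natCast, Complex.norm_real,
    Real.norm_of_nonneg hI0.le, one_mul, Nat.cast_one, one_mul] at htot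
  have hfin : (S.card : ℝ) * (‖fourierCoeff f m‖ *
      (Real.exp (-(8 * Real.pi)) / Real.sqrt (2 * m))) ^ 2 ≤
      (W : ℝ) * petNorm N f * ((4 * S.card + 6 * B) / Real.sqrt m) := by
    refine le_trans ?_ htot
    gcongr
  have hexp : Real.exp (-(8 * Real.pi)) ^ 2 * Real.exp (16 * Real.pi) = 1 := by
    rw [← Real.exp_nat_mul, ← Real.exp_add]
    have : ((2 : ℕ) : ℝ) * -(8 * Real.pi) + 16 * Real.pi = 0 := by push_cast; ring
    rw [this, Real.exp_zero]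
  have hsq2 : Real.sqrt (2 * m) ^ 2 = 2 * m := Real.sq_sqrt (by positivity)
  have hsqm : Real.sqrt m * Real.sqrt m = m := Real.mul_self_sqrt hm0.le
  exact ql_alg (by positivity) hm0 hsqm hsq2 hexp (Real.exp_pos _).le hfin

end pre

section aux

open Pool.Agent.Work.MP_af11aa_nt Pool.Agent.Work.MP_af11aa_nt.K
open UpperHalfPlane CongruenceSubgroup MeasureTheory

theorem qlevel {N : ℕ} [NeZero N] {χ : DirichletCharacter ℂ N} {f : ℍ → ℂ}
    (hf : IsCuspForm N χ f) (h4 : 4 ∣ N) (S : Finset ℕ) (W : ℕ)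
    (hS : ∀ Q ∈ S, Q.Prime ∧ Q.Coprime N ∧ Q + 1 ≤ W) {m : ℕ} (hm : 0 < m) {B : ℝ} (hB : 0 ≤ B)
    (h : ∀ y ∈ Set.Ico (1 / (m : ℝ)) (2 / m), ∀ t ∈ Set.Icc (-(3 / 2) : ℝ) (3 / 2),
      ‖∑ c ∈ (Finset.Icc 1 ⌊Real.sqrt 2 * m⌋₊).filter (N ∣ ·),
        ((S.filter (· ∣ c)).card : ℂ) *
          (kTot m (mS N 1 χ) c / c * psW m y t c)‖ ≤ B) :
    (S.card : ℝ) * ‖fourierCoeff f m‖ ^ 2 ≤ 2 * Real.exp (16 * Real.pi) * Real.sqrt m * W *
      (4 * S.card + 6 * B) * petNorm N f := by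
  exact ql_main hf h4 S W hS hm hB h

end aux

end Pool.Agent.Work.MP_af11aa_nt.T
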