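import Mathlib
import Pool.Agent.Work.MP_af11aa_nt.W.Arith
import Pool.Agent.Work.MP_af11aa_nt.W.Diff
import Pool.Agent.Work.MP_af11aa_nt.W.Weight
import Pool.Agent.Work.MP_af11aa_nt.W.Term
import Pool.Agent.Work.MP_af11aa_nt.W.FixK

set_option autoImplicit false

namespace Pool.Agent.Work.MP_af11aa_nt.T

open Finset ComplexConjugate Pool.Agent.Work.MP_af11aa_nt.W

noncomputable section

/-- a periodic function `H` modulo `8 k0` with an envelope `β` of small period `P`. -/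
structure Env (P k0 : ℕ) (A : ℝ) (H : ℤ → ℂ) (β : ℤ → ℝ) : Prop where
  hP : 0 < P
  hk0 : 0 < k0
  h24 : 24 * P ∣ k0
  hA : 1 ≤ A
  per : ∀ x, H (x + 8 * k0) = H x
  zero : ∀ x, ¬ IsCoprime x (8 * k0 : ℤ) → H x = 0
  bper : ∀ x, β (x + P) = β x
  bnn : ∀ x, 0 ≤ β x
  mom : ∑ x ∈ range P, β x ^ 4 ≤ A * (P : ℝ) ^ 3
  bd : ∀ x, ‖H x‖ ≤ (k0 : ℝ) / P * β x

/-- the parameters: `k0` is the part of the modulus composed of primes of `n`, the entry of the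
Kloosterman sums is `m2 * m1`, and `S` is the set of auxiliary primes. -/
structure Par (P k0 m1 m2 n Y Z : ℕ) (S : Finset ℕ) : Prop where
  hP : 0 < P
  hk0 : 0 < k0
  h24 : 24 * P ∣ k0
  hn : ∀ x : ℕ, x.Coprime n ↔ x.Coprime (8 * k0) ∧ x.Coprime (m2 * m1)
  hm2 : m2 = 1 ∨ m2 = 2
  hm1o : Odd m1
  hm1s : Squarefree m1
  hmP : (m2 * m1).Coprime P
  hZ : 1 ≤ Z
  hY : Y = Z ^ 3
  hS : ∀ Q ∈ S, Q.Prime ∧ Y < Q ∧ Q ≤ 4 * Y ∧ Q.Coprime n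
  hbig : P ^ 3 * Y ^ 7 ≤ m2 * m1

/-- the summand attached to a sign, an auxiliary prime `Q` and a factorization `c = (Q a) b`. -/
def Fq (m1 m2 k0 n : ℕ) (H : Bool → ℤ → ℂ) (y s : ℝ) (σ : Bool) (Q a b : ℕ) : ℂ :=
  if (Q * a).Coprime b ∧ (Q * a * b).Coprime n then
    H σ ((Q * a * b : ℕ) : ℤ) * jc ((Q * a * b : ℕ) : ℤ) m1 *
      cj σ (eI (Q * a) (4 * ((m2 * m1 : ℕ) : ℤ)) ((k0 : ℤ) * b)) *
      wgt (m2 * m1) k0 y s σ ((Q * a * b : ℕ) : ℝ)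
  else 0

/-- the part of the sum with `U ≤ a < 2 U` and `V ≤ b < 2 V`. -/
def Tb (m1 m2 k0 n : ℕ) (H : Bool → ℤ → ℂ) (y s : ℝ) (S : Finset ℕ) (X : ℕ) (σ : Bool)
    (U V : ℕ) : ℂ :=
  ∑ Q ∈ S, ∑ a ∈ Ico U (2 * U), ∑ b ∈ Ico V (2 * V),
    if Q * a * b ≤ X then Fq m1 m2 k0 n H y s σ Q a b else 0

/-- the summand with the factor `Q * a` as the modulus, without the Jacobi symbol. -/
def FA (m k0 n : ℕ) (H : ℤ → ℂ) (y s : ℝ) (X : ℕ) (σ : Bool) (Q a b : ℕ) : ℂ :=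
  if (Q * a).Coprime b ∧ (Q * a).Coprime n ∧ Q * a * b ≤ X then
    H ((Q * a * b : ℕ) : ℤ) * cj σ (eI (Q * a) (4 * (m : ℤ)) ((k0 : ℤ) * b)) *
      wgt m k0 y s σ ((Q * a * b : ℕ) : ℝ)
  else 0

/-- the summand with the factor `b` as the modulus, without the Jacobi symbol. -/
def FB (m k0 n : ℕ) (H : ℤ → ℂ) (y s : ℝ) (X : ℕ) (σ : Bool) (Q a b : ℕ) : ℂ :=
  if (Q * a).Coprime b ∧ (Q * b).Coprime n ∧ Q * a * b ≤ X then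
    H ((Q * a * b : ℕ) : ℤ) * cj σ (eI b (4 * (m : ℤ)) ((k0 : ℤ) * ((Q * a : ℕ) : ℤ))) *
      wgt m k0 y s σ ((Q * a * b : ℕ) : ℝ)
  else 0

/-- reciprocity for the summands. -/
def SwapH (k0 m1 m2 : ℕ) (H : Bool → ℤ → ℂ) : Prop :=
  ∀ (y s : ℝ) (σ : Bool) (u v : ℕ), 0 < u → 0 < v → u.Coprime v → u.Coprime k0 → v.Coprime k0 →
    H σ ((u * v : ℕ) : ℤ) * jc ((u * v : ℕ) : ℤ) m1 *
        cj σ (eI u (4 * ((m2 * m1 : ℕ) : ℤ)) ((k0 : ℤ) * v)) *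
        wgt (m2 * m1) k0 y s σ ((u * v : ℕ) : ℝ) =
      H (!σ) ((u * v : ℕ) : ℤ) * jc ((u * v : ℕ) : ℤ) m1 *
        cj (!σ) (eI v (4 * ((m2 * m1 : ℕ) : ℤ)) ((k0 : ℤ) * u)) *
        wgt (m2 * m1) k0 y s (!σ) ((u * v : ℕ) : ℝ)

/-- the entries of the Kloosterman sums. -/
def thA (m k0 : ℕ) (σ : Bool) (Q Q' a : ℕ) : ℤ :=
  sg σ * (4 * (m : ℤ) * ((Q' : ℤ) - Q) * ivz (Q * Q' * a) k0)

def thB (m k0 : ℕ) (σ : Bool) (Q Q' b : ℕ) : ℤ :=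
  sg σ * (4 * (m : ℤ) * (ivz b ((k0 : ℤ) * Q) - ivz b ((k0 : ℤ) * Q')))

def thC (m k0 : ℕ) (σ : Bool) (Q b : ℕ) : ℤ :=
  sg σ * (4 * (m : ℤ) * ivz b ((k0 : ℤ) * Q))

/-- the bound for Kloosterman sums modulo `M` with one entry `θ`. -/
def KB (M : ℕ) (θ : ℤ) : ℝ :=
  2 * M.divisors.card * Real.sqrt M * Real.sqrt (Int.gcd θ M) * (sfp M : ℝ) ^ (1 / 4 : ℝ)

lemma KB_nonneg (M : ℕ) (θ : ℤ) : 0 ≤ KB M θ := by unfold KB; positivity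

end

end Pool.Agent.Work.MP_af11aa_nt.T
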