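import Mathlib
import Pool.Agent.Work.MP_af11aa_nt.T.Defs
import Pool.Agent.Work.MP_f2148a_nt.DivisorBound

/-!
MODULE TrivK (first moment of H with divisor weights).
-/

set_option autoImplicit false

namespace Pool.Agent.Work.MP_af11aa_nt.T

open Finset ComplexConjugate Pool.Agent.Work.MP_af11aa_nt.W

private lemma tk_period {P : ℕ} (g : ℕ → ℝ) (hg : ∀ x, g (x + P) = g x) (a : ℕ) :
    ∑ c ∈ Ico a (a + P), g c = ∑ c ∈ range P, g c := by
  induction a with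
  | zero => rw [zero_add, range_eq_Ico]
  | succ a ih =>
    rw [← ih]
    rcases Nat.eq_zero_or_pos P with h | h
    · subst h; simp
    · have h1 : ∑ c ∈ Ico a (a + P), g c = g a + ∑ c ∈ Ico (a + 1) (a + P), g c :=
        sum_eq_sum_Ico_succ_bot (by omega) _
      have h2 : ∑ c ∈ Ico (a + 1) (a + 1 + P), g c =
          ∑ c ∈ Ico (a + 1) (a + P), g c + g (a + P) := by
        have : a + 1 + P = a + P + 1 := by ring
        rw [this, sum_Ico_succ_top (by omega)]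
      rw [h1, h2, hg]; ring

private lemma tk_periods {P : ℕ} (g : ℕ → ℝ) (hg : ∀ x, g (x + P) = g x) (a n : ℕ) :
    ∑ c ∈ Ico a (a + n * P), g c = n * ∑ c ∈ range P, g c := by
  induction n with
  | zero => simp
  | succ n ih =>
    have h1 : a + (n + 1) * P = (a + n * P) + P := by ring
    rw [h1, ← sum_Ico_consecutive g (show a ≤ a + n * P by omega)
      (show a + n * P ≤ a + n * P + P by omega), ih, tk_period g hg]
    push_cast; ring

private lemma tk_pow4 (s : Finset ℕ) (g : ℕ → ℝ) (hg : ∀ x, 0 ≤ g x) :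
    (∑ c ∈ s, g c) ^ 4 ≤ (s.card : ℝ) ^ 3 * ∑ c ∈ s, g c ^ 4 := by
  have h1 : (∑ c ∈ s, g c) ^ 2 ≤ s.card * ∑ c ∈ s, g c ^ 2 := sq_sum_le_card_mul_sum_sq
  have h2 : (∑ c ∈ s, g c ^ 2) ^ 2 ≤ s.card * ∑ c ∈ s, (g c ^ 2) ^ 2 :=
    sq_sum_le_card_mul_sum_sq
  have h3 : ∑ c ∈ s, (g c ^ 2) ^ 2 = ∑ c ∈ s, g c ^ 4 :=
    sum_congr rfl fun c _ ↦ by ring
  rw [h3] at h2
  have h4 : 0 ≤ ∑ c ∈ s, g c := sum_nonneg fun c _ ↦ hg c
  calc (∑ c ∈ s, g c) ^ 4 = ((∑ c ∈ s, g c) ^ 2) ^ 2 := by ring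
    _ ≤ (s.card * ∑ c ∈ s, g c ^ 2) ^ 2 := by gcongr
    _ = (s.card : ℝ) ^ 2 * (∑ c ∈ s, g c ^ 2) ^ 2 := by ring
    _ ≤ (s.card : ℝ) ^ 2 * (s.card * ∑ c ∈ s, g c ^ 4) := by gcongr
    _ = _ := by ring

/-- one dyadic block. -/
private lemma tk_block {P : ℕ} (hP : 0 < P) {A : ℝ} (hA : 1 ≤ A) (g : ℕ → ℝ)
    (hg : ∀ x, g (x + P) = g x) (hg0 : ∀ x, 0 ≤ g x)
    (hm : ∑ x ∈ range P, g x ^ 4 ≤ A * (P : ℝ) ^ 3) {D : ℕ} (hD : 0 < D) :
    ∑ c ∈ Ico D (2 * D), g c / (P * Real.sqrt c) ≤ 2 * A * (Real.sqrt ((D : ℝ) / P) + 1) := by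
  have hPR : (0 : ℝ) < P := by exact_mod_cast hP
  have hDR : (0 : ℝ) < D := by exact_mod_cast hD
  have hA0 : 0 < A := by linarith
  have hsD := Real.sqrt_pos.2 hDR
  have hsP := Real.sqrt_pos.2 hPR
  have h0 : ∑ c ∈ Ico D (2 * D), g c / (P * Real.sqrt c) ≤
      (∑ c ∈ Ico D (2 * D), g c) / (P * Real.sqrt D) := by
    rw [sum_div]
    refine sum_le_sum fun c hc ↦ ?_
    rw [mem_Ico] at hc
    have : (D : ℝ) ≤ c := by exact_mod_cast hc.1
    have := hg0 c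
    gcongr
  refine h0.trans ?_
  rw [div_le_iff₀ (by positivity)]
  have hA4 : A ≤ A ^ 4 := by
    calc A = A ^ 1 := (pow_one A).symm
      _ ≤ A ^ 4 := pow_le_pow_right₀ hA (by norm_num)
  by_cases hDP : P ≤ D
  · have h1 : ∑ c ∈ Ico D (2 * D), g c ≤ ((D / P + 1 : ℕ) : ℝ) * ∑ c ∈ range P, g c := by
      rw [← tk_periods g hg D]
      apply sum_le_sum_of_subset_of_nonneg
      · intro c hc
        rw [mem_Ico] at hc ⊢
        have : D < (D / P + 1) * P := by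
          rw [mul_comm]; exact Nat.lt_mul_div_succ D hP
        omega
      · intro c _ _; exact hg0 c
    have h2 : ((D / P + 1 : ℕ) : ℝ) ≤ 2 * ((D : ℝ) / P) := by
      push_cast
      have h3 : ((D / P : ℕ) : ℝ) ≤ (D : ℝ) / P := Nat.cast_div_le
      have h4 : 1 ≤ (D : ℝ) / P := by
        rw [le_div_iff₀ hPR, one_mul]; exact_mod_cast hDP
      linarith
    have h3 : ∑ c ∈ range P, g c ≤ A * (P * Real.sqrt P) := by
      have h4 := tk_pow4 (range P) g hg0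
      rw [card_range] at h4
      have h5 : (∑ c ∈ range P, g c) ^ 4 ≤ (A * (P * Real.sqrt P)) ^ 4 := by
        calc (∑ c ∈ range P, g c) ^ 4 ≤ (P : ℝ) ^ 3 * ∑ c ∈ range P, g c ^ 4 := h4
          _ ≤ (P : ℝ) ^ 3 * (A * (P : ℝ) ^ 3) := by gcongr
          _ = A * ((P : ℝ) ^ 4 * (Real.sqrt P ^ 2) ^ 2) := by
              rw [Real.sq_sqrt hPR.le]; ring
          _ ≤ A ^ 4 * ((P : ℝ) ^ 4 * (Real.sqrt P ^ 2) ^ 2) := by gcongr
          _ = _ := by ring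
      exact le_of_pow_le_pow_left₀ (by norm_num) (by positivity) h5
    have h6 : 0 ≤ ∑ c ∈ range P, g c := sum_nonneg fun c _ ↦ hg0 c
    calc ∑ c ∈ Ico D (2 * D), g c ≤ ((D / P + 1 : ℕ) : ℝ) * ∑ c ∈ range P, g c := h1
      _ ≤ (2 * ((D : ℝ) / P)) * (A * (P * Real.sqrt P)) := by gcongr
      _ = 2 * A * (D * Real.sqrt P) := by field_simp
      _ = 2 * A * (Real.sqrt ((D : ℝ) / P)) * (P * Real.sqrt D) := by
          rw [Real.sqrt_div hDR.le]
          have e1 : Real.sqrt D * Real.sqrt D = D := Real.mul_self_sqrt hDR.le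
          have e2 : Real.sqrt P * Real.sqrt P = P := Real.mul_self_sqrt hPR.le
          field_simp
          calc (D : ℝ) * Real.sqrt P ^ 2 = D * (Real.sqrt P * Real.sqrt P) := by ring
            _ = (Real.sqrt D * Real.sqrt D) * P := by rw [e2, e1]
            _ = _ := by ring
      _ ≤ _ := by
          have : 0 ≤ 2 * A * (P * Real.sqrt D) := by positivity
          nlinarith
  · push Not at hDP
    have h1 : ∑ c ∈ Ico D (2 * D), g c ^ 4 ≤ A * (P : ℝ) ^ 3 := by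
      refine le_trans ?_ hm
      rw [← tk_period (fun c ↦ g c ^ 4) (fun x ↦ by simp only [hg]) D]
      apply sum_le_sum_of_subset_of_nonneg
      · intro c hc
        rw [mem_Ico] at hc ⊢
        omega
      · intro c _ _; positivity
    have h3 : ∑ c ∈ Ico D (2 * D), g c ≤ A * (P * Real.sqrt D) := by
      have h4 := tk_pow4 (Ico D (2 * D)) g hg0
      have hcard : (Ico D (2 * D)).card = D := by rw [Nat.card_Ico]; omega
      rw [hcard] at h4
      have h5 : (∑ c ∈ Ico D (2 * D), g c) ^ 4 ≤ (A * (P * Real.sqrt D)) ^ 4 := by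
        have hDP' : (D : ℝ) ≤ P := by exact_mod_cast hDP.le
        calc (∑ c ∈ Ico D (2 * D), g c) ^ 4 ≤ (D : ℝ) ^ 3 * ∑ c ∈ Ico D (2 * D), g c ^ 4 := h4
          _ ≤ (D : ℝ) ^ 3 * (A * (P : ℝ) ^ 3) := by gcongr
          _ = A * ((D : ℝ) ^ 2 * (P : ℝ) ^ 3 * D) := by ring
          _ ≤ A ^ 4 * ((D : ℝ) ^ 2 * (P : ℝ) ^ 3 * P) := by gcongr
          _ = A ^ 4 * ((P : ℝ) ^ 4 * (Real.sqrt D ^ 2) ^ 2) := by
              rw [Real.sq_sqrt hDR.le]; ring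
          _ = _ := by ring
      exact le_of_pow_le_pow_left₀ (by norm_num) (by positivity) h5
    refine h3.trans ?_
    have e1 : 0 ≤ A * (P * Real.sqrt D) := by positivity
    have e2 : 0 ≤ Real.sqrt ((D : ℝ) / P) := Real.sqrt_nonneg _
    nlinarith [mul_nonneg e1 e2]

private lemma tk_dyadic {X : ℕ} (g : ℕ → ℝ) (hg : ∀ a, 0 ≤ g a) :
    ∑ a ∈ Icc 1 X, g a ≤ ∑ i ∈ range (Nat.log 2 X + 1), ∑ a ∈ Ico (2 ^ i) (2 * 2 ^ i), g a := by
  have h1 : ∀ K : ℕ, ∑ i ∈ range K, ∑ a ∈ Ico (2 ^ i) (2 * 2 ^ i), g a =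
      ∑ a ∈ Ico 1 (2 ^ K), g a := by
    intro K
    induction K with
    | zero => simp
    | succ K ih =>
      rw [sum_range_succ, ih]
      have : 2 * 2 ^ K = 2 ^ (K + 1) := by ring
      rw [this]
      exact sum_Ico_consecutive g Nat.one_le_two_pow (Nat.pow_le_pow_right (by norm_num) (by omega))
  rw [h1]
  apply sum_le_sum_of_subset_of_nonneg
  · intro a ha
    rw [mem_Icc] at ha
    rw [mem_Ico]
    exact ⟨ha.1, lt_of_le_of_lt ha.2 (Nat.lt_pow_succ_log_self (by norm_num) X)⟩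
  · intro a _ _; exact hg a

theorem trivK (ε : ℝ) (hε : 0 < ε) : ∃ C : ℝ, 0 < C ∧ ∀ {P k0 : ℕ} {A : ℝ} {H : ℤ → ℂ}
    {β : ℤ → ℝ} (_ : Env P k0 A H β) (X1 : ℕ),
    ∑ c ∈ Icc 1 X1, (c.divisors.card : ℝ) ^ 2 * (‖H (c : ℤ)‖ / (k0 * Real.sqrt c)) ≤
      C * A * ((X1 : ℝ) + 1) ^ ε * (Real.sqrt ((X1 : ℝ) / P) + 1) := by
  obtain ⟨CD, hCD, hdiv⟩ := Pool.Agent.Work.MP_f2148a_nt.exists_card_divisors_le (ε / 4)
    (by linarith)
  set CL : ℝ := 2 / ε / Real.log 2 + 1 with hCL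
  have hl2 : 0 < Real.log 2 := Real.log_pos (by norm_num)
  refine ⟨CD ^ 2 * CL * 2, by positivity, ?_⟩
  intro P k0 A H β he X1
  have hPR : (0 : ℝ) < P := by exact_mod_cast he.hP
  have hkR : (0 : ℝ) < k0 := by exact_mod_cast he.hk0
  have hA := he.hA
  rcases Nat.eq_zero_or_pos X1 with hX | hX
  · subst hX
    simp
    positivity
  have hXR : (1 : ℝ) ≤ X1 := by exact_mod_cast hX
  have hXe : 1 ≤ ((X1 : ℝ) + 1) ^ (ε / 2) := Real.one_le_rpow (by linarith) (by linarith)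
  set g : ℕ → ℝ := fun c ↦ β (c : ℤ) with hg
  have hgp : ∀ x, g (x + P) = g x := by
    intro x
    simp only [hg]
    push_cast
    exact he.bper _
  have hg0 : ∀ x, 0 ≤ g x := fun x ↦ he.bnn _
  have h1 : ∀ c ∈ Icc 1 X1, (c.divisors.card : ℝ) ^ 2 * (‖H (c : ℤ)‖ / (k0 * Real.sqrt c)) ≤
      CD ^ 2 * ((X1 : ℝ) + 1) ^ (ε / 2) * (g c / (P * Real.sqrt c)) := by
    intro c hc
    rw [mem_Icc] at hc
    have hcR : (0 : ℝ) < c := by exact_mod_cast hc.1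
    have hcX : (c : ℝ) ≤ X1 := by exact_mod_cast hc.2
    have hs := Real.sqrt_pos.2 hcR
    have h2 : (c.divisors.card : ℝ) ^ 2 ≤ CD ^ 2 * ((X1 : ℝ) + 1) ^ (ε / 2) := by
      calc (c.divisors.card : ℝ) ^ 2 ≤ (CD * (c : ℝ) ^ (ε / 4)) ^ 2 := by
            gcongr; exact hdiv c hc.1
        _ ≤ (CD * ((X1 : ℝ) + 1) ^ (ε / 4)) ^ 2 := by
            gcongr; linarith
        _ = _ := by
            rw [mul_pow, ← Real.rpow_natCast (((X1 : ℝ) + 1) ^ (ε / 4)),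
              ← Real.rpow_mul (by positivity)]
            congr 2; push_cast; ring
    have h3 : ‖H (c : ℤ)‖ / (k0 * Real.sqrt c) ≤ g c / (P * Real.sqrt c) := by
      rw [div_le_div_iff₀ (by positivity) (by positivity)]
      have h4 := he.bd (c : ℤ)
      calc ‖H (c : ℤ)‖ * (P * Real.sqrt c) ≤ ((k0 : ℝ) / P * β c) * (P * Real.sqrt c) := by gcongr
        _ = _ := by
            simp only [hg]
            field_simp
    exact mul_le_mul h2 h3 (by positivity) (by positivity)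
  refine (sum_le_sum h1).trans ?_
  rw [← mul_sum]
  have hgs : ∀ c : ℕ, 0 ≤ g c / (P * Real.sqrt c) := fun c ↦ div_nonneg (hg0 c) (by positivity)
  have h2 : ∑ c ∈ Icc 1 X1, g c / (P * Real.sqrt c) ≤
      (Nat.log 2 X1 + 1 : ℕ) * (2 * A * (Real.sqrt ((X1 : ℝ) / P) + 1)) := by
    refine (tk_dyadic _ hgs).trans ?_
    calc ∑ i ∈ range (Nat.log 2 X1 + 1), ∑ a ∈ Ico (2 ^ i) (2 * 2 ^ i), g a / (P * Real.sqrt a)
        ≤ ∑ _i ∈ range (Nat.log 2 X1 + 1), 2 * A * (Real.sqrt ((X1 : ℝ) / P) + 1) := by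
          refine sum_le_sum fun i hi ↦ ?_
          rw [mem_range] at hi
          refine (tk_block he.hP hA g hgp hg0 he.mom (by positivity)).trans ?_
          have h3 : 2 ^ i ≤ X1 := by
            calc 2 ^ i ≤ 2 ^ Nat.log 2 X1 := Nat.pow_le_pow_right (by norm_num) (by omega)
              _ ≤ X1 := Nat.pow_log_le_self 2 hX.ne'
          have h4 : ((2 ^ i : ℕ) : ℝ) ≤ X1 := by exact_mod_cast h3
          gcongr
      _ = _ := by rw [sum_const, card_range, nsmul_eq_mul]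
  have h3 : ((Nat.log 2 X1 + 1 : ℕ) : ℝ) ≤ CL * ((X1 : ℝ) + 1) ^ (ε / 2) := by
    have e1 : (Nat.log 2 X1 : ℝ) * Real.log 2 ≤ Real.log X1 := by
      rw [← Real.log_pow]
      apply Real.log_le_log (by positivity)
      exact_mod_cast Nat.pow_log_le_self 2 hX.ne'
    have e2 : Real.log X1 ≤ (X1 : ℝ) ^ (ε / 2) / (ε / 2) := Real.log_le_rpow_div (by linarith)
      (by linarith)
    have e3 : (X1 : ℝ) ^ (ε / 2) ≤ ((X1 : ℝ) + 1) ^ (ε / 2) := by
      gcongr; linarith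
    have e4 : (Nat.log 2 X1 : ℝ) ≤ (2 / ε / Real.log 2) * ((X1 : ℝ) + 1) ^ (ε / 2) := by
      calc (Nat.log 2 X1 : ℝ) ≤ (2 / ε / Real.log 2) * (X1 : ℝ) ^ (ε / 2) := by
            have e : 2 / ε / Real.log 2 * (X1 : ℝ) ^ (ε / 2) =
                (X1 : ℝ) ^ (ε / 2) / (ε / 2) / Real.log 2 := by
              field_simp
            rw [e, le_div_iff₀ hl2]
            exact e1.trans e2
        _ ≤ _ := by gcongr
    push_cast
    rw [hCL]
    nlinarith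
  calc CD ^ 2 * ((X1 : ℝ) + 1) ^ (ε / 2) * ∑ c ∈ Icc 1 X1, g c / (P * Real.sqrt c)
      ≤ CD ^ 2 * ((X1 : ℝ) + 1) ^ (ε / 2) * ((CL * ((X1 : ℝ) + 1) ^ (ε / 2)) *
          (2 * A * (Real.sqrt ((X1 : ℝ) / P) + 1))) := by
        gcongr
        refine h2.trans ?_
        gcongr
    _ = CD ^ 2 * CL * 2 * A * (((X1 : ℝ) + 1) ^ (ε / 2) * ((X1 : ℝ) + 1) ^ (ε / 2)) *
          (Real.sqrt ((X1 : ℝ) / P) + 1) := by ring
    _ = _ := by
        rw [← Real.rpow_add (by positivity)]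
        congr 3; ring

end Pool.Agent.Work.MP_af11aa_nt.T
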