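import Mathlib
import Pool.Agent.Work.MP_af11aa_nt.T.TrivK

/-!
MODULE Inact (the small blocks). For (i,j) ∈ I, a < 2·2^i, b < 2·2^j, Q ≤ 4Y: P Y Q a b ≤ 16 P Y (Y 2^i 2^j) ≤ 16 m, so Q a b ≤ X1 := 16 m/(P Y) (natural
division). ‖Fq‖ ≤ ‖H(Qab)‖ 2/(k0 √(Qab)) (W.jc_norm, W.cj_norm, W.norm_eI, W.norm_wgt_le). The (a,b) determine (i,j) (a ∈ [2^i,2^{i+1})), so the sum is
≤ ∑_{c ≤ X1} #{(Q,a,b) : Q a b = c} 2 ‖H c‖/(k0 √c) and # ≤ τ(c)² (Q and a divide c). TrivK.trivK with ε/2: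
≤ 2 C A (X1+1)^{ε/2} (√(X1/P) + 1), X1 ≤ 16 m/(PY), 1 ≤ √(m/(P²Y)) since P³Y⁷ ≤ m; (X1+1)^{ε/2} ≤ (17 m)^{ε/2}.
-/

set_option autoImplicit false

namespace Pool.Agent.Work.MP_af11aa_nt.T

open Finset ComplexConjugate Pool.Agent.Work.MP_af11aa_nt.W

private theorem in_log {i a : ℕ} (h : a ∈ Ico (2 ^ i) (2 * 2 ^ i)) : Nat.log 2 a = i := by
  rw [Finset.mem_Ico] at h
  refine Nat.log_eq_of_pow_le_of_lt_pow h.1 ?_
  rw [pow_succ]
  omega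

private theorem in_fiber (T : Finset (ℕ × ℕ × ℕ)) (c : ℕ) (hc : 0 < c) :
    ((T.filter fun t => t.1 * t.2.1 * t.2.2 = c).card : ℝ) ≤ (c.divisors.card : ℝ) ^ 2 := by
  have h1 : (T.filter fun t => t.1 * t.2.1 * t.2.2 = c).card ≤
      (c.divisors ×ˢ c.divisors).card := by
    refine Finset.card_le_card_of_injOn (fun t => (t.1, t.2.1)) ?_ ?_
    · intro t ht
      have ht' : t ∈ T.filter fun t => t.1 * t.2.1 * t.2.2 = c := ht
      rw [Finset.mem_filter] at ht'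
      show (t.1, t.2.1) ∈ ((c.divisors ×ˢ c.divisors : Finset (ℕ × ℕ)) : Set (ℕ × ℕ))
      rw [Finset.mem_coe, Finset.mem_product, Nat.mem_divisors, Nat.mem_divisors]
      refine ⟨⟨⟨t.2.1 * t.2.2, ?_⟩, hc.ne'⟩, ⟨⟨t.1 * t.2.2, ?_⟩, hc.ne'⟩⟩
      · rw [← ht'.2]; ring
      · rw [← ht'.2]; ring
    · intro t ht t' ht' heq
      have h2 : t ∈ T.filter fun t => t.1 * t.2.1 * t.2.2 = c := ht
      have h3 : t' ∈ T.filter fun t => t.1 * t.2.1 * t.2.2 = c := ht'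
      rw [Finset.mem_filter] at h2 h3
      have h4 : (t.1, t.2.1) = (t'.1, t'.2.1) := heq
      rw [Prod.mk.injEq] at h4
      have h5 : t.1 * t.2.1 * t.2.2 = t.1 * t.2.1 * t'.2.2 := by
        rw [h2.2, h4.1, h4.2, h3.2]
      have h6 : 0 < t.1 * t.2.1 := by
        rcases Nat.eq_zero_or_pos (t.1 * t.2.1) with h | h
        · exfalso
          have := h2.2
          rw [h, zero_mul] at this
          omega
        · exact h
      have h7 := Nat.eq_of_mul_eq_mul_left h6 h5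
      exact Prod.ext h4.1 (Prod.ext h4.2 h7)
  rw [Finset.card_product] at h1
  rw [sq]
  exact_mod_cast h1

theorem inact (ε : ℝ) (hε : 0 < ε) : ∃ C : ℝ, 0 < C ∧ ∀ {P k0 m1 m2 n Y Z : ℕ} {S : Finset ℕ}
    (_ : Par P k0 m1 m2 n Y Z S) {A : ℝ} {H : Bool → ℤ → ℂ} {β : ℤ → ℝ}
    (_ : ∀ σ, Env P k0 A (H σ) β) {y : ℝ}
    (_ : y ∈ Set.Ico (1 / ((m2 * m1 : ℕ) : ℝ)) (2 / ((m2 * m1 : ℕ) : ℝ))) (s : ℝ) (X : ℕ)
    (σ : Bool) (I : Finset (ℕ × ℕ))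
    (_ : ∀ x ∈ I, P * Y * (Y * 2 ^ x.1 * 2 ^ x.2) ≤ m2 * m1),
    ‖∑ x ∈ I, Tb m1 m2 k0 n H y s S X σ (2 ^ x.1) (2 ^ x.2)‖ ≤
      C * A * ((m2 * m1 : ℕ) : ℝ) ^ ε * Real.sqrt (((m2 * m1 : ℕ) : ℝ) / ((P : ℝ) ^ 2 * Y)) := by
  classical
  obtain ⟨C0, hC0, htriv⟩ := trivK (ε / 2) (by positivity)
  refine ⟨2 * C0 * (17 : ℝ) ^ (ε / 2) * 5, by positivity, ?_⟩
  intro P k0 m1 m2 n Y Z S hp A H β he y hy s X σ I hI
  have hP0 : 0 < P := hp.hP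
  have hY0 : 0 < Y := by rw [hp.hY]; exact pow_pos hp.hZ 3
  have hPR : (0 : ℝ) < P := by exact_mod_cast hP0
  have hYR : (0 : ℝ) < Y := by exact_mod_cast hY0
  have hm0 : 0 < m2 * m1 := lt_of_lt_of_le (by positivity) hp.hbig
  have hmR : (1 : ℝ) ≤ ((m2 * m1 : ℕ) : ℝ) := by exact_mod_cast hm0
  have hA1 : 1 ≤ A := (he σ).hA
  have hk0R : (0 : ℝ) < k0 := by exact_mod_cast hp.hk0
  set m := m2 * m1 with hm
  set X1 := 16 * m / (P * Y) with hX1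
  let G : ℕ → ℝ := fun c => 2 * (‖H σ (c : ℤ)‖ / (k0 * Real.sqrt c))
  have hG0 : ∀ c, 0 ≤ G c := fun c => by
    show 0 ≤ 2 * (‖H σ (c : ℤ)‖ / (k0 * Real.sqrt c))
    positivity
  have hFq : ∀ Q a b : ℕ, 0 < Q * a * b →
      ‖(if Q * a * b ≤ X then Fq m1 m2 k0 n H y s σ Q a b else 0)‖ ≤ G (Q * a * b) := by
    intro Q a b hpos
    split_ifs
    · unfold Fq
      split_ifs
      · rw [norm_mul, norm_mul, norm_mul, cj_norm, norm_eI, mul_one, ← hm]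
        have h1 := norm_wgt_le m k0 hm0 hp.hk0 hy s σ (c := ((Q * a * b : ℕ) : ℝ))
          (by exact_mod_cast hpos)
        calc ‖H σ ((Q * a * b : ℕ) : ℤ)‖ * ‖jc ((Q * a * b : ℕ) : ℤ) m1‖ *
              ‖wgt m k0 y s σ ((Q * a * b : ℕ) : ℝ)‖
            ≤ ‖H σ ((Q * a * b : ℕ) : ℤ)‖ * 1 *
              (2 / (k0 * Real.sqrt ((Q * a * b : ℕ) : ℝ))) := by
              refine mul_le_mul (mul_le_mul_of_nonneg_left (jc_norm _ _) (norm_nonneg _)) h1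
                (norm_nonneg _) (by positivity)
          _ = G (Q * a * b) := by
              show _ = 2 * (‖H σ ((Q * a * b : ℕ) : ℤ)‖ / (k0 * Real.sqrt ((Q * a * b : ℕ) : ℝ)))
              ring
      · rw [norm_zero]; exact hG0 _
    · rw [norm_zero]; exact hG0 _
  let R : ℕ × ℕ → Finset (ℕ × ℕ × ℕ) := fun x =>
    S ×ˢ (Ico (2 ^ x.1) (2 * 2 ^ x.1) ×ˢ Ico (2 ^ x.2) (2 * 2 ^ x.2))
  have hRmem : ∀ (x : ℕ × ℕ) (t : ℕ × ℕ × ℕ), t ∈ R x ↔ t.1 ∈ S ∧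
      t.2.1 ∈ Ico (2 ^ x.1) (2 * 2 ^ x.1) ∧ t.2.2 ∈ Ico (2 ^ x.2) (2 * 2 ^ x.2) := by
    intro x t
    show t ∈ S ×ˢ (Ico (2 ^ x.1) (2 * 2 ^ x.1) ×ˢ Ico (2 ^ x.2) (2 * 2 ^ x.2)) ↔ _
    rw [Finset.mem_product, Finset.mem_product]
  have hRpos : ∀ x t, t ∈ R x → 0 < t.1 * t.2.1 * t.2.2 := by
    intro x t ht
    rw [hRmem, Finset.mem_Ico, Finset.mem_Ico] at ht
    have h1 : 0 < t.1 := (hp.hS _ ht.1).1.pos
    have h2 : 0 < t.2.1 := lt_of_lt_of_le (by positivity) ht.2.1.1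
    have h3 : 0 < t.2.2 := lt_of_lt_of_le (by positivity) ht.2.2.1
    positivity
  have hTb : ∀ x ∈ I, ‖Tb m1 m2 k0 n H y s S X σ (2 ^ x.1) (2 ^ x.2)‖ ≤
      ∑ t ∈ R x, G (t.1 * t.2.1 * t.2.2) := by
    intro x _
    unfold Tb
    have h1 : ∑ t ∈ R x, G (t.1 * t.2.1 * t.2.2) = ∑ Q ∈ S,
        ∑ a ∈ Ico (2 ^ x.1) (2 * 2 ^ x.1), ∑ b ∈ Ico (2 ^ x.2) (2 * 2 ^ x.2), G (Q * a * b) := by
      show ∑ t ∈ S ×ˢ (Ico (2 ^ x.1) (2 * 2 ^ x.1) ×ˢ Ico (2 ^ x.2) (2 * 2 ^ x.2)), _ = _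
      rw [Finset.sum_product]
      refine Finset.sum_congr rfl fun Q _ => ?_
      rw [Finset.sum_product]
    rw [h1]
    refine norm_sum_le_of_le _ fun Q hQ => norm_sum_le_of_le _ fun a ha =>
      norm_sum_le_of_le _ fun b hb => ?_
    exact hFq Q a b (hRpos x (Q, a, b) ((hRmem x (Q, a, b)).2 ⟨hQ, ha, hb⟩))
  have hdisj : (I : Set (ℕ × ℕ)).PairwiseDisjoint R := by
    intro x _ x' _ hne
    rw [Function.onFun, Finset.disjoint_left]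
    intro t ht ht'
    rw [hRmem] at ht ht'
    apply hne
    refine Prod.ext ?_ ?_
    · rw [← in_log ht.2.1, ← in_log ht'.2.1]
    · rw [← in_log ht.2.2, ← in_log ht'.2.2]
  set T := I.biUnion R with hT
  have hmaps : ∀ t ∈ T, t.1 * t.2.1 * t.2.2 ∈ Icc 1 X1 := by
    intro t ht
    rw [hT, Finset.mem_biUnion] at ht
    obtain ⟨x, hx, htx⟩ := ht
    have hpos := hRpos x t htx
    rw [hRmem, Finset.mem_Ico, Finset.mem_Ico] at htx
    rw [Finset.mem_Icc]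
    refine ⟨hpos, ?_⟩
    rw [hX1, Nat.le_div_iff_mul_le (by positivity)]
    have h1 := hI x hx
    have h2 : t.1 ≤ 4 * Y := (hp.hS _ htx.1).2.2.1
    calc t.1 * t.2.1 * t.2.2 * (P * Y)
        ≤ 4 * Y * (2 * 2 ^ x.1) * (2 * 2 ^ x.2) * (P * Y) := by
          refine Nat.mul_le_mul_right _ (Nat.mul_le_mul (Nat.mul_le_mul h2 htx.2.1.2.le)
            htx.2.2.2.le)
      _ = 16 * (P * Y * (Y * 2 ^ x.1 * 2 ^ x.2)) := by ring
      _ ≤ 16 * m := Nat.mul_le_mul_left _ h1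
  have hsum : ‖∑ x ∈ I, Tb m1 m2 k0 n H y s S X σ (2 ^ x.1) (2 ^ x.2)‖ ≤
      ∑ c ∈ Icc 1 X1, (c.divisors.card : ℝ) ^ 2 * G c := by
    refine (norm_sum_le _ _).trans ((Finset.sum_le_sum hTb).trans ?_)
    rw [← Finset.sum_biUnion hdisj, ← hT, ← Finset.sum_fiberwise_of_maps_to hmaps]
    refine Finset.sum_le_sum fun c hc => ?_
    have hc0 : 0 < c := (Finset.mem_Icc.1 hc).1
    have h1 : ∑ t ∈ T.filter (fun t => t.1 * t.2.1 * t.2.2 = c), G (t.1 * t.2.1 * t.2.2) =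
        (T.filter fun t => t.1 * t.2.1 * t.2.2 = c).card * G c := by
      rw [← nsmul_eq_mul, ← Finset.sum_const]
      refine Finset.sum_congr rfl fun t ht => ?_
      rw [(Finset.mem_filter.1 ht).2]
    rw [h1]
    exact mul_le_mul_of_nonneg_right (in_fiber T c hc0) (hG0 c)
  have h1 : ∑ c ∈ Icc 1 X1, (c.divisors.card : ℝ) ^ 2 * G c =
      2 * ∑ c ∈ Icc 1 X1, (c.divisors.card : ℝ) ^ 2 * (‖H σ (c : ℤ)‖ / (k0 * Real.sqrt c)) := by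
    rw [Finset.mul_sum]
    refine Finset.sum_congr rfl fun c _ => ?_
    show (c.divisors.card : ℝ) ^ 2 * (2 * (‖H σ (c : ℤ)‖ / (k0 * Real.sqrt c))) = _
    ring
  rw [h1] at hsum
  have h2 := htriv (he σ) X1
  set q := (m : ℝ) / ((P : ℝ) ^ 2 * Y) with hq
  have hX1le : (X1 : ℝ) ≤ 16 * m / (P * Y) := by
    have h3 : ((16 * m / (P * Y) : ℕ) : ℝ) ≤ ((16 * m : ℕ) : ℝ) / ((P * Y : ℕ) : ℝ) :=
      Nat.cast_div_le
    rw [hX1]
    refine h3.trans (le_of_eq ?_)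
    push_cast
    ring
  have hq1 : 1 ≤ q := by
    rw [hq, le_div_iff₀ (by positivity), one_mul]
    have h3 : P ^ 2 * Y ≤ m := by
      refine le_trans ?_ hp.hbig
      have h4 : P ^ 2 ≤ P ^ 3 := Nat.pow_le_pow_right hP0 (by norm_num)
      have h5 : Y ^ 1 ≤ Y ^ 7 := Nat.pow_le_pow_right hY0 (by norm_num)
      rw [pow_one] at h5
      exact Nat.mul_le_mul h4 h5
    exact_mod_cast h3
  have hsq : Real.sqrt ((X1 : ℝ) / P) + 1 ≤ 5 * Real.sqrt q := by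
    have h3 : Real.sqrt ((X1 : ℝ) / P) ≤ 4 * Real.sqrt q := by
      have h4 : (X1 : ℝ) / P ≤ 4 ^ 2 * q := by
        rw [div_le_iff₀ hPR]
        refine hX1le.trans (le_of_eq ?_)
        rw [hq]
        field_simp
        norm_num
      refine (Real.sqrt_le_sqrt h4).trans (le_of_eq ?_)
      rw [Real.sqrt_mul (by norm_num), Real.sqrt_sq (by norm_num)]
    have h5 : 1 ≤ Real.sqrt q := Real.one_le_sqrt.2 hq1
    linarith
  have hX1m : (X1 : ℝ) + 1 ≤ 17 * m := by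
    have h3 : 16 * (m : ℝ) / (P * Y) ≤ 16 * m := by
      apply div_le_self (by positivity)
      have : 1 ≤ P * Y := Nat.mul_pos hP0 hY0
      exact_mod_cast this
    linarith
  have hpow : ((X1 : ℝ) + 1) ^ (ε / 2) ≤ (17 : ℝ) ^ (ε / 2) * (m : ℝ) ^ ε := by
    calc ((X1 : ℝ) + 1) ^ (ε / 2) ≤ (17 * (m : ℝ)) ^ (ε / 2) :=
          Real.rpow_le_rpow (by positivity) hX1m (by positivity)
      _ = (17 : ℝ) ^ (ε / 2) * (m : ℝ) ^ (ε / 2) :=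
          Real.mul_rpow (by norm_num) (by linarith)
      _ ≤ _ := by
          refine mul_le_mul_of_nonneg_left ?_ (by positivity)
          exact Real.rpow_le_rpow_of_exponent_le hmR (by linarith)
  have hAA : 0 ≤ A := by linarith
  calc _ ≤ _ := hsum
    _ ≤ 2 * (C0 * A * ((X1 : ℝ) + 1) ^ (ε / 2) * (Real.sqrt ((X1 : ℝ) / P) + 1)) :=
        mul_le_mul_of_nonneg_left h2 (by norm_num)
    _ ≤ 2 * (C0 * A * ((17 : ℝ) ^ (ε / 2) * (m : ℝ) ^ ε) * (5 * Real.sqrt q)) := by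
        refine mul_le_mul_of_nonneg_left ?_ (by norm_num)
        refine mul_le_mul (mul_le_mul_of_nonneg_left hpow (by positivity)) hsq (by positivity)
          (by positivity)
    _ = _ := by ring

end Pool.Agent.Work.MP_af11aa_nt.T
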