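import Mathlib

/-!
MODULE CauchyQ (Cauchy–Schwarz over (a,b); Mathlib only).
|∑_{a,b} J ∑_Q c_Q F_Q|² ≤ (∑_{a,b} 1) ∑_{a,b} |∑_Q c_Q F_Q|² and |∑_Q c_Q F_Q|² = ∑_{Q,Q'} c_Q conj(c_Q') F_Q conj(F_Q'); exchange the
sums and use |c_Q| ≤ 1.
-/

set_option autoImplicit false

namespace Pool.Agent.Work.MP_af11aa_nt.T

open Finset ComplexConjugate

theorem cauchyQ (S 𝒜 ℬ : Finset ℕ) (c : ℕ → ℂ) (hc : ∀ Q, ‖c Q‖ ≤ 1) (J : ℕ → ℕ → ℂ)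
    (hJ : ∀ a b, ‖J a b‖ ≤ 1) (F : ℕ → ℕ → ℕ → ℂ) :
    ‖∑ Q ∈ S, ∑ a ∈ 𝒜, ∑ b ∈ ℬ, c Q * J a b * F Q a b‖ ^ 2 ≤
      (𝒜.card : ℝ) * ℬ.card *
        ∑ Q ∈ S, ∑ Q' ∈ S, ‖∑ a ∈ 𝒜, ∑ b ∈ ℬ, F Q a b * conj (F Q' a b)‖ := by
  set G : ℕ × ℕ → ℂ := fun x => ∑ Q ∈ S, c Q * F Q x.1 x.2 with hG
  have h1 : ∑ Q ∈ S, ∑ a ∈ 𝒜, ∑ b ∈ ℬ, c Q * J a b * F Q a b =
      ∑ x ∈ 𝒜 ×ˢ ℬ, J x.1 x.2 * G x := by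
    have h2 : ∀ Q ∈ S, ∑ a ∈ 𝒜, ∑ b ∈ ℬ, c Q * J a b * F Q a b =
        ∑ x ∈ 𝒜 ×ˢ ℬ, c Q * J x.1 x.2 * F Q x.1 x.2 := fun Q _ =>
      (Finset.sum_product' 𝒜 ℬ fun a b => c Q * J a b * F Q a b).symm
    rw [Finset.sum_congr rfl h2, Finset.sum_comm]
    refine Finset.sum_congr rfl fun x _ => ?_
    rw [hG, Finset.mul_sum]
    exact Finset.sum_congr rfl fun Q _ => by ring
  have h3 : ‖∑ x ∈ 𝒜 ×ˢ ℬ, J x.1 x.2 * G x‖ ≤ ∑ x ∈ 𝒜 ×ˢ ℬ, ‖G x‖ := by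
    refine norm_sum_le_of_le _ fun x _ => ?_
    rw [norm_mul]
    exact mul_le_of_le_one_left (norm_nonneg _) (hJ _ _)
  have h4 : (∑ x ∈ 𝒜 ×ˢ ℬ, ‖G x‖) ^ 2 ≤ (𝒜.card : ℝ) * ℬ.card * ∑ x ∈ 𝒜 ×ˢ ℬ, ‖G x‖ ^ 2 := by
    have := sq_sum_le_card_mul_sum_sq (s := 𝒜 ×ˢ ℬ) (f := fun x => ‖G x‖)
    rw [Finset.card_product] at this
    push_cast at this
    exact this
  have h5 : ∑ x ∈ 𝒜 ×ˢ ℬ, ‖G x‖ ^ 2 ≤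
      ∑ Q ∈ S, ∑ Q' ∈ S, ‖∑ a ∈ 𝒜, ∑ b ∈ ℬ, F Q a b * conj (F Q' a b)‖ := by
    have e1 : ((∑ x ∈ 𝒜 ×ˢ ℬ, ‖G x‖ ^ 2 : ℝ) : ℂ) = ∑ Q ∈ S, ∑ Q' ∈ S,
        c Q * conj (c Q') * ∑ a ∈ 𝒜, ∑ b ∈ ℬ, F Q a b * conj (F Q' a b) := by
      push_cast
      have e2 : ∀ x ∈ 𝒜 ×ˢ ℬ, (‖G x‖ : ℂ) ^ 2 = ∑ Q ∈ S, ∑ Q' ∈ S,
          c Q * conj (c Q') * (F Q x.1 x.2 * conj (F Q' x.1 x.2)) := by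
        intro x _
        rw [← Complex.mul_conj', hG]
        simp only
        rw [map_sum, Finset.sum_mul_sum]
        refine Finset.sum_congr rfl fun Q _ => Finset.sum_congr rfl fun Q' _ => ?_
        rw [map_mul]
        ring
      rw [Finset.sum_congr rfl e2, Finset.sum_comm]
      refine Finset.sum_congr rfl fun Q _ => ?_
      rw [Finset.sum_comm]
      refine Finset.sum_congr rfl fun Q' _ => ?_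
      rw [← Finset.mul_sum, Finset.sum_product]
    have e3 : ∑ x ∈ 𝒜 ×ˢ ℬ, ‖G x‖ ^ 2 = ‖((∑ x ∈ 𝒜 ×ˢ ℬ, ‖G x‖ ^ 2 : ℝ) : ℂ)‖ := by
      rw [Complex.norm_real, Real.norm_eq_abs,
        abs_of_nonneg (Finset.sum_nonneg fun _ _ => sq_nonneg _)]
    rw [e3, e1]
    refine norm_sum_le_of_le _ fun Q _ => norm_sum_le_of_le _ fun Q' _ => ?_
    rw [norm_mul, norm_mul, Complex.norm_conj]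
    have h6 : ‖c Q‖ * ‖c Q'‖ ≤ 1 := mul_le_one₀ (hc Q) (norm_nonneg _) (hc Q')
    exact mul_le_of_le_one_left (norm_nonneg _) h6
  rw [h1]
  calc ‖∑ x ∈ 𝒜 ×ˢ ℬ, J x.1 x.2 * G x‖ ^ 2 ≤ (∑ x ∈ 𝒜 ×ˢ ℬ, ‖G x‖) ^ 2 :=
        pow_le_pow_left₀ (norm_nonneg _) h3 2
    _ ≤ _ := h4
    _ ≤ _ := mul_le_mul_of_nonneg_left h5 (by positivity)

end Pool.Agent.Work.MP_af11aa_nt.T
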