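import Mathlib
import Pool.Agent.Work.MP_af11aa_nt.T.Defs

/-!
MODULE HMean (mean square of H over products a b in dyadic boxes).
H(αab) = 0 unless αab is prime to 8 k0, hence to P; otherwise ‖H(αab)‖ ≤ (k0/P) β(αab). As P² ≤ U V, P ≤ U or P ≤ V; say P ≤ V (else
exchange the sums). For fixed a with αa prime to P: ∑_{b ∈ Ico V (2V)} β(αab)² ≤ (V/P + 1) ∑_{x<P} β(x)² ≤ (2V/P) ∑_{x<P} β(x)² (an interval of
V integers is contained in V/P + 1 complete residue systems; b -> αab is a bijection mod P), and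
∑_{x<P} β² ≤ (P ∑ β⁴)^{1/2} ≤ (A P⁴)^{1/2} ≤ A P². So the sum over b is ≤ (k0/P)² 2 V A P = 2 A (k0²/P) V; sum over the U values of a.
-/

set_option autoImplicit false

namespace Pool.Agent.Work.MP_af11aa_nt.T

open Finset ComplexConjugate Pool.Agent.Work.MP_af11aa_nt.W

private theorem HMean_shift1 (g : ℕ → ℝ) (P : ℕ) (hg : ∀ x, g (x + P) = g x) :
    ∑ i ∈ range P, g (i + 1) = ∑ i ∈ range P, g i := by
  have h1 := Finset.sum_range_succ g P
  have h2 := Finset.sum_range_succ' g P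
  have h3 : g P = g 0 := by
    have := hg 0
    rwa [zero_add] at this
  rw [h1, h3] at h2
  linarith

private theorem HMean_shift (g : ℕ → ℝ) (P : ℕ) (hg : ∀ x, g (x + P) = g x) (V : ℕ) :
    ∑ i ∈ range P, g (V + i) = ∑ i ∈ range P, g i := by
  induction V with
  | zero => simp
  | succ V ih =>
    rw [← ih, ← HMean_shift1 (fun i => g (V + i)) P (fun x => by
      show g (V + (x + P)) = g (V + x)
      rw [← add_assoc, hg])]
    refine Finset.sum_congr rfl fun i _ => ?_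
    congr 1
    omega

private theorem HMean_blocks (g : ℕ → ℝ) (P : ℕ) (hg : ∀ x, g (x + P) = g x) (q : ℕ) :
    ∑ i ∈ range (P * q), g i = q * ∑ i ∈ range P, g i := by
  induction q with
  | zero => simp
  | succ q ih =>
    rw [Nat.mul_succ, Finset.sum_range_add, ih, HMean_shift g P hg (P * q)]
    push_cast
    ring

private theorem HMean_mod (f : ℤ → ℝ) (P : ℕ) (hf : ∀ x, f (x + P) = f x) (n : ℕ) :
    f (n : ℤ) = f ((n % P : ℕ) : ℤ) := by
  have h : ∀ (q : ℕ) (x : ℤ), f (x + (P : ℤ) * q) = f x := by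
    intro q
    induction q with
    | zero => intro x; simp
    | succ q ih =>
      intro x
      have : x + (P : ℤ) * ((q + 1 : ℕ) : ℤ) = (x + (P : ℤ) * q) + P := by push_cast; ring
      rw [this, hf, ih]
  have h2 : (n : ℤ) = ((n % P : ℕ) : ℤ) + (P : ℤ) * ((n / P : ℕ) : ℤ) := by
    exact_mod_cast (Nat.mod_add_div n P).symm
  conv_lhs => rw [h2]
  exact h _ _

private theorem HMean_perm (f : ℤ → ℝ) (P : ℕ) (hP : 0 < P) (hf : ∀ x, f (x + P) = f x) (α : ℕ)
    (hα : α.Coprime P) :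
    ∑ i ∈ range P, f ((α : ℤ) * i) = ∑ i ∈ range P, f i := by
  have himg : (range P).image (fun i => (α * i) % P) = range P := by
    apply Finset.eq_of_subset_of_card_le
    · intro x hx
      obtain ⟨i, _, rfl⟩ := Finset.mem_image.1 hx
      exact Finset.mem_range.2 (Nat.mod_lt _ hP)
    · rw [Finset.card_image_of_injOn]
      intro i hi j hj hij
      have h1 : α * i ≡ α * j [MOD P] := hij
      have h2 : i ≡ j [MOD P] := Nat.ModEq.cancel_left_of_coprime hα.symm h1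
      have hi' := Finset.mem_range.1 (Finset.mem_coe.1 hi)
      have hj' := Finset.mem_range.1 (Finset.mem_coe.1 hj)
      exact Nat.ModEq.eq_of_lt_of_lt h2 hi' hj'
  have hinj : Set.InjOn (fun i => (α * i) % P) (range P : Set ℕ) := by
    apply Finset.injOn_of_card_image_eq
    rw [himg]
  calc ∑ i ∈ range P, f ((α : ℤ) * i) = ∑ i ∈ range P, f (((α * i) % P : ℕ) : ℤ) := by
        refine Finset.sum_congr rfl fun i _ => ?_
        rw [← HMean_mod f P hf (α * i)]
        push_cast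
        rfl
    _ = ∑ x ∈ (range P).image (fun i => (α * i) % P), f (x : ℤ) := by
        rw [Finset.sum_image hinj]
    _ = ∑ i ∈ range P, f i := by rw [himg]

private theorem HMean_full (f : ℤ → ℝ) (P : ℕ) (hP : 0 < P) (hf : ∀ x, f (x + P) = f x) (α : ℕ)
    (hα : α.Coprime P) (q : ℕ) :
    ∑ i ∈ range (P * q), f ((α : ℤ) * i) = q * ∑ i ∈ range P, f i := by
  rw [HMean_blocks (fun i => f ((α : ℤ) * i)) P (fun x => ?_) q, HMean_perm f P hP hf α hα]
  have h1 := HMean_mod f P hf (α * (x + P))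
  have h2 := HMean_mod f P hf (α * x)
  have h3 : α * (x + P) % P = α * x % P := by
    rw [mul_add, Nat.add_mul_mod_self_right]
  rw [h3, ← h2] at h1
  push_cast at h1
  exact_mod_cast h1

private theorem HMean_sq {P k0 : ℕ} {A : ℝ} {H : ℤ → ℂ} {β : ℤ → ℝ} (he : Env P k0 A H β) :
    ∑ x ∈ range P, β x ^ 2 ≤ A * (P : ℝ) ^ 2 := by
  have hP : (0 : ℝ) < P := by exact_mod_cast he.hP
  have hA := he.hA
  have h1 : (∑ x ∈ range P, β x ^ 2) ^ 2 ≤ P * ∑ x ∈ range P, (β x ^ 2) ^ 2 := by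
    have := sq_sum_le_card_mul_sum_sq (s := range P) (f := fun x : ℕ => β x ^ 2)
    rwa [Finset.card_range] at this
  have h2 : ∑ x ∈ range P, (β x ^ 2) ^ 2 = ∑ x ∈ range P, β x ^ 4 :=
    Finset.sum_congr rfl fun x _ => by ring
  rw [h2] at h1
  have h3 := he.mom
  have h4 : (∑ x ∈ range P, β x ^ 2) ^ 2 ≤ (A * (P : ℝ) ^ 2) ^ 2 := by
    calc (∑ x ∈ range P, β x ^ 2) ^ 2 ≤ P * (A * (P : ℝ) ^ 3) :=
          h1.trans (mul_le_mul_of_nonneg_left h3 hP.le)
      _ = A * (P : ℝ) ^ 4 := by ring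
      _ ≤ A * (A * (P : ℝ) ^ 4) := by
          have : (P : ℝ) ^ 4 ≤ A * (P : ℝ) ^ 4 := le_mul_of_one_le_left (by positivity) hA
          exact mul_le_mul_of_nonneg_left this (by linarith)
      _ = (A * (P : ℝ) ^ 2) ^ 2 := by ring
  exact le_of_sq_le_sq h4 (by positivity)

private theorem HMean_inner {P k0 : ℕ} {A : ℝ} {H : ℤ → ℂ} {β : ℤ → ℝ} (he : Env P k0 A H β)
    (γ V : ℕ) (hV : 0 < V) (hPV : P ≤ V) :
    ∑ b ∈ Ico V (2 * V), ‖H ((γ * b : ℕ) : ℤ)‖ ^ 2 ≤ 2 * A * ((k0 : ℝ) ^ 2 / P) * V := by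
  have hP : (0 : ℝ) < P := by exact_mod_cast he.hP
  have hA := he.hA
  have hV' : (0 : ℝ) < V := by exact_mod_cast hV
  by_cases hγ : γ.Coprime (8 * k0)
  swap
  · have h0 : ∑ b ∈ Ico V (2 * V), ‖H ((γ * b : ℕ) : ℤ)‖ ^ 2 = 0 := by
      refine Finset.sum_eq_zero fun b _ => ?_
      rw [he.zero]
      · simp
      · intro hc
        apply hγ
        have h1 : IsCoprime ((γ : ℤ)) (8 * k0 : ℤ) := by
          push_cast at hc
          exact hc.of_mul_left_left
        have h2 : IsCoprime ((γ : ℤ)) ((8 * k0 : ℕ) : ℤ) := by exact_mod_cast h1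
        exact Nat.isCoprime_iff_coprime.1 h2
    rw [h0]
    positivity
  have hPk : P ∣ 8 * k0 := ((Dvd.intro_left 24 rfl).trans he.h24).mul_left 8
  have hγP : γ.Coprime P := Nat.Coprime.coprime_dvd_right hPk hγ
  set q := V / P + 1 with hq
  have hVq : V ≤ P * q := by
    rw [hq, Nat.mul_succ]
    have h1 := Nat.div_add_mod V P
    have h2 := Nat.mod_lt V he.hP
    omega
  have hqle : (q : ℝ) ≤ 2 * (V / P) := by
    have h1 : (((V / P : ℕ)) : ℝ) ≤ (V : ℝ) / P := Nat.cast_div_le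
    have h2 : (1 : ℝ) ≤ (V : ℝ) / P := by
      rw [one_le_div hP]
      exact_mod_cast hPV
    rw [hq]
    push_cast
    linarith
  have hper : ∀ x : ℕ, (fun b : ℕ => β ((γ : ℤ) * b) ^ 2) (x + P) =
      (fun b : ℕ => β ((γ : ℤ) * b) ^ 2) x := by
    intro x
    show β ((γ : ℤ) * ((x + P : ℕ) : ℤ)) ^ 2 = β ((γ : ℤ) * x) ^ 2
    have h1 := HMean_mod β P he.bper (γ * (x + P))
    have h2 := HMean_mod β P he.bper (γ * x)
    have h3 : γ * (x + P) % P = γ * x % P := by
      rw [mul_add, Nat.add_mul_mod_self_right]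
    rw [h3, ← h2] at h1
    push_cast at h1 ⊢
    rw [h1]
  calc ∑ b ∈ Ico V (2 * V), ‖H ((γ * b : ℕ) : ℤ)‖ ^ 2
      ≤ ∑ b ∈ Ico V (2 * V), ((k0 : ℝ) / P) ^ 2 * β ((γ : ℤ) * b) ^ 2 := by
        refine Finset.sum_le_sum fun b _ => ?_
        rw [← mul_pow]
        have := he.bd ((γ * b : ℕ) : ℤ)
        push_cast at this ⊢
        exact pow_le_pow_left₀ (norm_nonneg _) this 2
    _ = ((k0 : ℝ) / P) ^ 2 * ∑ b ∈ Ico V (2 * V), β ((γ : ℤ) * b) ^ 2 := by
        rw [← Finset.mul_sum]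
    _ ≤ ((k0 : ℝ) / P) ^ 2 * ∑ b ∈ Ico V (V + P * q), β ((γ : ℤ) * b) ^ 2 := by
        refine mul_le_mul_of_nonneg_left ?_ (by positivity)
        refine Finset.sum_le_sum_of_subset_of_nonneg ?_ fun b _ _ => by positivity
        exact Finset.Ico_subset_Ico_right (by omega)
    _ = ((k0 : ℝ) / P) ^ 2 * (q * ∑ i ∈ range P, β i ^ 2) := by
        congr 1
        rw [Finset.sum_Ico_eq_sum_range]
        have e1 : V + P * q - V = P * q := by omega
        rw [e1]
        have e2 := HMean_blocks (fun i => (fun b : ℕ => β ((γ : ℤ) * b) ^ 2) (V + i)) P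
          (fun x => by
            show (fun b : ℕ => β ((γ : ℤ) * b) ^ 2) (V + (x + P)) = _
            rw [← add_assoc]
            exact hper _) q
        have e3 := HMean_shift (fun b : ℕ => β ((γ : ℤ) * b) ^ 2) P hper V
        have e4 := HMean_perm (fun z => β z ^ 2) P he.hP (fun x => by
          show β (x + P) ^ 2 = β x ^ 2
          rw [he.bper]) γ hγP
        rw [e2, e3, e4]
    _ ≤ ((k0 : ℝ) / P) ^ 2 * (2 * (V / P) * (A * (P : ℝ) ^ 2)) := by
        refine mul_le_mul_of_nonneg_left ?_ (by positivity)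
        exact mul_le_mul hqle (HMean_sq he) (Finset.sum_nonneg fun _ _ => by positivity)
          (by positivity)
    _ = 2 * A * ((k0 : ℝ) ^ 2 / P) * V := by
        field_simp

theorem hmean {P k0 : ℕ} {A : ℝ} {H : ℤ → ℂ} {β : ℤ → ℝ} (he : Env P k0 A H β) (α U V : ℕ)
    (hU : 0 < U) (hV : 0 < V) (hUV : P ^ 2 ≤ U * V) :
    ∑ a ∈ Ico U (2 * U), ∑ b ∈ Ico V (2 * V), ‖H ((α * a * b : ℕ) : ℤ)‖ ^ 2 ≤
      4 * A * ((k0 : ℝ) ^ 2 / P) * (U * V) := by
  have hA := he.hA
  have hP : (0 : ℝ) < P := by exact_mod_cast he.hP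
  have hcase : P ≤ V ∨ P ≤ U := by
    by_contra hcon
    push Not at hcon
    have : U * V < P ^ 2 := by nlinarith [hcon.1, hcon.2]
    omega
  have hfin : ∀ c : ℝ, 0 ≤ c → 2 * A * ((k0 : ℝ) ^ 2 / P) * c ≤ 4 * A * ((k0 : ℝ) ^ 2 / P) * c := by
    intro c hc
    have : 0 ≤ A * ((k0 : ℝ) ^ 2 / P) * c := by positivity
    nlinarith
  rcases hcase with h | h
  · calc ∑ a ∈ Ico U (2 * U), ∑ b ∈ Ico V (2 * V), ‖H ((α * a * b : ℕ) : ℤ)‖ ^ 2
        ≤ ∑ a ∈ Ico U (2 * U), 2 * A * ((k0 : ℝ) ^ 2 / P) * V :=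
          Finset.sum_le_sum fun a _ => HMean_inner he (α * a) V hV h
      _ = 2 * A * ((k0 : ℝ) ^ 2 / P) * (U * V) := by
          rw [Finset.sum_const, Nat.card_Ico, nsmul_eq_mul]
          have : 2 * U - U = U := by omega
          rw [this]
          ring
      _ ≤ _ := hfin _ (by positivity)
  · rw [Finset.sum_comm]
    calc ∑ b ∈ Ico V (2 * V), ∑ a ∈ Ico U (2 * U), ‖H ((α * a * b : ℕ) : ℤ)‖ ^ 2
        ≤ ∑ b ∈ Ico V (2 * V), 2 * A * ((k0 : ℝ) ^ 2 / P) * U := by
          refine Finset.sum_le_sum fun b _ => ?_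
          have h1 := HMean_inner he (α * b) U hU h
          refine le_trans (le_of_eq ?_) h1
          refine Finset.sum_congr rfl fun a _ => ?_
          rw [mul_right_comm]
      _ = 2 * A * ((k0 : ℝ) ^ 2 / P) * (U * V) := by
          rw [Finset.sum_const, Nat.card_Ico, nsmul_eq_mul]
          have : 2 * V - V = V := by omega
          rw [this]
          ring
      _ ≤ _ := hfin _ (by positivity)

end Pool.Agent.Work.MP_af11aa_nt.T
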