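import Mathlib
import Pool.Agent.Work.MP_af11aa_nt.T.HMean

/-!
MODULE Diag (diagonal terms).
‖FA Q a b‖ ≤ ‖H(Qab)‖ ‖wgt(Qab)‖ (W.cj_norm, W.norm_eI) ≤ ‖H(Qab)‖ 2/(k0 √(Qab)) (W.norm_wgt_le in W/FixK.lean), Qab ≥ Y U V, so
‖FA‖² ≤ ‖H(Qab)‖² 4/(k0² Y U V); HMean.hmean with α = Q. The same for FB.
-/

set_option autoImplicit false

namespace Pool.Agent.Work.MP_af11aa_nt.T

open Finset ComplexConjugate Pool.Agent.Work.MP_af11aa_nt.W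

private lemma diag_gen {P k0 m1 m2 n Y Z : ℕ} {S : Finset ℕ} (hp : Par P k0 m1 m2 n Y Z S) {A : ℝ}
    {H : ℤ → ℂ} {β : ℤ → ℝ} (he : Env P k0 A H β) {y : ℝ}
    (hy : y ∈ Set.Ico (1 / ((m2 * m1 : ℕ) : ℝ)) (2 / ((m2 * m1 : ℕ) : ℝ))) (s : ℝ)
    (σ : Bool) {U V : ℕ} (hU : 0 < U) (hV : 0 < V) (hUV : P ^ 2 ≤ U * V) {Q : ℕ} (hQ : Q ∈ S)
    (F : ℕ → ℕ → ℂ)
    (hF : ∀ a b : ℕ, ‖F a b‖ ≤ ‖H ((Q * a * b : ℕ) : ℤ)‖ *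
      ‖wgt (m2 * m1) k0 y s σ ((Q * a * b : ℕ) : ℝ)‖) :
    ∑ a ∈ Ico U (2 * U), ∑ b ∈ Ico V (2 * V), ‖F a b‖ ^ 2 ≤ 16 * A / (P * Y) := by
  obtain ⟨hQp, hQY, _, _⟩ := hp.hS Q hQ
  have hm : 0 < m2 * m1 := by
    have h1 : 0 < m1 := hp.hm1o.pos
    rcases hp.hm2 with h | h <;> rw [h] <;> omega
  have hYpos : 0 < Y := by
    rw [hp.hY]; exact pow_pos hp.hZ 3
  have hk0 : (0 : ℝ) < k0 := by exact_mod_cast he.hk0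
  have hPr : (0 : ℝ) < P := by exact_mod_cast he.hP
  have hYr : (0 : ℝ) < Y := by exact_mod_cast hYpos
  have hUr : (0 : ℝ) < U := by exact_mod_cast hU
  have hVr : (0 : ℝ) < V := by exact_mod_cast hV
  have hA : 0 ≤ A := le_trans zero_le_one he.hA
  have hterm : ∀ a ∈ Ico U (2 * U), ∀ b ∈ Ico V (2 * V),
      ‖F a b‖ ^ 2 ≤ 4 / ((k0 : ℝ) ^ 2 * (Y * U * V)) * ‖H ((Q * a * b : ℕ) : ℤ)‖ ^ 2 := by
    intro a ha b hb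
    rw [mem_Ico] at ha hb
    have hc : Y * U * V ≤ Q * a * b := by
      gcongr
      · exact ha.1
      · exact hb.1
    have hcr : (Y : ℝ) * U * V ≤ ((Q * a * b : ℕ) : ℝ) := by exact_mod_cast hc
    have hYUV : (0 : ℝ) < (Y : ℝ) * U * V := by positivity
    have hcpos : (0 : ℝ) < ((Q * a * b : ℕ) : ℝ) := lt_of_lt_of_le hYUV hcr
    have hw := norm_wgt_le (m2 * m1) k0 hm he.hk0 hy s σ hcpos
    have hw2 : ‖wgt (m2 * m1) k0 y s σ ((Q * a * b : ℕ) : ℝ)‖ ^ 2 ≤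
        4 / ((k0 : ℝ) ^ 2 * (Y * U * V)) := by
      calc ‖wgt (m2 * m1) k0 y s σ ((Q * a * b : ℕ) : ℝ)‖ ^ 2 ≤
            (2 / (k0 * Real.sqrt ((Q * a * b : ℕ) : ℝ))) ^ 2 := by
              gcongr
        _ = 4 / ((k0 : ℝ) ^ 2 * ((Q * a * b : ℕ) : ℝ)) := by
            rw [div_pow, mul_pow, Real.sq_sqrt hcpos.le]; norm_num
        _ ≤ 4 / ((k0 : ℝ) ^ 2 * (Y * U * V)) := by
            gcongr
    calc ‖F a b‖ ^ 2 ≤ (‖H ((Q * a * b : ℕ) : ℤ)‖ *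
          ‖wgt (m2 * m1) k0 y s σ ((Q * a * b : ℕ) : ℝ)‖) ^ 2 := by
            gcongr
            exact hF a b
      _ = ‖wgt (m2 * m1) k0 y s σ ((Q * a * b : ℕ) : ℝ)‖ ^ 2 *
          ‖H ((Q * a * b : ℕ) : ℤ)‖ ^ 2 := by ring
      _ ≤ _ := by gcongr
  have hmean := hmean he Q U V hU hV hUV
  calc ∑ a ∈ Ico U (2 * U), ∑ b ∈ Ico V (2 * V), ‖F a b‖ ^ 2
      ≤ ∑ a ∈ Ico U (2 * U), ∑ b ∈ Ico V (2 * V),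
          4 / ((k0 : ℝ) ^ 2 * (Y * U * V)) * ‖H ((Q * a * b : ℕ) : ℤ)‖ ^ 2 :=
        Finset.sum_le_sum fun a ha ↦ Finset.sum_le_sum fun b hb ↦ hterm a ha b hb
    _ = 4 / ((k0 : ℝ) ^ 2 * (Y * U * V)) *
          ∑ a ∈ Ico U (2 * U), ∑ b ∈ Ico V (2 * V), ‖H ((Q * a * b : ℕ) : ℤ)‖ ^ 2 := by
        rw [Finset.mul_sum]
        exact Finset.sum_congr rfl fun a _ ↦ (Finset.mul_sum _ _ _).symm
    _ ≤ 4 / ((k0 : ℝ) ^ 2 * (Y * U * V)) * (4 * A * ((k0 : ℝ) ^ 2 / P) * (U * V)) := by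
        gcongr
    _ = 16 * A / (P * Y) := by
        field_simp
        ring

theorem diagA {P k0 m1 m2 n Y Z : ℕ} {S : Finset ℕ} (hp : Par P k0 m1 m2 n Y Z S) {A : ℝ}
    {H : ℤ → ℂ} {β : ℤ → ℝ} (he : Env P k0 A H β) {y : ℝ}
    (hy : y ∈ Set.Ico (1 / ((m2 * m1 : ℕ) : ℝ)) (2 / ((m2 * m1 : ℕ) : ℝ))) (s : ℝ) (X : ℕ)
    (σ : Bool) {U V : ℕ} (hU : 0 < U) (hV : 0 < V) (hUV : P ^ 2 ≤ U * V) {Q : ℕ} (hQ : Q ∈ S) :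
    ∑ a ∈ Ico U (2 * U), ∑ b ∈ Ico V (2 * V), ‖FA (m2 * m1) k0 n H y s X σ Q a b‖ ^ 2 ≤
      16 * A / (P * Y) := by
  apply diag_gen hp he hy s σ hU hV hUV hQ
  intro a b
  unfold FA
  split_ifs
  · rw [norm_mul, norm_mul, cj_norm, norm_eI, mul_one]
  · rw [norm_zero]; positivity

theorem diagB {P k0 m1 m2 n Y Z : ℕ} {S : Finset ℕ} (hp : Par P k0 m1 m2 n Y Z S) {A : ℝ}
    {H : ℤ → ℂ} {β : ℤ → ℝ} (he : Env P k0 A H β) {y : ℝ}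
    (hy : y ∈ Set.Ico (1 / ((m2 * m1 : ℕ) : ℝ)) (2 / ((m2 * m1 : ℕ) : ℝ))) (s : ℝ) (X : ℕ)
    (σ : Bool) {U V : ℕ} (hU : 0 < U) (hV : 0 < V) (hUV : P ^ 2 ≤ U * V) {Q : ℕ} (hQ : Q ∈ S) :
    ∑ a ∈ Ico U (2 * U), ∑ b ∈ Ico V (2 * V), ‖FB (m2 * m1) k0 n H y s X σ Q a b‖ ^ 2 ≤
      16 * A / (P * Y) := by
  apply diag_gen hp he hy s σ hU hV hUV hQ
  intro a b
  unfold FB
  split_ifs
  · rw [norm_mul, norm_mul, cj_norm, norm_eI, mul_one]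
  · rw [norm_zero]; positivity

end Pool.Agent.Work.MP_af11aa_nt.T
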