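import Mathlib
import Pool.Agent.Work.MP_af11aa_nt.W.Arith
import Pool.Agent.Work.MP_af11aa_nt.W.KCrt

/-!
Helper file for ClFour and ClAbel: orthogonality of additive characters modulo `N`.
-/

set_option autoImplicit false

namespace Pool.Agent.Work.MP_af11aa_nt.T

open Finset ComplexConjugate Pool.Agent.Work.MP_af11aa_nt.W

theorem eo_zero (N : ℕ) : ec N 0 = 1 := by
  unfold ec
  simp

theorem eo_conj (N : ℕ) (z : ℤ) : conj (ec N z) = ec N (-z) := by
  unfold ec
  rw [← Complex.exp_conj]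
  congr 1
  simp only [map_div₀, map_mul, Complex.conj_ofReal, Complex.conj_I, map_natCast, map_intCast,
    map_ofNat]
  push_cast
  ring

theorem eo_pow (N : ℕ) (t : ℤ) (j : ℕ) : ec N ((j : ℤ) * t) = ec N t ^ j := by
  unfold ec
  rw [← Complex.exp_nat_mul]
  congr 1
  push_cast
  ring

theorem eo_one_iff (N : ℕ) (hN : 0 < N) (t : ℤ) : ec N t = 1 ↔ (N : ℤ) ∣ t := by
  have hN' : (N : ℂ) ≠ 0 := by exact_mod_cast hN.ne'
  constructor
  · intro h
    unfold ec at h
    rw [Complex.exp_eq_one_iff] at h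
    obtain ⟨n, hn⟩ := h
    refine ⟨n, ?_⟩
    have h2 : (2 * (Real.pi : ℂ) * Complex.I) ≠ 0 := Complex.two_pi_I_ne_zero
    have h3 : (2 * (Real.pi : ℂ) * Complex.I) * (t : ℂ) = (2 * (Real.pi : ℂ) * Complex.I) *
        ((N : ℂ) * n) := by
      have h4 : 2 * (Real.pi : ℂ) * Complex.I * t = (2 * (Real.pi : ℂ) * Complex.I * t / N) * N := by
        field_simp
      rw [h4, hn]
      ring
    have h5 := mul_left_cancel₀ h2 h3
    exact_mod_cast h5
  · rintro ⟨k, rfl⟩
    exact kcrt_ec_self hN.ne' k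

theorem eo_orth (N : ℕ) (hN : 0 < N) (t : ℤ) :
    ∑ j ∈ range N, ec N ((j : ℤ) * t) = if (N : ℤ) ∣ t then (N : ℂ) else 0 := by
  simp_rw [eo_pow]
  split_ifs with h
  · rw [(eo_one_iff N hN t).2 h]
    simp
  · have h1 : ec N t ≠ 1 := fun h2 => h ((eo_one_iff N hN t).1 h2)
    rw [geom_sum_eq h1, ← eo_pow, kcrt_ec_self hN.ne', sub_self, zero_div]

/-- Parseval for pairwise incongruent frequencies -/
theorem eo_pars {ι : Type*} [DecidableEq ι] (N : ℕ) (hN : 0 < N) (s : Finset ι) (a : ι → ℤ)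
    (c : ι → ℂ) (ha : ∀ i ∈ s, ∀ i' ∈ s, (N : ℤ) ∣ a i - a i' → i = i') :
    ∑ j ∈ range N, ‖∑ i ∈ s, c i * ec N ((j : ℤ) * a i)‖ ^ 2 = N * ∑ i ∈ s, ‖c i‖ ^ 2 := by
  have h1 : ∀ z : ℂ, ((‖z‖ ^ 2 : ℝ) : ℂ) = z * conj z := by
    intro z
    rw [Complex.mul_conj, Complex.normSq_eq_norm_sq]
  have h2 : ((∑ j ∈ range N, ‖∑ i ∈ s, c i * ec N ((j : ℤ) * a i)‖ ^ 2 : ℝ) : ℂ) =
      ((N * ∑ i ∈ s, ‖c i‖ ^ 2 : ℝ) : ℂ) := by
    push_cast
    simp_rw [← Complex.ofReal_pow, h1]
    calc ∑ j ∈ range N, (∑ i ∈ s, c i * ec N ((j : ℤ) * a i)) *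
          conj (∑ i ∈ s, c i * ec N ((j : ℤ) * a i))
        = ∑ j ∈ range N, ∑ i ∈ s, ∑ i' ∈ s, c i * conj (c i') * ec N ((j : ℤ) * (a i - a i')) := by
          refine Finset.sum_congr rfl fun j _ => ?_
          rw [map_sum, Finset.sum_mul_sum]
          refine Finset.sum_congr rfl fun i _ => Finset.sum_congr rfl fun i' _ => ?_
          rw [map_mul, eo_conj]
          have : (j : ℤ) * (a i - a i') = (j : ℤ) * a i + -((j : ℤ) * a i') := by ring
          rw [this, kcrt_ec_add]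
          ring
      _ = ∑ i ∈ s, ∑ i' ∈ s, c i * conj (c i') * ∑ j ∈ range N, ec N ((j : ℤ) * (a i - a i')) := by
          rw [Finset.sum_comm]
          refine Finset.sum_congr rfl fun i _ => ?_
          rw [Finset.sum_comm]
          exact Finset.sum_congr rfl fun i' _ => (Finset.mul_sum _ _ _).symm
      _ = ∑ i ∈ s, c i * conj (c i) * N := by
          refine Finset.sum_congr rfl fun i hi => ?_
          rw [Finset.sum_eq_single i]
          · rw [eo_orth N hN, if_pos (by simp)]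
          · intro i' hi' hne
            rw [eo_orth N hN, if_neg (fun h => hne (ha i hi i' hi' h).symm), mul_zero]
          · intro h
            exact absurd hi h
      _ = _ := by
          rw [Finset.mul_sum]
          exact Finset.sum_congr rfl fun i _ => by ring
  exact_mod_cast h2

theorem eo_per (N : ℕ) (h : ℤ → ℂ) (hh : ∀ x, h (x + N) = h x) (k : ℤ) (x : ℤ) :
    h (x + N * k) = h x := by
  induction k using Int.induction_on with
  | zero => simp
  | succ n ih =>
    rw [show x + N * ((n : ℤ) + 1) = (x + N * n) + N by ring, hh, ih]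
  | pred n ih =>
    have := hh (x + N * (-(n : ℤ) - 1))
    rw [show x + N * (-(n : ℤ) - 1) + N = x + N * (-(n : ℤ)) by ring] at this
    rw [← this, ih]

theorem eo_congr (N : ℕ) (h : ℤ → ℂ) (hh : ∀ x, h (x + N) = h x) (x y : ℤ)
    (hxy : (N : ℤ) ∣ y - x) : h x = h y := by
  obtain ⟨k, hk⟩ := hxy
  have : y = x + N * k := by linarith
  rw [this, eo_per N h hh]

/-- the distance of `e(j/N)` from one -/
theorem eo_dist (N j : ℕ) (hj : 0 < j) (hjN : j < N) :
    4 * ((min j (N - j) : ℕ) : ℝ) / N ≤ ‖ec N (j : ℤ) - 1‖ := by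
  have hN0 : (0 : ℝ) < N := by exact_mod_cast (by omega : 0 < N)
  have h1 : ec N (j : ℤ) = Complex.exp (Complex.I * ((2 * Real.pi * j / N : ℝ) : ℂ)) := by
    unfold ec
    congr 1
    push_cast
    ring
  rw [h1, Complex.norm_exp_I_mul_ofReal_sub_one]
  have h2 : 2 * Real.pi * j / N / 2 = Real.pi * j / N := by ring
  rw [h2, norm_mul, Real.norm_of_nonneg (by norm_num : (0 : ℝ) ≤ 2)]
  have hpi := Real.pi_pos
  have key : ∀ i : ℕ, 2 * i ≤ N → 2 * (i : ℝ) / N ≤ Real.sin (Real.pi * i / N) := by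
    intro i hi
    have hi' : 2 * (i : ℝ) ≤ N := by exact_mod_cast hi
    have h3 := Real.mul_le_sin (x := Real.pi * i / N) (by positivity) (by
      rw [div_le_iff₀ hN0]
      nlinarith)
    refine le_trans (le_of_eq ?_) h3
    field_simp
  have h4 : 2 * ((min j (N - j) : ℕ) : ℝ) / N ≤ Real.sin (Real.pi * j / N) := by
    rcases le_total j (N - j) with h | h
    · rw [min_eq_left h]
      exact key j (by omega)
    · rw [min_eq_right h]
      have h5 := key (N - j) (by omega)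
      have h6 : Real.sin (Real.pi * ((N - j : ℕ) : ℝ) / N) = Real.sin (Real.pi * j / N) := by
        rw [← Real.sin_pi_sub (Real.pi * j / N)]
        congr 1
        rw [Nat.cast_sub hjN.le]
        field_simp
      rwa [h6] at h5
  have h7 : 4 * ((min j (N - j) : ℕ) : ℝ) / N = 2 * (2 * ((min j (N - j) : ℕ) : ℝ) / N) := by ring
  rw [h7]
  exact mul_le_mul_of_nonneg_left (h4.trans (le_abs_self _)) (by norm_num)

end Pool.Agent.Work.MP_af11aa_nt.T
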