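import Mathlib
import Pool.Agent.Work.MP_af11aa_nt.W.Arith
import Pool.Agent.Work.MP_af11aa_nt.T.EcOrth

/-!
MODULE ClAbel (Fourier tools for sums over an interval). ĝ(j) = ∑_{x0 < b ≤ x1} g b e(j b/N).
(inv) F of period N: F b = (1/N) ∑_{j<N} (∑_{x<N} F x e(-j x/N)) e(j b/N); multiply by g b and sum.
(pars) x1 - x0 ≤ N: the b in Ioc x0 x1 are distinct mod N; expand the square and use orthogonality of characters.
(abel) j in (0,N): put Δ(j) = ∑_{x0 < b < x1} (g(b+1) - g b) e(j b/N). Then (1 - e(j/N)) ĝ(j)·(unit) = boundary terms (two terms of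
 norm ≤ G) ± (unit) Δ(j) by summation by parts, and |1 - e(j/N)| = 2 sin(π j/N) ≥ 4 min(j, N-j)/N.
-/

set_option autoImplicit false

namespace Pool.Agent.Work.MP_af11aa_nt.T

open Finset Pool.Agent.Work.MP_af11aa_nt.W

theorem cl_inv (N : ℕ) (hN : 0 < N) (F : ℤ → ℂ) (hF : ∀ x, F (x + N) = F x) (g : ℕ → ℂ)
    (s : Finset ℕ) :
    ∑ b ∈ s, g b * F b = (1 / (N : ℂ)) * ∑ j ∈ range N, (∑ x ∈ range N, F x * ec N (-((j : ℤ) * x))) *
      ∑ b ∈ s, g b * ec N ((j : ℤ) * b) := by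
  have hN' : (N : ℂ) ≠ 0 := by exact_mod_cast hN.ne'
  have h1 : ∀ b : ℕ, ∑ x ∈ range N, F x * ∑ j ∈ range N, ec N ((j : ℤ) * (b - x)) = N * F b := by
    intro b
    have h2 : F (b : ℤ) = F ((b % N : ℕ) : ℤ) := by
      refine eo_congr N F hF _ _ ⟨-(b / N : ℕ), ?_⟩
      have := Nat.div_add_mod b N
      have h2 : (b : ℤ) = N * (b / N : ℕ) + (b % N : ℕ) := by exact_mod_cast this.symm
      linarith
    rw [Finset.sum_eq_single (b % N)]
    · rw [eo_orth N hN, if_pos, h2, mul_comm]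
      have := Nat.div_add_mod b N
      have h3 : (b : ℤ) = N * (b / N : ℕ) + (b % N : ℕ) := by exact_mod_cast this.symm
      exact ⟨(b / N : ℕ), by linarith⟩
    · intro x hx hne
      rw [eo_orth N hN, if_neg, mul_zero]
      intro hdvd
      apply hne
      rw [Finset.mem_range] at hx
      have h4 : (x : ℤ) ≡ b [ZMOD N] := (Int.modEq_iff_dvd).2 hdvd
      have h5 : x ≡ b [MOD N] := Int.natCast_modEq_iff.1 h4
      have h6 : x % N = b % N := h5
      rw [Nat.mod_eq_of_lt hx] at h6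
      exact h6
    · intro h
      exact absurd (Finset.mem_range.2 (Nat.mod_lt b hN)) h
  have h2 : ∑ j ∈ range N, (∑ x ∈ range N, F x * ec N (-((j : ℤ) * x))) *
      ∑ b ∈ s, g b * ec N ((j : ℤ) * b) = ∑ b ∈ s, g b * (N * F b) := by
    calc _ = ∑ j ∈ range N, ∑ b ∈ s, ∑ x ∈ range N, g b * (F x * ec N ((j : ℤ) * (b - x))) := by
          refine Finset.sum_congr rfl fun j _ => ?_
          rw [mul_comm, Finset.sum_mul_sum]
          refine Finset.sum_congr rfl fun b _ => Finset.sum_congr rfl fun x _ => ?_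
          have : (j : ℤ) * (b - x) = (j : ℤ) * b + -((j : ℤ) * x) := by ring
          rw [this, kcrt_ec_add]
          ring
      _ = ∑ b ∈ s, g b * ∑ x ∈ range N, F x * ∑ j ∈ range N, ec N ((j : ℤ) * (b - x)) := by
          rw [Finset.sum_comm]
          refine Finset.sum_congr rfl fun b _ => ?_
          rw [Finset.sum_comm, Finset.mul_sum]
          refine Finset.sum_congr rfl fun x _ => ?_
          rw [Finset.mul_sum, Finset.mul_sum]
      _ = _ := Finset.sum_congr rfl fun b _ => by rw [h1]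
  rw [h2, Finset.mul_sum]
  refine Finset.sum_congr rfl fun b _ => ?_
  field_simp

theorem cl_pars (N x0 x1 : ℕ) (hN : 0 < N) (hx : x1 ≤ x0 + N) (g : ℕ → ℂ) (s : Finset ℕ)
    (hs : s ⊆ Ioc x0 x1) :
    ∑ j ∈ range N, ‖∑ b ∈ s, g b * ec N ((j : ℤ) * b)‖ ^ 2 = N * ∑ b ∈ s, ‖g b‖ ^ 2 := by
  refine eo_pars N hN s (fun b => (b : ℤ)) g ?_
  intro b hb b' hb' hdvd
  have h1 := Finset.mem_Ioc.1 (hs hb)
  have h2 := Finset.mem_Ioc.1 (hs hb')
  obtain ⟨k, hk⟩ := hdvd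
  have h3 : |(b : ℤ) - b'| < N := by
    rw [abs_lt]
    constructor <;> omega
  have h4 : k = 0 := by
    by_contra hne
    have h5 : 1 ≤ |k| := Int.one_le_abs hne
    have h6 : (N : ℤ) ≤ |(b : ℤ) - b'| := by
      have hk' : (b : ℤ) - b' = N * k := hk
      rw [hk', abs_mul, Nat.abs_cast]
      have : (0 : ℤ) ≤ N := Int.natCast_nonneg N
      nlinarith
    omega
  have hk' : (b : ℤ) - b' = N * k := hk
  rw [h4, mul_zero] at hk'
  omega

private theorem ab_parts (ζ : ℂ) (g : ℕ → ℂ) (x0 n : ℕ) :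
    (ζ - 1) * ∑ b ∈ Ioc x0 (x0 + n + 1), g b * ζ ^ b =
      g (x0 + n + 1) * ζ ^ (x0 + n + 2) - g (x0 + 1) * ζ ^ (x0 + 1) -
        ζ * ∑ b ∈ Ioo x0 (x0 + n + 1), (g (b + 1) - g b) * ζ ^ b := by
  induction n with
  | zero =>
    have h1 : Ioc x0 (x0 + 0 + 1) = {x0 + 1} := by
      ext b
      rw [Finset.mem_Ioc, Finset.mem_singleton]
      omega
    have h2 : Ioo x0 (x0 + 0 + 1) = ∅ := by
      rw [Finset.eq_empty_iff_forall_notMem]
      intro b hb
      rw [Finset.mem_Ioo] at hb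
      omega
    rw [h1, h2, Finset.sum_singleton, Finset.sum_empty]
    ring
  | succ n ih =>
    have h1 : Ioc x0 (x0 + (n + 1) + 1) = insert (x0 + n + 2) (Ioc x0 (x0 + n + 1)) := by
      ext b
      rw [Finset.mem_insert, Finset.mem_Ioc, Finset.mem_Ioc]
      omega
    have h2 : Ioo x0 (x0 + (n + 1) + 1) = insert (x0 + n + 1) (Ioo x0 (x0 + n + 1)) := by
      ext b
      rw [Finset.mem_insert, Finset.mem_Ioo, Finset.mem_Ioo]
      omega
    rw [h1, h2, Finset.sum_insert (by rw [Finset.mem_Ioc]; omega),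
      Finset.sum_insert (by rw [Finset.mem_Ioo]; omega), mul_add, ih]
    rw [show x0 + (n + 1) + 1 = x0 + n + 2 by ring, show x0 + (n + 1) + 2 = x0 + n + 2 + 1 by ring,
      show x0 + n + 1 + 1 = x0 + n + 2 by ring]
    ring

theorem cl_abel (N x0 x1 j : ℕ) (hj : 0 < j) (hjN : j < N) (g : ℕ → ℂ) (G : ℝ) (hG0 : 0 ≤ G)
    (hG : ∀ b ∈ Ioc x0 x1, ‖g b‖ ≤ G) :
    ‖∑ b ∈ Ioc x0 x1, g b * ec N ((j : ℤ) * b)‖ ≤
      (N : ℝ) / (4 * (min j (N - j) : ℕ)) *
        (2 * G + ‖∑ b ∈ Ioo x0 x1, (g (b + 1) - g b) * ec N ((j : ℤ) * b)‖) := by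
  have hN0 : (0 : ℝ) < N := by exact_mod_cast (by omega : 0 < N)
  have hmin : (0 : ℝ) < ((min j (N - j) : ℕ) : ℝ) := by
    exact_mod_cast (by omega : 0 < min j (N - j))
  rcases Nat.lt_or_ge x0 x1 with hx | hx
  · obtain ⟨n, hn⟩ : ∃ n, x1 = x0 + n + 1 := ⟨x1 - x0 - 1, by omega⟩
    subst hn
    set ζ := ec N (j : ℤ) with hζ
    have hpow : ∀ b : ℕ, ec N ((j : ℤ) * b) = ζ ^ b := by
      intro b
      rw [mul_comm, eo_pow]
    simp_rw [hpow]
    have h1 := ab_parts ζ g x0 n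
    have hz : ‖ζ‖ = 1 := norm_ec N _
    have h2 : ‖ζ - 1‖ * ‖∑ b ∈ Ioc x0 (x0 + n + 1), g b * ζ ^ b‖ ≤
        2 * G + ‖∑ b ∈ Ioo x0 (x0 + n + 1), (g (b + 1) - g b) * ζ ^ b‖ := by
      rw [← norm_mul, h1]
      refine (norm_sub_le _ _).trans ?_
      rw [norm_mul ζ, hz, one_mul]
      refine add_le_add ?_ le_rfl
      refine (norm_sub_le _ _).trans ?_
      rw [norm_mul, norm_mul, norm_pow, norm_pow, hz, one_pow, one_pow, mul_one, mul_one]
      have h3 := hG (x0 + n + 1) (Finset.mem_Ioc.2 ⟨by omega, le_rfl⟩)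
      have h4 := hG (x0 + 1) (Finset.mem_Ioc.2 ⟨by omega, by omega⟩)
      linarith
    have h5 := eo_dist N j hj hjN
    rw [← hζ] at h5
    have h6 : 4 * ((min j (N - j) : ℕ) : ℝ) / N *
        ‖∑ b ∈ Ioc x0 (x0 + n + 1), g b * ζ ^ b‖ ≤
        2 * G + ‖∑ b ∈ Ioo x0 (x0 + n + 1), (g (b + 1) - g b) * ζ ^ b‖ :=
      (mul_le_mul_of_nonneg_right h5 (norm_nonneg _)).trans h2
    set A := ‖∑ b ∈ Ioc x0 (x0 + n + 1), g b * ζ ^ b‖
    have h7 : A = (N : ℝ) / (4 * ((min j (N - j) : ℕ) : ℝ)) *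
        (4 * ((min j (N - j) : ℕ) : ℝ) / N * A) := by
      field_simp
    rw [h7]
    exact mul_le_mul_of_nonneg_left h6 (by positivity)
  · have h1 : Ioc x0 x1 = ∅ := by
      rw [Finset.eq_empty_iff_forall_notMem]
      intro b hb
      rw [Finset.mem_Ioc] at hb
      omega
    rw [h1, Finset.sum_empty, norm_zero]
    positivity

end Pool.Agent.Work.MP_af11aa_nt.T
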