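import Mathlib
import Pool.Agent.Work.MP_af11aa_nt.W.Arith
import Pool.Agent.Work.MP_af11aa_nt.T.EcOrth

/-!
MODULE ClFour (Fourier transform of a product of periodic functions of coprime periods).
w j := ‖∑_{x < D} h x e(-(j μ x)/D)‖ with μ an inverse of M modulo D. CRT: for x mod M D and any j,
e(-j x/(M D)) = e(-j μ x/D) e(-j δ x/M) with δ an inverse of D modulo M (W.kcrt_two or W.sqp_crt), so the sum over x mod M D factors
as (∑_{x<D} h x e(-j μ x/D)) (∑_{x<M} k x e(-j δ x/M)), the second factor is ≤ K. Parseval modulo D: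
∑_{ρ<D} w ρ² = D ∑_{x<D} ‖h x‖² (expand the square; ∑_ρ e(ρ μ (x'-x)/D) = D if x = x' mod D, else 0, as μ is a unit).
(ec_periodic facts: ec c (z + c t) = ec c z, see W/KCrt.lean; W/KCrt.lean kcrt_sum has the CRT bijection for coprime residues.)
-/

set_option autoImplicit false

namespace Pool.Agent.Work.MP_af11aa_nt.T

open Finset Pool.Agent.Work.MP_af11aa_nt.W

private theorem cf_sum {a b : ℕ} (ha : a ≠ 0) (hb : b ≠ 0) (hab : a.Coprime b) (F G : ℕ → ℂ)
    (hF : ∀ y, F (y % a) = F y) (hG : ∀ y, G (y % b) = G y) :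
    ∑ y ∈ range (a * b), F y * G y = (∑ y ∈ range a, F y) * ∑ y ∈ range b, G y := by
  rw [Finset.sum_mul_sum, ← Finset.sum_product']
  refine Finset.sum_nbij' (fun y => (y % a, y % b))
    (fun p => (Nat.chineseRemainder hab p.1 p.2 : ℕ)) ?_ ?_ ?_ ?_ ?_
  · intro y _
    rw [Finset.mem_product, Finset.mem_range, Finset.mem_range]
    exact ⟨Nat.mod_lt _ (Nat.pos_of_ne_zero ha), Nat.mod_lt _ (Nat.pos_of_ne_zero hb)⟩
  · intro p _
    rw [Finset.mem_range]
    exact Nat.chineseRemainder_lt_mul hab _ _ ha hb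
  · intro y hy
    rw [Finset.mem_range] at hy
    have h1 := (Nat.chineseRemainder hab (y % a) (y % b)).2.1
    have h2 := (Nat.chineseRemainder hab (y % a) (y % b)).2.2
    have h3 : (Nat.chineseRemainder hab (y % a) (y % b) : ℕ) ≡ y [MOD a * b] :=
      (Nat.modEq_and_modEq_iff_modEq_mul hab).1
        ⟨h1.trans (Nat.mod_modEq y a), h2.trans (Nat.mod_modEq y b)⟩
    exact Nat.ModEq.eq_of_lt_of_lt h3 (Nat.chineseRemainder_lt_mul hab _ _ ha hb) hy
  · intro p hp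
    rw [Finset.mem_product, Finset.mem_range, Finset.mem_range] at hp
    have h1 := (Nat.chineseRemainder hab p.1 p.2).2.1
    have h2 := (Nat.chineseRemainder hab p.1 p.2).2.2
    refine Prod.ext ?_ ?_
    · exact Eq.trans h1 (Nat.mod_eq_of_lt hp.1)
    · exact Eq.trans h2 (Nat.mod_eq_of_lt hp.2)
  · intro y _
    simp only [hF, hG]

private theorem cf_mod (N : ℕ) (h : ℤ → ℂ) (hh : ∀ x, h (x + N) = h x) (y : ℕ) :
    h ((y % N : ℕ) : ℤ) = h (y : ℤ) := by
  refine eo_congr N h hh _ _ ⟨(y / N : ℕ), ?_⟩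
  have := Nat.div_add_mod y N
  have h2 : (y : ℤ) = N * (y / N : ℕ) + (y % N : ℕ) := by exact_mod_cast this.symm
  linarith

private theorem cf_inv (M D : ℕ) (hMD : M.Coprime D) : ∃ μ : ℤ, (D : ℤ) ∣ μ * M - 1 := by
  have h : IsCoprime (M : ℤ) (D : ℤ) := Nat.isCoprime_iff_coprime.2 hMD
  obtain ⟨a, b, hab⟩ := h
  exact ⟨a, -b, by linarith⟩

theorem cl_four (M D : ℕ) (hM : 0 < M) (hD : 0 < D) (hMD : M.Coprime D) (h k : ℤ → ℂ)
    (hh : ∀ x, h (x + D) = h x) (hk : ∀ x, k (x + M) = k x) (K : ℝ) (hK0 : 0 ≤ K)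
    (hK : ∀ j : ℤ, ‖∑ x ∈ range M, k x * ec M (j * x)‖ ≤ K) :
    ∃ w : ℤ → ℝ, (∀ j, w (j + D) = w j) ∧ (∀ j, 0 ≤ w j) ∧
      ∑ ρ ∈ range D, w ρ ^ 2 ≤ D * ∑ x ∈ range D, ‖h x‖ ^ 2 ∧
      (∀ j : ℤ, ‖∑ x ∈ range (M * D), h x * k x * ec (M * D) (-(j * x))‖ ≤ K * w j) := by
  obtain ⟨μ, hμ⟩ := cf_inv M D hMD
  obtain ⟨δ, hδ⟩ := cf_inv D M hMD.symm
  let w : ℤ → ℝ := fun j => ‖∑ x ∈ range D, h x * ec D (-(j * μ * x))‖
  refine ⟨w, ?_, fun j => norm_nonneg _, ?_, ?_⟩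
  · intro j
    show ‖∑ x ∈ range D, h x * ec D (-((j + D) * μ * x))‖ = ‖∑ x ∈ range D, h x * ec D (-(j * μ * x))‖
    congr 1
    refine Finset.sum_congr rfl fun x _ => ?_
    congr 1
    refine kcrt_ec_congr hD.ne' ⟨μ * x, ?_⟩
    ring
  · have h1 := eo_pars D hD (range D) (fun x => -(μ * x)) (fun x => h x) (by
      intro x hx x' hx' hdvd
      rw [Finset.mem_range] at hx hx'
      have h2 : (D : ℤ) ∣ (x' : ℤ) - x := by
        have h3 : (x' : ℤ) - x = (-(μ * x) - -(μ * x')) * M - (μ * M - 1) * (x' - x) := by ring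
        rw [h3]
        exact dvd_sub (Dvd.dvd.mul_right hdvd _) (Dvd.dvd.mul_right hμ _)
      have h4 : (x : ℤ) ≡ x' [ZMOD D] := (Int.modEq_iff_dvd).2 h2
      have h5 : x ≡ x' [MOD D] := Int.natCast_modEq_iff.1 h4
      exact Nat.ModEq.eq_of_lt_of_lt h5 hx hx')
    refine le_of_eq (Eq.trans ?_ h1)
    refine Finset.sum_congr rfl fun ρ _ => ?_
    show ‖∑ x ∈ range D, h x * ec D (-((ρ : ℤ) * μ * x))‖ ^ 2 =
      ‖∑ x ∈ range D, h x * ec D ((ρ : ℤ) * (-(μ * x)))‖ ^ 2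
    have e : ∀ x : ℕ, -((ρ : ℤ) * μ * x) = (ρ : ℤ) * (-(μ * x)) := fun x => by ring
    simp_rw [e]
  · intro j
    have h1 : ∑ x ∈ range (M * D), h x * k x * ec (M * D) (-(j * x)) =
        (∑ x ∈ range M, k x * ec M (-(j * δ) * x)) * ∑ x ∈ range D, h x * ec D (-(j * μ * x)) := by
      rw [← cf_sum hM.ne' hD.ne' hMD (fun x => k x * ec M (-(j * δ) * x))
        (fun x => h x * ec D (-(j * μ * x)))]
      · refine Finset.sum_congr rfl fun x _ => ?_
        rw [kcrt_two hM.ne' hD.ne' hMD hδ hμ]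
        have e1 : -(j * (x : ℤ)) * δ = -(j * δ) * x := by ring
        have e2 : -(j * (x : ℤ)) * μ = -(j * μ * x) := by ring
        rw [e1, e2]
        ring
      · intro y
        show k ((y % M : ℕ) : ℤ) * ec M (-(j * δ) * ((y % M : ℕ) : ℤ)) = k y * ec M (-(j * δ) * y)
        rw [cf_mod M k hk]
        congr 1
        refine kcrt_ec_congr hM.ne' ⟨-(j * δ) * (y / M : ℕ), ?_⟩
        have := Nat.div_add_mod y M
        have h2 : (y : ℤ) = M * (y / M : ℕ) + (y % M : ℕ) := by exact_mod_cast this.symm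
        linear_combination (-(j * δ)) * h2
      · intro y
        show h ((y % D : ℕ) : ℤ) * ec D (-(j * μ * ((y % D : ℕ) : ℤ))) = h y * ec D (-(j * μ * y))
        rw [cf_mod D h hh]
        congr 1
        refine kcrt_ec_congr hD.ne' ⟨-(j * μ) * (y / D : ℕ), ?_⟩
        have := Nat.div_add_mod y D
        have h2 : (y : ℤ) = D * (y / D : ℕ) + (y % D : ℕ) := by exact_mod_cast this.symm
        linear_combination (-(j * μ)) * h2
    rw [h1, norm_mul]
    exact mul_le_mul_of_nonneg_right (hK _) (norm_nonneg _)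

theorem cl_zero (M D : ℕ) (hM : 0 < M) (hD : 0 < D) (hMD : M.Coprime D) (h k : ℤ → ℂ)
    (hh : ∀ x, h (x + D) = h x) (hk : ∀ x, k (x + M) = k x) :
    ∑ x ∈ range (M * D), h x * k x = (∑ x ∈ range D, h x) * ∑ x ∈ range M, k x := by
  have h1 := cf_sum hM.ne' hD.ne' hMD (fun x => k x) (fun x => h x) (cf_mod M k hk) (cf_mod D h hh)
  rw [mul_comm (∑ x ∈ range D, h x), ← h1]
  exact Finset.sum_congr rfl fun x _ => mul_comm _ _

end Pool.Agent.Work.MP_af11aa_nt.T
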