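import Mathlib

/-!
MODULE ClW (Mathlib only: sums of a periodic nonnegative function against 1/|j|). D ∣ N, w has period D, f = w².
Every block of D consecutive integers has ∑ w² = ∑_{range D} w² ≤ W.
(low) j in [0,H] or [N-H, N): two intervals of at most H+1 integers, each inside ≤ (H+1)/D + 1 blocks: total ≤ 4 (H/D + 1) W.
(mid),(sq): the j with j ≤ N - j: i = j from H+1 to N/2; the others: i = N - j, w j = w (-i). For each of the two families cut
[H+1, ∞) into the blocks [H+1+tD, H+(t+1)D]; on the block t, 1/i ≤ 1/(H+1+tD).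
 ∑_{t ≤ N/D} 1/(H+1+tD) ≤ 1/(H+1) + (1/D) ∑_{1≤t≤N/D} 1/t ≤ 1/(H+1) + (1 + log N)/D;
 ∑_{t ≥ 0} 1/(H+1+tD)² ≤ 1/(H+1)² + 1/(D (H+1))   (telescoping: 1/(x+D)² ≤ (1/D)(1/x - 1/(x+D))).
(harm): ∑_{1 ≤ j < N} 1/min(j,N-j) ≤ 2 ∑_{i ≤ N} 1/i.
-/

set_option autoImplicit false

namespace Pool.Agent.Work.MP_af11aa_nt.T

open Finset

private theorem cw_step (f : ℤ → ℝ) (D : ℕ) (hf : ∀ j, f (j + D) = f j) (a : ℤ) :
    ∑ i ∈ range D, f (a + 1 + i) = ∑ i ∈ range D, f (a + i) := by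
  have h1 := Finset.sum_range_succ (fun i : ℕ => f (a + i)) D
  have h2 := Finset.sum_range_succ' (fun i : ℕ => f (a + i)) D
  rw [h1] at h2
  simp only [Nat.cast_zero, add_zero] at h2
  rw [hf a] at h2
  have h3 : ∑ i ∈ range D, f (a + 1 + i) = ∑ k ∈ range D, f (a + ((k + 1 : ℕ) : ℤ)) := by
    refine Finset.sum_congr rfl fun i _ => ?_
    congr 1
    push_cast
    ring
  rw [h3]
  linarith

private theorem cw_per (f : ℤ → ℝ) (D : ℕ) (hf : ∀ j, f (j + D) = f j) (a : ℤ) :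
    ∑ i ∈ range D, f (a + i) = ∑ i ∈ range D, f i := by
  induction a using Int.induction_on with
  | zero => simp
  | succ n ih => rw [cw_step f D hf, ih]
  | pred n ih =>
    rw [← ih]
    have h := cw_step f D hf (-(n : ℤ) - 1)
    rw [sub_add_cancel] at h
    exact h.symm

private theorem cw_blocks (f : ℤ → ℝ) (D : ℕ) (hf : ∀ j, f (j + D) = f j) (hf0 : ∀ j, 0 ≤ f j)
    (W : ℝ) (hW : ∑ i ∈ range D, f i ≤ W) (φ : ℕ → ℝ)
    (hφ : ∀ i j, i ≤ j → φ j ≤ φ i) (hφ0 : ∀ i, 0 ≤ φ i) (a T : ℕ) :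
    ∑ i ∈ range (T * D), f ((a + i : ℕ) : ℤ) * φ (a + i) ≤
      W * ∑ t ∈ range T, φ (a + t * D) := by
  induction T with
  | zero => simp
  | succ T ih =>
    rw [Nat.succ_mul, Finset.sum_range_add, Finset.sum_range_succ, mul_add]
    refine add_le_add ih ?_
    have h1 : ∑ i ∈ range D, f ((a + (T * D + i) : ℕ) : ℤ) * φ (a + (T * D + i)) ≤
        ∑ i ∈ range D, f ((a + T * D : ℕ) + i) * φ (a + T * D) := by
      refine Finset.sum_le_sum fun i _ => ?_
      have h2 : ((a + (T * D + i) : ℕ) : ℤ) = ((a + T * D : ℕ) : ℤ) + i := by push_cast; ring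
      rw [h2]
      exact mul_le_mul_of_nonneg_left (hφ _ _ (by omega)) (hf0 _)
    refine h1.trans ?_
    rw [← Finset.sum_mul, cw_per f D hf]
    exact mul_le_mul_of_nonneg_right hW (hφ0 _)

private theorem cw_interval (f : ℤ → ℝ) (D : ℕ) (hD : 0 < D) (hf : ∀ j, f (j + D) = f j)
    (hf0 : ∀ j, 0 ≤ f j) (W : ℝ) (hW : ∑ i ∈ range D, f i ≤ W) (a n : ℕ) :
    ∑ i ∈ range n, f ((a + i : ℕ) : ℤ) ≤ ((n : ℝ) / D + 1) * W := by
  have hW0 : 0 ≤ W := (Finset.sum_nonneg fun i _ => hf0 _).trans hW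
  have h1 := cw_blocks f D hf hf0 W hW (fun _ => 1) (fun _ _ _ => le_rfl) (fun _ => zero_le_one)
    a (n / D + 1)
  simp only [mul_one, Finset.sum_const, Finset.card_range, nsmul_eq_mul] at h1
  have h2 : n ≤ (n / D + 1) * D := by
    have := Nat.div_add_mod n D
    have h3 := Nat.mod_lt n hD
    nlinarith
  have h4 : ∑ i ∈ range n, f ((a + i : ℕ) : ℤ) ≤ ∑ i ∈ range ((n / D + 1) * D), f ((a + i : ℕ) : ℤ) :=
    Finset.sum_le_sum_of_subset_of_nonneg (Finset.range_mono h2) fun i _ _ => hf0 _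
  refine h4.trans (h1.trans ?_)
  push_cast
  have h5 : ((n / D : ℕ) : ℝ) ≤ (n : ℝ) / D := Nat.cast_div_le
  nlinarith

private theorem cw_Ico (f : ℤ → ℝ) (D : ℕ) (hf : ∀ j, f (j + D) = f j)
    (hf0 : ∀ j, 0 ≤ f j) (W : ℝ) (hW : ∑ i ∈ range D, f i ≤ W) (N T H : ℕ) (hT : N ≤ T * D)
    (φ : ℕ → ℝ) (hφ : ∀ i j, i ≤ j → φ j ≤ φ i) (hφ0 : ∀ i, 0 ≤ φ i) :
    ∑ i ∈ Ico (H + 1) N, f (i : ℤ) * φ i ≤ W * ∑ t ∈ range T, φ (H + 1 + t * D) := by
  refine le_trans ?_ (cw_blocks f D hf hf0 W hW φ hφ hφ0 (H + 1) T)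
  have h1 : ∑ i ∈ range (T * D), f ((H + 1 + i : ℕ) : ℤ) * φ (H + 1 + i) =
      ∑ i ∈ Ico (H + 1) (H + 1 + T * D), f (i : ℤ) * φ i := by
    rw [Finset.sum_Ico_eq_sum_range]
    simp
  rw [h1]
  exact Finset.sum_le_sum_of_subset_of_nonneg (Finset.Ico_subset_Ico le_rfl (by omega))
    fun i _ _ => mul_nonneg (hf0 _) (hφ0 _)

private theorem cw_neg (w : ℤ → ℝ) (D : ℕ) (hw : ∀ j, w (j + D) = w j) :
    ∑ i ∈ range D, w (-(i : ℤ)) = ∑ i ∈ range D, w i := by
  rw [← cw_per w D hw 1, ← Finset.sum_range_reflect (fun i : ℕ => w (1 + i)) D]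
  refine Finset.sum_congr rfl fun i hi => ?_
  have hi' := Finset.mem_range.1 hi
  have h1 : (1 + ((D - 1 - i : ℕ) : ℤ)) = -(i : ℤ) + D := by
    have : ((D - 1 - i : ℕ) : ℤ) = (D : ℤ) - 1 - i := by omega
    rw [this]; ring
  show w (-(i : ℤ)) = w (1 + ((D - 1 - i : ℕ) : ℤ))
  rw [h1, hw]

private theorem cw_negper (w : ℤ → ℝ) (D : ℕ) (hw : ∀ j, w (j + D) = w j) (j : ℤ) :
    w (-(j + D)) = w (-j) := by
  have h := hw (-(j + D))
  rw [← h]
  congr 1
  ring

private theorem cw_mulper (w : ℤ → ℝ) (D : ℕ) (hw : ∀ j, w (j + D) = w j) (k : ℕ) (j : ℤ) :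
    w (j + k * D) = w j := by
  induction k with
  | zero => simp
  | succ k ih =>
    have : j + ((k + 1 : ℕ) : ℤ) * D = (j + k * D) + D := by push_cast; ring
    rw [this, hw, ih]

/-- reduction of the sums against a function of `min j (N - j)` to two families -/
private theorem cw_split (N D H : ℕ) (hDN : D ∣ N) (w : ℤ → ℝ)
    (hw : ∀ j, w (j + D) = w j) (hw0 : ∀ j, 0 ≤ w j) (φ : ℕ → ℝ) (hφ0 : ∀ i, 0 ≤ φ i) :
    ∑ j ∈ (range N).filter (fun j ↦ H < min j (N - j)), w j * φ (min j (N - j)) ≤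
      ∑ i ∈ Ico (H + 1) N, w (i : ℤ) * φ i + ∑ i ∈ Ico (H + 1) N, w (-(i : ℤ)) * φ i := by
  obtain ⟨k, hk⟩ := hDN
  have h1 : ∀ j ∈ (range N).filter (fun j ↦ H < min j (N - j)), w j * φ (min j (N - j)) =
      (if j ≤ N - j then w j * φ j else 0) + (if j ≤ N - j then 0 else w j * φ (N - j)) := by
    intro j _
    split_ifs with h
    · rw [min_eq_left h, add_zero]
    · rw [min_eq_right (by omega), zero_add]
  rw [Finset.sum_congr rfl h1, Finset.sum_add_distrib]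
  refine add_le_add ?_ ?_
  · rw [← Finset.sum_filter, Finset.filter_filter]
    refine Finset.sum_le_sum_of_subset_of_nonneg ?_ fun i _ _ => mul_nonneg (hw0 _) (hφ0 _)
    intro j hj
    rw [Finset.mem_filter, Finset.mem_range] at hj
    rw [Finset.mem_Ico]
    omega
  · have h2 : ∀ j ∈ (range N).filter (fun j ↦ H < min j (N - j)),
        (if j ≤ N - j then 0 else w j * φ (N - j)) ≤
        w (-((N - j : ℕ) : ℤ)) * φ (N - j) := by
      intro j hj
      rw [Finset.mem_filter, Finset.mem_range] at hj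
      split_ifs with h
      · exact mul_nonneg (hw0 _) (hφ0 _)
      · have h3 : w (j : ℤ) = w (-((N - j : ℕ) : ℤ)) := by
          have h4 : (j : ℤ) = -((N - j : ℕ) : ℤ) + (k : ℤ) * D := by
            have h5 : ((N - j : ℕ) : ℤ) = (N : ℤ) - j := by omega
            have h6 : (N : ℤ) = D * k := by exact_mod_cast hk
            rw [h5, h6]; ring
          rw [h4]
          exact cw_mulper w D hw k _
        rw [h3]
    refine (Finset.sum_le_sum h2).trans ?_
    have h7 : ∑ j ∈ (range N).filter (fun j ↦ H < min j (N - j)),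
        w (-((N - j : ℕ) : ℤ)) * φ (N - j) =
        ∑ i ∈ ((range N).filter (fun j ↦ H < min j (N - j))).image (fun j => N - j),
          w (-(i : ℤ)) * φ i := by
      rw [Finset.sum_image]
      intro a ha b hb hab
      have ha' : a ∈ (range N).filter (fun j ↦ H < min j (N - j)) := ha
      have hb' : b ∈ (range N).filter (fun j ↦ H < min j (N - j)) := hb
      rw [Finset.mem_filter, Finset.mem_range] at ha' hb'
      have hab' : N - a = N - b := hab
      omega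
    rw [h7]
    refine Finset.sum_le_sum_of_subset_of_nonneg ?_ fun i _ _ => mul_nonneg (hw0 _) (hφ0 _)
    intro i hi
    rw [Finset.mem_image] at hi
    obtain ⟨j, hj, rfl⟩ := hi
    rw [Finset.mem_filter, Finset.mem_range] at hj
    rw [Finset.mem_Ico]
    omega

private theorem cw_log (n : ℕ) : ∑ t ∈ range n, 1 / ((t : ℝ) + 1) ≤ 1 + Real.log n := by
  have h := harmonic_le_one_add_log n
  refine le_trans (le_of_eq ?_) h
  unfold harmonic
  push_cast
  exact Finset.sum_congr rfl fun t _ => one_div _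

theorem clw_low (N D H : ℕ) (hD : 0 < D) (hN : 0 < N) (hDN : D ∣ N) (w : ℤ → ℝ)
    (hw : ∀ j, w (j + D) = w j) (W : ℝ) (hW : ∑ ρ ∈ range D, w ρ ^ 2 ≤ W) :
    ∑ j ∈ (range N).filter (fun j ↦ min j (N - j) ≤ H), w j ^ 2 ≤ 4 * ((H : ℝ) / D + 1) * W := by
  have hf : ∀ j : ℤ, (fun j => w j ^ 2) (j + D) = (fun j => w j ^ 2) j := fun j => by
    show w (j + D) ^ 2 = w j ^ 2
    rw [hw]
  have hf0 : ∀ j : ℤ, 0 ≤ (fun j => w j ^ 2) j := fun j => sq_nonneg _
  have hW0 : 0 ≤ W := (Finset.sum_nonneg fun i _ => sq_nonneg _).trans hW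
  have h1 := cw_interval (fun j => w j ^ 2) D hD hf hf0 W hW 0 (H + 1)
  have h2 := cw_interval (fun j => w j ^ 2) D hD hf hf0 W hW (N - H) H
  have h3 : (range N).filter (fun j ↦ min j (N - j) ≤ H) ⊆ range (H + 1) ∪ Ico (N - H) (N - H + H) := by
    intro j hj
    rw [Finset.mem_filter, Finset.mem_range] at hj
    rw [Finset.mem_union, Finset.mem_range, Finset.mem_Ico]
    omega
  have h4 : ∑ j ∈ (range N).filter (fun j ↦ min j (N - j) ≤ H), w j ^ 2 ≤
      ∑ j ∈ range (H + 1), w j ^ 2 + ∑ j ∈ Ico (N - H) (N - H + H), w j ^ 2 := by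
    refine (Finset.sum_le_sum_of_subset_of_nonneg h3 fun i _ _ => sq_nonneg _).trans ?_
    have h5 := Finset.sum_union_inter (s₁ := range (H + 1)) (s₂ := Ico (N - H) (N - H + H))
      (f := fun j : ℕ => w j ^ 2)
    have h6 : 0 ≤ ∑ j ∈ range (H + 1) ∩ Ico (N - H) (N - H + H), w (j : ℤ) ^ 2 :=
      Finset.sum_nonneg fun i _ => sq_nonneg _
    linarith
  refine h4.trans ?_
  rw [Finset.sum_Ico_eq_sum_range, show N - H + H - (N - H) = H by omega]
  simp only [zero_add] at h1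
  have h7 : (1 : ℝ) / D ≤ 1 := by
    rw [div_le_one (by positivity)]
    exact_mod_cast hD
  have h8 : ((H + 1 : ℕ) : ℝ) / D = (H : ℝ) / D + 1 / D := by push_cast; ring
  rw [h8] at h1
  have h9 : 0 ≤ (H : ℝ) / D := by positivity
  have h10 : ((H : ℝ) / D + 1 / D + 1) * W ≤ ((H : ℝ) / D + 2) * W :=
    mul_le_mul_of_nonneg_right (by linarith) hW0
  have h11 : 0 ≤ (H : ℝ) / D * W := mul_nonneg h9 hW0
  have h12 : 4 * ((H : ℝ) / D + 1) * W - (((H : ℝ) / D + 2) * W + ((H : ℝ) / D + 1) * W) =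
      2 * ((H : ℝ) / D * W) + W := by ring
  linarith

theorem clw_mid (N D H : ℕ) (hD : 0 < D) (hN : 0 < N) (hDN : D ∣ N) (w : ℤ → ℝ)
    (hw : ∀ j, w (j + D) = w j) (W : ℝ) (hW : ∑ ρ ∈ range D, w ρ ^ 2 ≤ W) :
    ∑ j ∈ (range N).filter (fun j ↦ H < min j (N - j)), w j ^ 2 / (min j (N - j) : ℕ) ≤
      2 * W * (1 / ((H : ℝ) + 1) + (1 + Real.log N) / D) := by
  set f : ℤ → ℝ := fun j => w j ^ 2 with hfdef
  have hf : ∀ j : ℤ, f (j + D) = f j := fun j => by
    show w (j + D) ^ 2 = w j ^ 2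
    rw [hw]
  have hf0 : ∀ j : ℤ, 0 ≤ f j := fun j => sq_nonneg _
  have hW0 : 0 ≤ W := (Finset.sum_nonneg fun i _ => sq_nonneg _).trans hW
  let φ : ℕ → ℝ := fun i => if i = 0 then 1 else 1 / (i : ℝ)
  have hφ0 : ∀ i, 0 ≤ φ i := by
    intro i
    show 0 ≤ if i = 0 then (1 : ℝ) else 1 / (i : ℝ)
    split_ifs
    · norm_num
    · positivity
  have hφ : ∀ i j, i ≤ j → φ j ≤ φ i := by
    intro i j hij
    show (if j = 0 then (1 : ℝ) else 1 / (j : ℝ)) ≤ if i = 0 then (1 : ℝ) else 1 / (i : ℝ)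
    split_ifs with h1 h2 h2
    · exact le_rfl
    · omega
    · rw [div_le_one (by have : (0 : ℝ) < j := by exact_mod_cast Nat.pos_of_ne_zero h1
                         exact this)]
      exact_mod_cast Nat.pos_of_ne_zero h1
    · have h3 : (0 : ℝ) < i := by exact_mod_cast Nat.pos_of_ne_zero h2
      exact one_div_le_one_div_of_le h3 (by exact_mod_cast hij)
  have h1 : ∑ j ∈ (range N).filter (fun j ↦ H < min j (N - j)), w j ^ 2 / (min j (N - j) : ℕ) =
      ∑ j ∈ (range N).filter (fun j ↦ H < min j (N - j)), f j * φ (min j (N - j)) := by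
    refine Finset.sum_congr rfl fun j hj => ?_
    rw [Finset.mem_filter] at hj
    show _ = w j ^ 2 * (if min j (N - j) = 0 then (1 : ℝ) else 1 / ((min j (N - j) : ℕ) : ℝ))
    rw [if_neg (by omega), mul_one_div]
  rw [h1]
  refine (cw_split N D H hDN f hf hf0 φ hφ0).trans ?_
  obtain ⟨T, hT⟩ := hDN
  have hNT : N ≤ T * D := by rw [hT, mul_comm]
  have hA := cw_Ico f D hf hf0 W hW N T H hNT φ hφ hφ0
  have hB := cw_Ico (fun j => f (-j)) D (fun j => cw_negper f D hf j) (fun j => hf0 _) W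
    ((cw_neg f D hf).le.trans hW) N T H hNT φ hφ hφ0
  have hsum : ∑ t ∈ range T, φ (H + 1 + t * D) ≤ 1 / ((H : ℝ) + 1) + (1 + Real.log N) / D := by
    have hT0 : 0 < T := by
      rcases Nat.eq_zero_or_pos T with h | h
      · rw [h, mul_zero] at hT; omega
      · exact h
    obtain ⟨T', rfl⟩ : ∃ T', T = T' + 1 := ⟨T - 1, by omega⟩
    rw [Finset.sum_range_succ', add_comm]
    refine add_le_add ?_ ?_
    · show (if H + 1 + 0 * D = 0 then (1 : ℝ) else 1 / ((H + 1 + 0 * D : ℕ) : ℝ)) ≤ _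
      rw [if_neg (by omega)]
      push_cast
      simp
    · have h2 : ∀ t ∈ range T', φ (H + 1 + (t + 1) * D) ≤ 1 / D * (1 / ((t : ℝ) + 1)) := by
        intro t _
        show (if H + 1 + (t + 1) * D = 0 then (1 : ℝ) else 1 / ((H + 1 + (t + 1) * D : ℕ) : ℝ)) ≤ _
        rw [if_neg (by omega), one_div_mul_one_div]
        apply one_div_le_one_div_of_le (by positivity)
        push_cast
        have : (0 : ℝ) ≤ H := Nat.cast_nonneg H
        nlinarith
      refine (Finset.sum_le_sum h2).trans ?_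
      rw [← Finset.mul_sum, one_div_mul_eq_div]
      apply div_le_div_of_nonneg_right _ (by positivity)
      refine (cw_log T').trans ?_
      have h3 : Real.log T' ≤ Real.log N := by
        rcases Nat.eq_zero_or_pos T' with h | h
        · rw [h]
          simp only [Nat.cast_zero, Real.log_zero]
          exact Real.log_nonneg (by exact_mod_cast hN)
        · apply Real.log_le_log (by exact_mod_cast h)
          have h4 : T' ≤ N := by rw [hT]; nlinarith
          exact_mod_cast h4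
      linarith
  have hC := mul_le_mul_of_nonneg_left hsum hW0
  have hB' : ∑ i ∈ Ico (H + 1) N, f (-(i : ℤ)) * φ i ≤ W * ∑ t ∈ range T, φ (H + 1 + t * D) := hB
  have h5 : 2 * W * (1 / ((H : ℝ) + 1) + (1 + Real.log N) / D) =
      W * (1 / ((H : ℝ) + 1) + (1 + Real.log N) / D) +
      W * (1 / ((H : ℝ) + 1) + (1 + Real.log N) / D) := by ring
  rw [h5]
  linarith

theorem clw_sq (N D H : ℕ) (hD : 0 < D) (hN : 0 < N) (hDN : D ∣ N) (w : ℤ → ℝ)
    (hw : ∀ j, w (j + D) = w j) (W : ℝ) (hW : ∑ ρ ∈ range D, w ρ ^ 2 ≤ W) :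
    ∑ j ∈ (range N).filter (fun j ↦ H < min j (N - j)), w j ^ 2 / ((min j (N - j) : ℕ) : ℝ) ^ 2 ≤
      2 * W * (1 / ((H : ℝ) + 1) ^ 2 + 1 / (D * ((H : ℝ) + 1))) := by
  set f : ℤ → ℝ := fun j => w j ^ 2 with hfdef
  have hf : ∀ j : ℤ, f (j + D) = f j := fun j => by
    show w (j + D) ^ 2 = w j ^ 2
    rw [hw]
  have hf0 : ∀ j : ℤ, 0 ≤ f j := fun j => sq_nonneg _
  have hW0 : 0 ≤ W := (Finset.sum_nonneg fun i _ => sq_nonneg _).trans hW
  let φ : ℕ → ℝ := fun i => if i = 0 then 1 else 1 / (i : ℝ) ^ 2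
  have hφ0 : ∀ i, 0 ≤ φ i := by
    intro i
    show 0 ≤ if i = 0 then (1 : ℝ) else 1 / (i : ℝ) ^ 2
    split_ifs
    · norm_num
    · positivity
  have hφ : ∀ i j, i ≤ j → φ j ≤ φ i := by
    intro i j hij
    show (if j = 0 then (1 : ℝ) else 1 / (j : ℝ) ^ 2) ≤ if i = 0 then (1 : ℝ) else 1 / (i : ℝ) ^ 2
    split_ifs with h1 h2 h2
    · exact le_rfl
    · omega
    · have h3 : (1 : ℝ) ≤ j := by exact_mod_cast Nat.pos_of_ne_zero h1
      rw [div_le_one (by positivity)]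
      nlinarith
    · have h3 : (0 : ℝ) < i := by exact_mod_cast Nat.pos_of_ne_zero h2
      have h4 : (i : ℝ) ≤ j := by exact_mod_cast hij
      exact one_div_le_one_div_of_le (by positivity) (pow_le_pow_left₀ h3.le h4 2)
  have h1 : ∑ j ∈ (range N).filter (fun j ↦ H < min j (N - j)),
      w j ^ 2 / ((min j (N - j) : ℕ) : ℝ) ^ 2 =
      ∑ j ∈ (range N).filter (fun j ↦ H < min j (N - j)), f j * φ (min j (N - j)) := by
    refine Finset.sum_congr rfl fun j hj => ?_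
    rw [Finset.mem_filter] at hj
    show _ = w j ^ 2 * (if min j (N - j) = 0 then (1 : ℝ) else 1 / ((min j (N - j) : ℕ) : ℝ) ^ 2)
    rw [if_neg (by omega), mul_one_div]
  rw [h1]
  refine (cw_split N D H hDN f hf hf0 φ hφ0).trans ?_
  obtain ⟨T, hT⟩ := hDN
  have hNT : N ≤ T * D := by rw [hT, mul_comm]
  have hA := cw_Ico f D hf hf0 W hW N T H hNT φ hφ hφ0
  have hB := cw_Ico (fun j => f (-j)) D (fun j => cw_negper f D hf j) (fun j => hf0 _) W
    ((cw_neg f D hf).le.trans hW) N T H hNT φ hφ hφ0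
  have hsum : ∑ t ∈ range T, φ (H + 1 + t * D) ≤
      1 / ((H : ℝ) + 1) ^ 2 + 1 / (D * ((H : ℝ) + 1)) := by
    have hD0 : (0 : ℝ) < D := by exact_mod_cast hD
    have htel : ∀ n : ℕ, ∑ t ∈ range n, φ (H + 1 + (t + 1) * D) ≤
        1 / D * (1 / ((H : ℝ) + 1) - 1 / ((H : ℝ) + 1 + n * D)) := by
      intro n
      induction n with
      | zero => simp
      | succ n ih =>
        rw [Finset.sum_range_succ]
        have h2 : φ (H + 1 + (n + 1) * D) ≤
            1 / D * (1 / ((H : ℝ) + 1 + n * D) - 1 / ((H : ℝ) + 1 + ((n + 1 : ℕ) : ℝ) * D)) := by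
          show (if H + 1 + (n + 1) * D = 0 then (1 : ℝ) else
            1 / ((H + 1 + (n + 1) * D : ℕ) : ℝ) ^ 2) ≤ _
          rw [if_neg (by omega)]
          have hx : (0 : ℝ) < (H : ℝ) + 1 + n * D := by positivity
          have hy : (0 : ℝ) < (H : ℝ) + 1 + ((n + 1 : ℕ) : ℝ) * D := by positivity
          have hxy : (H : ℝ) + 1 + ((n + 1 : ℕ) : ℝ) * D = ((H : ℝ) + 1 + n * D) + D := by
            push_cast; ring
          have hc : ((H + 1 + (n + 1) * D : ℕ) : ℝ) = (H : ℝ) + 1 + ((n + 1 : ℕ) : ℝ) * D := by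
            push_cast; ring
          rw [hc, hxy]
          set x := (H : ℝ) + 1 + n * D
          have h3 : 1 / (D : ℝ) * (1 / x - 1 / (x + D)) = 1 / (x * (x + D)) := by
            field_simp
            ring
          rw [h3]
          apply one_div_le_one_div_of_le (by positivity)
          nlinarith
        have h4 : 1 / (D : ℝ) * (1 / ((H : ℝ) + 1) - 1 / ((H : ℝ) + 1 + n * D)) +
            1 / D * (1 / ((H : ℝ) + 1 + n * D) - 1 / ((H : ℝ) + 1 + ((n + 1 : ℕ) : ℝ) * D)) =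
            1 / D * (1 / ((H : ℝ) + 1) - 1 / ((H : ℝ) + 1 + ((n + 1 : ℕ) : ℝ) * D)) := by ring
        linarith
    have hT0 : 0 < T := by
      rcases Nat.eq_zero_or_pos T with h | h
      · rw [h, mul_zero] at hT; omega
      · exact h
    obtain ⟨T', rfl⟩ : ∃ T', T = T' + 1 := ⟨T - 1, by omega⟩
    rw [Finset.sum_range_succ', add_comm]
    refine add_le_add ?_ ?_
    · show (if H + 1 + 0 * D = 0 then (1 : ℝ) else 1 / ((H + 1 + 0 * D : ℕ) : ℝ) ^ 2) ≤ _
      rw [if_neg (by omega)]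
      push_cast
      simp
    · refine (htel T').trans ?_
      rw [← one_div_mul_one_div]
      apply mul_le_mul_of_nonneg_left _ (by positivity)
      have : (0 : ℝ) ≤ 1 / ((H : ℝ) + 1 + T' * D) := by positivity
      linarith
  have hC := mul_le_mul_of_nonneg_left hsum hW0
  have hB' : ∑ i ∈ Ico (H + 1) N, f (-(i : ℤ)) * φ i ≤ W * ∑ t ∈ range T, φ (H + 1 + t * D) := hB
  have h5 : 2 * W * (1 / ((H : ℝ) + 1) ^ 2 + 1 / (D * ((H : ℝ) + 1))) =
      W * (1 / ((H : ℝ) + 1) ^ 2 + 1 / (D * ((H : ℝ) + 1))) +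
      W * (1 / ((H : ℝ) + 1) ^ 2 + 1 / (D * ((H : ℝ) + 1))) := by ring
  rw [h5]
  linarith

theorem clw_harm (N : ℕ) (hN : 0 < N) :
    ∑ j ∈ (range N).filter (fun j ↦ 0 < min j (N - j)), 1 / ((min j (N - j) : ℕ) : ℝ) ≤
      2 * (1 + Real.log N) := by
  have h1 := cw_split N 1 0 (one_dvd N) (fun _ => 1) (fun _ => rfl) (fun _ => zero_le_one)
    (fun i => 1 / (i : ℝ)) (fun i => by positivity)
  simp only [one_mul] at h1
  refine h1.trans ?_
  have h2 : ∑ i ∈ Ico (0 + 1) N, 1 / (i : ℝ) ≤ 1 + Real.log N := by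
    rw [Finset.sum_Ico_eq_sum_range]
    have h3 : ∑ k ∈ range (N - (0 + 1)), 1 / ((0 + 1 + k : ℕ) : ℝ) =
        ∑ t ∈ range (N - 1), 1 / ((t : ℝ) + 1) := by
      refine Finset.sum_congr rfl fun t _ => ?_
      push_cast
      ring_nf
    rw [h3]
    refine le_trans ?_ (cw_log N)
    exact Finset.sum_le_sum_of_subset_of_nonneg (Finset.range_mono (Nat.sub_le _ _))
      fun i _ _ => by positivity
  linarith

end Pool.Agent.Work.MP_af11aa_nt.T
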