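import Mathlib
import Pool.Agent.Work.MP_af11aa_nt.T.ClFour
import Pool.Agent.Work.MP_af11aa_nt.T.ClW
import Pool.Agent.Work.MP_af11aa_nt.T.ClAbel

/-!
MODULE ClLong (completion of a long sum). N = M D; notation of ClShort. By cl_inv:
j = 0: (1/N) |∑_{x<N} h k| |∑ g| ≤ (1/N) |∑_{x<D} h| |∑_{x<M} k| G L  (cl_zero), |∑ h| ≤ √(D E); so ≤ G L √(E/D) ‖∑ k‖ / M.
j ≠ 0: ‖ĝ(j)‖ ≤ (N/(4|j|)) (2G + ‖Δ(j)‖), ‖Δ(j)‖ ≤ ∑_{b} ‖g(b+1)-g b‖ ≤ G Z (at most L terms); total
 ≤ (K/4) 3GZ ∑_{j≠0} w/|j| ≤ (3KGZ/4) (∑ w²/|j|)^{1/2} (∑ 1/|j|)^{1/2} ≤ (3KGZ/4)(2DE(1 + (1+log N)/D))^{1/2} (2(1+log N))^{1/2}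
 ≤ 3 K G Z √(E D) (1 + log N)      (clw_mid with H = 0, clw_harm; D + 1 + log N ≤ 2 D (1 + log N)).
-/

set_option autoImplicit false

namespace Pool.Agent.Work.MP_af11aa_nt.T

open Finset Pool.Agent.Work.MP_af11aa_nt.W

private theorem cg_card (x0 x1 : ℕ) (L : ℝ) (hL : 1 ≤ L) (hx : (x1 : ℝ) ≤ x0 + L) :
    ((Ioc x0 x1).card : ℝ) ≤ L := by
  rw [Nat.card_Ioc]
  rcases le_total x0 x1 with h | h
  · rw [Nat.cast_sub h]
    linarith
  · rw [Nat.sub_eq_zero_of_le h]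
    simp
    linarith

private theorem cg_card' (x0 x1 : ℕ) (L : ℝ) (hL : 1 ≤ L) (hx : (x1 : ℝ) ≤ x0 + L) :
    ((Ioo x0 x1).card : ℝ) ≤ L := by
  refine le_trans ?_ (cg_card x0 x1 L hL hx)
  exact_mod_cast Finset.card_le_card Finset.Ioo_subset_Ioc_self

theorem cl_long (M D : ℕ) (hM : 0 < M) (hD : 0 < D) (hMD : M.Coprime D) (h k : ℤ → ℂ)
    (hh : ∀ x, h (x + D) = h x) (hk : ∀ x, k (x + M) = k x) (K E G Z L : ℝ) (hK0 : 0 ≤ K)
    (hK : ∀ j : ℤ, ‖∑ x ∈ range M, k x * ec M (j * x)‖ ≤ K)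
    (hE : ∑ x ∈ range D, ‖h x‖ ^ 2 ≤ E) (hG0 : 0 ≤ G) (hZ : 1 ≤ Z) (hL : 1 ≤ L)
    (x0 x1 : ℕ) (hx : (x1 : ℝ) ≤ x0 + L) (g : ℕ → ℂ)
    (hG : ∀ b ∈ Ioc x0 x1, ‖g b‖ ≤ G)
    (hv : ∀ b ∈ Ioo x0 x1, ‖g (b + 1) - g b‖ ≤ G * Z / L) :
    ‖∑ b ∈ Ioc x0 x1, g b * (h b * k b)‖ ≤
      G * L * Real.sqrt (E / D) * ‖∑ x ∈ range M, k x‖ / M +
      3 * K * G * Z * Real.sqrt (E * D) * (1 + Real.log ((M * D : ℕ) : ℝ)) := by
  classical
  obtain ⟨w, hwper, hw0, hwsum, hwK⟩ := cl_four M D hM hD hMD h k hh hk K hK0 hK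
  have hz := cl_zero M D hM hD hMD h k hh hk
  set N := M * D with hN
  have hNpos : 0 < N := Nat.mul_pos hM hD
  have hN0 : (0 : ℝ) < N := by exact_mod_cast hNpos
  have hM0 : (0 : ℝ) < M := by exact_mod_cast hM
  have hD0 : (0 : ℝ) < D := by exact_mod_cast hD
  have hD1 : (1 : ℝ) ≤ D := by exact_mod_cast hD
  have hDN : D ∣ N := Dvd.intro_left M rfl
  have hNMD : (N : ℝ) = M * D := by rw [hN]; push_cast; ring
  have hE0 : 0 ≤ E := (Finset.sum_nonneg fun x _ => by positivity).trans hE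
  have hL0 : 0 < L := by linarith
  have hZ0 : 0 < Z := by linarith
  have hWs : ∑ ρ ∈ range D, w ρ ^ 2 ≤ D * E := hwsum.trans (mul_le_mul_of_nonneg_left hE hD0.le)
  set lam := 1 + Real.log (N : ℝ) with hlam
  have hlam1 : 1 ≤ lam := by
    have : 0 ≤ Real.log (N : ℝ) := Real.log_nonneg (by exact_mod_cast hNpos)
    linarith
  let gh : ℕ → ℝ := fun j => ‖∑ b ∈ Ioc x0 x1, g b * ec N ((j : ℤ) * b)‖
  let dh : ℕ → ℝ := fun j => ‖∑ b ∈ Ioo x0 x1, (g (b + 1) - g b) * ec N ((j : ℤ) * b)‖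
  have hdh : ∀ j, dh j ≤ G * Z := by
    intro j
    refine (norm_sum_le _ _).trans ?_
    calc ∑ b ∈ Ioo x0 x1, ‖(g (b + 1) - g b) * ec N ((j : ℤ) * b)‖
        ≤ ∑ b ∈ Ioo x0 x1, G * Z / L := by
          refine Finset.sum_le_sum fun b hb => ?_
          rw [norm_mul, norm_ec, mul_one]
          exact hv b hb
      _ = (Ioo x0 x1).card * (G * Z / L) := by rw [Finset.sum_const, nsmul_eq_mul]
      _ ≤ L * (G * Z / L) := mul_le_mul_of_nonneg_right (cg_card' x0 x1 L hL hx) (by positivity)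
      _ = G * Z := by field_simp
  have hgh0 : gh 0 ≤ G * L := by
    refine (norm_sum_le _ _).trans ?_
    calc ∑ b ∈ Ioc x0 x1, ‖g b * ec N (((0 : ℕ) : ℤ) * b)‖ ≤ ∑ b ∈ Ioc x0 x1, G := by
          refine Finset.sum_le_sum fun b hb => ?_
          rw [norm_mul, norm_ec, mul_one]
          exact hG b hb
      _ = (Ioc x0 x1).card * G := by rw [Finset.sum_const, nsmul_eq_mul]
      _ ≤ L * G := mul_le_mul_of_nonneg_right (cg_card x0 x1 L hL hx) hG0
      _ = G * L := mul_comm _ _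
  have hinv := cl_inv N hNpos (fun x => h x * k x) (fun x => by
    have e1 : h (x + (N : ℤ)) = h x := by
      rw [hN]
      have := eo_per D h hh M x
      push_cast
      rw [mul_comm (M : ℤ)]
      exact this
    have e2 : k (x + (N : ℤ)) = k x := by
      rw [hN]
      have := eo_per M k hk D x
      push_cast
      exact this
    show h (x + (N : ℤ)) * k (x + (N : ℤ)) = h x * k x
    rw [e1, e2]) g (Ioc x0 x1)
  -- the sum over the period
  have hhs : ‖∑ x ∈ range D, h x‖ ≤ Real.sqrt (D * E) := by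
    refine (norm_sum_le _ _).trans ?_
    have h1 := Real.sum_mul_le_sqrt_mul_sqrt (range D) (fun _ => (1 : ℝ)) (fun x => ‖h x‖)
    simp only [one_mul, one_pow, Finset.sum_const, Finset.card_range, nsmul_eq_mul, mul_one] at h1
    refine h1.trans ?_
    rw [← Real.sqrt_mul hD0.le]
    exact Real.sqrt_le_sqrt (mul_le_mul_of_nonneg_left hE hD0.le)
  set J := (range N).filter (fun j => 0 < min j (N - j)) with hJ
  have hJpos : ∀ j ∈ J, 0 < j ∧ j < N ∧ (0 : ℝ) < ((min j (N - j) : ℕ) : ℝ) := by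
    intro j hj
    rw [hJ, Finset.mem_filter, Finset.mem_range] at hj
    exact ⟨by omega, hj.1, by exact_mod_cast hj.2⟩
  have hrange : range N = insert 0 J := by
    ext j
    rw [Finset.mem_insert, hJ, Finset.mem_filter, Finset.mem_range]
    omega
  have h0J : 0 ∉ J := by
    rw [hJ, Finset.mem_filter]
    simp
  have hbound : ‖∑ b ∈ Ioc x0 x1, g b * (h b * k b)‖ ≤
      1 / N * (‖∑ x ∈ range N, h x * k x‖ * gh 0 + K * ∑ j ∈ J, w j * gh j) := by
    rw [hinv, norm_mul]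
    have e1 : ‖(1 / (N : ℂ))‖ = 1 / N := by
      rw [norm_div, norm_one, Complex.norm_natCast]
    rw [e1]
    apply mul_le_mul_of_nonneg_left _ (by positivity)
    refine (norm_sum_le _ _).trans ?_
    conv_lhs => rw [hrange]
    rw [Finset.sum_insert h0J]
    refine add_le_add (le_of_eq ?_) ?_
    · rw [norm_mul, ← hrange]
      congr 2
      refine Finset.sum_congr rfl fun x _ => ?_
      simp only [Nat.cast_zero, zero_mul, neg_zero]
      rw [eo_zero, mul_one]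
    · rw [Finset.mul_sum]
      refine Finset.sum_le_sum fun j _ => ?_
      rw [norm_mul, ← mul_assoc, ← hrange]
      exact mul_le_mul_of_nonneg_right (hwK j) (norm_nonneg _)
  have hpt : ∀ j ∈ J, w j * gh j ≤ 3 * (G * Z) * N / 4 * (w j / ((min j (N - j) : ℕ) : ℝ)) := by
    intro j hj
    obtain ⟨h1, h2, h3⟩ := hJpos j hj
    have h4 := cl_abel N x0 x1 j h1 h2 g G hG0 hG
    have h5 : gh j ≤ (N : ℝ) / (4 * (min j (N - j) : ℕ)) * (3 * (G * Z)) := by
      refine h4.trans ?_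
      apply mul_le_mul_of_nonneg_left _ (by positivity)
      have h6 := hdh j
      have h7 : G ≤ G * Z := le_mul_of_one_le_right hG0 hZ
      show 2 * G + dh j ≤ _
      linarith
    refine (mul_le_mul_of_nonneg_left h5 (hw0 j)).trans (le_of_eq ?_)
    field_simp
  have hpart : ∑ j ∈ J, w j / ((min j (N - j) : ℕ) : ℝ) ≤ 4 * lam * Real.sqrt (E * D) := by
    have h1 : ∀ j ∈ J, w j / ((min j (N - j) : ℕ) : ℝ) =
        (w j / Real.sqrt ((min j (N - j) : ℕ) : ℝ)) * (1 / Real.sqrt ((min j (N - j) : ℕ) : ℝ)) := by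
      intro j hj
      obtain ⟨-, -, h3⟩ := hJpos j hj
      rw [div_mul_div_comm, mul_one, Real.mul_self_sqrt h3.le]
    rw [Finset.sum_congr rfl h1]
    refine (Real.sum_mul_le_sqrt_mul_sqrt _ _ _).trans ?_
    have h2 : ∑ j ∈ J, (w j / Real.sqrt ((min j (N - j) : ℕ) : ℝ)) ^ 2 ≤
        2 * (D * E) * (1 + lam / D) := by
      have h3 := clw_mid N D 0 hD hNpos hDN w hwper (D * E) hWs
      have h4 : ∑ j ∈ J, (w j / Real.sqrt ((min j (N - j) : ℕ) : ℝ)) ^ 2 =
          ∑ j ∈ (range N).filter (fun j ↦ 0 < min j (N - j)), w j ^ 2 / (min j (N - j) : ℕ) := by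
        refine Finset.sum_congr rfl fun j hj => ?_
        obtain ⟨-, -, h3⟩ := hJpos j hj
        rw [div_pow, Real.sq_sqrt h3.le]
      rw [h4]
      refine h3.trans (le_of_eq ?_)
      rw [Nat.cast_zero, zero_add, div_one, ← hlam]
    have h5 : ∑ j ∈ J, (1 / Real.sqrt ((min j (N - j) : ℕ) : ℝ)) ^ 2 ≤ 2 * lam := by
      have h6 := clw_harm N hNpos
      refine le_trans (le_of_eq ?_) h6
      refine Finset.sum_congr rfl fun j hj => ?_
      obtain ⟨-, -, h3⟩ := hJpos j hj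
      rw [div_pow, Real.sq_sqrt h3.le, one_pow]
    calc _ ≤ Real.sqrt (2 * (D * E) * (1 + lam / D)) * Real.sqrt (2 * lam) :=
          mul_le_mul (Real.sqrt_le_sqrt h2) (Real.sqrt_le_sqrt h5) (Real.sqrt_nonneg _)
            (Real.sqrt_nonneg _)
      _ = Real.sqrt (2 * (D * E) * (1 + lam / D) * (2 * lam)) := by
          exact (Real.sqrt_mul (by positivity) _).symm
      _ ≤ Real.sqrt ((4 * lam) ^ 2 * (E * D)) := by
          apply Real.sqrt_le_sqrt
          have h7 : 2 * (D * E) * (1 + lam / D) * (2 * lam) = 4 * lam * E * (D + lam) := by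
            field_simp
            ring
          rw [h7]
          have h8 : (D : ℝ) + lam ≤ 4 * (lam * D) := by nlinarith
          calc 4 * lam * E * (D + lam) ≤ 4 * lam * E * (4 * (lam * D)) :=
                mul_le_mul_of_nonneg_left h8 (by positivity)
            _ = _ := by ring
      _ = 4 * lam * Real.sqrt (E * D) := by
          rw [Real.sqrt_mul (by positivity), Real.sqrt_sq (by positivity)]
  refine hbound.trans ?_
  rw [mul_add]
  refine add_le_add ?_ ?_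
  · rw [hz, norm_mul]
    have h1 : Real.sqrt (E / D) = Real.sqrt (D * E) / D := by
      have h2 : E / (D : ℝ) = (D * E) / D ^ 2 := by field_simp
      rw [h2, Real.sqrt_div (by positivity), Real.sqrt_sq hD0.le]
    rw [h1, hNMD]
    calc 1 / ((M : ℝ) * D) * (‖∑ x ∈ range D, h x‖ * ‖∑ x ∈ range M, k x‖ * gh 0)
        ≤ 1 / ((M : ℝ) * D) * (Real.sqrt (D * E) * ‖∑ x ∈ range M, k x‖ * (G * L)) := by
          apply mul_le_mul_of_nonneg_left _ (by positivity)
          refine mul_le_mul (mul_le_mul_of_nonneg_right hhs (norm_nonneg _)) hgh0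
            (norm_nonneg _) (by positivity)
      _ = _ := by
          field_simp
  · have h1 : ∑ j ∈ J, w j * gh j ≤ 3 * (G * Z) * N / 4 * (4 * lam * Real.sqrt (E * D)) := by
      refine (Finset.sum_le_sum hpt).trans ?_
      rw [← Finset.mul_sum]
      exact mul_le_mul_of_nonneg_left hpart (by positivity)
    calc 1 / (N : ℝ) * (K * ∑ j ∈ J, w j * gh j)
        ≤ 1 / (N : ℝ) * (K * (3 * (G * Z) * N / 4 * (4 * lam * Real.sqrt (E * D)))) := by
          apply mul_le_mul_of_nonneg_left _ (by positivity)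
          exact mul_le_mul_of_nonneg_left h1 hK0
      _ = _ := by
          field_simp

end Pool.Agent.Work.MP_af11aa_nt.T
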