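import Mathlib
import Pool.Agent.Work.MP_af11aa_nt.T.Defs

/-!
MODULE HMom (moments of the periodic function H).
‖H(αx)‖ ≤ (k0/P) β(αx). β∘(α·) has period P (β has period P) and P ∣ 8 k0, x -> α x is a bijection modulo P as α is prime to P, so
∑_{x<8k0} β(αx)^j = (8k0/P) ∑_{x<P} β(x)^j for every α prime to 8 k0.
(hmom2) ∑_{x<P} β² ≤ (P ∑ β⁴)^{1/2} ≤ (A P⁴)^{1/2} ≤ A P² (A ≥ 1); so ≤ (k0/P)² (8k0/P) A P².
(hmom4) ‖H(αx) H(α'x)‖² ≤ (k0/P)⁴ β(αx)² β(α'x)² ≤ (k0/P)⁴ (β(αx)⁴ + β(α'x)⁴)/2; sum: (k0/P)⁴ (8k0/P) A P³.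
-/

set_option autoImplicit false

namespace Pool.Agent.Work.MP_af11aa_nt.T

open Finset ComplexConjugate Pool.Agent.Work.MP_af11aa_nt.W

private theorem HMom_shift1 (g : ℕ → ℝ) (P : ℕ) (hg : ∀ x, g (x + P) = g x) :
    ∑ i ∈ range P, g (i + 1) = ∑ i ∈ range P, g i := by
  have h1 := Finset.sum_range_succ g P
  have h2 := Finset.sum_range_succ' g P
  have h3 : g P = g 0 := by
    have := hg 0
    rwa [zero_add] at this
  rw [h1, h3] at h2
  linarith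

private theorem HMom_shift (g : ℕ → ℝ) (P : ℕ) (hg : ∀ x, g (x + P) = g x) (V : ℕ) :
    ∑ i ∈ range P, g (V + i) = ∑ i ∈ range P, g i := by
  induction V with
  | zero => simp
  | succ V ih =>
    rw [← ih, ← HMom_shift1 (fun i => g (V + i)) P (fun x => by
      show g (V + (x + P)) = g (V + x)
      rw [← add_assoc, hg])]
    refine Finset.sum_congr rfl fun i _ => ?_
    congr 1
    omega

private theorem HMom_blocks (g : ℕ → ℝ) (P : ℕ) (hg : ∀ x, g (x + P) = g x) (q : ℕ) :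
    ∑ i ∈ range (P * q), g i = q * ∑ i ∈ range P, g i := by
  induction q with
  | zero => simp
  | succ q ih =>
    rw [Nat.mul_succ, Finset.sum_range_add, ih, HMom_shift g P hg (P * q)]
    push_cast
    ring

private theorem HMom_mod (f : ℤ → ℝ) (P : ℕ) (hf : ∀ x, f (x + P) = f x) (n : ℕ) :
    f (n : ℤ) = f ((n % P : ℕ) : ℤ) := by
  have h : ∀ (q : ℕ) (x : ℤ), f (x + (P : ℤ) * q) = f x := by
    intro q
    induction q with
    | zero => intro x; simp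
    | succ q ih =>
      intro x
      have : x + (P : ℤ) * ((q + 1 : ℕ) : ℤ) = (x + (P : ℤ) * q) + P := by push_cast; ring
      rw [this, hf, ih]
  have h2 : (n : ℤ) = ((n % P : ℕ) : ℤ) + (P : ℤ) * ((n / P : ℕ) : ℤ) := by
    exact_mod_cast (Nat.mod_add_div n P).symm
  conv_lhs => rw [h2]
  exact h _ _

private theorem HMom_perm (f : ℤ → ℝ) (P : ℕ) (hP : 0 < P) (hf : ∀ x, f (x + P) = f x) (α : ℕ)
    (hα : α.Coprime P) :
    ∑ i ∈ range P, f ((α : ℤ) * i) = ∑ i ∈ range P, f i := by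
  have himg : (range P).image (fun i => (α * i) % P) = range P := by
    apply Finset.eq_of_subset_of_card_le
    · intro x hx
      obtain ⟨i, _, rfl⟩ := Finset.mem_image.1 hx
      exact Finset.mem_range.2 (Nat.mod_lt _ hP)
    · rw [Finset.card_image_of_injOn]
      intro i hi j hj hij
      have h1 : α * i ≡ α * j [MOD P] := hij
      have h2 : i ≡ j [MOD P] := Nat.ModEq.cancel_left_of_coprime hα.symm h1
      have hi' := Finset.mem_range.1 (Finset.mem_coe.1 hi)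
      have hj' := Finset.mem_range.1 (Finset.mem_coe.1 hj)
      exact Nat.ModEq.eq_of_lt_of_lt h2 hi' hj'
  have hinj : Set.InjOn (fun i => (α * i) % P) (range P : Set ℕ) := by
    apply Finset.injOn_of_card_image_eq
    rw [himg]
  calc ∑ i ∈ range P, f ((α : ℤ) * i) = ∑ i ∈ range P, f (((α * i) % P : ℕ) : ℤ) := by
        refine Finset.sum_congr rfl fun i _ => ?_
        rw [← HMom_mod f P hf (α * i)]
        push_cast
        rfl
    _ = ∑ x ∈ (range P).image (fun i => (α * i) % P), f (x : ℤ) := by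
        rw [Finset.sum_image hinj]
    _ = ∑ i ∈ range P, f i := by rw [himg]

private theorem HMom_full (f : ℤ → ℝ) (P : ℕ) (hP : 0 < P) (hf : ∀ x, f (x + P) = f x) (α : ℕ)
    (hα : α.Coprime P) (q : ℕ) :
    ∑ i ∈ range (P * q), f ((α : ℤ) * i) = q * ∑ i ∈ range P, f i := by
  rw [HMom_blocks (fun i => f ((α : ℤ) * i)) P (fun x => ?_) q, HMom_perm f P hP hf α hα]
  have h1 := HMom_mod f P hf (α * (x + P))
  have h2 := HMom_mod f P hf (α * x)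
  have h3 : α * (x + P) % P = α * x % P := by
    rw [mul_add, Nat.add_mul_mod_self_right]
  rw [h3, ← h2] at h1
  push_cast at h1
  exact_mod_cast h1

private theorem HMom_sq {P k0 : ℕ} {A : ℝ} {H : ℤ → ℂ} {β : ℤ → ℝ} (he : Env P k0 A H β) :
    ∑ x ∈ range P, β x ^ 2 ≤ A * (P : ℝ) ^ 2 := by
  have hP : (0 : ℝ) < P := by exact_mod_cast he.hP
  have hA := he.hA
  have h1 : (∑ x ∈ range P, β x ^ 2) ^ 2 ≤ P * ∑ x ∈ range P, (β x ^ 2) ^ 2 := by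
    have := sq_sum_le_card_mul_sum_sq (s := range P) (f := fun x : ℕ => β x ^ 2)
    rwa [Finset.card_range] at this
  have h2 : ∑ x ∈ range P, (β x ^ 2) ^ 2 = ∑ x ∈ range P, β x ^ 4 :=
    Finset.sum_congr rfl fun x _ => by ring
  rw [h2] at h1
  have h3 := he.mom
  have h4 : (∑ x ∈ range P, β x ^ 2) ^ 2 ≤ (A * (P : ℝ) ^ 2) ^ 2 := by
    calc (∑ x ∈ range P, β x ^ 2) ^ 2 ≤ P * (A * (P : ℝ) ^ 3) :=
          h1.trans (mul_le_mul_of_nonneg_left h3 hP.le)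
      _ = A * (P : ℝ) ^ 4 := by ring
      _ ≤ A * (A * (P : ℝ) ^ 4) := by
          have : (P : ℝ) ^ 4 ≤ A * (P : ℝ) ^ 4 := le_mul_of_one_le_left (by positivity) hA
          exact mul_le_mul_of_nonneg_left this (by linarith)
      _ = (A * (P : ℝ) ^ 2) ^ 2 := by ring
  exact le_of_sq_le_sq h4 (by positivity)

private theorem HMom_per (β : ℤ → ℝ) (P j : ℕ) (h : ∀ x, β (x + P) = β x) :
    ∀ x, (fun z : ℤ => β z ^ j) (x + P) = (fun z : ℤ => β z ^ j) x := by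
  intro x
  show β (x + P) ^ j = β x ^ j
  rw [h]

theorem hmom2 {P k0 : ℕ} {A : ℝ} {H : ℤ → ℂ} {β : ℤ → ℝ} (he : Env P k0 A H β) (α : ℕ)
    (hα : α.Coprime (8 * k0)) :
    ∑ x ∈ range (8 * k0), ‖H ((α : ℤ) * x)‖ ^ 2 ≤ A * (8 * k0) * (k0 : ℝ) ^ 2 / P := by
  have hP : (0 : ℝ) < P := by exact_mod_cast he.hP
  have hPk : P ∣ 8 * k0 := ((Dvd.intro_left 24 rfl).trans he.h24).mul_left 8
  obtain ⟨q, hq⟩ := hPk
  have hαP : α.Coprime P := Nat.Coprime.coprime_dvd_right ⟨q, hq⟩ hα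
  have h1 : ∑ x ∈ range (8 * k0), ‖H ((α : ℤ) * x)‖ ^ 2 ≤
      ∑ x ∈ range (8 * k0), ((k0 : ℝ) / P) ^ 2 * β ((α : ℤ) * x) ^ 2 := by
    refine Finset.sum_le_sum fun x _ => ?_
    rw [← mul_pow]
    exact pow_le_pow_left₀ (norm_nonneg _) (he.bd _) 2
  rw [← Finset.mul_sum, hq, HMom_full (fun z => β z ^ 2) P he.hP (HMom_per β P 2 he.bper) α hαP q]
    at h1
  rw [hq]
  refine h1.trans ?_
  have h2 := HMom_sq he
  have hq' : (8 * (k0 : ℝ)) = P * q := by exact_mod_cast hq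
  rw [hq']
  calc ((k0 : ℝ) / P) ^ 2 * (q * ∑ i ∈ range P, β i ^ 2)
      ≤ ((k0 : ℝ) / P) ^ 2 * (q * (A * (P : ℝ) ^ 2)) := by
        refine mul_le_mul_of_nonneg_left (mul_le_mul_of_nonneg_left h2 (Nat.cast_nonneg q)) ?_
        positivity
    _ = A * (P * q) * (k0 : ℝ) ^ 2 / P := by
        field_simp

theorem hmom4 {P k0 : ℕ} {A : ℝ} {H : ℤ → ℂ} {β : ℤ → ℝ} (he : Env P k0 A H β) (α α' : ℕ)
    (hα : α.Coprime (8 * k0)) (hα' : α'.Coprime (8 * k0)) :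
    ∑ x ∈ range (8 * k0), ‖H ((α : ℤ) * x) * conj (H ((α' : ℤ) * x))‖ ^ 2 ≤
      A * (8 * k0) * (k0 : ℝ) ^ 4 / (P : ℝ) ^ 2 := by
  have hP : (0 : ℝ) < P := by exact_mod_cast he.hP
  have hPk : P ∣ 8 * k0 := ((Dvd.intro_left 24 rfl).trans he.h24).mul_left 8
  obtain ⟨q, hq⟩ := hPk
  have hαP : α.Coprime P := Nat.Coprime.coprime_dvd_right ⟨q, hq⟩ hα
  have hαP' : α'.Coprime P := Nat.Coprime.coprime_dvd_right ⟨q, hq⟩ hα'
  have h1 : ∑ x ∈ range (8 * k0), ‖H ((α : ℤ) * x) * conj (H ((α' : ℤ) * x))‖ ^ 2 ≤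
      ∑ x ∈ range (8 * k0), (((k0 : ℝ) / P) ^ 4 / 2 * β ((α : ℤ) * x) ^ 4 +
        ((k0 : ℝ) / P) ^ 4 / 2 * β ((α' : ℤ) * x) ^ 4) := by
    refine Finset.sum_le_sum fun x _ => ?_
    rw [norm_mul, RCLike.norm_conj, mul_pow]
    have h2 : ‖H ((α : ℤ) * x)‖ ^ 2 ≤ ((k0 : ℝ) / P) ^ 2 * β ((α : ℤ) * x) ^ 2 := by
      rw [← mul_pow]
      exact pow_le_pow_left₀ (norm_nonneg _) (he.bd _) 2
    have h3 : ‖H ((α' : ℤ) * x)‖ ^ 2 ≤ ((k0 : ℝ) / P) ^ 2 * β ((α' : ℤ) * x) ^ 2 := by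
      rw [← mul_pow]
      exact pow_le_pow_left₀ (norm_nonneg _) (he.bd _) 2
    calc ‖H ((α : ℤ) * x)‖ ^ 2 * ‖H ((α' : ℤ) * x)‖ ^ 2
        ≤ (((k0 : ℝ) / P) ^ 2 * β ((α : ℤ) * x) ^ 2) * (((k0 : ℝ) / P) ^ 2 * β ((α' : ℤ) * x) ^ 2) :=
          mul_le_mul h2 h3 (by positivity) (by positivity)
      _ ≤ _ := by
          have h5 : 0 ≤ ((k0 : ℝ) / P) ^ 4 := by positivity
          nlinarith [mul_nonneg h5 (sq_nonneg (β ((α : ℤ) * x) ^ 2 - β ((α' : ℤ) * x) ^ 2))]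
  rw [Finset.sum_add_distrib, ← Finset.mul_sum, ← Finset.mul_sum, hq,
    HMom_full (fun z => β z ^ 4) P he.hP (HMom_per β P 4 he.bper) α hαP q,
    HMom_full (fun z => β z ^ 4) P he.hP (HMom_per β P 4 he.bper) α' hαP' q] at h1
  rw [hq]
  refine h1.trans ?_
  have h2 := he.mom
  have hq' : (8 * (k0 : ℝ)) = P * q := by exact_mod_cast hq
  rw [hq']
  calc ((k0 : ℝ) / P) ^ 4 / 2 * (q * ∑ i ∈ range P, β i ^ 4) +
        ((k0 : ℝ) / P) ^ 4 / 2 * (q * ∑ i ∈ range P, β i ^ 4)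
      = ((k0 : ℝ) / P) ^ 4 * (q * ∑ i ∈ range P, β i ^ 4) := by ring
    _ ≤ ((k0 : ℝ) / P) ^ 4 * (q * (A * (P : ℝ) ^ 3)) := by
        refine mul_le_mul_of_nonneg_left (mul_le_mul_of_nonneg_left h2 (Nat.cast_nonneg q)) ?_
        positivity
    _ = A * (P * q) * (k0 : ℝ) ^ 4 / (P : ℝ) ^ 2 := by
        field_simp

end Pool.Agent.Work.MP_af11aa_nt.T
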