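import Mathlib
import Pool.Agent.Work.MP_af11aa_nt.T.Defs
import Pool.Agent.Work.MP_2dba45_nt.Weil.Final
import Pool.Agent.Work.MP_2dba45_nt.Kloost
import Pool.Agent.Work.MP_af11aa_nt.K.Salie
import Pool.Agent.Work.MP_af11aa_nt.W.CrtAux
import Pool.Agent.Work.MP_af11aa_nt.W.KTrunc
import Pool.Agent.Work.MP_af11aa_nt.W.R2Core

/-!
MODULE KloM (Kloosterman sums to a composite modulus, Weil strength up to the squarefull part).
Write M = M1 M2, M2 = sfp M squarefull, M1 squarefree, coprime. By CRT (twisted multiplicativity) the sum over x mod M of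
e((θ x⁻¹ + j x)/M) is the product over the primes l ∣ M1 and of M2 of sums with entries (θ u, j v), u, v units.
prime l: θ ≢ 0 mod l: ≤ 2√l (Pool.Agent.Work.MP_2dba45_nt Weil/Final.lean `weil`, any j); θ ≡ 0: ≤ l = √l √gcd(θ,l).
M2: Kloost.K_bound (with the roles of the entries exchanged by x -> x⁻¹): ‖K‖⁴ ≤ 2 gcd(θ,M2) M2³ τ(M2)³, so
‖K‖ ≤ 2 √gcd(θ,M2) M2^{1/2} M2^{1/4} τ(M2). Product: 2^{ω(M1)} = τ(M1), gcd(θ,M1) gcd(θ,M2) = gcd(θ,M), √M1 √M2 = √M, so ≤ KB M θ.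
(eInv M θ x = e(θ x⁻¹/M) for x prime to M and 0 otherwise; induction on the primes of M1 is convenient:
 prove for every M' coprime to a prime l that the bound passes from M' to l M'.)
-/

set_option autoImplicit false

namespace Pool.Agent.Work.MP_af11aa_nt.T

open Finset Pool.Agent.Work.MP_af11aa_nt.W

/-- the Chinese remainder theorem for sums of periodic functions. -/
theorem klom_crt {a b : ℕ} (ha : 0 < a) (hb : 0 < b) (hab : a.Coprime b) (f g : ℤ → ℂ)
    (hf : ∀ x y : ℤ, x ≡ y [ZMOD a] → f x = f y) (hg : ∀ x y : ℤ, x ≡ y [ZMOD b] → g x = g y) :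
    ∑ x ∈ range (a * b), f (x : ℤ) * g (x : ℤ) =
      (∑ x ∈ range a, f (x : ℤ)) * ∑ x ∈ range b, g (x : ℤ) := by
  have : NeZero a := ⟨ha.ne'⟩
  have : NeZero b := ⟨hb.ne'⟩
  have : NeZero (a * b) := ⟨(Nat.mul_pos ha hb).ne'⟩
  have key : ∀ (c : ℕ) [NeZero c] (h : ℤ → ℂ), ∑ x ∈ range c, h (x : ℤ) =
      ∑ x : ZMod c, h (x.val : ℤ) := by
    intro c _ h
    rw [Pool.Agent.Work.MP_af11aa_nt.K.Salie.sum_zmod]
    refine Finset.sum_congr rfl fun x hx ↦ ?_
    rw [ZMod.val_cast_of_lt (mem_range.1 hx)]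
  rw [key a f, key b g, key (a * b) (fun x ↦ f x * g x),
    ← crt_sum_mul hab (fun y ↦ f (y.val : ℤ)) (fun z ↦ g (z.val : ℤ))]
  refine Finset.sum_congr rfl fun x _ ↦ ?_
  rw [pr1_val, pr2_val]
  congr 1
  · refine hf _ _ ?_
    push_cast
    exact (Int.mod_modEq _ _).symm
  · refine hg _ _ ?_
    push_cast
    exact (Int.mod_modEq _ _).symm

private noncomputable def klomS (M : ℕ) (θ j : ℤ) : ℂ :=
  ∑ x ∈ range M, eInv M θ (x : ℤ) * ec M (j * x)

private lemma klom_ec_congr {c : ℕ} (hc : 0 < c) (j : ℤ) {x y : ℤ} (h : x ≡ y [ZMOD c]) :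
    ec c (j * x) = ec c (j * y) := by
  refine r2_ec_congr hc.ne' ?_
  have : j * y - j * x = j * (y - x) := by ring
  rw [this]
  exact Dvd.dvd.mul_left h.dvd _

private lemma klom_mul {a b : ℕ} (ha : 0 < a) (hb : 0 < b) (hab : a.Coprime b) (θ j : ℤ) :
    klomS (a * b) θ j = klomS a (θ * ivz a b) (j * ivz a b) *
      klomS b (θ * ivz b a) (j * ivz b a) := by
  unfold klomS
  rw [← klom_crt ha hb hab (fun x ↦ eInv a (θ * ivz a b) x * ec a (j * ivz a b * x))
    (fun x ↦ eInv b (θ * ivz b a) x * ec b (j * ivz b a * x))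
    (fun x y h ↦ by rw [eInv_congr _ h, klom_ec_congr ha _ h])
    (fun x y h ↦ by rw [eInv_congr _ h, klom_ec_congr hb _ h])]
  have hcop : IsCoprime ((b : ℕ) : ℤ) (a : ℤ) := Nat.isCoprime_iff_coprime.2 hab.symm
  have hu := r2_ivz ha.ne' hcop
  have hv := r2_ivz hb.ne' hcop.symm
  refine Finset.sum_congr rfl fun x _ ↦ ?_
  rw [r2_eInv_mul ha.ne' hb.ne' hab, r2_two ha.ne' hb.ne' hab hu hv]
  have e1 : j * (x : ℤ) * ivz a b = j * ivz a b * x := by ring
  have e2 : j * (x : ℤ) * ivz b a = j * ivz b a * x := by ring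
  rw [e1, e2]
  ring

private lemma klom_gcd {a : ℕ} {x : ℤ} (θ : ℤ) (h : IsCoprime x (a : ℤ)) :
    Int.gcd (θ * x) a = Int.gcd θ a := by
  exact Int.gcd_mul_left_left_of_gcd_eq_one (Int.isCoprime_iff_gcd_eq_one.1 h)

private lemma klom_units (M : ℕ) [NeZero M] (θ j : ℤ) :
    klomS M θ j = ∑ x : (ZMod M)ˣ, (ZMod.stdAddChar ((j : ZMod M) * (x : ZMod M) +
      (θ : ZMod M) * ((x⁻¹ : (ZMod M)ˣ) : ZMod M)) : ℂ) := by
  have h1 : klomS M θ j = ∑ x ∈ (range M).filter (fun x ↦ x.Coprime M),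
      ec M (θ * ivz M (x : ℤ)) * ec M (j * x) := by
    unfold klomS
    rw [Finset.sum_filter]
    refine Finset.sum_congr rfl fun x _ ↦ ?_
    unfold eInv eI
    by_cases h : x.Coprime M
    · rw [if_pos (Nat.isCoprime_iff_coprime.2 h), if_pos h]
    · rw [if_neg (fun h' ↦ h (Nat.isCoprime_iff_coprime.1 h')), if_neg h, zero_mul]
  rw [h1, ktr_units M (fun x ↦ ec M (θ * ivz M (x : ℤ)) * ec M (j * x))]
  refine Finset.sum_congr rfl fun x _ ↦ ?_
  rw [ktr_std, ktr_std, ← AddChar.map_add_eq_mul]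
  congr 1
  push_cast
  rw [ktr_ivz, Int.cast_natCast, ZMod.natCast_zmod_val]
  rw [ZMod.inv_coe_unit, add_comm]

private lemma klom_prime (l : ℕ) (hl : l.Prime) (θ j : ℤ) :
    ‖klomS l θ j‖ ≤ 2 * Real.sqrt l * Real.sqrt (Int.gcd θ l) := by
  have : Fact l.Prime := ⟨hl⟩
  have hl0 : (0 : ℝ) < l := by exact_mod_cast hl.pos
  by_cases h : (l : ℤ) ∣ θ
  · have h1 : ‖klomS l θ j‖ ≤ l := by
      unfold klomS
      refine (norm_sum_le _ _).trans ?_
      calc ∑ x ∈ range l, ‖eInv l θ (x : ℤ) * ec l (j * x)‖ ≤ ∑ x ∈ range l, (1 : ℝ) := by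
            refine Finset.sum_le_sum fun x _ ↦ ?_
            rw [norm_mul, norm_ec, mul_one]
            exact norm_eInv_le _ _ _
        _ = l := by simp
    have h2 : Int.gcd θ l = l := by
      rw [Int.gcd_eq_natAbs_right h]
      simp
    rw [h2]
    have h3 : 2 * Real.sqrt l * Real.sqrt l = 2 * l := by
      rw [mul_assoc, Real.mul_self_sqrt hl0.le]
    rw [h3]
    linarith
  · have hb : ((θ : ℤ) : ZMod l) ≠ 0 := by
      intro h0
      exact h ((ZMod.intCast_zmod_eq_zero_iff_dvd θ l).1 h0)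
    have h1 := Pool.Agent.Work.MP_2dba45_nt.Weil.weil l (j : ZMod l) (θ : ZMod l) hb
    have h2 : klomS l θ j = ∑ x ∈ (Finset.univ : Finset (ZMod l)).erase 0,
        (ZMod.stdAddChar ((j : ZMod l) * x + (θ : ZMod l) * x⁻¹) : ℂ) := by
      rw [klom_units]
      refine Finset.sum_bij (fun (x : (ZMod l)ˣ) _ ↦ (x : ZMod l)) ?_ ?_ ?_ ?_
      · intro x _
        exact mem_erase.2 ⟨x.ne_zero, mem_univ _⟩
      · intro x _ y _ hxy
        exact Units.ext hxy
      · intro y hy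
        exact ⟨Units.mk0 y (mem_erase.1 hy).1, mem_univ _, rfl⟩
      · intro x _
        rw [Units.val_inv_eq_inv_val]
    rw [h2]
    refine h1.trans ?_
    have hg : 0 < Int.gcd θ l := Int.gcd_pos_of_ne_zero_right _ (by exact_mod_cast hl.ne_zero)
    have h3 : 1 ≤ Real.sqrt (Int.gcd θ l) := Real.one_le_sqrt.2 (by exact_mod_cast hg)
    exact le_mul_of_one_le_right (by positivity) h3

private lemma klom_K (M : ℕ) (hM : 0 < M) (θ j : ℤ) :
    ‖klomS M θ j‖ ≤ 2 * M.divisors.card * Real.sqrt M * Real.sqrt (Int.gcd θ M) *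
      (M : ℝ) ^ (1 / 4 : ℝ) := by
  have : NeZero M := ⟨hM.ne'⟩
  have hM0 : (0 : ℝ) < M := by exact_mod_cast hM
  have h1 : klomS M θ j = Pool.Agent.Work.MP_2dba45_nt.Kloost.K (θ : ZMod M) (j : ZMod M) := by
    rw [klom_units, Pool.Agent.Work.MP_2dba45_nt.Kloost.K, ← Equiv.sum_comp (Equiv.inv (ZMod M)ˣ)]
    refine Finset.sum_congr rfl fun x _ ↦ ?_
    rw [Equiv.inv_apply, inv_inv, add_comm]
  have h2 := Pool.Agent.Work.MP_2dba45_nt.Kloost.K_bound (θ : ZMod M) (j : ZMod M)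
  rw [← h1] at h2
  have h3 : Nat.gcd ((θ : ZMod M)).val M = Int.gcd θ M := by
    have e1 : (((θ : ZMod M).val : ℕ) : ℤ) = θ % M := ZMod.val_intCast θ
    rw [← Int.gcd_natCast_natCast, e1, Int.gcd_emod]
  rw [h3] at h2
  have hg : 0 < Int.gcd θ M := Int.gcd_pos_of_ne_zero_right _ (by exact_mod_cast hM.ne')
  have hg1 : (1 : ℝ) ≤ (Int.gcd θ M : ℝ) := by exact_mod_cast hg
  have ht1 : (1 : ℝ) ≤ (M.divisors.card : ℝ) := by
    exact_mod_cast card_pos.2 ⟨1, Nat.one_mem_divisors.2 hM.ne'⟩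
  set g : ℝ := (Int.gcd θ M : ℝ) with hgdef
  set t : ℝ := (M.divisors.card : ℝ) with htdef
  have h4 : (2 * t * Real.sqrt M * Real.sqrt g * (M : ℝ) ^ (1 / 4 : ℝ)) ^ 4 =
      16 * t ^ 4 * g ^ 2 * (M : ℝ) ^ 3 := by
    have e1 : (Real.sqrt M) ^ 4 = (M : ℝ) ^ 2 := by
      rw [show (Real.sqrt M) ^ 4 = ((Real.sqrt M) ^ 2) ^ 2 by ring, Real.sq_sqrt hM0.le]
    have e2 : (Real.sqrt g) ^ 4 = g ^ 2 := by
      rw [show (Real.sqrt g) ^ 4 = ((Real.sqrt g) ^ 2) ^ 2 by ring, Real.sq_sqrt (by linarith)]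
    have e3 : ((M : ℝ) ^ (1 / 4 : ℝ)) ^ 4 = M := by
      rw [← Real.rpow_natCast, ← Real.rpow_mul hM0.le]
      norm_num
    calc (2 * t * Real.sqrt M * Real.sqrt g * (M : ℝ) ^ (1 / 4 : ℝ)) ^ 4
        = 16 * t ^ 4 * (Real.sqrt M) ^ 4 * (Real.sqrt g) ^ 4 * ((M : ℝ) ^ (1 / 4 : ℝ)) ^ 4 := by
          ring
      _ = _ := by
          rw [e1, e2, e3]
          ring
  have h5 : ‖klomS M θ j‖ ^ 4 ≤
      (2 * t * Real.sqrt M * Real.sqrt g * (M : ℝ) ^ (1 / 4 : ℝ)) ^ 4 := by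
    rw [h4]
    refine h2.trans ?_
    have e1 : 2 * g * (M : ℝ) ^ 3 * t ^ 3 ≤ 16 * (t ^ 3 * t) * (g * g) * (M : ℝ) ^ 3 := by
      have e2 : 2 * g * (M : ℝ) ^ 3 * t ^ 3 = (M : ℝ) ^ 3 * t ^ 3 * g * 2 := by ring
      have e3 : 16 * (t ^ 3 * t) * (g * g) * (M : ℝ) ^ 3 =
          (M : ℝ) ^ 3 * t ^ 3 * g * (16 * (t * g)) := by ring
      rw [e2, e3]
      refine mul_le_mul_of_nonneg_left ?_ (by positivity)
      have : 1 ≤ t * g := by
        calc (1 : ℝ) = 1 * 1 := by ring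
          _ ≤ t * g := mul_le_mul ht1 hg1 zero_le_one (by linarith)
      linarith
    calc _ ≤ 16 * (t ^ 3 * t) * (g * g) * (M : ℝ) ^ 3 := e1
      _ = _ := by ring
  exact le_of_pow_le_pow_left₀ (by norm_num) (by positivity) h5

private lemma klom_sfp_full (M : ℕ) (hM : M ≠ 0) (h : ∀ l, l.Prime → l ∣ M → l ^ 2 ∣ M) :
    sfp M = M := by
  unfold sfp
  rw [Finset.filter_true_of_mem]
  · exact Nat.prod_factorization_pow_eq_self hM
  · intro l hl
    exact h l (Nat.prime_of_mem_primeFactors hl) (Nat.dvd_of_mem_primeFactors hl)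

private lemma klom_sfp_mul (l M : ℕ) (hl : l.Prime) (hM : M ≠ 0) (h : ¬ l ∣ M) :
    sfp (l * M) = sfp M := by
  have hne : l * M ≠ 0 := Nat.mul_ne_zero hl.ne_zero hM
  unfold sfp
  have h1 : (l * M).primeFactors.filter (fun q ↦ q ^ 2 ∣ l * M) =
      M.primeFactors.filter (fun q ↦ q ^ 2 ∣ M) := by
    ext q
    rw [mem_filter, mem_filter, Nat.mem_primeFactors, Nat.mem_primeFactors]
    constructor
    · rintro ⟨⟨hq, h2, _⟩, h3⟩
      have hql : q ≠ l := by
        rintro rfl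
        rw [pow_two] at h3
        exact h (Nat.dvd_of_mul_dvd_mul_left hl.pos h3)
      have hcop : q.Coprime l := (Nat.coprime_primes hq hl).2 hql
      exact ⟨⟨hq, hcop.dvd_of_dvd_mul_left h2, hM⟩,
        (Nat.Coprime.pow_left 2 hcop).dvd_of_dvd_mul_left h3⟩
    · rintro ⟨⟨hq, h2, _⟩, h3⟩
      exact ⟨⟨hq, h2.mul_left l, hne⟩, h3.mul_left l⟩
  rw [h1]
  refine Finset.prod_congr rfl fun q hq ↦ ?_
  rw [mem_filter, Nat.mem_primeFactors] at hq
  have hql : l ≠ q := by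
    rintro rfl
    exact h hq.1.2.1
  rw [Nat.factorization_mul hl.ne_zero hM, Finsupp.add_apply, hl.factorization,
    Finsupp.single_eq_of_ne (by exact fun h' ↦ hql h'.symm), zero_add]

theorem klo_bound (M : ℕ) (hM : 0 < M) (θ j : ℤ) :
    ‖∑ x ∈ range M, eInv M θ (x : ℤ) * ec M (j * x)‖ ≤ KB M θ := by
  have main : ∀ N : ℕ, ∀ M ≤ N, 0 < M → ∀ θ j : ℤ, ‖klomS M θ j‖ ≤ KB M θ := by
    intro N
    induction N with
    | zero => intro M hM h0; omega
    | succ N ih =>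
      intro M hMN hM θ j
      by_cases hfull : ∀ l, l.Prime → l ∣ M → l ^ 2 ∣ M
      · have h1 := klom_K M hM θ j
        unfold KB
        rw [klom_sfp_full M hM.ne' hfull]
        exact h1
      · push Not at hfull
        obtain ⟨l, hl, hlM, hl2⟩ := hfull
        obtain ⟨M', rfl⟩ := hlM
        have hM' : 0 < M' := Nat.pos_of_mul_pos_left hM
        have hndvd : ¬ l ∣ M' := by
          intro h
          exact hl2 (by rw [pow_two]; exact Nat.mul_dvd_mul_left l h)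
        have hcop : l.Coprime M' := (Nat.Prime.coprime_iff_not_dvd hl).2 hndvd
        have hlt : M' ≤ N := by
          have : M' * 2 ≤ l * M' := by
            rw [mul_comm]
            exact Nat.mul_le_mul_right _ hl.two_le
          omega
        have hc1 : IsCoprime (ivz l M') (l : ℤ) :=
          ivz_coprime hl.pos (Nat.isCoprime_iff_coprime.2 hcop.symm)
        have hc2 : IsCoprime (ivz M' l) (M' : ℤ) :=
          ivz_coprime hM' (Nat.isCoprime_iff_coprime.2 hcop)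
        rw [klom_mul hl.pos hM' hcop, norm_mul]
        have h1 := klom_prime l hl (θ * ivz l M') (j * ivz l M')
        have h2 := ih M' hlt hM' (θ * ivz M' l) (j * ivz M' l)
        rw [klom_gcd θ hc1] at h1
        unfold KB at h2 ⊢
        rw [klom_gcd θ hc2] at h2
        rw [klom_sfp_mul l M' hl hM'.ne' hndvd]
        refine (mul_le_mul h1 h2 (norm_nonneg _) (by positivity)).trans (le_of_eq ?_)
        have e1 : (l * M').divisors.card = 2 * M'.divisors.card := by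
          rw [Nat.Coprime.card_divisors_mul hcop, Nat.Prime.divisors hl,
            card_pair hl.one_lt.ne]
        have e2 : Int.gcd θ ((l * M' : ℕ) : ℤ) = Int.gcd θ l * Int.gcd θ M' := by
          rw [Int.gcd_eq_natAbs_gcd_natAbs, Int.gcd_eq_natAbs_gcd_natAbs,
            Int.gcd_eq_natAbs_gcd_natAbs, Int.natAbs_natCast, Int.natAbs_natCast,
            Int.natAbs_natCast]
          exact Nat.Coprime.gcd_mul _ hcop
        rw [e1, e2]
        push_cast
        rw [Real.sqrt_mul (by positivity), Real.sqrt_mul (by positivity)]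
        ring
  exact main M M le_rfl hM θ j

end Pool.Agent.Work.MP_af11aa_nt.T
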