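import Mathlib
import Pool.Agent.Work.MP_af11aa_nt.T.Defs

/-!
MODULE WgtStep (the weight is supported on an interval and is smooth there). In W/Weight.lean the private lemmas
Weight_cond_iff, Weight_psW, Weight_diff, Weight_g... say: psW m y s c = 0 unless m y/2 < s² + (c y)² ≤ m y, and for
c0 ≤ c1 with both k c0, k c1 in this range, ‖g c1 - g c0‖ ≤ 82/(k √c0 c0) (1 + m/(k c0)) (c1 - c0). They are private: copy them
(or the proofs) into this file with other names. Take I = {c | 0 < c, m y/2 < s² + (k c y)² ≤ m y}, which is order connected.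
-/

set_option autoImplicit false

namespace Pool.Agent.Work.MP_af11aa_nt.T

open Finset ComplexConjugate Pool.Agent.Work.MP_af11aa_nt.W

noncomputable section

/-- the weight without the interval condition -/
private def Weight_core (m : ℕ) (y s c : ℝ) : ℂ :=
  Complex.exp (-(2 * Real.pi * Complex.I * m) / (c * (s + c * y * Complex.I))) *
      conj (Complex.exp (2 * Real.pi * Complex.I * m * (s + c * y * Complex.I) / c)) *
      (((s + c * y * Complex.I : ℂ) ^ (1 / 2 : ℂ)) ^ 3)⁻¹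

private def Weight_cond (m : ℕ) (y s c : ℝ) : Prop :=
  (m : ℝ) * y / 2 < s ^ 2 + (c * y) ^ 2 ∧ s ^ 2 + (c * y) ^ 2 ≤ m * y

private lemma Weight_cond_iff {m : ℕ} (hm : 0 < m) {y : ℝ} (hy : 0 < y) (s : ℝ) {c : ℝ}
    (hc : 0 < c) :
    (1 / (m : ℝ) ≤ y / (s ^ 2 + (c * y) ^ 2) ∧ y / (s ^ 2 + (c * y) ^ 2) < 2 / (m : ℝ)) ↔
      Weight_cond m y s c := by
  have hm' : (0 : ℝ) < m := by exact_mod_cast hm
  have hD : 0 < s ^ 2 + (c * y) ^ 2 := by positivity
  unfold Weight_cond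
  rw [div_le_div_iff₀ hm' hD, div_lt_div_iff₀ hD hm']
  constructor
  · rintro ⟨h1, h2⟩
    constructor <;> nlinarith
  · rintro ⟨h1, h2⟩
    constructor <;> nlinarith

private lemma Weight_psW {m : ℕ} (hm : 0 < m) {y : ℝ} (hy : 0 < y) (s : ℝ) {c : ℝ}
    (hc : 0 < c) [Decidable (Weight_cond m y s c)] :
    psW m y s c = if Weight_cond m y s c then Weight_core m y s c else 0 := by
  unfold psW
  by_cases h : Weight_cond m y s c
  · rw [if_pos h, if_pos ((Weight_cond_iff hm hy s hc).2 h)]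
    rfl
  · rw [if_neg h, if_neg (fun h' => h ((Weight_cond_iff hm hy s hc).1 h'))]

private lemma Weight_w {s c y : ℝ} :
    ((s : ℂ) + c * y * Complex.I).re = s ∧ ((s : ℂ) + c * y * Complex.I).im = c * y := by
  constructor
  · simp
  · simp

private lemma Weight_normSq {s c y : ℝ} :
    ‖(s : ℂ) + c * y * Complex.I‖ ^ 2 = s ^ 2 + (c * y) ^ 2 := by
  rw [← Complex.normSq_eq_norm_sq, Complex.normSq_apply, Weight_w.1, Weight_w.2]
  ring

private lemma Weight_bounds {m : ℕ} (hm : 0 < m) {y : ℝ}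
    (hy : y ∈ Set.Ico (1 / (m : ℝ)) (2 / m)) {s c : ℝ} (h : Weight_cond m y s c) :
    2 / 3 ≤ ‖(s : ℂ) + c * y * Complex.I‖ ∧ |s| ≤ 3 / 2 ∧
      1 / 2 ≤ ‖(s : ℂ) + c * y * Complex.I‖ ^ 2 := by
  have hm' : (0 : ℝ) < m := by exact_mod_cast hm
  have h1 : 1 ≤ m * y := by
    have := (div_le_iff₀ hm').1 hy.1
    linarith
  have h2 : m * y < 2 := by
    have := (lt_div_iff₀ hm').1 hy.2
    linarith
  have h3 : 1 / 2 ≤ ‖(s : ℂ) + c * y * Complex.I‖ ^ 2 := by
    rw [Weight_normSq]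
    linarith [h.1]
  refine ⟨?_, ?_, h3⟩
  · by_contra hcon
    push Not at hcon
    have h0 := norm_nonneg ((s : ℂ) + c * y * Complex.I)
    nlinarith
  · rw [abs_le]
    have h4 : s ^ 2 ≤ 2 := by nlinarith [h.2, sq_nonneg (c * y)]
    constructor <;> nlinarith

private lemma Weight_core_norm {m : ℕ} (hm : 0 < m) {y : ℝ}
    (hy : y ∈ Set.Ico (1 / (m : ℝ)) (2 / m)) {s c : ℝ} (hc : 0 < c) (h : Weight_cond m y s c) :
    ‖Weight_core m y s c‖ ≤ 2 := by
  have hm' : (0 : ℝ) < m := by exact_mod_cast hm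
  have hy0 : 0 < y := lt_of_lt_of_le (by positivity) hy.1
  obtain ⟨hb1, -, hb2⟩ := Weight_bounds hm hy h
  set w : ℂ := (s : ℂ) + c * y * Complex.I with hw
  have hw0 : w ≠ 0 := by
    intro h0
    rw [h0, norm_zero] at hb1
    norm_num at hb1
  have hc' : (c : ℂ) ≠ 0 := by exact_mod_cast hc.ne'
  have hwim : w.im = c * y := Weight_w.2
  have hwim0 : 0 < w.im := by rw [hwim]; positivity
  unfold Weight_core
  rw [← hw, norm_mul, norm_mul, Complex.norm_conj, Complex.norm_exp, Complex.norm_exp]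
  have e1 : -(2 * Real.pi * Complex.I * m) / (c * w) =
      ((-(2 * Real.pi * m / c) : ℝ) : ℂ) * (Complex.I / w) := by
    push_cast
    field_simp
  have e2 : 2 * Real.pi * Complex.I * m * w / c =
      (((2 * Real.pi * m / c) : ℝ) : ℂ) * (Complex.I * w) := by
    push_cast
    field_simp
  have hE1 : Real.exp (-(2 * Real.pi * Complex.I * m) / (c * w)).re ≤ 1 := by
    rw [e1, Complex.re_ofReal_mul, Complex.div_re]
    simp only [Complex.I_re, Complex.I_im, zero_mul, zero_div, zero_add, one_mul]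
    apply Real.exp_le_one_iff.2
    have h1 : 0 ≤ w.im / Complex.normSq w := div_nonneg hwim0.le (Complex.normSq_nonneg _)
    have h2 : 0 ≤ 2 * Real.pi * m / c := by positivity
    nlinarith
  have hE2 : Real.exp (2 * Real.pi * Complex.I * m * w / c).re ≤ 1 := by
    rw [e2, Complex.re_ofReal_mul, Complex.I_mul_re]
    apply Real.exp_le_one_iff.2
    have h2 : 0 ≤ 2 * Real.pi * m / c := by positivity
    nlinarith
  have hcp : ‖w ^ (1 / 2 : ℂ)‖ = Real.sqrt ‖w‖ := by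
    have : (1 / 2 : ℂ) = ((1 / 2 : ℝ) : ℂ) := by push_cast; rfl
    rw [this, Complex.norm_cpow_real, Real.sqrt_eq_rpow]
  have hE3 : ‖((w ^ (1 / 2 : ℂ)) ^ 3)⁻¹‖ ≤ 2 := by
    rw [norm_inv, norm_pow, hcp]
    set v := Real.sqrt ‖w‖ with hv
    have hv0 : 0 ≤ v := Real.sqrt_nonneg _
    have hv2 : v ^ 2 = ‖w‖ := Real.sq_sqrt (norm_nonneg _)
    have hv4 : 1 / 2 ≤ v ^ 4 := by
      have : v ^ 4 = (v ^ 2) ^ 2 := by ring
      rw [this, hv2]
      exact hb2
    have hv3 : 1 / 2 ≤ v ^ 3 := by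
      rcases le_or_gt 1 v with h1 | h1
      · have := one_le_pow₀ h1 (n := 3)
        linarith
      · calc (1 : ℝ) / 2 ≤ v ^ 4 := hv4
          _ = v ^ 3 * v := by ring
          _ ≤ v ^ 3 * 1 := mul_le_mul_of_nonneg_left h1.le (by positivity)
          _ = v ^ 3 := mul_one _
    rw [inv_le_comm₀ (by linarith) (by norm_num)]
    linarith
  calc Real.exp (-(2 * Real.pi * Complex.I * m) / (c * w)).re *
        Real.exp (2 * Real.pi * Complex.I * m * w / c).re * ‖((w ^ (1 / 2 : ℂ)) ^ 3)⁻¹‖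
      ≤ 1 * 1 * 2 := by
        gcongr
    _ = 2 := by norm_num

/-- the smooth weight -/
private def Weight_g (m k : ℕ) (y s : ℝ) (σ : Bool) (c : ℝ) : ℂ :=
  ((Real.sqrt c / (k * c) : ℝ) : ℂ) *
    Complex.exp ((if σ then (-1 : ℂ) else 1) * (2 * Real.pi * Complex.I * (2 * m) / (k * c))) *
    Weight_core m y s (k * c)

private lemma Weight_g_norm {m k : ℕ} (hm : 0 < m) (hk : 0 < k) {y : ℝ}
    (hy : y ∈ Set.Ico (1 / (m : ℝ)) (2 / m)) {s c : ℝ} (σ : Bool) (hc : 0 < c)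
    (h : Weight_cond m y s (k * c)) : ‖Weight_g m k y s σ c‖ ≤ 2 / (k * Real.sqrt c) := by
  have hk' : (0 : ℝ) < k := by exact_mod_cast hk
  have h1 := Weight_core_norm hm hy (mul_pos hk' hc) h
  have h2 : ‖Complex.exp ((if σ then (-1 : ℂ) else 1) *
      (2 * Real.pi * Complex.I * (2 * m) / (k * c)))‖ = 1 := by
    have e : (if σ then (-1 : ℂ) else 1) * (2 * Real.pi * Complex.I * (2 * m) / (k * c)) =
        (((if σ then (-1 : ℝ) else 1) * (2 * Real.pi * (2 * m) / (k * c)) : ℝ) : ℂ) *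
          Complex.I := by
      split_ifs
      · push_cast; ring
      · push_cast; ring
    rw [e, Complex.norm_exp_ofReal_mul_I]
  have h3 : ‖((Real.sqrt c / (k * c) : ℝ) : ℂ)‖ = 1 / (k * Real.sqrt c) := by
    rw [Complex.norm_real, Real.norm_eq_abs, abs_of_nonneg (by positivity)]
    have hs : 0 < Real.sqrt c := Real.sqrt_pos.2 hc
    have hss : Real.sqrt c * Real.sqrt c = c := Real.mul_self_sqrt hc.le
    rw [div_eq_div_iff (by positivity) (by positivity)]
    calc Real.sqrt c * (k * Real.sqrt c) = k * (Real.sqrt c * Real.sqrt c) := by ring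
      _ = 1 * (k * c) := by rw [hss]; ring
  unfold Weight_g
  rw [norm_mul, norm_mul, h2, h3, mul_one]
  calc 1 / (k * Real.sqrt c) * ‖Weight_core m y s (k * c)‖ ≤ 1 / (k * Real.sqrt c) * 2 :=
        mul_le_mul_of_nonneg_left h1 (by positivity)
    _ = 2 / (k * Real.sqrt c) := by ring

/-- the logarithm of the smooth weight -/
private def Weight_L (m k : ℕ) (y s : ℝ) (σ : Bool) (c : ℝ) : ℂ :=
  ((-(1 / 2) * Real.log c : ℝ) : ℂ) +
    ((if σ then (-1 : ℂ) else 1) * (2 * Real.pi * Complex.I * (2 * m)) -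
      2 * Real.pi * Complex.I * m * s) * ((k : ℂ) * (c : ℂ))⁻¹ -
    2 * Real.pi * Complex.I * m * ((k : ℂ) * (c : ℂ) * ((s : ℂ) + k * c * y * Complex.I))⁻¹ -
    2 * Real.pi * m * y - 3 / 2 * Complex.log ((s : ℂ) + k * c * y * Complex.I)

private lemma Weight_g_exp {m k : ℕ} (hk : 0 < k) {y : ℝ} (hy : 0 < y) {s c : ℝ} (σ : Bool)
    (hc : 0 < c) : Weight_g m k y s σ c = ((1 / k : ℝ) : ℂ) *
      Complex.exp (Weight_L m k y s σ c) := by
  have hk' : (0 : ℝ) < k := by exact_mod_cast hk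
  have hkc : (k : ℂ) ≠ 0 := by exact_mod_cast hk.ne'
  have hcc : (c : ℂ) ≠ 0 := by exact_mod_cast hc.ne'
  set w : ℂ := (s : ℂ) + k * c * y * Complex.I with hw
  have hw0 : w ≠ 0 := by
    intro h0
    have : w.im = k * c * y := by rw [hw]; simp
    rw [h0, Complex.zero_im] at this
    have h1 : 0 < k * c * y := by positivity
    linarith
  have e1 : ((Real.sqrt c / (k * c) : ℝ) : ℂ) = ((1 / k : ℝ) : ℂ) *
      Complex.exp ((-(1 / 2) * Real.log c : ℝ) : ℂ) := by
    rw [← Complex.ofReal_exp, ← Complex.ofReal_mul]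
    congr 1
    have h1 : Real.exp (-(1 / 2) * Real.log c) = (Real.sqrt c)⁻¹ := by
      rw [Real.sqrt_eq_rpow, ← Real.rpow_neg hc.le, Real.rpow_def_of_pos hc]
      congr 1
      ring
    rw [h1]
    have hs : 0 < Real.sqrt c := Real.sqrt_pos.2 hc
    have hss : Real.sqrt c * Real.sqrt c = c := Real.mul_self_sqrt hc.le
    rw [one_div, ← mul_inv, ← one_div, div_eq_div_iff (by positivity) (by positivity)]
    calc Real.sqrt c * (k * Real.sqrt c) = k * (Real.sqrt c * Real.sqrt c) := by ring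
      _ = 1 * (k * c) := by rw [hss]; ring
  have e2 : conj (Complex.exp (2 * Real.pi * Complex.I * m * w / ((k * c : ℝ) : ℂ))) =
      Complex.exp (-(2 * Real.pi * Complex.I * m * s) * ((k : ℂ) * (c : ℂ))⁻¹ -
        2 * Real.pi * m * y) := by
    rw [← Complex.exp_conj]
    congr 1
    rw [hw]
    simp only [map_div₀, map_mul, map_add, Complex.conj_ofReal, Complex.conj_I, map_natCast,
      map_ofNat]
    push_cast
    field_simp
    ring_nf
    rw [Complex.I_sq]
    ring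
  have e3 : ((w ^ (1 / 2 : ℂ)) ^ 3)⁻¹ = Complex.exp (-(3 / 2 * Complex.log w)) := by
    rw [Complex.cpow_def_of_ne_zero hw0, ← Complex.exp_nat_mul, ← Complex.exp_neg]
    congr 1
    push_cast
    ring
  unfold Weight_g Weight_core Weight_L
  have hw' : ((s : ℂ) + ((k * c : ℝ) : ℂ) * y * Complex.I) = w := by
    rw [hw]; push_cast; ring
  rw [hw', ← hw, e1, e2, e3, mul_assoc, mul_assoc, ← Complex.exp_add, ← Complex.exp_add,
    ← Complex.exp_add, ← Complex.exp_add]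
  congr 2
  push_cast
  field_simp
  ring

private lemma Weight_L_deriv {m k : ℕ} (hm : 0 < m) (hk : 0 < k) {y : ℝ}
    (hy : y ∈ Set.Ico (1 / (m : ℝ)) (2 / m)) {s c : ℝ} (σ : Bool) (hc : 0 < c)
    (h : Weight_cond m y s (k * c)) :
    ∃ L' : ℂ, HasDerivAt (Weight_L m k y s σ) L' c ∧ ‖L'‖ ≤ 41 / c * (1 + m / (k * c)) := by
  have hk' : (0 : ℝ) < k := by exact_mod_cast hk
  have hm' : (0 : ℝ) < m := by exact_mod_cast hm
  have hy0 : 0 < y := lt_of_lt_of_le (by positivity) hy.1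
  have hkc : (k : ℂ) ≠ 0 := by exact_mod_cast hk.ne'
  have hcc : (c : ℂ) ≠ 0 := by exact_mod_cast hc.ne'
  obtain ⟨hb1, hb2, hb3⟩ := Weight_bounds hm hy h
  have hw' : ((s : ℂ) + ((k * c : ℝ) : ℂ) * y * Complex.I) =
      (s : ℂ) + k * c * y * Complex.I := by
    push_cast; ring
  rw [hw'] at hb1 hb3
  set w : ℂ := (s : ℂ) + k * c * y * Complex.I with hw
  have hwim : w.im = k * c * y := by rw [hw]; simp
  have hwim0 : 0 < w.im := by rw [hwim]; positivity
  have hw0 : w ≠ 0 := by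
    intro h0
    rw [h0, Complex.zero_im] at hwim0
    exact lt_irrefl _ hwim0
  have hwn : k * c * y ≤ ‖w‖ := by
    rw [← hwim]
    exact (le_abs_self _).trans (Complex.abs_im_le_norm w)
  have hwpos : 0 < ‖w‖ := norm_pos_iff.2 hw0
  set A : ℂ := (if σ then (-1 : ℂ) else 1) * (2 * Real.pi * Complex.I * (2 * m)) -
      2 * Real.pi * Complex.I * m * s with hA
  have hid : HasDerivAt (fun t : ℝ => (t : ℂ)) 1 c := Complex.ofRealCLM.hasDerivAt
  have hu : HasDerivAt (fun t : ℝ => (k : ℂ) * (t : ℂ)) ((k : ℂ) * 1) c := hid.const_mul _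
  have hwd : HasDerivAt (fun t : ℝ => (s : ℂ) + k * t * y * Complex.I)
      ((k : ℂ) * 1 * y * Complex.I) c :=
    (((hu.mul_const (y : ℂ)).mul_const Complex.I).const_add (s : ℂ))
  have hlog : HasDerivAt (fun t : ℝ => ((-(1 / 2) * Real.log t : ℝ) : ℂ))
      ((-(1 / 2) * c⁻¹ : ℝ) : ℂ) c := ((Real.hasDerivAt_log hc.ne').const_mul _).ofReal_comp
  have hd1 : HasDerivAt (fun t : ℝ => A * ((k : ℂ) * (t : ℂ))⁻¹)
      (A * (-((k : ℂ) * 1) / ((k : ℂ) * (c : ℂ)) ^ 2)) c :=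
    (hu.inv (mul_ne_zero hkc hcc)).const_mul A
  have hd2 : HasDerivAt (fun t : ℝ => 2 * Real.pi * Complex.I * m *
      ((k : ℂ) * (t : ℂ) * ((s : ℂ) + k * t * y * Complex.I))⁻¹)
      (2 * Real.pi * Complex.I * m * (-((k : ℂ) * 1 * w + (k : ℂ) * c *
        ((k : ℂ) * 1 * y * Complex.I)) / ((k : ℂ) * (c : ℂ) * w) ^ 2)) c :=
    ((hu.mul hwd).inv (mul_ne_zero (mul_ne_zero hkc hcc) hw0)).const_mul _
  have hd3 : HasDerivAt (fun t : ℝ => Complex.log ((s : ℂ) + k * t * y * Complex.I))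
      (((k : ℂ) * 1 * y * Complex.I) / w) c :=
    hwd.clog_real (Complex.mem_slitPlane_iff.2 (Or.inr hwim0.ne'))
  have hall := (((hlog.add hd1).sub hd2).sub_const (2 * Real.pi * m * y : ℂ)).sub
    (hd3.const_mul (3 / 2 : ℂ))
  refine ⟨_, hall, ?_⟩
  -- norm estimates
  have hπ : (0 : ℝ) < Real.pi := Real.pi_pos
  have hπ4 : Real.pi < 3.15 := Real.pi_lt_d2
  have hn1 : ‖((-(1 / 2) * c⁻¹ : ℝ) : ℂ)‖ = 1 / 2 / c := by
    rw [Complex.norm_real, Real.norm_eq_abs, abs_mul, abs_inv, abs_of_pos hc]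
    norm_num
    ring
  have hnA : ‖A‖ ≤ 7 * Real.pi * m := by
    rw [hA]
    refine (norm_sub_le _ _).trans ?_
    have h1 : ‖(if σ then (-1 : ℂ) else 1) * (2 * Real.pi * Complex.I * (2 * m))‖ =
        4 * Real.pi * m := by
      rw [norm_mul, norm_mul, norm_mul, norm_mul, norm_mul, Complex.norm_I, Complex.norm_real,
        Complex.norm_natCast, Real.norm_eq_abs, abs_of_pos hπ]
      have : ‖(if σ then (-1 : ℂ) else 1)‖ = 1 := by split_ifs <;> simp
      rw [this]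
      norm_num
      ring
    have h2 : ‖(2 * Real.pi * Complex.I * m * s : ℂ)‖ = 2 * Real.pi * m * |s| := by
      rw [norm_mul, norm_mul, norm_mul, norm_mul, Complex.norm_I, Complex.norm_real,
        Complex.norm_real, Complex.norm_natCast, Real.norm_eq_abs, Real.norm_eq_abs,
        abs_of_pos hπ]
      norm_num
    rw [h1, h2]
    have h3 : 2 * Real.pi * m * |s| ≤ 2 * Real.pi * m * (3 / 2) :=
      mul_le_mul_of_nonneg_left hb2 (by positivity)
    linarith
  have hnk : ‖(k : ℂ)‖ = k := Complex.norm_natCast k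
  have hnc : ‖(c : ℂ)‖ = c := by rw [Complex.norm_real, Real.norm_eq_abs, abs_of_pos hc]
  have hny : ‖(y : ℂ)‖ = y := by rw [Complex.norm_real, Real.norm_eq_abs, abs_of_pos hy0]
  have hn2 : ‖A * (-((k : ℂ) * 1) / ((k : ℂ) * (c : ℂ)) ^ 2)‖ ≤
      7 * Real.pi * m / (k * c ^ 2) := by
    rw [norm_mul, norm_div, norm_neg, norm_pow, norm_mul, norm_mul, hnk, hnc, norm_one, mul_one]
    calc ‖A‖ * (k / (k * c) ^ 2) ≤ (7 * Real.pi * m) * (k / (k * c) ^ 2) :=
          mul_le_mul_of_nonneg_right hnA (by positivity)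
      _ = 7 * Real.pi * m / (k * c ^ 2) := by field_simp
  have hn3 : ‖2 * Real.pi * Complex.I * m * (-((k : ℂ) * 1 * w + (k : ℂ) * c *
        ((k : ℂ) * 1 * y * Complex.I)) / ((k : ℂ) * (c : ℂ) * w) ^ 2)‖ ≤
      6 * Real.pi * m / (k * c ^ 2) := by
    rw [norm_mul, norm_mul, norm_mul, norm_mul, Complex.norm_I, Complex.norm_real,
      Complex.norm_natCast, Real.norm_eq_abs, abs_of_pos hπ, norm_div, norm_neg, norm_pow,
      norm_mul, norm_mul, hnk, hnc]
    have h1 : ‖(k : ℂ) * 1 * w + (k : ℂ) * c * ((k : ℂ) * 1 * y * Complex.I)‖ ≤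
        2 * k * ‖w‖ := by
      refine (norm_add_le _ _).trans ?_
      rw [norm_mul, norm_mul, norm_mul, norm_mul, norm_mul, norm_mul, norm_mul, norm_one,
        Complex.norm_I, hny, hnk, hnc]
      have h2 : (k : ℝ) * c * (k * 1 * y * 1) = k * (k * c * y) := by ring
      rw [h2]
      have h3 : (k : ℝ) * (k * c * y) ≤ k * ‖w‖ := mul_le_mul_of_nonneg_left hwn hk'.le
      linarith
    have h2 : ‖(2 : ℂ)‖ = 2 := by norm_num
    rw [h2]
    calc 2 * Real.pi * 1 * m * (‖(k : ℂ) * 1 * w + (k : ℂ) * c *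
          ((k : ℂ) * 1 * y * Complex.I)‖ / (k * c * ‖w‖) ^ 2)
        ≤ 2 * Real.pi * 1 * m * ((2 * k * ‖w‖) / (k * c * ‖w‖) ^ 2) := by
          gcongr
      _ = 4 * Real.pi * m / (k * c ^ 2) * (1 / ‖w‖) := by
          field_simp
          ring
      _ ≤ 4 * Real.pi * m / (k * c ^ 2) * (3 / 2) := by
          apply mul_le_mul_of_nonneg_left _ (by positivity)
          rw [div_le_iff₀ hwpos]
          linarith
      _ = 6 * Real.pi * m / (k * c ^ 2) := by ring
  have hn4 : ‖(3 / 2 : ℂ) * (((k : ℂ) * 1 * y * Complex.I) / w)‖ ≤ 3 / 2 / c := by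
    have h1 : ‖(3 / 2 : ℂ)‖ = 3 / 2 := by norm_num
    rw [norm_mul, h1, norm_div, norm_mul, norm_mul, norm_mul, norm_one, Complex.norm_I,
      hny, hnk, div_div, div_mul_div_comm, mul_one, mul_one, div_le_div_iff₀ (by positivity)
      (by positivity)]
    nlinarith
  calc _ ≤ ‖((-(1 / 2) * c⁻¹ : ℝ) : ℂ)‖ + ‖A * (-((k : ℂ) * 1) / ((k : ℂ) * (c : ℂ)) ^ 2)‖ +
        ‖2 * Real.pi * Complex.I * m * (-((k : ℂ) * 1 * w + (k : ℂ) * c *
        ((k : ℂ) * 1 * y * Complex.I)) / ((k : ℂ) * (c : ℂ) * w) ^ 2)‖ +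
        ‖(3 / 2 : ℂ) * (((k : ℂ) * 1 * y * Complex.I) / w)‖ := by
        refine (norm_sub_le _ _).trans ?_
        gcongr
        refine (norm_sub_le _ _).trans ?_
        gcongr
        exact norm_add_le _ _
    _ ≤ 1 / 2 / c + 7 * Real.pi * m / (k * c ^ 2) + 6 * Real.pi * m / (k * c ^ 2) +
        3 / 2 / c := by
        rw [hn1]
        gcongr
    _ = 1 / c * (2 + 13 * Real.pi * (m / (k * c))) := by
        field_simp
        ring
    _ ≤ 1 / c * (41 + 41 * (m / (k * c))) := by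
        apply mul_le_mul_of_nonneg_left _ (by positivity)
        have h1 : 0 ≤ (m : ℝ) / (k * c) := by positivity
        nlinarith
    _ = 41 / c * (1 + m / (k * c)) := by ring

private lemma Weight_diff {m k : ℕ} (hm : 0 < m) (hk : 0 < k) {y : ℝ}
    (hy : y ∈ Set.Ico (1 / (m : ℝ)) (2 / m)) {s c₀ c₁ : ℝ} (σ : Bool) (hc : 0 < c₀)
    (hle : c₀ ≤ c₁) (h₀ : Weight_cond m y s (k * c₀)) (h₁ : Weight_cond m y s (k * c₁)) :
    ‖Weight_g m k y s σ c₁ - Weight_g m k y s σ c₀‖ ≤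
      82 / (k * Real.sqrt c₀ * c₀) * (1 + m / (k * c₀)) * (c₁ - c₀) := by
  have hk' : (0 : ℝ) < k := by exact_mod_cast hk
  have hm' : (0 : ℝ) < m := by exact_mod_cast hm
  have hy0 : 0 < y := lt_of_lt_of_le (by positivity) hy.1
  have hcond : ∀ c ∈ Set.Icc c₀ c₁, Weight_cond m y s (k * c) := by
    intro c hcc
    have hc0 : 0 < c := lt_of_lt_of_le hc hcc.1
    constructor
    · refine h₀.1.trans_le ?_
      have h1 : k * c₀ * y ≤ k * c * y := by
        have := hcc.1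
        gcongr
      have h2 : 0 ≤ k * c₀ * y := by positivity
      have h3 : (k * c₀ * y) ^ 2 ≤ (k * c * y) ^ 2 := by gcongr
      linarith
    · refine le_trans ?_ h₁.2
      have h1 : k * c * y ≤ k * c₁ * y := by
        have := hcc.2
        gcongr
      have h2 : 0 ≤ k * c * y := by positivity
      have h3 : (k * c * y) ^ 2 ≤ (k * c₁ * y) ^ 2 := by gcongr
      linarith
  have hder : ∀ c ∈ Set.Icc c₀ c₁, ∃ g' : ℂ, HasDerivWithinAt (Weight_g m k y s σ) g'
      (Set.Icc c₀ c₁) c ∧ ‖g'‖ ≤ 82 / (k * Real.sqrt c₀ * c₀) * (1 + m / (k * c₀)) := by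
    intro c hcc
    have hc0 : 0 < c := lt_of_lt_of_le hc hcc.1
    obtain ⟨L', hL', hLn⟩ := Weight_L_deriv hm hk hy (s := s) σ hc0 (hcond c hcc)
    have h1 : HasDerivAt (fun t => ((1 / k : ℝ) : ℂ) * Complex.exp (Weight_L m k y s σ t))
        (((1 / k : ℝ) : ℂ) * (Complex.exp (Weight_L m k y s σ c) * L')) c :=
      (hL'.cexp).const_mul _
    have h2 : HasDerivAt (Weight_g m k y s σ)
        (((1 / k : ℝ) : ℂ) * (Complex.exp (Weight_L m k y s σ c) * L')) c := by
      refine h1.congr_of_eventuallyEq ?_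
      filter_upwards [lt_mem_nhds hc0] with t ht
      exact Weight_g_exp hk hy0 σ ht
    refine ⟨_, h2.hasDerivWithinAt, ?_⟩
    rw [← mul_assoc, ← Weight_g_exp hk hy0 σ hc0, norm_mul]
    have hgn := Weight_g_norm hm hk hy σ hc0 (hcond c hcc)
    have hs0 : 0 < Real.sqrt c₀ := Real.sqrt_pos.2 hc
    have hsle : Real.sqrt c₀ ≤ Real.sqrt c := Real.sqrt_le_sqrt hcc.1
    calc ‖Weight_g m k y s σ c‖ * ‖L'‖
        ≤ (2 / (k * Real.sqrt c)) * (41 / c * (1 + m / (k * c))) :=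
          mul_le_mul hgn hLn (norm_nonneg _) (by positivity)
      _ ≤ (2 / (k * Real.sqrt c₀)) * (41 / c₀ * (1 + m / (k * c₀))) := by
          have := hcc.1
          gcongr
      _ = 82 / (k * Real.sqrt c₀ * c₀) * (1 + m / (k * c₀)) := by
          field_simp
          ring
  choose! g' hg' using hder
  have h1 := Convex.norm_image_sub_le_of_norm_hasDerivWithin_le
    (fun c hcc => (hg' c hcc).1) (fun c hcc => (hg' c hcc).2) (convex_Icc c₀ c₁)
    (Set.left_mem_Icc.2 hle) (Set.right_mem_Icc.2 hle)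
  rwa [Real.norm_eq_abs, abs_of_nonneg (by linarith)] at h1


theorem wgt_step (m k : ℕ) (hm : 0 < m) (hk : 0 < k) {y : ℝ}
    (hy : y ∈ Set.Ico (1 / (m : ℝ)) (2 / m)) (s : ℝ) (σ : Bool) :
    ∃ I : Set ℝ, I.OrdConnected ∧ (∀ c : ℝ, 0 < c → c ∉ I → wgt m k y s σ c = 0) ∧
      ∀ c0 c1 : ℝ, 0 < c0 → c0 ≤ c1 → c0 ∈ I → c1 ∈ I →
        ‖wgt m k y s σ c1 - wgt m k y s σ c0‖ ≤
          82 / (k * Real.sqrt c0 * c0) * (1 + m / (k * c0)) * (c1 - c0) := by
  classical
  have hk' : (0 : ℝ) < k := by exact_mod_cast hk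
  have hm' : (0 : ℝ) < m := by exact_mod_cast hm
  have hy0 : 0 < y := lt_of_lt_of_le (by positivity) hy.1
  have hwg : ∀ c : ℝ, 0 < c → wgt m k y s σ c =
      if Weight_cond m y s (k * c) then Weight_g m k y s σ c else 0 := by
    intro c hc
    unfold wgt Weight_g
    rw [Weight_psW hm hy0 s (mul_pos hk' hc)]
    split_ifs
    · rfl
    · rw [mul_zero]
    · rfl
    · rw [mul_zero]
  refine ⟨{c : ℝ | 0 < c ∧ Weight_cond m y s (k * c)}, ?_, ?_, ?_⟩
  · refine ⟨fun a ha b hb c hc => ?_⟩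
    have hc0 : 0 < c := lt_of_lt_of_le ha.1 hc.1
    refine ⟨hc0, ?_, ?_⟩
    · refine ha.2.1.trans_le ?_
      have h1 : k * a * y ≤ k * c * y := by
        have := hc.1
        gcongr
      have h2 : 0 ≤ k * a * y := by
        have := ha.1
        positivity
      have h3 : (k * a * y) ^ 2 ≤ (k * c * y) ^ 2 := by gcongr
      linarith
    · refine le_trans ?_ hb.2.2
      have h1 : k * c * y ≤ k * b * y := by
        have := hc.2
        gcongr
      have h2 : 0 ≤ k * c * y := by positivity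
      have h3 : (k * c * y) ^ 2 ≤ (k * b * y) ^ 2 := by gcongr
      linarith
  · intro c hc hcI
    rw [hwg c hc, if_neg (fun h => hcI ⟨hc, h⟩)]
  · intro c0 c1 h0 hle hI0 hI1
    rw [hwg c1 hI1.1, hwg c0 h0, if_pos hI1.2, if_pos hI0.2]
    exact Weight_diff hm hk hy σ h0 hle hI0.2 hI1.2

end

end Pool.Agent.Work.MP_af11aa_nt.T
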