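import Mathlib
import Pool.Agent.Work.MP_af11aa_nt.T.WgtStep

/-!
MODULE WPair (the weights along arithmetic progressions α b).
-/

set_option autoImplicit false

namespace Pool.Agent.Work.MP_af11aa_nt.T

open Finset ComplexConjugate Pool.Agent.Work.MP_af11aa_nt.W

/-- an interval of good integers. -/
private lemma wp_interval {G : ℕ → Prop} {x0 x1 : ℕ}
    (hG : ∀ a b c, x0 < a → a ≤ b → b ≤ c → G a → G c → G b) :
    ∃ u0 u1 : ℕ, x0 ≤ u0 ∧ u1 ≤ x1 ∧ (∀ b ∈ Ioc x0 x1, b ∉ Ioc u0 u1 → ¬ G b) ∧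
      (∀ b ∈ Ioc u0 u1, G b) := by
  classical
  set T := (Ioc x0 x1).filter G with hT
  by_cases hne : T.Nonempty
  · set b0 := T.min' hne with hb0
    set b1 := T.max' hne with hb1
    have h0 : b0 ∈ T := T.min'_mem hne
    have h1 : b1 ∈ T := T.max'_mem hne
    rw [hT, mem_filter, mem_Ioc] at h0 h1
    refine ⟨b0 - 1, b1, by omega, h1.1.2, ?_, ?_⟩
    · intro b hb hnb hGb
      have hbT : b ∈ T := by rw [hT, mem_filter]; exact ⟨hb, hGb⟩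
      have h2 := T.min'_le b hbT
      have h3 := T.le_max' b hbT
      rw [mem_Ioc] at hnb hb
      omega
    · intro b hb
      rw [mem_Ioc] at hb
      exact hG b0 b b1 (by omega) (by omega) hb.2 h0.2 h1.2
  · refine ⟨x0, min x0 x1, le_rfl, min_le_right _ _, ?_, ?_⟩
    · intro b hb _ hGb
      exact hne ⟨b, by rw [hT, mem_filter]; exact ⟨hb, hGb⟩⟩
    · intro b hb
      rw [mem_Ioc] at hb
      have : min x0 x1 ≤ x0 := min_le_left _ _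
      omega

private lemma wp_norm (m k : ℕ) (hm : 0 < m) (hk : 0 < k) {y : ℝ}
    (hy : y ∈ Set.Ico (1 / (m : ℝ)) (2 / m)) (s : ℝ) (σ : Bool) {α x0 c0 b : ℕ}
    (hc0 : 0 < c0) (h1 : c0 ≤ α * (x0 + 1)) (hb : x0 + 1 ≤ b) :
    ‖wgt m k y s σ ((α * b : ℕ) : ℝ)‖ ≤ 2 / (k * Real.sqrt c0) := by
  have h2 : c0 ≤ α * b := h1.trans (Nat.mul_le_mul_left α hb)
  have h3 : (c0 : ℝ) ≤ ((α * b : ℕ) : ℝ) := by exact_mod_cast h2
  have hc0' : (0 : ℝ) < c0 := by exact_mod_cast hc0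
  have hk' : (0 : ℝ) < k := by exact_mod_cast hk
  refine (norm_wgt_le m k hm hk hy s σ (lt_of_lt_of_le hc0' h3)).trans ?_
  have := Real.sqrt_pos.2 hc0'
  gcongr

private lemma wp_step (m k : ℕ) (hk : 0 < k) {w : ℝ → ℂ} {I : Set ℝ}
    (hI : ∀ c0 c1 : ℝ, 0 < c0 → c0 ≤ c1 → c0 ∈ I → c1 ∈ I →
        ‖w c1 - w c0‖ ≤ 82 / (k * Real.sqrt c0 * c0) * (1 + m / (k * c0)) * (c1 - c0))
    {α x0 c0 b L : ℕ} (hL : 0 < L) (hLx : L ≤ x0 + 1)
    (hc0 : 0 < c0) (h1 : c0 ≤ α * (x0 + 1)) (hb : x0 + 1 ≤ b)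
    (hb0 : ((α * b : ℕ) : ℝ) ∈ I) (hb1 : ((α * (b + 1) : ℕ) : ℝ) ∈ I) :
    ‖w ((α * (b + 1) : ℕ) : ℝ) - w ((α * b : ℕ) : ℝ)‖ ≤
      82 / (k * Real.sqrt c0) * (1 + m / (k * c0)) / L := by
  have h2 : c0 ≤ α * b := h1.trans (Nat.mul_le_mul_left α hb)
  have h3 : (c0 : ℝ) ≤ ((α * b : ℕ) : ℝ) := by exact_mod_cast h2
  have hc0' : (0 : ℝ) < c0 := by exact_mod_cast hc0
  have hk' : (0 : ℝ) < k := by exact_mod_cast hk
  have hα : 0 < α := by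
    rcases Nat.eq_zero_or_pos α with h | h
    · rw [h, zero_mul] at h1; omega
    · exact h
  have hα' : (0 : ℝ) < α := by exact_mod_cast hα
  have hbp : (0 : ℝ) < b := by
    have : 0 < b := by omega
    exact_mod_cast this
  have hLp : (0 : ℝ) < L := by exact_mod_cast hL
  have hLb : (L : ℝ) ≤ b := by exact_mod_cast hLx.trans hb
  have hab : (0 : ℝ) < ((α * b : ℕ) : ℝ) := lt_of_lt_of_le hc0' h3
  refine (hI _ _ hab (by push_cast; nlinarith) hb0 hb1).trans ?_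
  have e1 : ((α * (b + 1) : ℕ) : ℝ) - ((α * b : ℕ) : ℝ) = α := by push_cast; ring
  rw [e1]
  set c : ℝ := ((α * b : ℕ) : ℝ) with hc
  have hce : c = α * b := by rw [hc]; push_cast; ring
  have hs := Real.sqrt_pos.2 hc0'
  have hsc := Real.sqrt_pos.2 hab
  have e2 : 82 / (k * Real.sqrt c * c) * (1 + m / (k * c)) * α =
      82 / (k * Real.sqrt c) * (1 + m / (k * c)) / b := by
    rw [hce]
    field_simp
  rw [e2]
  gcongr

theorem wgt_pair (m k : ℕ) (hm : 0 < m) (hk : 0 < k) {y : ℝ}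
    (hy : y ∈ Set.Ico (1 / (m : ℝ)) (2 / m)) (s : ℝ) (σ : Bool) {α α' x0 x1 L c0 : ℕ}
    (hL : 0 < L) (hLx : L ≤ x0 + 1) (hc0 : 0 < c0) (h1 : c0 ≤ α * (x0 + 1))
    (h2 : c0 ≤ α' * (x0 + 1)) :
    ∃ u0 u1 : ℕ, x0 ≤ u0 ∧ u1 ≤ x1 ∧
      (∀ b ∈ Ioc x0 x1, b ∉ Ioc u0 u1 →
        wgt m k y s σ ((α * b : ℕ) : ℝ) * conj (wgt m k y s σ ((α' * b : ℕ) : ℝ)) = 0) ∧
      (∀ b ∈ Ioc u0 u1,
        ‖wgt m k y s σ ((α * b : ℕ) : ℝ) * conj (wgt m k y s σ ((α' * b : ℕ) : ℝ))‖ ≤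
          4 / ((k : ℝ) ^ 2 * c0)) ∧
      (∀ b ∈ Ioo u0 u1,
        ‖wgt m k y s σ ((α * (b + 1) : ℕ) : ℝ) * conj (wgt m k y s σ ((α' * (b + 1) : ℕ) : ℝ)) -
          wgt m k y s σ ((α * b : ℕ) : ℝ) * conj (wgt m k y s σ ((α' * b : ℕ) : ℝ))‖ ≤
          4 / ((k : ℝ) ^ 2 * c0) * (82 * (1 + m / (k * c0))) / L) := by
  obtain ⟨I, hIc, hI0, hIs⟩ := wgt_step m k hm hk hy s σ
  have hα : 0 < α := by
    rcases Nat.eq_zero_or_pos α with h | h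
    · rw [h, zero_mul] at h1; omega
    · exact h
  have hα' : 0 < α' := by
    rcases Nat.eq_zero_or_pos α' with h | h
    · rw [h, zero_mul] at h2; omega
    · exact h
  have hc0' : (0 : ℝ) < c0 := by exact_mod_cast hc0
  have hk' : (0 : ℝ) < k := by exact_mod_cast hk
  have hLp : (0 : ℝ) < L := by exact_mod_cast hL
  have hs := Real.sqrt_pos.2 hc0'
  have hss : Real.sqrt c0 * Real.sqrt c0 = c0 := Real.mul_self_sqrt hc0'.le
  obtain ⟨u0, u1, hu0, hu1, hG0, hG1⟩ := wp_interval (x0 := x0) (x1 := x1)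
    (G := fun b ↦ ((α * b : ℕ) : ℝ) ∈ I ∧ ((α' * b : ℕ) : ℝ) ∈ I) (by
      rintro a b c _ hab hbc ⟨ha1, ha2⟩ ⟨hc1, hc2⟩
      refine ⟨hIc.out ha1 hc1 ⟨?_, ?_⟩, hIc.out ha2 hc2 ⟨?_, ?_⟩⟩
      · exact_mod_cast Nat.mul_le_mul_left α hab
      · exact_mod_cast Nat.mul_le_mul_left α hbc
      · exact_mod_cast Nat.mul_le_mul_left α' hab
      · exact_mod_cast Nat.mul_le_mul_left α' hbc)
  refine ⟨u0, u1, hu0, hu1, ?_, ?_, ?_⟩
  · intro b hb hnb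
    have h3 := hG0 b hb hnb
    rw [mem_Ioc] at hb
    have hb0 : 0 < b := by omega
    rw [not_and_or] at h3
    rcases h3 with h3 | h3
    · rw [hI0 _ (by exact_mod_cast Nat.mul_pos hα hb0) h3, zero_mul]
    · rw [hI0 _ (by exact_mod_cast Nat.mul_pos hα' hb0) h3, map_zero, mul_zero]
  · intro b hb
    rw [mem_Ioc] at hb
    rw [norm_mul, Complex.norm_conj]
    calc ‖wgt m k y s σ ((α * b : ℕ) : ℝ)‖ * ‖wgt m k y s σ ((α' * b : ℕ) : ℝ)‖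
        ≤ 2 / (k * Real.sqrt c0) * (2 / (k * Real.sqrt c0)) :=
          mul_le_mul (wp_norm m k hm hk hy s σ hc0 h1 (by omega))
            (wp_norm m k hm hk hy s σ hc0 h2 (by omega)) (norm_nonneg _) (by positivity)
      _ = 4 / ((k : ℝ) ^ 2 * (Real.sqrt c0 * Real.sqrt c0)) := by
          field_simp
          norm_num
      _ = _ := by rw [hss]
  · intro b hb
    rw [mem_Ioo] at hb
    have g0 := hG1 b (by rw [mem_Ioc]; omega)
    have g1 := hG1 (b + 1) (by rw [mem_Ioc]; omega)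
    set g := fun b : ℕ ↦ wgt m k y s σ ((α * b : ℕ) : ℝ) with hg
    set h := fun b : ℕ ↦ wgt m k y s σ ((α' * b : ℕ) : ℝ) with hh
    have s1 : ‖g (b + 1) - g b‖ ≤ 82 / (k * Real.sqrt c0) * (1 + m / (k * c0)) / L :=
      wp_step m k hk hIs hL hLx hc0 h1 (by omega) g0.1 g1.1
    have s2 : ‖h (b + 1) - h b‖ ≤ 82 / (k * Real.sqrt c0) * (1 + m / (k * c0)) / L :=
      wp_step m k hk hIs hL hLx hc0 h2 (by omega) g0.2 g1.2
    have n1 : ‖g b‖ ≤ 2 / (k * Real.sqrt c0) := wp_norm m k hm hk hy s σ hc0 h1 (by omega)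
    have n2 : ‖h (b + 1)‖ ≤ 2 / (k * Real.sqrt c0) := wp_norm m k hm hk hy s σ hc0 h2 (by omega)
    have e : g (b + 1) * conj (h (b + 1)) - g b * conj (h b) =
        (g (b + 1) - g b) * conj (h (b + 1)) + g b * conj (h (b + 1) - h b) := by
      rw [map_sub]; ring
    show ‖g (b + 1) * conj (h (b + 1)) - g b * conj (h b)‖ ≤ _
    rw [e]
    refine (norm_add_le _ _).trans ?_
    rw [norm_mul, norm_mul, Complex.norm_conj, Complex.norm_conj]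
    calc ‖g (b + 1) - g b‖ * ‖h (b + 1)‖ + ‖g b‖ * ‖h (b + 1) - h b‖
        ≤ (82 / (k * Real.sqrt c0) * (1 + m / (k * c0)) / L) * (2 / (k * Real.sqrt c0)) +
          (2 / (k * Real.sqrt c0)) * (82 / (k * Real.sqrt c0) * (1 + m / (k * c0)) / L) := by
          gcongr
      _ = 4 / ((k : ℝ) ^ 2 * (Real.sqrt c0 * Real.sqrt c0)) * (82 * (1 + m / (k * c0))) / L := by
          field_simp
          ring
      _ = _ := by rw [hss]

theorem wgt_one (m k : ℕ) (hm : 0 < m) (hk : 0 < k) {y : ℝ}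
    (hy : y ∈ Set.Ico (1 / (m : ℝ)) (2 / m)) (s : ℝ) (σ : Bool) {α x0 x1 L c0 : ℕ}
    (hL : 0 < L) (hLx : L ≤ x0 + 1) (hc0 : 0 < c0) (h1 : c0 ≤ α * (x0 + 1)) :
    ∃ u0 u1 : ℕ, x0 ≤ u0 ∧ u1 ≤ x1 ∧
      (∀ b ∈ Ioc x0 x1, b ∉ Ioc u0 u1 → wgt m k y s σ ((α * b : ℕ) : ℝ) = 0) ∧
      (∀ b ∈ Ioc u0 u1, ‖wgt m k y s σ ((α * b : ℕ) : ℝ)‖ ≤ 2 / (k * Real.sqrt c0)) ∧
      (∀ b ∈ Ioo u0 u1,
        ‖wgt m k y s σ ((α * (b + 1) : ℕ) : ℝ) - wgt m k y s σ ((α * b : ℕ) : ℝ)‖ ≤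
          2 / (k * Real.sqrt c0) * (41 * (1 + m / (k * c0))) / L) := by
  obtain ⟨I, hIc, hI0, hIs⟩ := wgt_step m k hm hk hy s σ
  have hα : 0 < α := by
    rcases Nat.eq_zero_or_pos α with h | h
    · rw [h, zero_mul] at h1; omega
    · exact h
  have hc0' : (0 : ℝ) < c0 := by exact_mod_cast hc0
  have hk' : (0 : ℝ) < k := by exact_mod_cast hk
  have hLp : (0 : ℝ) < L := by exact_mod_cast hL
  have hs := Real.sqrt_pos.2 hc0'
  obtain ⟨u0, u1, hu0, hu1, hG0, hG1⟩ := wp_interval (x0 := x0) (x1 := x1)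
    (G := fun b ↦ ((α * b : ℕ) : ℝ) ∈ I) (by
      rintro a b c _ hab hbc ha1 hc1
      refine hIc.out ha1 hc1 ⟨?_, ?_⟩
      · exact_mod_cast Nat.mul_le_mul_left α hab
      · exact_mod_cast Nat.mul_le_mul_left α hbc)
  refine ⟨u0, u1, hu0, hu1, ?_, ?_, ?_⟩
  · intro b hb hnb
    have h3 := hG0 b hb hnb
    rw [mem_Ioc] at hb
    have hb0 : 0 < b := by omega
    exact hI0 _ (by exact_mod_cast Nat.mul_pos hα hb0) h3
  · intro b hb
    rw [mem_Ioc] at hb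
    exact wp_norm m k hm hk hy s σ hc0 h1 (by omega)
  · intro b hb
    rw [mem_Ioo] at hb
    have g0 := hG1 b (by rw [mem_Ioc]; omega)
    have g1 := hG1 (b + 1) (by rw [mem_Ioc]; omega)
    refine (wp_step m k hk hIs hL hLx hc0 h1 (by omega) g0 g1).trans (le_of_eq ?_)
    ring

end Pool.Agent.Work.MP_af11aa_nt.T
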