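import Mathlib
import Pool.Agent.Work.MP_af11aa_nt.T.WPair
import Pool.Agent.Work.MP_af11aa_nt.T.HMom
import Pool.Agent.Work.MP_af11aa_nt.T.KloM
import Pool.Agent.Work.MP_af11aa_nt.T.ClLong

/-!
MODULE InnerLong (off-diagonal inner sum, long range).
As InnerShort with ClLong.cl_long: √(E/D) = √A k0²/P ≤ A k0²/P, √(E D) = √A 8k0 k0²/P, G = 4/(k0² c0), Z = 82 Zg:
G L √(E/D) ‖∑ k‖/M ≤ 4 A/(P c0) L ‖∑‖/M and 3 K G Z √(ED)(1+log) ≤ 3*4*82 A/(P c0) Zg KB 8k0 (1+log): C = 984.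
-/

set_option autoImplicit false

namespace Pool.Agent.Work.MP_af11aa_nt.T

open Finset ComplexConjugate Pool.Agent.Work.MP_af11aa_nt.W

private lemma innerLong_per {P k0 : ℕ} {A : ℝ} {H : ℤ → ℂ} {β : ℤ → ℝ} (he : Env P k0 A H β)
    (x : ℤ) (n : ℕ) : H (x + n * (8 * k0)) = H x := by
  induction n with
  | zero => simp
  | succ n ih =>
    have : x + ((n + 1 : ℕ) : ℤ) * (8 * k0) = (x + n * (8 * k0)) + 8 * k0 := by push_cast; ring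
    rw [this, he.per, ih]

private lemma innerLong_num {A k0 P c0 K lg Zg L S M : ℝ} (hA : 1 ≤ A) (hk : 0 < k0) (hP : 0 < P)
    (hc : 0 < c0) (hK : 0 ≤ K) (hlg : 0 ≤ lg) (hZg : 0 ≤ Zg) (hL : 0 ≤ L) (hS : 0 ≤ S)
    (hM : 0 < M) :
    4 / (k0 ^ 2 * c0) * L * Real.sqrt (A * (8 * k0) * k0 ^ 4 / P ^ 2 / (8 * k0)) * S / M +
      3 * K * (4 / (k0 ^ 2 * c0)) * (82 * Zg) *
        Real.sqrt (A * (8 * k0) * k0 ^ 4 / P ^ 2 * (8 * k0)) * (1 + lg) ≤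
      984 * A / (P * c0) * (L * (S / M) + Zg * K * (8 * k0) * (1 + lg)) := by
  have hA2 : A ≤ A ^ 2 := by nlinarith
  have h1 : Real.sqrt (A * (8 * k0) * k0 ^ 4 / P ^ 2 / (8 * k0)) ≤ A * k0 ^ 2 / P := by
    apply Real.sqrt_le_iff.2
    refine ⟨by positivity, ?_⟩
    have e0 : A * (8 * k0) * k0 ^ 4 / P ^ 2 / (8 * k0) = A * k0 ^ 4 / P ^ 2 := by
      field_simp
    have e1 : (A * k0 ^ 2 / P) ^ 2 = A ^ 2 * k0 ^ 4 / P ^ 2 := by
      rw [div_pow]; ring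
    rw [e1, e0]
    apply div_le_div_of_nonneg_right _ (by positivity)
    exact mul_le_mul_of_nonneg_right hA2 (by positivity)
  have h2 : Real.sqrt (A * (8 * k0) * k0 ^ 4 / P ^ 2 * (8 * k0)) ≤ A * (8 * k0) * k0 ^ 2 / P := by
    apply Real.sqrt_le_iff.2
    refine ⟨by positivity, ?_⟩
    have e0 : A * (8 * k0) * k0 ^ 4 / P ^ 2 * (8 * k0) = A * ((8 * k0) ^ 2 * k0 ^ 4) / P ^ 2 := by
      ring
    have e1 : (A * (8 * k0) * k0 ^ 2 / P) ^ 2 = A ^ 2 * ((8 * k0) ^ 2 * k0 ^ 4) / P ^ 2 := by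
      rw [div_pow]; ring
    rw [e1, e0]
    apply div_le_div_of_nonneg_right _ (by positivity)
    exact mul_le_mul_of_nonneg_right hA2 (by positivity)
  calc 4 / (k0 ^ 2 * c0) * L * Real.sqrt (A * (8 * k0) * k0 ^ 4 / P ^ 2 / (8 * k0)) * S / M +
      3 * K * (4 / (k0 ^ 2 * c0)) * (82 * Zg) *
        Real.sqrt (A * (8 * k0) * k0 ^ 4 / P ^ 2 * (8 * k0)) * (1 + lg)
      ≤ 4 / (k0 ^ 2 * c0) * L * (A * k0 ^ 2 / P) * S / M +
      3 * K * (4 / (k0 ^ 2 * c0)) * (82 * Zg) * (A * (8 * k0) * k0 ^ 2 / P) * (1 + lg) := by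
        gcongr
    _ = 4 * A / (P * c0) * (L * (S / M)) +
        984 * A / (P * c0) * (Zg * K * (8 * k0) * (1 + lg)) := by
        field_simp
        ring
    _ ≤ 984 * A / (P * c0) * (L * (S / M)) +
        984 * A / (P * c0) * (Zg * K * (8 * k0) * (1 + lg)) := by
        gcongr
        norm_num
    _ = _ := by ring

theorem inner_long : ∃ C : ℝ, 0 < C ∧ ∀ {P k0 : ℕ} {A : ℝ} {H : ℤ → ℂ} {β : ℤ → ℝ}
    (_ : Env P k0 A H β) {m : ℕ} (_ : 0 < m) {y : ℝ} (_ : y ∈ Set.Ico (1 / (m : ℝ)) (2 / m))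
    (s : ℝ) (σ : Bool) {M : ℕ} (_ : 0 < M) (_ : M.Coprime (8 * k0)) (θ : ℤ)
    {α α' x0 x1 L c0 : ℕ} (_ : α.Coprime (8 * k0)) (_ : α'.Coprime (8 * k0)) (_ : 0 < L)
    (_ : L ≤ x0 + 1) (_ : x1 ≤ x0 + L) (_ : 0 < c0) (_ : c0 ≤ α * (x0 + 1))
    (_ : c0 ≤ α' * (x0 + 1)),
    ‖∑ b ∈ Ioc x0 x1, (H ((α * b : ℕ) : ℤ) * wgt m k0 y s σ ((α * b : ℕ) : ℝ)) *
        conj (H ((α' * b : ℕ) : ℤ) * wgt m k0 y s σ ((α' * b : ℕ) : ℝ)) * eInv M θ (b : ℤ)‖ ≤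
      C * A / (P * c0) * (L * (‖∑ x ∈ range M, eInv M θ (x : ℤ)‖ / M) +
        (1 + m / (k0 * c0)) * KB M θ * (8 * k0) *
          (1 + Real.log ((M * (8 * k0) : ℕ) : ℝ))) := by
  refine ⟨984, by norm_num, ?_⟩
  intro P k0 A H β he m hm y hy s σ M hM hMc θ α α' x0 x1 L c0 hα hα' hL hLx hx1 hc0 h1 h2
  obtain ⟨u0, u1, hu0, hu1, hout, hG, hv⟩ :=
    wgt_pair m k0 hm he.hk0 hy s σ (α := α) (α' := α') (x0 := x0) (x1 := x1) hL hLx hc0 h1 h2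
  have hk0 : (0 : ℝ) < k0 := by exact_mod_cast he.hk0
  have hPr : (0 : ℝ) < P := by exact_mod_cast he.hP
  have hc0r : (0 : ℝ) < c0 := by exact_mod_cast hc0
  have hLr : (1 : ℝ) ≤ L := by exact_mod_cast hL
  have hMr : (0 : ℝ) < M := by exact_mod_cast hM
  -- the sum restricted
  have hsum : ∑ b ∈ Ioc x0 x1, (H ((α * b : ℕ) : ℤ) * wgt m k0 y s σ ((α * b : ℕ) : ℝ)) *
        conj (H ((α' * b : ℕ) : ℤ) * wgt m k0 y s σ ((α' * b : ℕ) : ℝ)) * eInv M θ (b : ℤ) =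
      ∑ b ∈ Ioc u0 u1, (wgt m k0 y s σ ((α * b : ℕ) : ℝ) *
        conj (wgt m k0 y s σ ((α' * b : ℕ) : ℝ))) *
        ((fun x : ℤ ↦ H ((α : ℤ) * x) * conj (H ((α' : ℤ) * x))) (b : ℤ) *
          (fun x : ℤ ↦ eInv M θ x) (b : ℤ)) := by
    symm
    have hsub : Ioc u0 u1 ⊆ Ioc x0 x1 := Ioc_subset_Ioc hu0 hu1
    rw [← Finset.sum_subset hsub]
    · apply Finset.sum_congr rfl
      intro b _
      push_cast
      rw [map_mul]
      ring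
    · intro b hb hb'
      have h0 := hout b hb hb'
      rw [map_mul]
      have : (H ((α * b : ℕ) : ℤ) * wgt m k0 y s σ ((α * b : ℕ) : ℝ)) *
          (conj (H ((α' * b : ℕ) : ℤ)) * conj (wgt m k0 y s σ ((α' * b : ℕ) : ℝ))) *
            eInv M θ (b : ℤ) = (H ((α * b : ℕ) : ℤ) * conj (H ((α' * b : ℕ) : ℤ)) *
            eInv M θ (b : ℤ)) * (wgt m k0 y s σ ((α * b : ℕ) : ℝ) *
              conj (wgt m k0 y s σ ((α' * b : ℕ) : ℝ))) := by ring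
      rw [this, h0, mul_zero]
  rw [hsum]
  have key := cl_long M (8 * k0) hM (Nat.mul_pos (by norm_num) he.hk0) hMc
    (fun x : ℤ ↦ H ((α : ℤ) * x) * conj (H ((α' : ℤ) * x))) (fun x : ℤ ↦ eInv M θ x)
    (by
      intro x
      have e1 : (α : ℤ) * (x + ((8 * k0 : ℕ) : ℤ)) = α * x + (α : ℕ) * (8 * k0) := by
        push_cast; ring
      have e2 : (α' : ℤ) * (x + ((8 * k0 : ℕ) : ℤ)) = α' * x + (α' : ℕ) * (8 * k0) := by
        push_cast; ring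
      simp only [e1, e2, innerLong_per he])
    (by
      intro x
      apply eInv_congr
      apply Int.ModEq.symm
      apply Int.modEq_of_dvd
      exact ⟨1, by ring⟩)
    (KB M θ) (A * (8 * k0) * (k0 : ℝ) ^ 4 / (P : ℝ) ^ 2) (4 / ((k0 : ℝ) ^ 2 * c0))
    (82 * (1 + m / (k0 * c0))) (L : ℝ) (KB_nonneg M θ)
    (fun j ↦ klo_bound M hM θ j) (hmom4 he α α' hα hα') (by positivity)
    (by
      have : (0 : ℝ) ≤ m / (k0 * c0) := by positivity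
      linarith)
    hLr u0 u1
    (by
      have : u1 ≤ u0 + L := by omega
      exact_mod_cast this)
    (fun b ↦ wgt m k0 y s σ ((α * b : ℕ) : ℝ) * conj (wgt m k0 y s σ ((α' * b : ℕ) : ℝ)))
    hG hv
  refine key.trans ?_
  have hlg : 0 ≤ Real.log ((M * (8 * k0) : ℕ) : ℝ) := Real.log_natCast_nonneg _
  have hD : ((8 * k0 : ℕ) : ℝ) = 8 * (k0 : ℝ) := by push_cast; ring
  rw [hD]
  exact innerLong_num he.hA hk0 hPr hc0r (KB_nonneg M θ) hlg (by positivity)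
    (by positivity) (norm_nonneg _) hMr

end Pool.Agent.Work.MP_af11aa_nt.T
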