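import Mathlib
import Pool.Agent.Work.MP_af11aa_nt.T.ClFour
import Pool.Agent.Work.MP_af11aa_nt.T.ClW
import Pool.Agent.Work.MP_af11aa_nt.T.ClAbel

/-!
MODULE ClShort (completion of a short sum with a weight of large variation; the dependence √Z is the point).
N = M D, w from cl_four (K̂(j) = ∑_{x<N} h k e(-jx/N), ‖K̂(j)‖ ≤ K w j, ∑_{ρ<D} w² ≤ D E), ĝ(j), Δ(j) as in ClAbel.
By cl_inv: |sum| ≤ (1/N) ∑_{j<N} ‖K̂(j)‖ ‖ĝ(j)‖. Let H = ⌊Z N/L⌋ (≥ 1 as L ≤ N), so H ≤ ZN/L and 1/(H+1) ≤ L/(ZN); |j| = min(j,N-j).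
(1) |j| ≤ H: Cauchy–Schwarz, clw_low and cl_pars (L ≤ N): ≤ K (4(H/D+1) D E)^{1/2} (N G² L)^{1/2} = 2KG√E ((H+D) N L)^{1/2}
    ≤ 2 K G √E N (√Z + √(L/M)).
(2) |j| > H: ‖ĝ(j)‖ ≤ (N/(4|j|)) (2G + ‖Δ(j)‖).
 (2a) (KGN/2) ∑ w/|j| ≤ (KGN/2) (∑ w²/|j|)^{1/2} (∑ 1/|j|)^{1/2} ≤ (KGN/2)(2DE(L/(ZN) + (1+log N)/D))^{1/2} (2(1+log N))^{1/2}
      ≤ K G N √E (1+log N) (√(L/M) + 1).
 (2b) (KN/4) ∑ w ‖Δ‖/|j| ≤ (KN/4) (∑ w²/|j|²)^{1/2} (∑_j ‖Δ(j)‖²)^{1/2}; ∑_j ‖Δ‖² ≤ N L (GZ/L)² (cl_pars with s = Ioo x0 x1);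
      ∑ w²/|j|² ≤ 2DE((L/(ZN))² + L/(DZN)); product ≤ (1/2) K G √E N (√(L/M) + √Z).
Total ≤ 5 K G √E (1+log N)(√Z + √(L/M)).
-/

set_option autoImplicit false

namespace Pool.Agent.Work.MP_af11aa_nt.T

open Finset Pool.Agent.Work.MP_af11aa_nt.W

private theorem cs_sqrt_add (a b : ℝ) (ha : 0 ≤ a) (hb : 0 ≤ b) :
    Real.sqrt (a + b) ≤ Real.sqrt a + Real.sqrt b := by
  apply Real.sqrt_le_iff.2
  refine ⟨by positivity, ?_⟩
  have h1 := Real.sq_sqrt ha
  have h2 := Real.sq_sqrt hb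
  have h3 := mul_nonneg (Real.sqrt_nonneg a) (Real.sqrt_nonneg b)
  nlinarith

private theorem cs_card (x0 x1 : ℕ) (L : ℝ) (hL : 1 ≤ L) (hx : (x1 : ℝ) ≤ x0 + L) :
    ((Ioc x0 x1).card : ℝ) ≤ L := by
  rw [Nat.card_Ioc]
  rcases le_total x0 x1 with h | h
  · rw [Nat.cast_sub h]
    linarith
  · rw [Nat.sub_eq_zero_of_le h]
    simp
    linarith

private theorem cs_card' (x0 x1 : ℕ) (L : ℝ) (hL : 1 ≤ L) (hx : (x1 : ℝ) ≤ x0 + L) :
    ((Ioo x0 x1).card : ℝ) ≤ L := by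
  refine le_trans ?_ (cs_card x0 x1 L hL hx)
  exact_mod_cast Finset.card_le_card Finset.Ioo_subset_Ioc_self

theorem cl_short (M D : ℕ) (hM : 0 < M) (hD : 0 < D) (hMD : M.Coprime D) (h k : ℤ → ℂ)
    (hh : ∀ x, h (x + D) = h x) (hk : ∀ x, k (x + M) = k x) (K E G Z L : ℝ) (hK0 : 0 ≤ K)
    (hK : ∀ j : ℤ, ‖∑ x ∈ range M, k x * ec M (j * x)‖ ≤ K)
    (hE : ∑ x ∈ range D, ‖h x‖ ^ 2 ≤ E) (hG0 : 0 ≤ G) (hZ : 1 ≤ Z) (hL : 1 ≤ L)
    (x0 x1 : ℕ) (hx : (x1 : ℝ) ≤ x0 + L) (hLN : L ≤ ((M * D : ℕ) : ℝ)) (g : ℕ → ℂ)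
    (hG : ∀ b ∈ Ioc x0 x1, ‖g b‖ ≤ G)
    (hv : ∀ b ∈ Ioo x0 x1, ‖g (b + 1) - g b‖ ≤ G * Z / L) :
    ‖∑ b ∈ Ioc x0 x1, g b * (h b * k b)‖ ≤
      5 * K * G * Real.sqrt E * (1 + Real.log ((M * D : ℕ) : ℝ)) *
        (Real.sqrt Z + Real.sqrt (L / M)) := by
  classical
  obtain ⟨w, hwper, hw0, hwsum, hwK⟩ := cl_four M D hM hD hMD h k hh hk K hK0 hK
  set N := M * D with hN
  have hNpos : 0 < N := Nat.mul_pos hM hD
  have hN0 : (0 : ℝ) < N := by exact_mod_cast hNpos
  have hM0 : (0 : ℝ) < M := by exact_mod_cast hM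
  have hD0 : (0 : ℝ) < D := by exact_mod_cast hD
  have hDN : D ∣ N := Dvd.intro_left M rfl
  have hNMD : (N : ℝ) = M * D := by rw [hN]; push_cast; ring
  have hE0 : 0 ≤ E := (Finset.sum_nonneg fun x _ => by positivity).trans hE
  have hL0 : 0 < L := by linarith
  have hZ0 : 0 < Z := by linarith
  have hWs : ∑ ρ ∈ range D, w ρ ^ 2 ≤ D * E := hwsum.trans (mul_le_mul_of_nonneg_left hE hD0.le)
  set lam := 1 + Real.log (N : ℝ) with hlam
  have hlam1 : 1 ≤ lam := by
    have : 0 ≤ Real.log (N : ℝ) := Real.log_nonneg (by exact_mod_cast hNpos)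
    linarith
  set R := Real.sqrt (L / M) with hR
  have hR0 : 0 ≤ R := Real.sqrt_nonneg _
  set sZ := Real.sqrt Z with hsZ
  have hsZ1 : 1 ≤ sZ := Real.one_le_sqrt.2 hZ
  set sE := Real.sqrt E with hsE
  have hsE0 : 0 ≤ sE := Real.sqrt_nonneg _
  -- the transform of the weight
  let gh : ℕ → ℝ := fun j => ‖∑ b ∈ Ioc x0 x1, g b * ec N ((j : ℤ) * b)‖
  let dh : ℕ → ℝ := fun j => ‖∑ b ∈ Ioo x0 x1, (g (b + 1) - g b) * ec N ((j : ℤ) * b)‖
  have hx1N : x1 ≤ x0 + N := by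
    have : (x1 : ℝ) ≤ x0 + N := hx.trans (by linarith)
    exact_mod_cast this
  have hgh2 : ∑ j ∈ range N, gh j ^ 2 ≤ N * (G ^ 2 * L) := by
    show ∑ j ∈ range N, ‖∑ b ∈ Ioc x0 x1, g b * ec N ((j : ℤ) * b)‖ ^ 2 ≤ _
    rw [cl_pars N x0 x1 hNpos hx1N g (Ioc x0 x1) le_rfl]
    refine mul_le_mul_of_nonneg_left ?_ hN0.le
    calc ∑ b ∈ Ioc x0 x1, ‖g b‖ ^ 2 ≤ ∑ b ∈ Ioc x0 x1, G ^ 2 :=
          Finset.sum_le_sum fun b hb => pow_le_pow_left₀ (norm_nonneg _) (hG b hb) 2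
      _ = (Ioc x0 x1).card * G ^ 2 := by rw [Finset.sum_const, nsmul_eq_mul]
      _ ≤ L * G ^ 2 := mul_le_mul_of_nonneg_right (cs_card x0 x1 L hL hx) (by positivity)
      _ = G ^ 2 * L := mul_comm _ _
  have hdh2 : ∑ j ∈ range N, dh j ^ 2 ≤ N * (G ^ 2 * Z ^ 2 / L) := by
    show ∑ j ∈ range N, ‖∑ b ∈ Ioo x0 x1, (g (b + 1) - g b) * ec N ((j : ℤ) * b)‖ ^ 2 ≤ _
    rw [cl_pars N x0 x1 hNpos hx1N (fun b => g (b + 1) - g b) (Ioo x0 x1)
      Finset.Ioo_subset_Ioc_self]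
    refine mul_le_mul_of_nonneg_left ?_ hN0.le
    calc ∑ b ∈ Ioo x0 x1, ‖g (b + 1) - g b‖ ^ 2 ≤ ∑ b ∈ Ioo x0 x1, (G * Z / L) ^ 2 :=
          Finset.sum_le_sum fun b hb => pow_le_pow_left₀ (norm_nonneg _) (hv b hb) 2
      _ = (Ioo x0 x1).card * (G * Z / L) ^ 2 := by rw [Finset.sum_const, nsmul_eq_mul]
      _ ≤ L * (G * Z / L) ^ 2 := mul_le_mul_of_nonneg_right (cs_card' x0 x1 L hL hx) (by positivity)
      _ = G ^ 2 * Z ^ 2 / L := by field_simp
  -- inversion
  have hinv := cl_inv N hNpos (fun x => h x * k x) (fun x => by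
    have e1 : h (x + (N : ℤ)) = h x := by
      rw [hN]
      have := eo_per D h hh M x
      push_cast
      rw [mul_comm (M : ℤ)]
      exact this
    have e2 : k (x + (N : ℤ)) = k x := by
      rw [hN]
      have := eo_per M k hk D x
      push_cast
      exact this
    show h (x + (N : ℤ)) * k (x + (N : ℤ)) = h x * k x
    rw [e1, e2]) g (Ioc x0 x1)
  have hbound : ‖∑ b ∈ Ioc x0 x1, g b * (h b * k b)‖ ≤
      K / N * ∑ j ∈ range N, w j * gh j := by
    rw [hinv, norm_mul]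
    have e1 : ‖(1 / (N : ℂ))‖ = 1 / N := by
      rw [norm_div, norm_one, Complex.norm_natCast]
    rw [e1, div_mul_eq_mul_div, one_mul, div_mul_eq_mul_div]
    apply div_le_div_of_nonneg_right _ hN0.le
    refine (norm_sum_le _ _).trans ?_
    rw [Finset.mul_sum]
    refine Finset.sum_le_sum fun j _ => ?_
    rw [norm_mul, ← mul_assoc]
    exact mul_le_mul_of_nonneg_right (hwK j) (norm_nonneg _)
  -- the cut
  set H := ⌊Z * N / L⌋₊ with hH
  have hZNL : 0 ≤ Z * N / L := by positivity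
  have hH1 : (H : ℝ) ≤ Z * N / L := Nat.floor_le hZNL
  have hH2 : Z * N / L < (H : ℝ) + 1 := Nat.lt_floor_add_one _
  have hH3 : 1 / ((H : ℝ) + 1) ≤ L / (Z * N) := by
    rw [div_le_div_iff₀ (by positivity) (by positivity), one_mul]
    rw [div_lt_iff₀ hL0] at hH2
    linarith
  have hsplit : ∑ j ∈ range N, w j * gh j =
      ∑ j ∈ (range N).filter (fun j => min j (N - j) ≤ H), w j * gh j +
      ∑ j ∈ (range N).filter (fun j => H < min j (N - j)), w j * gh j := by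
    rw [← Finset.sum_filter_add_sum_filter_not (range N) (fun j => min j (N - j) ≤ H)]
    congr 1
    refine Finset.sum_congr ?_ fun _ _ => rfl
    ext j
    simp only [Finset.mem_filter, not_le]
  -- part 1
  have hpart1 : ∑ j ∈ (range N).filter (fun j => min j (N - j) ≤ H), w j * gh j ≤
      2 * G * sE * (N * (sZ + R)) := by
    refine (Real.sum_mul_le_sqrt_mul_sqrt _ _ _).trans ?_
    have h1 := clw_low N D H hD hNpos hDN w hwper (D * E) hWs
    have h2 : ∑ j ∈ (range N).filter (fun j => min j (N - j) ≤ H), gh j ^ 2 ≤ N * (G ^ 2 * L) :=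
      (Finset.sum_le_sum_of_subset_of_nonneg (Finset.filter_subset _ _)
        fun _ _ _ => sq_nonneg _).trans hgh2
    calc Real.sqrt (∑ j ∈ (range N).filter (fun j => min j (N - j) ≤ H), w j ^ 2) *
          Real.sqrt (∑ j ∈ (range N).filter (fun j => min j (N - j) ≤ H), gh j ^ 2)
        ≤ Real.sqrt (4 * ((H : ℝ) / D + 1) * (D * E)) * Real.sqrt (N * (G ^ 2 * L)) :=
          mul_le_mul (Real.sqrt_le_sqrt h1) (Real.sqrt_le_sqrt h2) (Real.sqrt_nonneg _)
            (Real.sqrt_nonneg _)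
      _ = Real.sqrt ((4 * ((H : ℝ) / D + 1) * (D * E)) * (N * (G ^ 2 * L))) := by
          exact (Real.sqrt_mul (by positivity) _).symm
      _ ≤ Real.sqrt ((2 * G) ^ 2 * E * (N ^ 2 * (Z + L / M))) := by
          apply Real.sqrt_le_sqrt
          have h3 : 4 * ((H : ℝ) / D + 1) * (D * E) * (N * (G ^ 2 * L)) =
              (2 * G) ^ 2 * E * ((H + D) * N * L) := by
            field_simp
            ring
          rw [h3]
          apply mul_le_mul_of_nonneg_left _ (by positivity)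
          have h4 : (N : ℝ) ^ 2 * (Z + L / M) = (Z * N / L + D) * N * L := by
            rw [hNMD]
            field_simp
          rw [h4]
          gcongr
      _ = 2 * G * sE * (N * Real.sqrt (Z + L / M)) := by
          rw [Real.sqrt_mul (by positivity), Real.sqrt_mul (by positivity),
            Real.sqrt_mul (by positivity), Real.sqrt_sq (by positivity), Real.sqrt_sq hN0.le]
      _ ≤ _ := by
          apply mul_le_mul_of_nonneg_left _ (by positivity)
          apply mul_le_mul_of_nonneg_left _ hN0.le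
          exact cs_sqrt_add Z (L / M) hZ0.le (by positivity)
  -- part 2
  set J := (range N).filter (fun j => H < min j (N - j)) with hJ
  have hJpos : ∀ j ∈ J, 0 < j ∧ j < N ∧ (0 : ℝ) < ((min j (N - j) : ℕ) : ℝ) := by
    intro j hj
    rw [hJ, Finset.mem_filter, Finset.mem_range] at hj
    have h1 : 0 < min j (N - j) := lt_of_le_of_lt (Nat.zero_le _) hj.2
    exact ⟨by omega, hj.1, by exact_mod_cast h1⟩
  have hpt : ∀ j ∈ J, w j * gh j ≤ N * G / 2 * (w j / ((min j (N - j) : ℕ) : ℝ)) +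
      N / 4 * (w j / ((min j (N - j) : ℕ) : ℝ) * dh j) := by
    intro j hj
    obtain ⟨h1, h2, h3⟩ := hJpos j hj
    have h4 := cl_abel N x0 x1 j h1 h2 g G hG0 hG
    have h5 : gh j ≤ (N : ℝ) / (4 * (min j (N - j) : ℕ)) * (2 * G + dh j) := h4
    refine (mul_le_mul_of_nonneg_left h5 (hw0 j)).trans (le_of_eq ?_)
    field_simp
    ring
  have hpart2a : ∑ j ∈ J, w j / ((min j (N - j) : ℕ) : ℝ) ≤ 2 * (lam * sE * (R + 1)) := by
    have h1 : ∀ j ∈ J, w j / ((min j (N - j) : ℕ) : ℝ) =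
        (w j / Real.sqrt ((min j (N - j) : ℕ) : ℝ)) * (1 / Real.sqrt ((min j (N - j) : ℕ) : ℝ)) := by
      intro j hj
      obtain ⟨-, -, h3⟩ := hJpos j hj
      rw [div_mul_div_comm, mul_one, Real.mul_self_sqrt h3.le]
    rw [Finset.sum_congr rfl h1]
    refine (Real.sum_mul_le_sqrt_mul_sqrt _ _ _).trans ?_
    have h2 : ∑ j ∈ J, (w j / Real.sqrt ((min j (N - j) : ℕ) : ℝ)) ^ 2 ≤
        2 * (D * E) * (L / (Z * N) + lam / D) := by
      have h3 := clw_mid N D H hD hNpos hDN w hwper (D * E) hWs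
      have h4 : ∑ j ∈ J, (w j / Real.sqrt ((min j (N - j) : ℕ) : ℝ)) ^ 2 =
          ∑ j ∈ (range N).filter (fun j ↦ H < min j (N - j)), w j ^ 2 / (min j (N - j) : ℕ) := by
        refine Finset.sum_congr rfl fun j hj => ?_
        obtain ⟨-, -, h3⟩ := hJpos j hj
        rw [div_pow, Real.sq_sqrt h3.le]
      rw [h4]
      refine h3.trans ?_
      gcongr
    have h5 : ∑ j ∈ J, (1 / Real.sqrt ((min j (N - j) : ℕ) : ℝ)) ^ 2 ≤ 2 * lam := by
      have h6 := clw_harm N hNpos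
      refine le_trans ?_ h6
      have h4 : ∑ j ∈ J, (1 / Real.sqrt ((min j (N - j) : ℕ) : ℝ)) ^ 2 =
          ∑ j ∈ J, 1 / ((min j (N - j) : ℕ) : ℝ) := by
        refine Finset.sum_congr rfl fun j hj => ?_
        obtain ⟨-, -, h3⟩ := hJpos j hj
        rw [div_pow, Real.sq_sqrt h3.le, one_pow]
      rw [h4]
      refine Finset.sum_le_sum_of_subset_of_nonneg ?_ fun _ _ _ => by positivity
      intro j hj
      rw [hJ, Finset.mem_filter] at hj
      rw [Finset.mem_filter]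
      exact ⟨hj.1, lt_of_le_of_lt (Nat.zero_le _) hj.2⟩
    calc _ ≤ Real.sqrt (2 * (D * E) * (L / (Z * N) + lam / D)) * Real.sqrt (2 * lam) :=
          mul_le_mul (Real.sqrt_le_sqrt h2) (Real.sqrt_le_sqrt h5) (Real.sqrt_nonneg _)
            (Real.sqrt_nonneg _)
      _ = Real.sqrt (2 * (D * E) * (L / (Z * N) + lam / D) * (2 * lam)) := by
          exact (Real.sqrt_mul (by positivity) _).symm
      _ ≤ Real.sqrt ((2 * lam) ^ 2 * E * (L / M + 1)) := by
          apply Real.sqrt_le_sqrt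
          have h7 : 2 * (D * E) * (L / (Z * N) + lam / D) * (2 * lam) =
              4 * lam * E * (L / M / Z + lam) := by
            rw [hNMD]
            field_simp
            ring
          rw [h7]
          have h8 : L / M / Z ≤ L / M := div_le_self (by positivity) hZ
          have h9 : L / M / Z + lam ≤ lam * (L / M + 1) := by
            have : L / M ≤ lam * (L / M) := le_mul_of_one_le_left (by positivity) hlam1
            linarith
          calc 4 * lam * E * (L / M / Z + lam) ≤ 4 * lam * E * (lam * (L / M + 1)) :=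
                mul_le_mul_of_nonneg_left h9 (by positivity)
            _ = _ := by ring
      _ = 2 * lam * sE * Real.sqrt (L / M + 1) := by
          rw [Real.sqrt_mul (by positivity), Real.sqrt_mul (by positivity),
            Real.sqrt_sq (by positivity)]
      _ ≤ 2 * lam * sE * (R + 1) := by
          apply mul_le_mul_of_nonneg_left _ (by positivity)
          have := cs_sqrt_add (L / M) 1 (by positivity) zero_le_one
          rwa [Real.sqrt_one] at this
      _ = _ := by ring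
  have hpart2b : ∑ j ∈ J, w j / ((min j (N - j) : ℕ) : ℝ) * dh j ≤ 2 * G * sE * (R + sZ) := by
    refine (Real.sum_mul_le_sqrt_mul_sqrt _ _ _).trans ?_
    have h2 : ∑ j ∈ J, (w j / ((min j (N - j) : ℕ) : ℝ)) ^ 2 ≤
        2 * (D * E) * ((L / (Z * N)) ^ 2 + 1 / D * (L / (Z * N))) := by
      have h3 := clw_sq N D H hD hNpos hDN w hwper (D * E) hWs
      have h4 : ∑ j ∈ J, (w j / ((min j (N - j) : ℕ) : ℝ)) ^ 2 =
          ∑ j ∈ (range N).filter (fun j ↦ H < min j (N - j)),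
            w j ^ 2 / ((min j (N - j) : ℕ) : ℝ) ^ 2 :=
        Finset.sum_congr rfl fun j _ => div_pow _ _ _
      rw [h4]
      refine h3.trans ?_
      apply mul_le_mul_of_nonneg_left _ (by positivity)
      refine add_le_add ?_ ?_
      · rw [← one_div_pow]
        exact pow_le_pow_left₀ (by positivity) hH3 2
      · rw [← one_div_mul_one_div]
        exact mul_le_mul_of_nonneg_left hH3 (by positivity)
    have h5 : ∑ j ∈ J, dh j ^ 2 ≤ N * (G ^ 2 * Z ^ 2 / L) :=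
      (Finset.sum_le_sum_of_subset_of_nonneg (Finset.filter_subset _ _)
        fun _ _ _ => sq_nonneg _).trans hdh2
    calc _ ≤ Real.sqrt (2 * (D * E) * ((L / (Z * N)) ^ 2 + 1 / D * (L / (Z * N)))) *
          Real.sqrt (N * (G ^ 2 * Z ^ 2 / L)) :=
          mul_le_mul (Real.sqrt_le_sqrt h2) (Real.sqrt_le_sqrt h5) (Real.sqrt_nonneg _)
            (Real.sqrt_nonneg _)
      _ = Real.sqrt (2 * (D * E) * ((L / (Z * N)) ^ 2 + 1 / D * (L / (Z * N))) *
          (N * (G ^ 2 * Z ^ 2 / L))) := by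
          exact (Real.sqrt_mul (by positivity) _).symm
      _ ≤ Real.sqrt ((2 * G) ^ 2 * E * (L / M + Z)) := by
          apply Real.sqrt_le_sqrt
          have h7 : 2 * (D * E) * ((L / (Z * N)) ^ 2 + 1 / D * (L / (Z * N))) *
              (N * (G ^ 2 * Z ^ 2 / L)) = 2 * (G ^ 2 * E * (L / M + Z)) := by
            rw [hNMD]
            field_simp
          rw [h7]
          have h8 : 0 ≤ G ^ 2 * E * (L / M + Z) := by positivity
          have h9 : (2 * G) ^ 2 * E * (L / M + Z) = 4 * (G ^ 2 * E * (L / M + Z)) := by ring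
          rw [h9]
          linarith
      _ = 2 * G * sE * Real.sqrt (L / M + Z) := by
          rw [Real.sqrt_mul (by positivity), Real.sqrt_mul (by positivity),
            Real.sqrt_sq (by positivity)]
      _ ≤ _ := by
          apply mul_le_mul_of_nonneg_left _ (by positivity)
          exact cs_sqrt_add (L / M) Z (by positivity) hZ0.le
  have hpart2 : ∑ j ∈ J, w j * gh j ≤ N * G / 2 * (2 * (lam * sE * (R + 1))) +
      N / 4 * (2 * G * sE * (R + sZ)) := by
    refine (Finset.sum_le_sum hpt).trans ?_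
    rw [Finset.sum_add_distrib, ← Finset.mul_sum, ← Finset.mul_sum]
    exact add_le_add (mul_le_mul_of_nonneg_left hpart2a (by positivity))
      (mul_le_mul_of_nonneg_left hpart2b (by positivity))
  refine hbound.trans ?_
  rw [hsplit]
  have htot : ∑ j ∈ (range N).filter (fun j => min j (N - j) ≤ H), w j * gh j +
      ∑ j ∈ J, w j * gh j ≤ N * (5 * G * sE * lam * (sZ + R)) := by
    have h1 : 0 ≤ G * sE * (sZ + R) := by positivity
    have h2 : G * sE * (sZ + R) ≤ lam * (G * sE * (sZ + R)) := le_mul_of_one_le_left h1 hlam1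
    have h3 : G * (lam * sE * (R + 1)) ≤ lam * (G * sE * (sZ + R)) := by
      have : G * (lam * sE * (R + 1)) = lam * (G * sE * (R + 1)) := by ring
      rw [this]
      refine mul_le_mul_of_nonneg_left ?_ (by linarith)
      exact mul_le_mul_of_nonneg_left (by linarith) (by positivity)
    have h4 : (N : ℝ) * (5 * G * sE * lam * (sZ + R)) -
        (2 * G * sE * (N * (sZ + R)) + (N * G / 2 * (2 * (lam * sE * (R + 1))) +
        N / 4 * (2 * G * sE * (R + sZ)))) =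
        N * (5 * (lam * (G * sE * (sZ + R))) - 2 * (G * sE * (sZ + R)) -
          G * (lam * sE * (R + 1)) - 1 / 2 * (G * sE * (sZ + R))) := by ring
    have h5 : 0 ≤ N * (5 * (lam * (G * sE * (sZ + R))) - 2 * (G * sE * (sZ + R)) -
          G * (lam * sE * (R + 1)) - 1 / 2 * (G * sE * (sZ + R))) :=
      mul_nonneg hN0.le (by linarith)
    linarith
  calc K / N * _ ≤ K / N * (N * (5 * G * sE * lam * (sZ + R))) :=
        mul_le_mul_of_nonneg_left htot (by positivity)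
    _ = _ := by
        field_simp

end Pool.Agent.Work.MP_af11aa_nt.T
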