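import Mathlib
import Pool.Agent.Work.MP_af11aa_nt.W.Diff
import Pool.Agent.Work.MP_af11aa_nt.W.SqFull
import Pool.Agent.Work.MP_f2148a_nt.DivisorBound

/-!
MODULE AvgK (averages of gcd's and squarefull parts).
(avg_kb) Cauchy–Schwarz: (∑ gcd(d,a))^{1/2} (∑ sfp(a)^{1/2})^{1/2}. First: ∑_{a ≤ A} gcd(d,a) ≤ ∑_{e ∣ d} e (A/e) ≤ A τ(d).
 Second: sfp a = x² y³ divides a (see SqFull_xy, SqFull_dvd in W/SqFull.lean, private: copy), so
 ∑_{a ≤ A} sfp(a)^{1/2} ≤ ∑_{x,y ≤ A} x y^{3/2} #{a ≤ A : x²y³ ∣ a} ≤ A ∑ 1/(x y^{3/2}) ≤ C A (1 + log A).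
(avg_gcd) ∑_{a ≤ A} gcd(d,a) τ(gcd(d,a))/a ≤ ∑_{e ∣ d} e τ(e) ∑_{a ≤ A, e ∣ a} 1/a ≤ τ(d)² (1 + log A).
τ(d) ≤ C d^ε: Pool.Agent.Work.MP_f2148a_nt.exists_card_divisors_le.
(sfp_mul) e squarefree: prime by prime; v(e) = 0: same; v(e) = 1, v(a) = 0: contribution 1 (v(ea) = 1); v(a) = 1: l² against
 sfp(a): 1 and gcd²: l²; v(a) = k ≥ 2: l^(k+1) ≤ l^k l².
-/

set_option autoImplicit false

namespace Pool.Agent.Work.MP_af11aa_nt.T

open Finset Pool.Agent.Work.MP_af11aa_nt.W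

private theorem AvgK_harmonic (A : ℕ) :
    ∑ u ∈ Icc 1 A, (1 : ℝ) / u ≤ 1 + Real.log A := by
  have h := harmonic_le_one_add_log A
  rw [harmonic_eq_sum_Icc] at h
  push_cast at h
  simpa [one_div] using h

private theorem AvgK_xy (a : ℕ) (ha : a ≠ 0) :
    ∃ x y : ℕ, sfp a = x ^ 2 * y ^ 3 := by
  refine ⟨∏ l ∈ a.primeFactors.filter (fun l ↦ l ^ 2 ∣ a),
      l ^ (if Even (a.factorization l) then a.factorization l / 2 else
        (a.factorization l - 3) / 2),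
    ∏ l ∈ a.primeFactors.filter (fun l ↦ l ^ 2 ∣ a),
      l ^ (if Even (a.factorization l) then 0 else 1), ?_⟩
  rw [← prod_pow, ← prod_pow, ← prod_mul_distrib]
  unfold sfp
  refine prod_congr rfl fun l hl => ?_
  rw [mem_filter] at hl
  have hp : l.Prime := Nat.prime_of_mem_primeFactors hl.1
  have h2 : 2 ≤ a.factorization l := (hp.pow_dvd_iff_le_factorization ha).1 hl.2
  rw [← pow_mul, ← pow_mul, ← pow_add]
  congr 1
  by_cases he : Even (a.factorization l)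
  · rw [if_pos he, if_pos he]
    rw [Nat.even_iff] at he
    omega
  · rw [if_neg he, if_neg he]
    rw [Nat.even_iff] at he
    omega

private theorem AvgK_dvd (a : ℕ) (ha : a ≠ 0) : sfp a ∣ a := by
  have h1 : ∏ l ∈ a.primeFactors, l ^ a.factorization l = a :=
    Nat.prod_factorization_pow_eq_self ha
  unfold sfp
  conv_rhs => rw [← h1]
  exact prod_dvd_prod_of_subset _ _ _ (filter_subset _ _)

private theorem AvgK_log (ε : ℝ) (hε : 0 < ε) (A : ℕ) (hA : 0 < A) :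
    1 + Real.log A ≤ (1 + 1 / ε) * (A : ℝ) ^ ε := by
  have h1 : (1 : ℝ) ≤ A := by exact_mod_cast hA
  have h2 := Real.log_le_rpow_div (by positivity : (0 : ℝ) ≤ A) hε
  have h3 : (1 : ℝ) ≤ (A : ℝ) ^ ε := Real.one_le_rpow h1 hε.le
  calc 1 + Real.log A ≤ (A : ℝ) ^ ε + (A : ℝ) ^ ε / ε := add_le_add h3 h2
    _ = (1 + 1 / ε) * (A : ℝ) ^ ε := by ring

private theorem AvgK_mult (A e : ℕ) (he : 0 < e) :
    ∑ a ∈ (Icc 1 A).filter (fun a => e ∣ a), (1 : ℝ) / a ≤ (1 / e) * (1 + Real.log A) := by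
  have h1 : (Icc 1 A).filter (fun a => e ∣ a) ⊆ (Icc 1 A).image (fun j => e * j) := by
    intro a ha
    rw [mem_filter, mem_Icc] at ha
    obtain ⟨⟨h1, h2⟩, j, rfl⟩ := ha
    refine mem_image.2 ⟨j, mem_Icc.2 ⟨?_, ?_⟩, rfl⟩
    · by_contra h
      have : j = 0 := by omega
      rw [this] at h1
      simp at h1
    · calc j ≤ e * j := Nat.le_mul_of_pos_left j he
        _ ≤ A := h2
  calc ∑ a ∈ (Icc 1 A).filter (fun a => e ∣ a), (1 : ℝ) / a
      ≤ ∑ a ∈ (Icc 1 A).image (fun j => e * j), (1 : ℝ) / a :=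
        sum_le_sum_of_subset_of_nonneg h1 fun _ _ _ => by positivity
    _ = ∑ j ∈ Icc 1 A, (1 : ℝ) / ((e * j : ℕ) : ℝ) := by
        rw [sum_image]
        intro x _ y _ hxy
        exact Nat.eq_of_mul_eq_mul_left he hxy
    _ = (1 / e) * ∑ j ∈ Icc 1 A, (1 : ℝ) / j := by
        rw [mul_sum]
        refine sum_congr rfl fun j _ => ?_
        push_cast
        rw [one_div_mul_one_div]
    _ ≤ (1 / e) * (1 + Real.log A) :=
        mul_le_mul_of_nonneg_left (AvgK_harmonic A) (by positivity)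

private theorem AvgK_count (A e : ℕ) (he : 0 < e) :
    (e : ℝ) * ((Icc 1 A).filter (fun a => e ∣ a)).card ≤ A := by
  have h1 : ((Icc 1 A).filter (fun a => e ∣ a)).card ≤ A / e := by
    have h2 : (Icc 1 A).filter (fun a => e ∣ a) ⊆ (Icc 1 (A / e)).image (fun j => e * j) := by
      intro a ha
      rw [mem_filter, mem_Icc] at ha
      obtain ⟨⟨h1, h2⟩, j, rfl⟩ := ha
      refine mem_image.2 ⟨j, mem_Icc.2 ⟨?_, ?_⟩, rfl⟩
      · by_contra h
        have : j = 0 := by omega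
        rw [this] at h1
        simp at h1
      · rw [Nat.le_div_iff_mul_le he, mul_comm]
        exact h2
    calc _ ≤ ((Icc 1 (A / e)).image (fun j => e * j)).card := card_le_card h2
      _ ≤ (Icc 1 (A / e)).card := card_image_le
      _ = A / e := by simp
  have h3 : e * ((Icc 1 A).filter (fun a => e ∣ a)).card ≤ A :=
    (Nat.mul_le_mul_left e h1).trans (Nat.mul_div_le A e)
  exact_mod_cast h3

private theorem AvgK_gcd1 (A d : ℕ) (hd : 0 < d) :
    ∑ a ∈ Icc 1 A, (Nat.gcd d a : ℝ) ≤ d.divisors.card * A := by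
  calc ∑ a ∈ Icc 1 A, (Nat.gcd d a : ℝ)
      ≤ ∑ a ∈ Icc 1 A, ∑ e ∈ d.divisors, (if e ∣ a then (e : ℝ) else 0) := by
        refine sum_le_sum fun a ha => ?_
        have hmem : Nat.gcd d a ∈ d.divisors :=
          Nat.mem_divisors.2 ⟨Nat.gcd_dvd_left d a, hd.ne'⟩
        have := single_le_sum (f := fun e : ℕ => (if e ∣ a then (e : ℝ) else 0))
          (fun e _ => by split_ifs <;> positivity) hmem
        simp only [Nat.gcd_dvd_right, if_true] at this
        exact this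
    _ = ∑ e ∈ d.divisors, ∑ a ∈ Icc 1 A, (if e ∣ a then (e : ℝ) else 0) := sum_comm
    _ ≤ ∑ e ∈ d.divisors, (A : ℝ) := by
        refine sum_le_sum fun e he => ?_
        rw [← sum_filter, sum_const, nsmul_eq_mul, mul_comm]
        exact AvgK_count A e (Nat.pos_of_mem_divisors he)
    _ = d.divisors.card * A := by rw [sum_const, nsmul_eq_mul]

private theorem AvgK_sfp : ∃ K : ℝ, 0 < K ∧ ∀ A : ℕ, 0 < A →
    ∑ a ∈ Icc 1 A, (sfp a : ℝ) ^ (1 / 2 : ℝ) ≤ K * A * (1 + Real.log A) := by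
  have hsum : Summable (fun n : ℕ => 1 / (n : ℝ) ^ (3 / 2 : ℝ)) :=
    Real.summable_one_div_nat_rpow.2 (by norm_num)
  set K : ℝ := ∑' n : ℕ, 1 / (n : ℝ) ^ (3 / 2 : ℝ) with hK
  have hK0 : 0 ≤ K := tsum_nonneg fun n => by positivity
  refine ⟨K + 1, by positivity, fun A hA => ?_⟩
  have hx : ∀ a : ℕ, ∃ xy : ℕ × ℕ, a ≠ 0 → sfp a = xy.1 ^ 2 * xy.2 ^ 3 := by
    intro a
    by_cases ha : a = 0
    · exact ⟨(0, 0), fun h => absurd ha h⟩
    · obtain ⟨x, y, h⟩ := AvgK_xy a ha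
      exact ⟨(x, y), fun _ => h⟩
  choose φ hφ using hx
  have hfac : ∀ a ∈ Icc 1 A, φ a ∈ Icc 1 A ×ˢ Icc 1 A ∧ (φ a).1 ^ 2 * (φ a).2 ^ 3 ∣ a := by
    intro a ha
    rw [mem_Icc] at ha
    have ha0 : a ≠ 0 := by omega
    have h1 : (φ a).1 ^ 2 * (φ a).2 ^ 3 ∣ a := by
      rw [← hφ a ha0]
      exact AvgK_dvd a ha0
    have h2 : (φ a).1 ≠ 0 := by
      intro h
      rw [h] at h1
      simp at h1
      exact ha0 h1
    have h3 : (φ a).2 ≠ 0 := by
      intro h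
      rw [h] at h1
      simp at h1
      exact ha0 h1
    have h4 : (φ a).1 ∣ a := ((dvd_pow_self _ (by norm_num)).mul_right _).trans h1
    have h5 : (φ a).2 ∣ a := ((dvd_pow_self _ (by norm_num)).mul_left _).trans h1
    refine ⟨mem_product.2 ⟨mem_Icc.2 ⟨by omega, ?_⟩, mem_Icc.2 ⟨by omega, ?_⟩⟩, h1⟩
    · exact (Nat.le_of_dvd (by omega) h4).trans ha.2
    · exact (Nat.le_of_dvd (by omega) h5).trans ha.2
  have hval : ∀ a ∈ Icc 1 A, (sfp a : ℝ) ^ (1 / 2 : ℝ) =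
      ((φ a).1 : ℝ) * ((φ a).2 : ℝ) ^ (3 / 2 : ℝ) := by
    intro a ha
    rw [mem_Icc] at ha
    rw [hφ a (by omega)]
    push_cast
    rw [Real.mul_rpow (by positivity) (by positivity), ← Real.rpow_natCast, ← Real.rpow_natCast,
      ← Real.rpow_mul (by positivity), ← Real.rpow_mul (by positivity)]
    norm_num
  calc ∑ a ∈ Icc 1 A, (sfp a : ℝ) ^ (1 / 2 : ℝ)
      ≤ ∑ a ∈ Icc 1 A, ∑ xy ∈ Icc 1 A ×ˢ Icc 1 A,
          (if xy.1 ^ 2 * xy.2 ^ 3 ∣ a then (xy.1 : ℝ) * (xy.2 : ℝ) ^ (3 / 2 : ℝ) else 0) := by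
        refine sum_le_sum fun a ha => ?_
        rw [hval a ha]
        have := single_le_sum (f := fun xy : ℕ × ℕ =>
          (if xy.1 ^ 2 * xy.2 ^ 3 ∣ a then (xy.1 : ℝ) * (xy.2 : ℝ) ^ (3 / 2 : ℝ) else 0))
          (fun e _ => by
            show (0 : ℝ) ≤ if _ then _ else _
            split_ifs <;> positivity) (hfac a ha).1
        simp only [(hfac a ha).2, if_true] at this
        exact this
    _ = ∑ xy ∈ Icc 1 A ×ˢ Icc 1 A, ∑ a ∈ Icc 1 A,
          (if xy.1 ^ 2 * xy.2 ^ 3 ∣ a then (xy.1 : ℝ) * (xy.2 : ℝ) ^ (3 / 2 : ℝ) else 0) :=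
        sum_comm
    _ ≤ ∑ xy ∈ Icc 1 A ×ˢ Icc 1 A, (A : ℝ) * ((1 / (xy.1 : ℝ)) *
          (1 / (xy.2 : ℝ) ^ (3 / 2 : ℝ))) := by
        refine sum_le_sum fun xy hxy => ?_
        rw [mem_product, mem_Icc, mem_Icc] at hxy
        have hx0 : (0 : ℝ) < xy.1 := by exact_mod_cast (show 0 < xy.1 by omega)
        have hy0 : (0 : ℝ) < xy.2 := by exact_mod_cast (show 0 < xy.2 by omega)
        rw [← sum_filter, sum_const, nsmul_eq_mul]
        have h1 := AvgK_count A (xy.1 ^ 2 * xy.2 ^ 3) (by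
          have : 0 < xy.1 := by omega
          have : 0 < xy.2 := by omega
          positivity)
        push_cast at h1
        set N : ℝ := ((filter (fun a => xy.1 ^ 2 * xy.2 ^ 3 ∣ a) (Icc 1 A)).card : ℝ) with hN
        have h2 : (xy.2 : ℝ) ^ 3 = (xy.2 : ℝ) ^ (3 / 2 : ℝ) * (xy.2 : ℝ) ^ (3 / 2 : ℝ) := by
          rw [← Real.rpow_add hy0, ← Real.rpow_natCast]
          norm_num
        set Y : ℝ := (xy.2 : ℝ) ^ (3 / 2 : ℝ) with hY
        have hY0 : 0 < Y := Real.rpow_pos_of_pos hy0 _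
        rw [h2] at h1
        have h3 : N ≤ A / ((xy.1 : ℝ) ^ 2 * (Y * Y)) := by
          rw [le_div_iff₀ (by positivity)]
          linarith
        calc N * ((xy.1 : ℝ) * Y) ≤ A / ((xy.1 : ℝ) ^ 2 * (Y * Y)) * ((xy.1 : ℝ) * Y) :=
              mul_le_mul_of_nonneg_right h3 (by positivity)
          _ = (A : ℝ) * ((1 / (xy.1 : ℝ)) * (1 / Y)) := by
              field_simp
    _ = A * ((∑ x ∈ Icc 1 A, 1 / (x : ℝ)) * ∑ y ∈ Icc 1 A, 1 / (y : ℝ) ^ (3 / 2 : ℝ)) := by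
        rw [← mul_sum, sum_mul_sum, sum_product]
    _ ≤ A * ((1 + Real.log A) * (K + 1)) := by
        refine mul_le_mul_of_nonneg_left ?_ (Nat.cast_nonneg A)
        refine mul_le_mul (AvgK_harmonic A) ?_ (sum_nonneg fun _ _ => by positivity) ?_
        · have := hsum.sum_le_tsum (Icc 1 A) (fun n _ => by positivity)
          linarith
        · have : 0 ≤ Real.log A := Real.log_nonneg (by exact_mod_cast hA)
          linarith
    _ = (K + 1) * A * (1 + Real.log A) := by ring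

theorem avg_kb (ε : ℝ) (hε : 0 < ε) : ∃ C : ℝ, 0 < C ∧ ∀ A d : ℕ, 0 < A → 0 < d →
    ∑ a ∈ Icc 1 A, Real.sqrt (Nat.gcd d a) * (sfp a : ℝ) ^ (1 / 4 : ℝ) ≤
      C * ((d : ℝ) * A) ^ ε * A := by
  obtain ⟨K, hK, hsf⟩ := AvgK_sfp
  obtain ⟨B, hB, hdiv⟩ := Pool.Agent.Work.MP_f2148a_nt.exists_card_divisors_le (2 * ε) (by linarith)
  have hB0 : 0 < B := by linarith
  refine ⟨Real.sqrt (B * (K * (1 + 1 / (2 * ε)))), by positivity, fun A d hA hd => ?_⟩
  have hA' : (0 : ℝ) < A := by exact_mod_cast hA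
  have hd' : (0 : ℝ) < d := by exact_mod_cast hd
  have h1 : (∑ a ∈ Icc 1 A, Real.sqrt (Nat.gcd d a) * (sfp a : ℝ) ^ (1 / 4 : ℝ)) ^ 2 ≤
      (∑ a ∈ Icc 1 A, (Nat.gcd d a : ℝ)) * ∑ a ∈ Icc 1 A, (sfp a : ℝ) ^ (1 / 2 : ℝ) := by
    have := Finset.sum_mul_sq_le_sq_mul_sq (Icc 1 A) (fun a => Real.sqrt (Nat.gcd d a))
      (fun a => (sfp a : ℝ) ^ (1 / 4 : ℝ))
    refine this.trans (le_of_eq ?_)
    congr 1
    · refine sum_congr rfl fun a _ => ?_
      rw [Real.sq_sqrt (Nat.cast_nonneg _)]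
    · refine sum_congr rfl fun a _ => ?_
      rw [← Real.rpow_natCast, ← Real.rpow_mul (Nat.cast_nonneg _)]
      norm_num
  have h2 : (∑ a ∈ Icc 1 A, (Nat.gcd d a : ℝ)) ≤ B * (d : ℝ) ^ (2 * ε) * A := by
    refine (AvgK_gcd1 A d hd).trans ?_
    exact mul_le_mul_of_nonneg_right (hdiv d hd) hA'.le
  have h3 : ∑ a ∈ Icc 1 A, (sfp a : ℝ) ^ (1 / 2 : ℝ) ≤
      K * A * ((1 + 1 / (2 * ε)) * (A : ℝ) ^ (2 * ε)) :=
    (hsf A hA).trans (mul_le_mul_of_nonneg_left (AvgK_log (2 * ε) (by linarith) A hA)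
      (by positivity))
  have h4 : (∑ a ∈ Icc 1 A, Real.sqrt (Nat.gcd d a) * (sfp a : ℝ) ^ (1 / 4 : ℝ)) ^ 2 ≤
      (Real.sqrt (B * (K * (1 + 1 / (2 * ε)))) * ((d : ℝ) * A) ^ ε * A) ^ 2 := by
    calc _ ≤ (B * (d : ℝ) ^ (2 * ε) * A) * (K * A * ((1 + 1 / (2 * ε)) * (A : ℝ) ^ (2 * ε))) :=
          h1.trans (mul_le_mul h2 h3 (sum_nonneg fun _ _ => by positivity) (by positivity))
      _ = _ := by
          rw [mul_pow, mul_pow, Real.sq_sqrt (by positivity), Real.mul_rpow hd'.le hA'.le, mul_pow,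
            ← Real.rpow_natCast, ← Real.rpow_natCast, ← Real.rpow_mul hd'.le,
            ← Real.rpow_mul hA'.le]
          push_cast
          rw [mul_comm ε 2]
          ring
  exact le_of_sq_le_sq h4 (by positivity)

theorem avg_gcd (ε : ℝ) (hε : 0 < ε) : ∃ C : ℝ, 0 < C ∧ ∀ A d : ℕ, 0 < A → 0 < d →
    ∑ a ∈ Icc 1 A, (Nat.gcd d a : ℝ) * (Nat.gcd d a).divisors.card / a ≤
      C * ((d : ℝ) * A) ^ ε := by
  obtain ⟨B, hB, hdiv⟩ := Pool.Agent.Work.MP_f2148a_nt.exists_card_divisors_le (ε / 2) (by linarith)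
  have hB0 : 0 < B := by linarith
  refine ⟨B ^ 2 * (1 + 1 / ε), by positivity, fun A d hA hd => ?_⟩
  have hA' : (0 : ℝ) < A := by exact_mod_cast hA
  have hd' : (0 : ℝ) < d := by exact_mod_cast hd
  have hlog : 0 ≤ Real.log A := Real.log_nonneg (by exact_mod_cast hA)
  calc ∑ a ∈ Icc 1 A, (Nat.gcd d a : ℝ) * (Nat.gcd d a).divisors.card / a
      ≤ ∑ a ∈ Icc 1 A, ∑ e ∈ d.divisors,
          (if e ∣ a then (e : ℝ) * e.divisors.card * (1 / a) else 0) := by
        refine sum_le_sum fun a ha => ?_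
        have hmem : Nat.gcd d a ∈ d.divisors :=
          Nat.mem_divisors.2 ⟨Nat.gcd_dvd_left d a, hd.ne'⟩
        have := single_le_sum (f := fun e : ℕ =>
          (if e ∣ a then (e : ℝ) * e.divisors.card * (1 / a) else 0))
          (fun e _ => by
            show (0 : ℝ) ≤ if _ then _ else _
            split_ifs <;> positivity) hmem
        simp only [Nat.gcd_dvd_right, if_true] at this
        rw [div_eq_mul_one_div]
        exact this
    _ = ∑ e ∈ d.divisors, ∑ a ∈ Icc 1 A,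
          (if e ∣ a then (e : ℝ) * e.divisors.card * (1 / a) else 0) := sum_comm
    _ ≤ ∑ e ∈ d.divisors, (d.divisors.card : ℝ) * (1 + Real.log A) := by
        refine sum_le_sum fun e he => ?_
        have he0 : 0 < e := Nat.pos_of_mem_divisors he
        have he' : (0 : ℝ) < e := by exact_mod_cast he0
        rw [← sum_filter, ← mul_sum]
        have h1 : (e.divisors.card : ℝ) ≤ d.divisors.card := by
          exact_mod_cast card_le_card (Nat.divisors_subset_of_dvd hd.ne' (Nat.dvd_of_mem_divisors he))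
        calc (e : ℝ) * e.divisors.card * ∑ a ∈ (Icc 1 A).filter (fun a => e ∣ a), (1 : ℝ) / a
            ≤ (e : ℝ) * e.divisors.card * ((1 / e) * (1 + Real.log A)) :=
              mul_le_mul_of_nonneg_left (AvgK_mult A e he0) (by positivity)
          _ = e.divisors.card * (1 + Real.log A) := by
              field_simp
          _ ≤ (d.divisors.card : ℝ) * (1 + Real.log A) :=
              mul_le_mul_of_nonneg_right h1 (by linarith)
    _ = (d.divisors.card : ℝ) ^ 2 * (1 + Real.log A) := by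
        rw [sum_const, nsmul_eq_mul]
        ring
    _ ≤ (B * (d : ℝ) ^ (ε / 2)) ^ 2 * ((1 + 1 / ε) * (A : ℝ) ^ ε) := by
        refine mul_le_mul (pow_le_pow_left₀ (Nat.cast_nonneg _) (hdiv d hd) 2)
          (AvgK_log ε hε A hA) (by linarith) (by positivity)
    _ = B ^ 2 * (1 + 1 / ε) * ((d : ℝ) * A) ^ ε := by
        rw [Real.mul_rpow hd'.le hA'.le, mul_pow, ← Real.rpow_natCast ((d : ℝ) ^ (ε / 2)),
          ← Real.rpow_mul hd'.le]
        have : ε / 2 * ((2 : ℕ) : ℝ) = ε := by push_cast; ring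
        rw [this]
        ring

theorem sfp_mul (e a : ℕ) (he : Squarefree e) (ha : 0 < a) :
    sfp (e * a) ≤ sfp a * Nat.gcd e a ^ 2 := by
  have he0 : e ≠ 0 := he.ne_zero
  have ha0 : a ≠ 0 := ha.ne'
  have h1 : sfp (e * a) = ∏ l ∈ a.primeFactors,
      (if l ^ 2 ∣ e * a then l ^ (e * a).factorization l else 1) := by
    unfold sfp
    rw [prod_filter, Nat.primeFactors_mul he0 ha0]
    symm
    refine prod_subset subset_union_right fun l hl hla => ?_
    rw [if_neg]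
    intro hdvd
    have hle : l ∈ e.primeFactors := by
      rcases mem_union.1 hl with h | h
      · exact h
      · exact absurd h hla
    have hp : l.Prime := Nat.prime_of_mem_primeFactors hle
    have hla' : ¬ l ∣ a := fun h => hla (Nat.mem_primeFactors.2 ⟨hp, h, ha0⟩)
    have hcop : (l ^ 2).Coprime a := Nat.Coprime.pow_left 2 ((hp.coprime_iff_not_dvd).2 hla')
    have h2 : l ^ 2 ∣ e := hcop.dvd_of_dvd_mul_right hdvd
    have h3 : l * l ∣ e := by rwa [pow_two] at h2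
    exact hp.one_lt.ne' (Nat.isUnit_iff.1 (he l h3))
  have h2 : sfp a = ∏ l ∈ a.primeFactors, (if l ^ 2 ∣ a then l ^ a.factorization l else 1) := by
    unfold sfp
    rw [prod_filter]
  have h3 : Nat.gcd e a ^ 2 = ∏ l ∈ a.primeFactors, (if l ∣ e then l ^ 2 else 1) := by
    have hsq : Squarefree (Nat.gcd e a) := he.squarefree_of_dvd (Nat.gcd_dvd_left e a)
    have h4 : (Nat.gcd e a).primeFactors = a.primeFactors.filter (fun l => l ∣ e) := by
      ext l
      rw [mem_filter, Nat.mem_primeFactors, Nat.mem_primeFactors]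
      constructor
      · rintro ⟨hp, hd, _⟩
        exact ⟨⟨hp, hd.trans (Nat.gcd_dvd_right e a), ha0⟩, hd.trans (Nat.gcd_dvd_left e a)⟩
      · rintro ⟨⟨hp, hd, _⟩, hde⟩
        exact ⟨hp, Nat.dvd_gcd hde hd, Nat.gcd_ne_zero_right ha0⟩
    rw [← prod_filter, ← h4]
    conv_lhs => rw [← Nat.prod_primeFactors_of_squarefree hsq]
    rw [← prod_pow]
  rw [h1, h2, h3, ← prod_mul_distrib]
  refine prod_le_prod (fun _ _ => Nat.zero_le _) fun l hl => ?_
  have hp : l.Prime := Nat.prime_of_mem_primeFactors hl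
  have hla : l ∣ a := Nat.dvd_of_mem_primeFactors hl
  have hl1 : 1 ≤ l := hp.one_lt.le
  have hfac : (e * a).factorization l = e.factorization l + a.factorization l := by
    rw [Nat.factorization_mul he0 ha0]
    rfl
  have hev : e.factorization l ≤ 1 := (Nat.squarefree_iff_factorization_le_one he0).1 he l
  have hav : 1 ≤ a.factorization l :=
    (hp.dvd_iff_one_le_factorization ha0).1 hla
  have hpow : ∀ i j : ℕ, i ≤ j → l ^ i ≤ l ^ j := fun i j hij => Nat.pow_le_pow_right hl1 hij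
  have e1 : l ^ 2 ∣ a ↔ 2 ≤ a.factorization l := hp.pow_dvd_iff_le_factorization ha0
  have e2 : l ∣ e ↔ 1 ≤ e.factorization l := hp.dvd_iff_one_le_factorization he0
  by_cases hd : l ^ 2 ∣ e * a
  · rw [if_pos hd, hfac]
    have h5 := (hp.pow_dvd_iff_le_factorization (mul_ne_zero he0 ha0)).1 hd
    rw [hfac] at h5
    by_cases h6 : 2 ≤ a.factorization l
    · rw [if_pos (e1.2 h6)]
      by_cases h7 : l ∣ e
      · rw [if_pos h7, ← pow_add]
        exact hpow _ _ (by omega)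
      · rw [if_neg h7, mul_one]
        have h8 : ¬ 1 ≤ e.factorization l := fun h => h7 (e2.2 h)
        exact hpow _ _ (by omega)
    · rw [if_neg (fun h => h6 (e1.1 h)), if_pos (e2.2 (by omega)), one_mul]
      exact hpow _ _ (by omega)
  · rw [if_neg hd]
    refine Nat.one_le_iff_ne_zero.2 (mul_ne_zero ?_ ?_)
    · split_ifs
      · exact pow_ne_zero _ hp.ne_zero
      · exact one_ne_zero
    · split_ifs
      · exact pow_ne_zero _ hp.ne_zero
      · exact one_ne_zero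

end Pool.Agent.Work.MP_af11aa_nt.T
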