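import Mathlib
import Pool.Agent.Work.MP_af11aa_nt.T.Defs
import Pool.Agent.Work.MP_af11aa_nt.W.KCrt

/-!
MODULE PhaseA (the phases when the modulus is Q a; put M = Q Q' a, w = ivz M (k0 b)).
(phaseA) b, k0 are prime to M. w is an inverse of k0 b modulo M, hence modulo Q a: eI (Qa) (4m) (k0 b) = ec (Qa) (4 m w) = ec M (4 m w Q')
(exp(2πi z/(Qa)) = exp(2πi z Q'/M)), and the other one is ec M (4 m w Q). The product with the conjugate is ec M (4m w (Q'-Q)), and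
w ≡ ivz M k0 * ivz M b mod M. cj false is the conjugate: the sign sg σ. (ec M depends only on z mod M; W/KCrt.lean has such facts.)
(gcd_thA) 4, m, k0 are prime to M (Par.hn, M prime to n, n even because 8 k0 is), ivz M k0 is a unit mod M, sg = ±1, so
gcd(θ,M) = gcd(Q'-Q, QQ'a) = gcd(Q'-Q, a), since Q, Q' are distinct primes (Q ∣ Q'-Q would give Q ∣ Q').
-/

set_option autoImplicit false

namespace Pool.Agent.Work.MP_af11aa_nt.T

open Finset ComplexConjugate Pool.Agent.Work.MP_af11aa_nt.W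

private lemma phaseA_conj_eI (c : ℕ) (z x : ℤ) : conj (eI c z x) = eI c (-z) x := by
  have := cj_eI false c z x
  unfold cj sg at this
  simpa using this

private lemma phaseA_lift {c q M : ℕ} (hc : 0 < c) (hq : 0 < q) (hM : M = q * c) {x : ℤ}
    (hx : IsCoprime x (M : ℤ)) (z : ℤ) : eI c z x = ec M (q * (z * ivz M x)) := by
  have hM0 : M ≠ 0 := by rw [hM]; positivity
  have hd := kcrt_ivz_dvd (a := c) (c := M) hc.ne' hM0 (by rw [hM]; exact dvd_mul_left _ _)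
    (x := x) (y := x) hx (by simp)
  unfold eI
  rw [hM, kcrt_ec_mul hq.ne' hc.ne']
  rw [← hM]
  apply kcrt_ec_congr hc.ne'
  have : z * ivz M x - z * ivz c x = -(z * (ivz c x - ivz M x)) := by ring
  rw [this]
  exact (Dvd.dvd.mul_left hd z).neg_right

private lemma phaseA_ivz_mul {M : ℕ} (hM : M ≠ 0) {x y : ℤ} (hx : IsCoprime x (M : ℤ))
    (hy : IsCoprime y (M : ℤ)) : (M : ℤ) ∣ ivz M x * ivz M y - ivz M (x * y) := by
  have h1 := kcrt_ivz hM hx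
  have h2 := kcrt_ivz hM hy
  have h3 := kcrt_ivz hM (hx.mul_left hy)
  refine kcrt_inv_unique h3 ?_
  have : ivz M x * ivz M y * (x * y) - 1 =
      (ivz M x * x - 1) * (ivz M y * y) + (ivz M y * y - 1) := by ring
  rw [this]
  exact dvd_add (Dvd.dvd.mul_right h1 _) h2

private lemma phaseA_cop {P k0 m1 m2 n Y Z : ℕ} {S : Finset ℕ} (hp : Par P k0 m1 m2 n Y Z S)
    {x : ℕ} (hx : x.Coprime n) : x.Coprime k0 ∧ x.Coprime (m2 * m1) ∧ x.Coprime 4 := by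
  obtain ⟨h1, h2⟩ := (hp.hn x).1 hx
  refine ⟨Nat.Coprime.coprime_mul_left_right h1, h2, ?_⟩
  have h3 : x.Coprime 8 := Nat.Coprime.coprime_mul_right_right h1
  exact Nat.Coprime.coprime_dvd_right (by norm_num) h3

theorem phaseA {P k0 m1 m2 n Y Z : ℕ} {S : Finset ℕ} (hp : Par P k0 m1 m2 n Y Z S)
    (σ : Bool) {Q Q' : ℕ} (hQ : Q ∈ S) (hQ' : Q' ∈ S) {a b : ℕ} (ha : 0 < a)
    (han : a.Coprime n) (h1 : (Q * a).Coprime b) (h2 : (Q' * a).Coprime b) :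
    cj σ (eI (Q * a) (4 * ((m2 * m1 : ℕ) : ℤ)) ((k0 : ℤ) * b)) *
        conj (cj σ (eI (Q' * a) (4 * ((m2 * m1 : ℕ) : ℤ)) ((k0 : ℤ) * b))) =
      eInv (Q * Q' * a) (thA (m2 * m1) k0 σ Q Q' a) (b : ℤ) := by
  obtain ⟨hQp, _, _, hQn⟩ := hp.hS Q hQ
  obtain ⟨hQ'p, _, _, hQ'n⟩ := hp.hS Q' hQ'
  have hMn : (Q * Q' * a).Coprime n := Nat.Coprime.mul_left (Nat.Coprime.mul_left hQn hQ'n) han
  obtain ⟨hMk, hMm, hM4⟩ := phaseA_cop hp hMn
  have hMb : (Q * Q' * a).Coprime b := by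
    have : Q * Q' * a = Q * (Q' * a) := by ring
    rw [this]
    exact Nat.Coprime.mul_left (Nat.Coprime.coprime_mul_right h1) h2
  set M := Q * Q' * a with hM
  have hMpos : 0 < M := by
    rw [hM]; exact Nat.mul_pos (Nat.mul_pos hQp.pos hQ'p.pos) ha
  have hbM : IsCoprime (b : ℤ) (M : ℤ) := Nat.isCoprime_iff_coprime.2 hMb.symm
  have hkM : IsCoprime (k0 : ℤ) (M : ℤ) := Nat.isCoprime_iff_coprime.2 hMk.symm
  have hkb : IsCoprime ((k0 : ℤ) * b) (M : ℤ) := hkM.mul_left hbM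
  rw [cj_eI, cj_eI, phaseA_conj_eI]
  rw [phaseA_lift (Nat.mul_pos hQp.pos ha) hQ'p.pos (M := M) (by rw [hM]; ring) hkb,
    phaseA_lift (Nat.mul_pos hQ'p.pos ha) hQp.pos (M := M) (by rw [hM]; ring) hkb,
    ← kcrt_ec_add]
  unfold eInv
  rw [if_pos hbM]
  unfold eI
  apply kcrt_ec_congr hMpos.ne'
  have hd := phaseA_ivz_mul hMpos.ne' hkM hbM
  unfold thA
  rw [← hM]
  have : sg σ * (4 * ((m2 * m1 : ℕ) : ℤ) * ((Q' : ℤ) - Q) * ivz M k0) * ivz M b -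
      ((Q' : ℤ) * (sg σ * (4 * ((m2 * m1 : ℕ) : ℤ)) * ivz M (k0 * b)) +
        (Q : ℤ) * (-(sg σ * (4 * ((m2 * m1 : ℕ) : ℤ))) * ivz M (k0 * b))) =
      (sg σ * (4 * ((m2 * m1 : ℕ) : ℤ)) * ((Q' : ℤ) - Q)) *
        (ivz M k0 * ivz M b - ivz M (k0 * b)) := by ring
  rw [this]
  exact Dvd.dvd.mul_left hd _

theorem gcd_thA {P k0 m1 m2 n Y Z : ℕ} {S : Finset ℕ} (hp : Par P k0 m1 m2 n Y Z S)
    (σ : Bool) {Q Q' : ℕ} (hQ : Q ∈ S) (hQ' : Q' ∈ S) (hne : Q ≠ Q') {a : ℕ} (ha : 0 < a)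
    (han : a.Coprime n) :
    Int.gcd (thA (m2 * m1) k0 σ Q Q' a) ((Q * Q' * a : ℕ) : ℤ) =
      Nat.gcd (((Q' : ℤ) - Q).natAbs) a := by
  obtain ⟨hQp, _, _, hQn⟩ := hp.hS Q hQ
  obtain ⟨hQ'p, _, _, hQ'n⟩ := hp.hS Q' hQ'
  have hMn : (Q * Q' * a).Coprime n := Nat.Coprime.mul_left (Nat.Coprime.mul_left hQn hQ'n) han
  obtain ⟨hMk, hMm, hM4⟩ := phaseA_cop hp hMn
  have hMpos : 0 < Q * Q' * a := Nat.mul_pos (Nat.mul_pos hQp.pos hQ'p.pos) ha
  have hkM : IsCoprime (k0 : ℤ) ((Q * Q' * a : ℕ) : ℤ) := Nat.isCoprime_iff_coprime.2 hMk.symm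
  have hiv : (ivz (Q * Q' * a) k0).natAbs.Coprime (Q * Q' * a) := by
    have h1 := kcrt_ivz hMpos.ne' hkM
    have h2 : IsCoprime (ivz (Q * Q' * a) k0) ((Q * Q' * a : ℕ) : ℤ) := by
      obtain ⟨t, ht⟩ := h1
      exact ⟨k0, -t, by linarith⟩
    have h3 := Int.isCoprime_iff_gcd_eq_one.1 h2
    exact h3
  have hQQ : Q.Coprime Q' := (Nat.coprime_primes hQp hQ'p).2 hne
  have hsg : (sg σ).natAbs = 1 := by unfold sg; cases σ <;> rfl
  have hd1 : (((Q' : ℤ) - Q).natAbs).Coprime Q := by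
    have : IsCoprime ((Q' : ℤ) - Q) (Q : ℤ) := by
      have h0 : IsCoprime (Q' : ℤ) (Q : ℤ) := Nat.isCoprime_iff_coprime.2 hQQ.symm
      have := h0.add_mul_left_left (-1)
      have e : (Q' : ℤ) + Q * (-1) = Q' - Q := by ring
      rwa [e] at this
    exact Int.isCoprime_iff_gcd_eq_one.1 this
  have hd2 : (((Q' : ℤ) - Q).natAbs).Coprime Q' := by
    have : IsCoprime ((Q' : ℤ) - Q) (Q' : ℤ) := by
      have h0 : IsCoprime (Q : ℤ) (Q' : ℤ) := Nat.isCoprime_iff_coprime.2 hQQ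
      have h1 := h0.neg_left.add_mul_left_left 1
      have e : -(Q : ℤ) + Q' * 1 = Q' - Q := by ring
      rwa [e] at h1
    exact Int.isCoprime_iff_gcd_eq_one.1 this
  have e1 : (thA (m2 * m1) k0 σ Q Q' a).natAbs =
      (4 * (m2 * m1) * (ivz (Q * Q' * a) k0).natAbs) * ((Q' : ℤ) - Q).natAbs := by
    unfold thA
    rw [Int.natAbs_mul, hsg, one_mul, Int.natAbs_mul, Int.natAbs_mul, Int.natAbs_mul]
    have : ((m2 * m1 : ℕ) : ℤ).natAbs = m2 * m1 := Int.natAbs_natCast _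
    rw [this]
    have : (4 : ℤ).natAbs = 4 := rfl
    rw [this]
    ring
  have e2 : Int.gcd (thA (m2 * m1) k0 σ Q Q' a) ((Q * Q' * a : ℕ) : ℤ) =
      Nat.gcd ((4 * (m2 * m1) * (ivz (Q * Q' * a) k0).natAbs) * ((Q' : ℤ) - Q).natAbs)
        (Q * Q' * a) := by
    rw [← e1]
    rfl
  rw [e2]
  rw [Nat.Coprime.gcd_mul_left_cancel]
  · rw [Nat.Coprime.gcd_mul_left_cancel_right]
    exact Nat.Coprime.mul_left hd1.symm hd2.symm
  · exact Nat.Coprime.mul_left (Nat.Coprime.mul_left hM4.symm hMm.symm) hiv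

end Pool.Agent.Work.MP_af11aa_nt.T
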