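import Mathlib
import Pool.Agent.Work.MP_af11aa_nt.W.Arith
import Pool.Agent.Work.MP_af11aa_nt.W.KTrunc
import Pool.Agent.Work.MP_af11aa_nt.K.Salie

/-!
MODULE Ram (Ramanujan sums). x -> x⁻¹ permutes the units, so the sum is ∑_{x<M, (x,M)=1} e(θ x/M)
= ∑_{d ∣ M} μ(d) ∑_{x<M, d ∣ x} e(θ x/M) = ∑_{d ∣ M} μ(d) (M/d) [ (M/d) ∣ θ ], so the norm is at most the sum of the e = M/d dividing
both M and θ, i.e. ∑_{e ∣ gcd} e ≤ gcd * τ(gcd).
-/

set_option autoImplicit false

namespace Pool.Agent.Work.MP_af11aa_nt.T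

open Finset Pool.Agent.Work.MP_af11aa_nt.W

private lemma ram_eq (z x : ℤ) (c : ℕ) :
    Pool.Agent.Work.MP_af11aa_nt.K.Salie.ec c (z * x) = ec c (z * x) := rfl

private lemma ram_units (M : ℕ) (hM : 0 < M) (θ : ℤ) :
    ∑ x ∈ range M, eInv M θ (x : ℤ) =
      ∑ x ∈ (range M).filter (fun x ↦ x.Coprime M), ec M (θ * x) := by
  have : NeZero M := ⟨hM.ne'⟩
  have h1 : ∑ x ∈ range M, eInv M θ (x : ℤ) =
      ∑ x ∈ (range M).filter (fun x ↦ x.Coprime M), ec M (θ * ivz M (x : ℤ)) := by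
    rw [Finset.sum_filter]
    refine Finset.sum_congr rfl fun x _ ↦ ?_
    unfold eInv eI
    by_cases h : x.Coprime M
    · rw [if_pos (Nat.isCoprime_iff_coprime.2 h), if_pos h]
    · rw [if_neg (fun h' ↦ h (Nat.isCoprime_iff_coprime.1 h')), if_neg h]
  rw [h1, ktr_units M (fun x ↦ ec M (θ * ivz M (x : ℤ))), ktr_units M (fun x ↦ ec M (θ * x)),
    ← Equiv.sum_comp (Equiv.inv (ZMod M)ˣ)]
  refine Finset.sum_congr rfl fun x _ ↦ ?_
  rw [ktr_std, ktr_std]
  congr 1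
  push_cast
  rw [ktr_ivz, Int.cast_natCast, ZMod.natCast_zmod_val, ZMod.natCast_zmod_val]
  congr 1
  rw [ZMod.inv_coe_unit, Equiv.inv_apply, inv_inv]

private lemma ram_moebius (x M : ℕ) (hM : 0 < M) :
    (∑ d ∈ M.divisors, if d ∣ x then (ArithmeticFunction.moebius d : ℤ) else 0) =
      if x.Coprime M then 1 else 0 := by
  have h1 : (∑ d ∈ (Nat.gcd x M).divisors, (ArithmeticFunction.moebius d : ℤ)) =
      if Nat.gcd x M = 1 then 1 else 0 := by
    have h2 := congrArg (fun f ↦ f (Nat.gcd x M)) ArithmeticFunction.coe_zeta_mul_moebius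
    simp only [ArithmeticFunction.coe_zeta_mul_apply, ArithmeticFunction.one_apply] at h2
    exact h2
  have h3 : M.divisors.filter (fun d ↦ d ∣ x) = (Nat.gcd x M).divisors := by
    ext d
    rw [mem_filter, Nat.mem_divisors, Nat.mem_divisors, Nat.dvd_gcd_iff]
    constructor
    · rintro ⟨⟨h4, _⟩, h5⟩
      exact ⟨⟨h5, h4⟩, (Nat.gcd_pos_of_pos_right x hM).ne'⟩
    · rintro ⟨⟨h5, h4⟩, _⟩
      exact ⟨⟨h4, hM.ne'⟩, h5⟩
  rw [← Finset.sum_filter, h3, h1]

private lemma ram_inner (M d : ℕ) (hM : 0 < M) (hd : d ∣ M) (θ : ℤ) :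
    ∑ x ∈ (range M).filter (fun x ↦ d ∣ x), ec M (θ * x) =
      if ((M / d : ℕ) : ℤ) ∣ θ then ((M / d : ℕ) : ℂ) else 0 := by
  obtain ⟨e, rfl⟩ := hd
  have hd0 : 0 < d := Nat.pos_of_mul_pos_right hM
  have he0 : 0 < e := Nat.pos_of_mul_pos_left hM
  have : NeZero e := ⟨he0.ne'⟩
  rw [Nat.mul_div_cancel_left e hd0, ← Pool.Agent.Work.MP_af11aa_nt.K.Salie.sum_ec e θ]
  symm
  refine Finset.sum_nbij' (fun y ↦ d * y) (fun x ↦ x / d) ?_ ?_ ?_ ?_ ?_
  · intro y hy
    rw [mem_range] at hy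
    rw [mem_filter, mem_range]
    exact ⟨Nat.mul_lt_mul_of_pos_left hy hd0, dvd_mul_right _ _⟩
  · intro x hx
    rw [mem_filter, mem_range] at hx
    rw [mem_range]
    exact Nat.div_lt_of_lt_mul hx.1
  · intro y _
    exact Nat.mul_div_cancel_left y hd0
  · intro x hx
    rw [mem_filter] at hx
    exact Nat.mul_div_cancel' hx.2
  · intro y _
    rw [ram_eq]
    have h := Pool.Agent.Work.MP_af11aa_nt.K.Salie.ec_mul d e hd0.ne' he0.ne' (θ * y)
    have h2 : ec (d * e) (θ * ((d * y : ℕ) : ℤ)) = ec (d * e) ((d : ℤ) * (θ * y)) := by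
      congr 1
      push_cast
      ring
    rw [h2]
    exact h.symm

theorem ram_bound (M : ℕ) (hM : 0 < M) (θ : ℤ) :
    ‖∑ x ∈ range M, eInv M θ (x : ℤ)‖ ≤ (Int.gcd θ M : ℝ) * (Int.gcd θ M).divisors.card := by
  have h1 : ∑ x ∈ range M, eInv M θ (x : ℤ) = ∑ d ∈ M.divisors,
      ((ArithmeticFunction.moebius d : ℤ) : ℂ) *
        (if ((M / d : ℕ) : ℤ) ∣ θ then ((M / d : ℕ) : ℂ) else 0) := by
    rw [ram_units M hM, Finset.sum_filter]
    calc ∑ x ∈ range M, (if x.Coprime M then ec M (θ * x) else 0)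
        = ∑ x ∈ range M, ∑ d ∈ M.divisors,
          (if d ∣ x then ((ArithmeticFunction.moebius d : ℤ) : ℂ) * ec M (θ * x) else 0) := by
          refine Finset.sum_congr rfl fun x _ ↦ ?_
          have h2 := congrArg (Int.cast : ℤ → ℂ) (ram_moebius x M hM)
          rw [Int.cast_sum] at h2
          have h3 : (if x.Coprime M then ec M (θ * x) else 0) =
              (((if x.Coprime M then 1 else 0 : ℤ)) : ℂ) * ec M (θ * x) := by
            split_ifs <;> simp
          rw [h3, ← h2, Finset.sum_mul]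
          refine Finset.sum_congr rfl fun d _ ↦ ?_
          split_ifs <;> simp
      _ = ∑ d ∈ M.divisors, ((ArithmeticFunction.moebius d : ℤ) : ℂ) *
          ∑ x ∈ (range M).filter (fun x ↦ d ∣ x), ec M (θ * x) := by
          rw [Finset.sum_comm]
          refine Finset.sum_congr rfl fun d _ ↦ ?_
          rw [← Finset.sum_filter, Finset.mul_sum]
      _ = _ := by
          refine Finset.sum_congr rfl fun d hd ↦ ?_
          rw [ram_inner M d hM (Nat.dvd_of_mem_divisors hd)]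
  rw [h1]
  have hg : 0 < Int.gcd θ M := Int.gcd_pos_of_ne_zero_right _ (by exact_mod_cast hM.ne')
  calc ‖∑ d ∈ M.divisors, ((ArithmeticFunction.moebius d : ℤ) : ℂ) *
        (if ((M / d : ℕ) : ℤ) ∣ θ then ((M / d : ℕ) : ℂ) else 0)‖
      ≤ ∑ d ∈ M.divisors, (if ((M / d : ℕ) : ℤ) ∣ θ then ((M / d : ℕ) : ℝ) else 0) := by
        refine (norm_sum_le _ _).trans (Finset.sum_le_sum fun d _ ↦ ?_)
        rw [norm_mul]
        have h2 : ‖((ArithmeticFunction.moebius d : ℤ) : ℂ)‖ ≤ 1 := by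
          rw [Complex.norm_intCast]
          exact_mod_cast ArithmeticFunction.abs_moebius_le_one
        have h3 : ‖(if ((M / d : ℕ) : ℤ) ∣ θ then ((M / d : ℕ) : ℂ) else 0)‖ =
            (if ((M / d : ℕ) : ℤ) ∣ θ then ((M / d : ℕ) : ℝ) else 0) := by
          split_ifs
          · rw [Complex.norm_natCast]
          · rw [norm_zero]
        rw [h3]
        refine (mul_le_mul_of_nonneg_right h2 ?_).trans (one_mul _).le
        split_ifs <;> positivity
    _ = ∑ e ∈ M.divisors, (if (e : ℤ) ∣ θ then (e : ℝ) else 0) :=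
        Nat.sum_div_divisors M (fun e ↦ if (e : ℤ) ∣ θ then (e : ℝ) else 0)
    _ = ∑ e ∈ (Int.gcd θ M).divisors, (e : ℝ) := by
        rw [← Finset.sum_filter]
        congr 1
        ext e
        rw [mem_filter, Nat.mem_divisors, Nat.mem_divisors]
        have h4 : e ∣ Int.gcd θ M ↔ (e : ℤ) ∣ θ ∧ (e : ℤ) ∣ (M : ℤ) := by
          rw [← Int.natCast_dvd_natCast]
          exact Int.dvd_coe_gcd_iff
        rw [h4]
        constructor
        · rintro ⟨⟨h5, _⟩, h6⟩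
          exact ⟨⟨h6, by exact_mod_cast h5⟩, hg.ne'⟩
        · rintro ⟨⟨h5, h6⟩, _⟩
          exact ⟨⟨by exact_mod_cast h6, hM.ne'⟩, h5⟩
    _ ≤ (Int.gcd θ M).divisors.card • (Int.gcd θ M : ℝ) := by
        refine Finset.sum_le_card_nsmul _ _ _ fun e he ↦ ?_
        exact_mod_cast Nat.divisor_le he
    _ = _ := by rw [nsmul_eq_mul, mul_comm]

end Pool.Agent.Work.MP_af11aa_nt.T
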