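import Mathlib
import Pool.Agent.Work.MP_af11aa_nt.T.PhaseA
import Pool.Agent.Work.MP_af11aa_nt.T.AvgK
import Pool.Agent.Work.MP_af11aa_nt.T.Ram

/-!
MODULE KbA (sums of the Kloosterman bounds over the moduli Q Q' a). M = Q Q' a, Y² a < M ≤ 16 Y² a ≤ 32 Y² U, d = |Q'-Q|, 0 < d ≤ 4Y.
KB M θ = 2 τ(M) √M √gcd(θ,M) sfp(M)^{1/4}; gcd(θ,M) = gcd(d,a) (PhaseA.gcd_thA); sfp(M) ≤ sfp(a) gcd(QQ',a)² (AvgK.sfp_mul with e = QQ'
squarefree), so sfp(M)^{1/4} ≤ sfp(a)^{1/4} √gcd(QQ',a); Q, Q' do not divide d (0 < d < Q? use: Q ∣ Q'-Q implies Q = Q'), so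
gcd(d,a) gcd(QQ',a) = gcd(dQQ',a) (Nat.Coprime.gcd_mul). τ(M) ≤ C M^{ε/12} (MP_f2148a_nt.exists_card_divisors_le), √M ≤ 6 Y √U. Then
AvgK.avg_kb with A = 2U, d := d Q Q' ≤ 64 Y³. All powers of Y, U collected: (Y U)^ε (note 1 ≤ Y).
(ram_sumA) Ram.ram_bound: ≤ ∑ gcd(d,a) τ(gcd(d,a))/(Y² a), then AvgK.avg_gcd.
-/

set_option autoImplicit false

namespace Pool.Agent.Work.MP_af11aa_nt.T

open Finset ComplexConjugate Pool.Agent.Work.MP_af11aa_nt.W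

private lemma kbA_pow {x W c δ : ℝ} (hx : 0 ≤ x) (hc : 0 ≤ c) (hW : 0 ≤ W) (k : ℕ)
    (h : x ≤ c * W ^ k) (hδ : 0 ≤ δ) : x ^ δ ≤ c ^ δ * W ^ (k * δ) := by
  have : W ^ ((k : ℝ) * δ) = (W ^ k) ^ δ := by
    rw [Real.rpow_mul hW, Real.rpow_natCast]
  rw [this, ← Real.mul_rpow hc (by positivity)]
  exact Real.rpow_le_rpow hx h hδ

private lemma kbA_d {P k0 m1 m2 n Y Z : ℕ} {S : Finset ℕ} (hp : Par P k0 m1 m2 n Y Z S)
    {Q Q' : ℕ} (hQ : Q ∈ S) (hQ' : Q' ∈ S) (hne : Q ≠ Q') :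
    0 < ((Q' : ℤ) - Q).natAbs ∧ ((Q' : ℤ) - Q).natAbs ≤ 4 * Y := by
  obtain ⟨_, h1, h2, _⟩ := hp.hS Q hQ
  obtain ⟨_, h3, h4, _⟩ := hp.hS Q' hQ'
  omega

private lemma kbA_Y {P k0 m1 m2 n Y Z : ℕ} {S : Finset ℕ} (hp : Par P k0 m1 m2 n Y Z S) :
    0 < Y := by
  rw [hp.hY]; exact pow_pos hp.hZ 3

private lemma kbA_cop {P k0 m1 m2 n Y Z : ℕ} {S : Finset ℕ} (hp : Par P k0 m1 m2 n Y Z S)
    {Q Q' : ℕ} (hQ : Q ∈ S) (hQ' : Q' ∈ S) (hne : Q ≠ Q') :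
    (((Q' : ℤ) - Q).natAbs).Coprime (Q * Q') := by
  obtain ⟨hQp, _, _, _⟩ := hp.hS Q hQ
  obtain ⟨hQ'p, _, _, _⟩ := hp.hS Q' hQ'
  have hQQ : Q.Coprime Q' := (Nat.coprime_primes hQp hQ'p).2 hne
  have hd1 : (((Q' : ℤ) - Q).natAbs).Coprime Q := by
    have : IsCoprime ((Q' : ℤ) - Q) (Q : ℤ) := by
      have h0 : IsCoprime (Q' : ℤ) (Q : ℤ) := Nat.isCoprime_iff_coprime.2 hQQ.symm
      have := h0.add_mul_left_left (-1)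
      have e : (Q' : ℤ) + Q * (-1) = Q' - Q := by ring
      rwa [e] at this
    exact Int.isCoprime_iff_gcd_eq_one.1 this
  have hd2 : (((Q' : ℤ) - Q).natAbs).Coprime Q' := by
    have : IsCoprime ((Q' : ℤ) - Q) (Q' : ℤ) := by
      have h0 : IsCoprime (Q : ℤ) (Q' : ℤ) := Nat.isCoprime_iff_coprime.2 hQQ
      have h1 := h0.neg_left.add_mul_left_left 1
      have e : -(Q : ℤ) + Q' * 1 = Q' - Q := by ring
      rwa [e] at h1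
    exact Int.isCoprime_iff_gcd_eq_one.1 this
  exact Nat.Coprime.mul_right hd1 hd2

theorem kb_sumA (ε : ℝ) (hε : 0 < ε) : ∃ C : ℝ, 0 < C ∧ ∀ {P k0 m1 m2 n Y Z : ℕ} {S : Finset ℕ}
    (_ : Par P k0 m1 m2 n Y Z S) (σ : Bool) {Q Q' : ℕ} (_ : Q ∈ S) (_ : Q' ∈ S) (_ : Q ≠ Q')
    {U : ℕ} (_ : 0 < U),
    ∑ a ∈ (Ico U (2 * U)).filter (fun a : ℕ ↦ a.Coprime n),
        KB (Q * Q' * a) (thA (m2 * m1) k0 σ Q Q' a) ≤
      C * ((Y * U : ℕ) : ℝ) ^ ε * (Y * U * Real.sqrt U) := by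
  obtain ⟨C1, hC1, h1⟩ := Pool.Agent.Work.MP_f2148a_nt.exists_card_divisors_le (ε / 8) (by linarith)
  obtain ⟨C2, hC2, h2⟩ := avg_kb (ε / 8) (by linarith)
  refine ⟨24 * C1 * C2 * ((32 : ℝ) ^ (ε / 8) * (128 : ℝ) ^ (ε / 8)), by positivity, ?_⟩
  intro P k0 m1 m2 n Y Z S hp σ Q Q' hQ hQ' hne U hU
  obtain ⟨hd0, hd1⟩ := kbA_d hp hQ hQ' hne
  have hcopd := kbA_cop hp hQ hQ' hne
  obtain ⟨hQp, hQ1, hQ2, hQn⟩ := hp.hS Q hQ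
  obtain ⟨hQ'p, hQ'1, hQ'2, hQ'n⟩ := hp.hS Q' hQ'
  have hQQ : Q.Coprime Q' := (Nat.coprime_primes hQp hQ'p).2 hne
  have hY := kbA_Y hp
  set d := ((Q' : ℤ) - Q).natAbs with hd
  have hUr : (1 : ℝ) ≤ U := by exact_mod_cast hU
  have hYr : (1 : ℝ) ≤ Y := by exact_mod_cast hY
  set W : ℝ := ((Y * U : ℕ) : ℝ) with hWdef
  have hWe : W = (Y : ℝ) * U := by rw [hWdef]; push_cast; ring
  have hW : 1 ≤ W := by rw [hWe]; nlinarith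
  have hsq : Squarefree (Q * Q') := (Nat.squarefree_mul hQQ).2 ⟨hQp.squarefree, hQ'p.squarefree⟩
  have hQQle : Q * Q' ≤ 16 * Y ^ 2 := by nlinarith
  have hterm : ∀ a ∈ (Ico U (2 * U)).filter (fun a : ℕ ↦ a.Coprime n),
      KB (Q * Q' * a) (thA (m2 * m1) k0 σ Q Q' a) ≤
        (2 * (C1 * ((32 : ℝ) ^ (ε / 8) * W ^ (((2 : ℕ) : ℝ) * (ε / 8)))) *
          (6 * (Y * Real.sqrt U))) *
        (Real.sqrt (Nat.gcd (d * (Q * Q')) a) * (sfp a : ℝ) ^ (1 / 4 : ℝ)) := by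
    intro a ha
    rw [mem_filter, mem_Ico] at ha
    obtain ⟨⟨ha1, ha2⟩, han⟩ := ha
    have ha0 : 0 < a := by omega
    have hMpos : 0 < Q * Q' * a := Nat.mul_pos (Nat.mul_pos hQp.pos hQ'p.pos) ha0
    have hM : Q * Q' * a ≤ 32 * Y ^ 2 * U := by
      calc Q * Q' * a ≤ (16 * Y ^ 2) * (2 * U) := Nat.mul_le_mul hQQle (by omega)
        _ = 32 * Y ^ 2 * U := by ring
    have hMr : ((Q * Q' * a : ℕ) : ℝ) ≤ 32 * (Y : ℝ) ^ 2 * U := by exact_mod_cast hM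
    have e1 : ((Q * Q' * a).divisors.card : ℝ) ≤
        C1 * ((32 : ℝ) ^ (ε / 8) * W ^ (((2 : ℕ) : ℝ) * (ε / 8))) := by
      refine (h1 (Q * Q' * a) hMpos).trans ?_
      gcongr
      apply kbA_pow (by positivity) (by norm_num) (by linarith) 2 _ (by linarith)
      rw [hWe]
      refine hMr.trans ?_
      have : (Y : ℝ) ^ 2 * U ≤ (Y : ℝ) ^ 2 * (U * U) := by
        gcongr
        nlinarith
      nlinarith
    have e2 : Real.sqrt ((Q * Q' * a : ℕ) : ℝ) ≤ 6 * (Y * Real.sqrt U) := by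
      apply Real.sqrt_le_iff.2
      refine ⟨by positivity, ?_⟩
      rw [mul_pow, mul_pow, Real.sq_sqrt (by linarith)]
      nlinarith [mul_nonneg (sq_nonneg (Y : ℝ)) (by linarith : (0 : ℝ) ≤ U)]
    have e3 : (sfp (Q * Q' * a) : ℝ) ^ (1 / 4 : ℝ) ≤
        (sfp a : ℝ) ^ (1 / 4 : ℝ) * Real.sqrt (Nat.gcd (Q * Q') a) := by
      have h3 : (sfp (Q * Q' * a) : ℝ) ≤ (sfp a : ℝ) * (Nat.gcd (Q * Q') a : ℝ) ^ 2 := by
        exact_mod_cast sfp_mul (Q * Q') a hsq ha0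
      calc (sfp (Q * Q' * a) : ℝ) ^ (1 / 4 : ℝ) ≤
            ((sfp a : ℝ) * (Nat.gcd (Q * Q') a : ℝ) ^ 2) ^ (1 / 4 : ℝ) :=
              Real.rpow_le_rpow (by positivity) h3 (by norm_num)
        _ = (sfp a : ℝ) ^ (1 / 4 : ℝ) * Real.sqrt (Nat.gcd (Q * Q') a) := by
            rw [Real.mul_rpow (by positivity) (by positivity)]
            congr 1
            rw [Real.sqrt_eq_rpow, ← Real.rpow_natCast, ← Real.rpow_mul (by positivity)]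
            norm_num
    have e4 : Real.sqrt (Nat.gcd d a) * Real.sqrt (Nat.gcd (Q * Q') a) =
        Real.sqrt (Nat.gcd (d * (Q * Q')) a) := by
      rw [← Real.sqrt_mul (by positivity)]
      congr 1
      have : Nat.gcd (d * (Q * Q')) a = Nat.gcd d a * Nat.gcd (Q * Q') a := by
        rw [Nat.gcd_comm, Nat.Coprime.gcd_mul _ hcopd, Nat.gcd_comm a, Nat.gcd_comm a]
      rw [this]
      push_cast
      ring
    unfold KB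
    rw [gcd_thA hp σ hQ hQ' hne ha0 han]
    calc 2 * ((Q * Q' * a).divisors.card : ℝ) * Real.sqrt ((Q * Q' * a : ℕ) : ℝ) *
          Real.sqrt (Nat.gcd d a) * (sfp (Q * Q' * a) : ℝ) ^ (1 / 4 : ℝ)
        ≤ 2 * (C1 * ((32 : ℝ) ^ (ε / 8) * W ^ (((2 : ℕ) : ℝ) * (ε / 8)))) *
          (6 * (Y * Real.sqrt U)) * Real.sqrt (Nat.gcd d a) *
          ((sfp a : ℝ) ^ (1 / 4 : ℝ) * Real.sqrt (Nat.gcd (Q * Q') a)) := by
          gcongr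
      _ = (2 * (C1 * ((32 : ℝ) ^ (ε / 8) * W ^ (((2 : ℕ) : ℝ) * (ε / 8)))) *
          (6 * (Y * Real.sqrt U))) *
          ((Real.sqrt (Nat.gcd d a) * Real.sqrt (Nat.gcd (Q * Q') a)) *
            (sfp a : ℝ) ^ (1 / 4 : ℝ)) := by ring
      _ = _ := by rw [e4]
  have hsub : (Ico U (2 * U)).filter (fun a : ℕ ↦ a.Coprime n) ⊆ Icc 1 (2 * U) := by
    intro a ha
    rw [mem_filter, mem_Ico] at ha
    rw [mem_Icc]
    omega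
  have hdQ : 0 < d * (Q * Q') := Nat.mul_pos hd0 (Nat.mul_pos hQp.pos hQ'p.pos)
  have hav := h2 (2 * U) (d * (Q * Q')) (by omega) hdQ
  have hav2 : ∑ a ∈ (Ico U (2 * U)).filter (fun a : ℕ ↦ a.Coprime n),
      Real.sqrt (Nat.gcd (d * (Q * Q')) a) * (sfp a : ℝ) ^ (1 / 4 : ℝ) ≤
      C2 * ((128 : ℝ) ^ (ε / 8) * W ^ (((3 : ℕ) : ℝ) * (ε / 8))) * (2 * U) := by
    refine (Finset.sum_le_sum_of_subset_of_nonneg hsub fun b _ _ ↦ by positivity).trans ?_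
    refine hav.trans ?_
    have e3 : (((d * (Q * Q') : ℕ) : ℝ) * ((2 * U : ℕ) : ℝ)) ^ (ε / 8) ≤
        (128 : ℝ) ^ (ε / 8) * W ^ (((3 : ℕ) : ℝ) * (ε / 8)) := by
      apply kbA_pow (by positivity) (by norm_num) (by linarith) 3 _ (by linarith)
      rw [hWe]
      have h5 : d * (Q * Q') * (2 * U) ≤ 128 * (Y * U) ^ 3 := by
        calc d * (Q * Q') * (2 * U) ≤ (4 * Y) * (16 * Y ^ 2) * (2 * U) := by gcongr
          _ = 128 * Y ^ 3 * U := by ring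
          _ ≤ 128 * Y ^ 3 * U ^ 3 := by
              gcongr
              exact Nat.le_self_pow (by norm_num) U
          _ = 128 * (Y * U) ^ 3 := by ring
      exact_mod_cast h5
    have e4 : ((2 * U : ℕ) : ℝ) = 2 * U := by push_cast; ring
    calc C2 * (((d * (Q * Q') : ℕ) : ℝ) * ((2 * U : ℕ) : ℝ)) ^ (ε / 8) * ((2 * U : ℕ) : ℝ)
        ≤ C2 * ((128 : ℝ) ^ (ε / 8) * W ^ (((3 : ℕ) : ℝ) * (ε / 8))) * ((2 * U : ℕ) : ℝ) := by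
          gcongr
      _ = _ := by rw [e4]
  have hWW : W ^ (((2 : ℕ) : ℝ) * (ε / 8)) * W ^ (((3 : ℕ) : ℝ) * (ε / 8)) ≤ W ^ ε := by
    rw [← Real.rpow_add (by linarith : (0 : ℝ) < W)]
    apply Real.rpow_le_rpow_of_exponent_le hW
    push_cast
    linarith
  calc ∑ a ∈ (Ico U (2 * U)).filter (fun a : ℕ ↦ a.Coprime n),
        KB (Q * Q' * a) (thA (m2 * m1) k0 σ Q Q' a)
      ≤ ∑ a ∈ (Ico U (2 * U)).filter (fun a : ℕ ↦ a.Coprime n),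
        (2 * (C1 * ((32 : ℝ) ^ (ε / 8) * W ^ (((2 : ℕ) : ℝ) * (ε / 8)))) *
          (6 * (Y * Real.sqrt U))) *
        (Real.sqrt (Nat.gcd (d * (Q * Q')) a) * (sfp a : ℝ) ^ (1 / 4 : ℝ)) :=
        Finset.sum_le_sum hterm
    _ = (2 * (C1 * ((32 : ℝ) ^ (ε / 8) * W ^ (((2 : ℕ) : ℝ) * (ε / 8)))) *
          (6 * (Y * Real.sqrt U))) * ∑ a ∈ (Ico U (2 * U)).filter (fun a : ℕ ↦ a.Coprime n),
        (Real.sqrt (Nat.gcd (d * (Q * Q')) a) * (sfp a : ℝ) ^ (1 / 4 : ℝ)) := by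
        rw [Finset.mul_sum]
    _ ≤ (2 * (C1 * ((32 : ℝ) ^ (ε / 8) * W ^ (((2 : ℕ) : ℝ) * (ε / 8)))) *
          (6 * (Y * Real.sqrt U))) *
        (C2 * ((128 : ℝ) ^ (ε / 8) * W ^ (((3 : ℕ) : ℝ) * (ε / 8))) * (2 * U)) := by
        gcongr
    _ = 24 * C1 * C2 * ((32 : ℝ) ^ (ε / 8) * (128 : ℝ) ^ (ε / 8)) *
        (W ^ (((2 : ℕ) : ℝ) * (ε / 8)) * W ^ (((3 : ℕ) : ℝ) * (ε / 8))) *
        (Y * U * Real.sqrt U) := by ring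
    _ ≤ _ := by gcongr

theorem ram_sumA (ε : ℝ) (hε : 0 < ε) : ∃ C : ℝ, 0 < C ∧ ∀ {P k0 m1 m2 n Y Z : ℕ} {S : Finset ℕ}
    (_ : Par P k0 m1 m2 n Y Z S) (σ : Bool) {Q Q' : ℕ} (_ : Q ∈ S) (_ : Q' ∈ S) (_ : Q ≠ Q')
    {U : ℕ} (_ : 0 < U),
    ∑ a ∈ (Ico U (2 * U)).filter (fun a : ℕ ↦ a.Coprime n),
        ‖∑ x ∈ range (Q * Q' * a), eInv (Q * Q' * a) (thA (m2 * m1) k0 σ Q Q' a) (x : ℤ)‖ /
          ((Q * Q' * a : ℕ) : ℝ) ≤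
      C * ((Y * U : ℕ) : ℝ) ^ ε / (Y : ℝ) ^ 2 := by
  obtain ⟨C, hC, h⟩ := avg_gcd ε hε
  refine ⟨C * (8 : ℝ) ^ ε, by positivity, ?_⟩
  intro P k0 m1 m2 n Y Z S hp σ Q Q' hQ hQ' hne U hU
  obtain ⟨hd0, hd1⟩ := kbA_d hp hQ hQ' hne
  obtain ⟨hQp, hQ1, hQ2, hQn⟩ := hp.hS Q hQ
  obtain ⟨hQ'p, hQ'1, hQ'2, hQ'n⟩ := hp.hS Q' hQ'
  have hY := kbA_Y hp
  have hYr : (0 : ℝ) < Y := by exact_mod_cast hY
  set d := ((Q' : ℤ) - Q).natAbs with hd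
  have hdr : (d : ℝ) ≤ 4 * Y := by exact_mod_cast hd1
  have hterm : ∀ a ∈ (Ico U (2 * U)).filter (fun a : ℕ ↦ a.Coprime n),
      ‖∑ x ∈ range (Q * Q' * a), eInv (Q * Q' * a) (thA (m2 * m1) k0 σ Q Q' a) (x : ℤ)‖ /
          ((Q * Q' * a : ℕ) : ℝ) ≤
        (1 / (Y : ℝ) ^ 2) * ((Nat.gcd d a : ℝ) * (Nat.gcd d a).divisors.card / a) := by
    intro a ha
    rw [mem_filter, mem_Ico] at ha
    obtain ⟨⟨ha1, _⟩, han⟩ := ha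
    have ha0 : 0 < a := by omega
    have har : (0 : ℝ) < a := by exact_mod_cast ha0
    have hMpos : 0 < Q * Q' * a := Nat.mul_pos (Nat.mul_pos hQp.pos hQ'p.pos) ha0
    have hr := ram_bound (Q * Q' * a) hMpos (thA (m2 * m1) k0 σ Q Q' a)
    rw [gcd_thA hp σ hQ hQ' hne ha0 han] at hr
    have hM : Y ^ 2 * a ≤ Q * Q' * a := by
      apply Nat.mul_le_mul_right
      nlinarith
    have hMr : (Y : ℝ) ^ 2 * a ≤ ((Q * Q' * a : ℕ) : ℝ) := by exact_mod_cast hM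
    calc ‖∑ x ∈ range (Q * Q' * a), eInv (Q * Q' * a) (thA (m2 * m1) k0 σ Q Q' a) (x : ℤ)‖ /
          ((Q * Q' * a : ℕ) : ℝ)
        ≤ ((Nat.gcd d a : ℝ) * (Nat.gcd d a).divisors.card) / ((Y : ℝ) ^ 2 * a) := by
          gcongr
      _ = _ := by
          field_simp
  have hsub : (Ico U (2 * U)).filter (fun a : ℕ ↦ a.Coprime n) ⊆ Icc 1 (2 * U) := by
    intro b hb
    rw [mem_filter, mem_Ico] at hb
    rw [mem_Icc]
    omega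
  refine (Finset.sum_le_sum hterm).trans ?_
  rw [← Finset.mul_sum]
  have hmain : ∑ a ∈ (Ico U (2 * U)).filter (fun a : ℕ ↦ a.Coprime n),
      ((Nat.gcd d a : ℝ) * (Nat.gcd d a).divisors.card / a) ≤
      C * ((8 : ℝ) ^ ε * ((Y * U : ℕ) : ℝ) ^ ε) := by
    refine (Finset.sum_le_sum_of_subset_of_nonneg hsub fun b _ _ ↦ by positivity).trans ?_
    refine (h (2 * U) d (by omega) hd0).trans ?_
    have e3 : ((d : ℝ) * ((2 * U : ℕ) : ℝ)) ^ ε ≤ (8 : ℝ) ^ ε * ((Y * U : ℕ) : ℝ) ^ ε := by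
      have := kbA_pow (x := (d : ℝ) * ((2 * U : ℕ) : ℝ)) (W := ((Y * U : ℕ) : ℝ)) (c := 8)
        (δ := ε) (by positivity) (by norm_num) (by positivity) 1 (by
          push_cast
          have : (0 : ℝ) ≤ U := by positivity
          nlinarith) hε.le
      simpa using this
    gcongr
  calc (1 / (Y : ℝ) ^ 2) * ∑ a ∈ (Ico U (2 * U)).filter (fun a : ℕ ↦ a.Coprime n),
      ((Nat.gcd d a : ℝ) * (Nat.gcd d a).divisors.card / a)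
      ≤ (1 / (Y : ℝ) ^ 2) * (C * ((8 : ℝ) ^ ε * ((Y * U : ℕ) : ℝ) ^ ε)) := by
        gcongr
    _ = _ := by ring

end Pool.Agent.Work.MP_af11aa_nt.T
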