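import Mathlib

/-!
MODULE NumA (numerical inequalities, type A; Mathlib only). Put W = Y U V.
24 P ≤ k0 and 2 k0 W ≤ 3m give 16 P W ≤ m; m/(k0 W) ≥ 2/3, so Zg = 1 + m/(k0W) ≤ (5/2) m/(k0 W).
Y = Z³ and Y U ≤ Z V give V ≥ Z² U. m² ≥ (P³Z²¹)(16 P Z³ U V) = 16 P⁴ Z²⁴ U V. Hence
 (i) P² Y⁵ U² ≤ m V:  (mV)² ≥ 16 P⁴ Z²⁴ U V³ ≥ 16 P⁴ Z³⁰ U⁴;   (ii) P² Y³ U ≤ m:  m² ≥ 16 P⁴Z²⁴ U V ≥ 16 P⁴ Z²⁶ U².
numA_short: multiply by P W: need √(8k0) Y U √U (√Zg + √(V/(Y²U))) ≤ 20 m/(P Y²). First: √(8k0) √Zg ≤ √(20 m/W), and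
 Y U √U √(20 m/W) = √(20 m) √Y U/√V ≤ √20 m/(PY²) by (i). Second: √(8k0) U √V, square 8 k0 U² V = 8 (k0 W) U/Y ≤ 12 m U/Y ≤ 12 m²/(P²Y⁴) by (ii).
numA_long: V/(Y² P W) = 1/(P Y³ U) ≤ m/(P²Y³UV) as P V ≤ m; and Zg 8k0 ≤ 20 m/W: need √U P Y² ≤ V, true as V ≥ 8 k0 Y² U.
-/

set_option autoImplicit false

namespace Pool.Agent.Work.MP_af11aa_nt.T

private theorem sq_le {a b : ℝ} (hb : 0 ≤ b) (h : a ^ 2 ≤ b ^ 2) : a ≤ b :=
  le_of_abs_le (abs_le_of_sq_le_sq h hb)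

/-- `16 P W ≤ m` -/
private theorem core1 {P k0 m W : ℝ} (hW : 0 < W) (h24 : 24 * P ≤ k0)
    (hne : 2 * (k0 * W) ≤ 3 * m) : 16 * P * W ≤ m := by
  have h1 : 24 * P * W ≤ k0 * W := mul_le_mul_of_nonneg_right h24 hW.le
  linarith

/-- the factor with the fourth root -/
private theorem core2 {k0 m W : ℝ} (hk : 0 < k0) (hW : 0 < W) (hne : 2 * (k0 * W) ≤ 3 * m) :
    8 * k0 * (1 + m / (k0 * W)) ≤ 20 * (m / W) := by
  have h1 : 8 * k0 * (1 + m / (k0 * W)) = (8 * (k0 * W) + 8 * m) / W := by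
    field_simp
  rw [h1, ← mul_div_assoc]
  exact div_le_div_of_nonneg_right (by linarith) hW.le

private theorem core3 {P m Y W : ℝ} (hP : 1 ≤ P) (hY : 1 ≤ Y) (hm : 0 < m)
    (hbig : P ^ 3 * Y ^ 7 ≤ m) (h16 : 16 * P * W ≤ m) (hW : 0 < W) :
    16 * P ^ 4 * Y ^ 7 * W ≤ m ^ 2 := by
  calc 16 * P ^ 4 * Y ^ 7 * W = (P ^ 3 * Y ^ 7) * (16 * P * W) := by ring
    _ ≤ m * m := mul_le_mul hbig h16 (by positivity) hm.le
    _ = m ^ 2 := by ring

theorem numA_short {P k0 m Y Z U V : ℝ} (hP : 1 ≤ P) (hZ : 1 ≤ Z) (hY : Y = Z ^ 3) (hU : 1 ≤ U)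
    (hV : 1 ≤ V) (h24 : 24 * P ≤ k0) (hbig : P ^ 3 * Y ^ 7 ≤ m)
    (hne : 2 * (k0 * (Y * U * V)) ≤ 3 * m) (hAB : Y * U ≤ Z * V) :
    Real.sqrt (8 * k0) / (P * (Y * U * V)) * (Y * U * Real.sqrt U) *
        (Real.sqrt (1 + m / (k0 * (Y * U * V))) + Real.sqrt (V / (Y ^ 2 * U))) ≤
      20 * (m / (P ^ 2 * Y ^ 3 * (U * V))) := by
  have hY1 : 1 ≤ Y := by rw [hY]; exact one_le_pow₀ hZ
  have hP0 : 0 < P := by linarith
  have hY0 : 0 < Y := by linarith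
  have hU0 : 0 < U := by linarith
  have hV0 : 0 < V := by linarith
  have hZ0 : 0 < Z := by linarith
  have hk : 0 < k0 := by linarith
  have hm : 0 < m := lt_of_lt_of_le (by positivity) hbig
  obtain ⟨W, hW⟩ : ∃ W, W = Y * U * V := ⟨_, rfl⟩
  have hW0 : 0 < W := by rw [hW]; positivity
  rw [← hW] at hne ⊢
  have h16 := core1 hW0 h24 hne
  have hZg := core2 hk hW0 hne
  have hsq := core3 hP hY1 hm hbig h16 hW0
  have hVU : Z ^ 2 * U ≤ V := by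
    have : Z * (Z ^ 2 * U) ≤ Z * V := by rw [hY] at hAB; nlinarith [hAB]
    exact le_of_mul_le_mul_left this hZ0
  have hV3 : Y ^ 2 * U ^ 3 ≤ V ^ 3 := by
    have h := pow_le_pow_left₀ (by positivity) hVU 3
    calc Y ^ 2 * U ^ 3 = (Z ^ 2 * U) ^ 3 := by rw [hY]; ring
      _ ≤ V ^ 3 := h
  -- (i)
  have hi : P ^ 2 * Y ^ 5 * U ^ 2 ≤ m * V := by
    refine sq_le (by positivity) ?_
    calc (P ^ 2 * Y ^ 5 * U ^ 2) ^ 2 = P ^ 4 * Y ^ 8 * U * (Y ^ 2 * U ^ 3) := by ring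
      _ ≤ P ^ 4 * Y ^ 8 * U * V ^ 3 := by gcongr
      _ ≤ 16 * P ^ 4 * Y ^ 8 * U * V ^ 3 := by nlinarith [show 0 < P ^ 4 * Y ^ 8 * U * V ^ 3 by positivity]
      _ = (16 * P ^ 4 * Y ^ 7 * W) * V ^ 2 := by rw [hW]; ring
      _ ≤ m ^ 2 * V ^ 2 := by gcongr
      _ = (m * V) ^ 2 := by ring
  -- (ii)
  have hii : P ^ 2 * Y ^ 3 * U ≤ m := by
    refine sq_le hm.le ?_
    have h1 : 1 ≤ Y ^ 2 * Z ^ 2 := one_le_mul_of_one_le_of_one_le (one_le_pow₀ hY1) (one_le_pow₀ hZ)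
    calc (P ^ 2 * Y ^ 3 * U) ^ 2 = P ^ 4 * Y ^ 6 * U ^ 2 * 1 := by ring
      _ ≤ P ^ 4 * Y ^ 6 * U ^ 2 * (Y ^ 2 * Z ^ 2) := by gcongr
      _ = P ^ 4 * Y ^ 8 * U * (Z ^ 2 * U) := by ring
      _ ≤ P ^ 4 * Y ^ 8 * U * V := by gcongr
      _ ≤ 16 * P ^ 4 * Y ^ 8 * U * V := by nlinarith [show 0 < P ^ 4 * Y ^ 8 * U * V by positivity]
      _ = 16 * P ^ 4 * Y ^ 7 * W := by rw [hW]; ring
      _ ≤ m ^ 2 := hsq
  set M := m / (P * Y ^ 2) with hM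
  have hM0 : 0 < M := by positivity
  have hMe : m = M * (P * Y ^ 2) := by rw [hM]; field_simp
  have hZg0 : 0 ≤ 1 + m / (k0 * W) := by positivity
  have T1 : Real.sqrt (8 * k0) * (Y * U * Real.sqrt U) * Real.sqrt (1 + m / (k0 * W)) ≤ 5 * M := by
    refine sq_le (by positivity) ?_
    rw [mul_pow, mul_pow, mul_pow, Real.sq_sqrt (by positivity), Real.sq_sqrt hU0.le,
      Real.sq_sqrt hZg0]
    calc 8 * k0 * ((Y * U) ^ 2 * U) * (1 + m / (k0 * W)) =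
          ((Y * U) ^ 2 * U) * (8 * k0 * (1 + m / (k0 * W))) := by ring
      _ ≤ ((Y * U) ^ 2 * U) * (20 * (m / W)) := by gcongr
      _ = 20 * (Y * U ^ 2 * m / V) := by rw [hW]; field_simp
      _ ≤ 20 * M ^ 2 := by
          gcongr
          rw [div_le_iff₀ hV0]
          have h1 : M * (P ^ 2 * Y ^ 5 * U ^ 2) ≤ M * (m * V) := by gcongr
          rw [hMe] at h1 ⊢
          have h2 : (P * Y ^ 2) * (Y * U ^ 2 * (M * (P * Y ^ 2))) ≤ (P * Y ^ 2) * (M ^ 2 * V) := by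
            nlinarith [h1]
          exact le_of_mul_le_mul_left h2 (by positivity)
      _ ≤ (5 * M) ^ 2 := by nlinarith [sq_nonneg M]
  have T2 : Real.sqrt (8 * k0) * (Y * U * Real.sqrt U) * Real.sqrt (V / (Y ^ 2 * U)) ≤ 4 * M := by
    refine sq_le (by positivity) ?_
    rw [mul_pow, mul_pow, mul_pow, Real.sq_sqrt (by positivity), Real.sq_sqrt hU0.le,
      Real.sq_sqrt (by positivity)]
    calc 8 * k0 * ((Y * U) ^ 2 * U) * (V / (Y ^ 2 * U)) = 4 * (2 * (k0 * W)) * U / Y := by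
          rw [hW]; field_simp; ring
      _ ≤ 4 * (3 * m) * U / Y := by gcongr
      _ = 12 * (m * U / Y) := by ring
      _ ≤ 12 * M ^ 2 := by
          gcongr
          rw [div_le_iff₀ hY0]
          have h1 : M * (P ^ 2 * Y ^ 3 * U) ≤ M * m := by gcongr
          rw [hMe] at h1 ⊢
          have h2 : (P * Y ^ 2) * (M * (P * Y ^ 2) * U) ≤ (P * Y ^ 2) * (M ^ 2 * Y) := by
            have h3 : Y * (M * (P ^ 2 * Y ^ 3 * U)) ≤ Y * (M * (M * (P * Y ^ 2))) := by gcongr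
            nlinarith [h3]
          exact le_of_mul_le_mul_left h2 (by positivity)
      _ ≤ (4 * M) ^ 2 := by nlinarith [sq_nonneg M]
  have e1 : Real.sqrt (8 * k0) / (P * W) * (Y * U * Real.sqrt U) *
        (Real.sqrt (1 + m / (k0 * W)) + Real.sqrt (V / (Y ^ 2 * U))) =
      (Real.sqrt (8 * k0) * (Y * U * Real.sqrt U) * Real.sqrt (1 + m / (k0 * W)) +
        Real.sqrt (8 * k0) * (Y * U * Real.sqrt U) * Real.sqrt (V / (Y ^ 2 * U))) / (P * W) := by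
    ring
  rw [e1]
  calc _ ≤ (20 * M) / (P * W) := by
        refine div_le_div_of_nonneg_right ?_ (by positivity)
        linarith
    _ = 20 * (m / (P ^ 2 * Y ^ 3 * (U * V))) := by
        rw [hM, hW]
        field_simp

theorem numA_long {P k0 m Y Z U V : ℝ} (hP : 1 ≤ P) (hZ : 1 ≤ Z) (hY : Y = Z ^ 3) (hU : 1 ≤ U)
    (hV : 1 ≤ V) (h24 : 24 * P ≤ k0) (hbig : P ^ 3 * Y ^ 7 ≤ m)
    (hne : 2 * (k0 * (Y * U * V)) ≤ 3 * m) (hlong : Y ^ 2 * U * (8 * k0) ≤ V) :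
    1 / (P * (Y * U * V)) * (V / Y ^ 2 +
        (1 + m / (k0 * (Y * U * V))) * (Y * U * Real.sqrt U) * (8 * k0)) ≤
      21 * (m / (P ^ 2 * Y ^ 3 * (U * V))) := by
  have hY1 : 1 ≤ Y := by rw [hY]; exact one_le_pow₀ hZ
  have hP0 : 0 < P := by linarith
  have hY0 : 0 < Y := by linarith
  have hU0 : 0 < U := by linarith
  have hV0 : 0 < V := by linarith
  have hk : 0 < k0 := by linarith
  have hm : 0 < m := lt_of_lt_of_le (by positivity) hbig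
  obtain ⟨W, hW⟩ : ∃ W, W = Y * U * V := ⟨_, rfl⟩
  have hW0 : 0 < W := by rw [hW]; positivity
  rw [← hW] at hne ⊢
  have h16 := core1 hW0 h24 hne
  have hZg := core2 hk hW0 hne
  set M := m / (P * Y ^ 2) with hM
  have hM0 : 0 < M := by positivity
  have hMe : m = M * (P * Y ^ 2) := by rw [hM]; field_simp
  have T1 : V / Y ^ 2 ≤ M := by
    rw [hM, div_le_div_iff₀ (by positivity) (by positivity)]
    have h1 : V ≤ W := by
      rw [hW]
      exact le_mul_of_one_le_left hV0.le (one_le_mul_of_one_le_of_one_le hY1 hU)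
    have h2 : P * V ≤ m := by
      have h3 : P * V ≤ P * W := by gcongr
      have h4 : 0 < P * W := by positivity
      linarith
    nlinarith [mul_le_mul_of_nonneg_right h2 (sq_nonneg Y)]
  have hsU : Real.sqrt U ≤ U := by
    rw [Real.sqrt_le_left hU0.le]
    nlinarith
  have T2 : (1 + m / (k0 * W)) * (Y * U * Real.sqrt U) * (8 * k0) ≤ 20 * M := by
    calc (1 + m / (k0 * W)) * (Y * U * Real.sqrt U) * (8 * k0) =
          (8 * k0 * (1 + m / (k0 * W))) * (Y * U * Real.sqrt U) := by ring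
      _ ≤ (20 * (m / W)) * (Y * U * Real.sqrt U) := by gcongr
      _ = 20 * (m * Real.sqrt U / V) := by rw [hW]; field_simp
      _ ≤ 20 * M := by
          gcongr
          rw [div_le_iff₀ hV0, hMe]
          have h1 : P * Y ^ 2 * Real.sqrt U ≤ V := by
            calc P * Y ^ 2 * Real.sqrt U ≤ P * Y ^ 2 * U := by gcongr
              _ ≤ Y ^ 2 * U * (8 * k0) := by
                  have h2 : P ≤ 8 * k0 := by linarith
                  nlinarith [mul_le_mul_of_nonneg_left h2 (show 0 ≤ Y ^ 2 * U by positivity)]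
              _ ≤ V := hlong
          calc M * (P * Y ^ 2) * Real.sqrt U = M * (P * Y ^ 2 * Real.sqrt U) := by ring
            _ ≤ M * V := by gcongr
  calc 1 / (P * W) * (V / Y ^ 2 + (1 + m / (k0 * W)) * (Y * U * Real.sqrt U) * (8 * k0)) ≤
        1 / (P * W) * (21 * M) := by
        refine mul_le_mul_of_nonneg_left ?_ (by positivity)
        linarith
    _ = 21 * (m / (P ^ 2 * Y ^ 3 * (U * V))) := by
        rw [hM, hW]
        field_simp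

end Pool.Agent.Work.MP_af11aa_nt.T
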