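import Mathlib
import Pool.Agent.Work.MP_af11aa_nt.T.InnerShort
import Pool.Agent.Work.MP_af11aa_nt.T.InnerLong
import Pool.Agent.Work.MP_af11aa_nt.T.KbA
import Pool.Agent.Work.MP_af11aa_nt.T.NumA
import Pool.Agent.Work.MP_af11aa_nt.T.PhaseA

/-!
MODULE OffA (off-diagonal terms, type A: sum over b, modulus M = Q Q' a).
Fix a. If a is not prime to n all terms vanish. Otherwise for b with Q a b ≤ X, Q' a b ≤ X, i.e. b ≤ x1 := min (2V-1) (min (X/(Qa)) (X/(Q'a))),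
FA Q a b * conj (FA Q' a b) = (H(Qab) wgt(Qab)) conj(H(Q'ab) wgt(Q'ab)) eInv M θ b by PhaseA.phaseA if b is prime to Qa and Q'a, and both sides
vanish otherwise (eInv M θ b = 0 if b is not prime to M). So the sum over b ∈ Ico V (2V) is the sum over Ioc (V-1) x1 with L = V, c0 = Y U V,
α = Q a, α' = Q' a (prime to 8 k0 by Par.hn). M ≥ Y² U, so √(V/M) ≤ √(V/(Y²U)).
Case V ≤ Y² U 8k0 (≤ M 8k0): InnerShort.inner_short, then KbA.kb_sumA, NumA.numA_short.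
Case Y² U 8k0 ≤ V: InnerLong.inner_long, KbA.kb_sumA, KbA.ram_sumA (times L = V), NumA.numA_long.
The logarithm: M 8k0 ≤ 32 Y² U 8 k0 ≤ C m⁴ (k0 Y U V ≤ 2m), so 1 + log ≤ C m^{ε/2}; (Y U)^{ε/4} ≤ (2m)^{ε/4}.
-/

set_option autoImplicit false

namespace Pool.Agent.Work.MP_af11aa_nt.T

open Finset ComplexConjugate Pool.Agent.Work.MP_af11aa_nt.W

/-- the restriction `Q a b ≤ X` for `b` -/
private lemma offA_term {P k0 m1 m2 n Y Z : ℕ} {S : Finset ℕ} (hp : Par P k0 m1 m2 n Y Z S)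
    (H : ℤ → ℂ) (y s : ℝ) (X : ℕ) (σ : Bool) {Q Q' : ℕ} (hQ : Q ∈ S) (hQ' : Q' ∈ S)
    {a b : ℕ} (ha : 0 < a) (han : a.Coprime n) :
    FA (m2 * m1) k0 n H y s X σ Q a b * conj (FA (m2 * m1) k0 n H y s X σ Q' a b) =
      if b ≤ X / (Q * a) ∧ b ≤ X / (Q' * a) then
        (H ((Q * a * b : ℕ) : ℤ) * wgt (m2 * m1) k0 y s σ ((Q * a * b : ℕ) : ℝ)) *
          conj (H ((Q' * a * b : ℕ) : ℤ) * wgt (m2 * m1) k0 y s σ ((Q' * a * b : ℕ) : ℝ)) *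
            eInv (Q * Q' * a) (thA (m2 * m1) k0 σ Q Q' a) (b : ℤ)
      else 0 := by
  obtain ⟨hQp, _, _, hQn⟩ := hp.hS Q hQ
  obtain ⟨hQ'p, _, _, hQ'n⟩ := hp.hS Q' hQ'
  have hQa : 0 < Q * a := Nat.mul_pos hQp.pos ha
  have hQ'a : 0 < Q' * a := Nat.mul_pos hQ'p.pos ha
  have e1 : Q * a * b ≤ X ↔ b ≤ X / (Q * a) := by
    rw [Nat.le_div_iff_mul_le hQa, mul_comm b]
  have e2 : Q' * a * b ≤ X ↔ b ≤ X / (Q' * a) := by
    rw [Nat.le_div_iff_mul_le hQ'a, mul_comm b]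
  unfold FA
  by_cases hb : b ≤ X / (Q * a) ∧ b ≤ X / (Q' * a)
  · rw [if_pos hb]
    by_cases hc : (Q * a).Coprime b ∧ (Q' * a).Coprime b
    · rw [if_pos ⟨hc.1, Nat.Coprime.mul_left hQn han, e1.2 hb.1⟩,
        if_pos ⟨hc.2, Nat.Coprime.mul_left hQ'n han, e2.2 hb.2⟩, ← phaseA hp σ hQ hQ' ha han hc.1 hc.2]
      simp only [map_mul]
      ring
    · have h0 : eInv (Q * Q' * a) (thA (m2 * m1) k0 σ Q Q' a) (b : ℤ) = 0 := by
        unfold eInv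
        rw [if_neg]
        intro hco
        apply hc
        have h1 : b.Coprime (Q * Q' * a) := Nat.isCoprime_iff_coprime.1 hco
        constructor
        · exact (Nat.Coprime.coprime_dvd_right ⟨Q', by ring⟩ h1).symm
        · exact (Nat.Coprime.coprime_dvd_right ⟨Q, by ring⟩ h1).symm
      rw [h0, mul_zero]
      rcases not_and_or.1 hc with h | h
      · rw [if_neg (fun hh ↦ h hh.1), zero_mul]
      · rw [if_neg (c := (Q' * a).Coprime b ∧ (Q' * a).Coprime n ∧ Q' * a * b ≤ X)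
          (fun hh ↦ h hh.1), map_zero, mul_zero]
  · rw [if_neg hb]
    rcases not_and_or.1 hb with h | h
    · rw [if_neg (fun hh ↦ h (e1.1 hh.2.2)), zero_mul]
    · rw [if_neg (c := (Q' * a).Coprime b ∧ (Q' * a).Coprime n ∧ Q' * a * b ≤ X)
        (fun hh ↦ h (e2.1 hh.2.2)), map_zero, mul_zero]

private lemma offA_sum {P k0 m1 m2 n Y Z : ℕ} {S : Finset ℕ} (hp : Par P k0 m1 m2 n Y Z S)
    (H : ℤ → ℂ) (y s : ℝ) (X : ℕ) (σ : Bool) {Q Q' : ℕ} (hQ : Q ∈ S) (hQ' : Q' ∈ S)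
    {a V : ℕ} (ha : 0 < a) (hV : 0 < V) (han : a.Coprime n) :
    ∃ x1 : ℕ, x1 ≤ (V - 1) + V ∧
    ∑ b ∈ Ico V (2 * V), FA (m2 * m1) k0 n H y s X σ Q a b *
        conj (FA (m2 * m1) k0 n H y s X σ Q' a b) =
      ∑ b ∈ Ioc (V - 1) x1,
        (H ((Q * a * b : ℕ) : ℤ) * wgt (m2 * m1) k0 y s σ ((Q * a * b : ℕ) : ℝ)) *
          conj (H ((Q' * a * b : ℕ) : ℤ) * wgt (m2 * m1) k0 y s σ ((Q' * a * b : ℕ) : ℝ)) *
            eInv (Q * Q' * a) (thA (m2 * m1) k0 σ Q Q' a) (b : ℤ) := by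
  refine ⟨min (2 * V - 1) (min (X / (Q * a)) (X / (Q' * a))), ?_, ?_⟩
  · have := min_le_left (2 * V - 1) (min (X / (Q * a)) (X / (Q' * a)))
    omega
  · rw [Finset.sum_congr rfl (fun b _ ↦ offA_term hp H y s X σ hQ hQ' ha han),
      ← Finset.sum_filter]
    apply Finset.sum_congr _ (fun _ _ ↦ rfl)
    ext b
    simp only [mem_filter, mem_Ico, mem_Ioc, le_min_iff]
    omega

private lemma offA_log (δ : ℝ) (hδ : 0 < δ) {N m : ℕ} (hN : 0 < N) (h : N ≤ 512 * m ^ 2) :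
    1 + Real.log (N : ℝ) ≤ (1 + 1 / δ) * (512 : ℝ) ^ δ * (m : ℝ) ^ (2 * δ) := by
  have hN1 : (1 : ℝ) ≤ N := by exact_mod_cast hN
  have hm0 : (0 : ℝ) ≤ m := by positivity
  have h1 : Real.log (N : ℝ) ≤ (N : ℝ) ^ δ / δ := Real.log_le_rpow_div (by linarith) hδ
  have h2 : (1 : ℝ) ≤ (N : ℝ) ^ δ := Real.one_le_rpow hN1 hδ.le
  have h3 : (N : ℝ) ^ δ ≤ (512 : ℝ) ^ δ * (m : ℝ) ^ (2 * δ) := by
    calc (N : ℝ) ^ δ ≤ (512 * (m : ℝ) ^ 2) ^ δ := by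
          apply Real.rpow_le_rpow (by positivity) _ hδ.le
          exact_mod_cast h
      _ = _ := by
          rw [Real.mul_rpow (by norm_num) (by positivity), ← Real.rpow_natCast (m : ℝ) 2,
            ← Real.rpow_mul hm0]
          norm_num
  calc 1 + Real.log (N : ℝ) ≤ (N : ℝ) ^ δ + (N : ℝ) ^ δ / δ := by linarith
    _ = (1 + 1 / δ) * (N : ℝ) ^ δ := by ring
    _ ≤ (1 + 1 / δ) * ((512 : ℝ) ^ δ * (m : ℝ) ^ (2 * δ)) := by gcongr
    _ = _ := by ring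

theorem offA (ε : ℝ) (hε : 0 < ε) : ∃ C : ℝ, 0 < C ∧ ∀ {P k0 m1 m2 n Y Z : ℕ} {S : Finset ℕ}
    (_ : Par P k0 m1 m2 n Y Z S) {A : ℝ} {H : ℤ → ℂ} {β : ℤ → ℝ} (_ : Env P k0 A H β) {y : ℝ}
    (_ : y ∈ Set.Ico (1 / ((m2 * m1 : ℕ) : ℝ)) (2 / ((m2 * m1 : ℕ) : ℝ))) (s : ℝ) (X : ℕ)
    (σ : Bool) {U V : ℕ} (_ : 0 < U) (_ : 0 < V) (_ : 2 * (k0 * (Y * U * V)) ≤ 3 * (m2 * m1))
    (_ : Y * U ≤ Z * V) {Q Q' : ℕ} (_ : Q ∈ S) (_ : Q' ∈ S) (_ : Q ≠ Q'),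
    ∑ a ∈ Ico U (2 * U), ‖∑ b ∈ Ico V (2 * V), FA (m2 * m1) k0 n H y s X σ Q a b *
        conj (FA (m2 * m1) k0 n H y s X σ Q' a b)‖ ≤
      C * A * ((m2 * m1 : ℕ) : ℝ) ^ ε *
        (((m2 * m1 : ℕ) : ℝ) / ((P : ℝ) ^ 2 * (Y : ℝ) ^ 3 * (U * V))) := by
  obtain ⟨C1, hC1, h1⟩ := inner_short
  obtain ⟨C2, hC2, h2⟩ := inner_long
  obtain ⟨C3, hC3, h3⟩ := kb_sumA (ε / 4) (by linarith)
  obtain ⟨C4, hC4, h4⟩ := ram_sumA (ε / 4) (by linarith)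
  set c5 : ℝ := (1 + 1 / (ε / 4)) * (512 : ℝ) ^ (ε / 4) with hc5
  have hc50 : 0 < c5 := by positivity
  set c6 : ℝ := (2 : ℝ) ^ (ε / 4) with hc6
  have hc60 : 0 < c6 := by positivity
  refine ⟨C1 * c5 * C3 * c6 * 20 + C2 * (C4 + C3 * c5) * c6 * 21, by positivity, ?_⟩
  intro P k0 m1 m2 n Y Z S hp A H β he y hy s X σ U V hU hV hne hAB Q Q' hQ hQ' hQQ
  set m := m2 * m1 with hm
  obtain ⟨hQp, hQ1, hQ2, hQn⟩ := hp.hS Q hQ
  obtain ⟨hQ'p, hQ'1, hQ'2, hQ'n⟩ := hp.hS Q' hQ'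
  have hZ := hp.hZ
  have hY1 : 1 ≤ Y := by rw [hp.hY]; exact Nat.one_le_pow _ _ hZ
  have hPp := hp.hP
  have hk0p := hp.hk0
  have hm1 : 1 ≤ m := by
    have : 1 ≤ P ^ 3 * Y ^ 7 := Nat.one_le_iff_ne_zero.2 (by positivity)
    exact this.trans hp.hbig
  -- sizes
  have hW0 : 0 < Y * U * V := by positivity
  have hkW : k0 * (Y * U * V) ≤ 2 * m := by omega
  have hYm : Y ≤ m := by
    calc Y = 1 * Y := (one_mul Y).symm
      _ ≤ P ^ 3 * Y ^ 7 := Nat.mul_le_mul (Nat.one_le_pow _ _ hPp) (Nat.le_self_pow (by norm_num) Y)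
      _ ≤ m := hp.hbig
  have hkYU : k0 * (Y * U) ≤ 2 * m := by
    refine le_trans ?_ hkW
    exact Nat.mul_le_mul_left _ (Nat.le_mul_of_pos_right _ hV)
  have hYU : Y * U ≤ 2 * m := le_trans (Nat.le_mul_of_pos_left _ hk0p) hkYU
  -- reals
  have rA := he.hA
  have rP : (1 : ℝ) ≤ P := by exact_mod_cast hPp
  have rZ : (1 : ℝ) ≤ Z := by exact_mod_cast hZ
  have rY1 : (1 : ℝ) ≤ Y := by exact_mod_cast hY1
  have rY : (Y : ℝ) = (Z : ℝ) ^ 3 := by exact_mod_cast hp.hY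
  have rU : (1 : ℝ) ≤ U := by exact_mod_cast hU
  have rV : (1 : ℝ) ≤ V := by exact_mod_cast hV
  have r24 : 24 * (P : ℝ) ≤ k0 := by exact_mod_cast Nat.le_of_dvd hk0p hp.h24
  have rbig : (P : ℝ) ^ 3 * (Y : ℝ) ^ 7 ≤ (m : ℝ) := by exact_mod_cast hp.hbig
  have rne : 2 * ((k0 : ℝ) * (Y * U * V)) ≤ 3 * (m : ℝ) := by exact_mod_cast hne
  have rAB : (Y : ℝ) * U ≤ Z * V := by exact_mod_cast hAB
  have rm1 : (1 : ℝ) ≤ m := by exact_mod_cast hm1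
  have rm0 : (0 : ℝ) < m := by linarith
  have rk0 : (0 : ℝ) < k0 := by exact_mod_cast hk0p
  have rP0 : (0 : ℝ) < P := by linarith
  have rY0 : (0 : ℝ) < Y := by linarith
  have rU0 : (0 : ℝ) < U := by linarith
  have rV0 : (0 : ℝ) < V := by linarith
  have rc0 : (((Y * U * V : ℕ)) : ℝ) = (Y : ℝ) * U * V := by push_cast; ring
  -- the powers
  have hpow : (((Y * U : ℕ)) : ℝ) ^ (ε / 4) ≤ c6 * (m : ℝ) ^ (ε / 4) := by
    calc (((Y * U : ℕ)) : ℝ) ^ (ε / 4) ≤ (2 * (m : ℝ)) ^ (ε / 4) := by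
          apply Real.rpow_le_rpow (by positivity) _ (by linarith)
          exact_mod_cast hYU
      _ = c6 * (m : ℝ) ^ (ε / 4) := by rw [Real.mul_rpow (by norm_num) rm0.le]
  have hmm : (m : ℝ) ^ (ε / 4) * (m : ℝ) ^ (2 * (ε / 4)) ≤ (m : ℝ) ^ ε := by
    rw [← Real.rpow_add rm0]
    exact Real.rpow_le_rpow_of_exponent_le rm1 (by linarith)
  have hmm' : (m : ℝ) ^ (ε / 4) ≤ (m : ℝ) ^ ε :=
    Real.rpow_le_rpow_of_exponent_le rm1 (by linarith)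
  -- the filtered sum
  have hfil : ∑ a ∈ Ico U (2 * U), ‖∑ b ∈ Ico V (2 * V), FA m k0 n H y s X σ Q a b *
        conj (FA m k0 n H y s X σ Q' a b)‖ =
      ∑ a ∈ (Ico U (2 * U)).filter (fun a : ℕ ↦ a.Coprime n), ‖∑ b ∈ Ico V (2 * V),
        FA m k0 n H y s X σ Q a b * conj (FA m k0 n H y s X σ Q' a b)‖ := by
    rw [Finset.sum_filter]
    apply Finset.sum_congr rfl
    intro a _
    by_cases han : a.Coprime n
    · rw [if_pos han]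
    · rw [if_neg han, norm_eq_zero]
      apply Finset.sum_eq_zero
      intro b _
      have : FA m k0 n H y s X σ Q a b = 0 := by
        unfold FA
        rw [if_neg]
        rintro ⟨-, h, -⟩
        exact han (Nat.Coprime.coprime_mul_left h)
      rw [this, zero_mul]
  rw [hfil]
  -- facts on one a
  have hone : ∀ a ∈ (Ico U (2 * U)).filter (fun a : ℕ ↦ a.Coprime n),
      0 < a ∧ a.Coprime n ∧ U ≤ a ∧ 0 < Q * Q' * a ∧ (Q * Q' * a).Coprime (8 * k0) ∧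
      (Q * a).Coprime (8 * k0) ∧ (Q' * a).Coprime (8 * k0) ∧ Y ^ 2 * U ≤ Q * Q' * a ∧
      Y * U * V ≤ Q * a * (V - 1 + 1) ∧ Y * U * V ≤ Q' * a * (V - 1 + 1) ∧
      (1 + Real.log ((Q * Q' * a * (8 * k0) : ℕ) : ℝ) ≤ c5 * (m : ℝ) ^ (2 * (ε / 4))) := by
    intro a ha
    rw [mem_filter, mem_Ico] at ha
    obtain ⟨⟨ha1, ha2⟩, han⟩ := ha
    have ha0 : 0 < a := by omega
    have hM0 : 0 < Q * Q' * a := Nat.mul_pos (Nat.mul_pos hQp.pos hQ'p.pos) ha0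
    have hMn : (Q * Q' * a).Coprime n := Nat.Coprime.mul_left (Nat.Coprime.mul_left hQn hQ'n) han
    have hQan : (Q * a).Coprime n := Nat.Coprime.mul_left hQn han
    have hQ'an : (Q' * a).Coprime n := Nat.Coprime.mul_left hQ'n han
    have hV1 : V - 1 + 1 = V := by omega
    refine ⟨ha0, han, ha1, hM0, ((hp.hn _).1 hMn).1, ((hp.hn _).1 hQan).1, ((hp.hn _).1 hQ'an).1,
      ?_, ?_, ?_, ?_⟩
    · calc Y ^ 2 * U = Y * Y * U := by ring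
        _ ≤ Q * Q' * a := Nat.mul_le_mul (Nat.mul_le_mul hQ1.le hQ'1.le) ha1
    · rw [hV1]
      exact Nat.mul_le_mul_right _ (Nat.mul_le_mul hQ1.le ha1)
    · rw [hV1]
      exact Nat.mul_le_mul_right _ (Nat.mul_le_mul hQ'1.le ha1)
    · refine offA_log (ε / 4) (by linarith) (Nat.mul_pos hM0 (by omega)) ?_
      calc Q * Q' * a * (8 * k0) ≤ (4 * Y) * (4 * Y) * (2 * U) * (8 * k0) := by
            gcongr
        _ = 256 * Y * (k0 * (Y * U)) := by ring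
        _ ≤ 256 * m * (2 * m) := by gcongr
        _ = 512 * m ^ 2 := by ring
  have hkb := h3 hp σ hQ hQ' hQQ hU
  have hram := h4 hp σ hQ hQ' hQQ hU
  rw [← hm] at hkb hram
  have hkb' : ∑ a ∈ (Ico U (2 * U)).filter (fun a : ℕ ↦ a.Coprime n),
        KB (Q * Q' * a) (thA m k0 σ Q Q' a) ≤
      C3 * (c6 * (m : ℝ) ^ (ε / 4)) * (Y * U * Real.sqrt U) := hkb.trans (by gcongr)
  have hram' : ∑ a ∈ (Ico U (2 * U)).filter (fun a : ℕ ↦ a.Coprime n),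
        ‖∑ x ∈ range (Q * Q' * a), eInv (Q * Q' * a) (thA m k0 σ Q Q' a) (x : ℤ)‖ /
          ((Q * Q' * a : ℕ) : ℝ) ≤
      C4 * (c6 * (m : ℝ) ^ (ε / 4)) / (Y : ℝ) ^ 2 := hram.trans (by gcongr)
  set F := (Ico U (2 * U)).filter (fun a : ℕ ↦ a.Coprime n) with hF
  have hfinal0 : 0 ≤ A * (m : ℝ) ^ ε * ((m : ℝ) / ((P : ℝ) ^ 2 * (Y : ℝ) ^ 3 * (U * V))) := by
    positivity
  rcases le_total V (Y ^ 2 * U * (8 * k0)) with hcase | hcase
  · -- the short range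
    have hnum := numA_short rP rZ rY rU rV r24 rbig rne rAB
    have hterm : ∀ a ∈ F, ‖∑ b ∈ Ico V (2 * V), FA m k0 n H y s X σ Q a b *
        conj (FA m k0 n H y s X σ Q' a b)‖ ≤
        (C1 * A * (Real.sqrt (8 * k0) / (P * (Y * U * V))) * (c5 * (m : ℝ) ^ (2 * (ε / 4))) *
          (Real.sqrt (1 + m / (k0 * (Y * U * V))) + Real.sqrt ((V : ℝ) / (Y ^ 2 * U)))) *
          KB (Q * Q' * a) (thA m k0 σ Q Q' a) := by
      intro a ha
      obtain ⟨ha0, han, haU, hM0, hMk, hQak, hQ'ak, hMge, hc1, hc2, hlog⟩ := hone a ha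
      obtain ⟨x1, hx1, hsum⟩ := offA_sum hp H y s X σ hQ hQ' ha0 hV han
      rw [← hm] at hsum
      rw [hsum]
      have hkey := h1 he hm1 hy s σ hM0 hMk (thA m k0 σ Q Q' a) (x0 := V - 1) (x1 := x1) (L := V)
        (c0 := Y * U * V) hQak hQ'ak hV (by omega) hx1 hW0 hc1 hc2
        (hcase.trans (Nat.mul_le_mul_right _ hMge))
      rw [rc0] at hkey
      refine hkey.trans ?_
      have hVM : Real.sqrt ((V : ℝ) / ((Q * Q' * a : ℕ) : ℝ)) ≤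
          Real.sqrt ((V : ℝ) / (Y ^ 2 * U)) := by
        apply Real.sqrt_le_sqrt
        apply div_le_div_of_nonneg_left rV0.le (by positivity)
        exact_mod_cast hMge
      have hKB := KB_nonneg (Q * Q' * a) (thA m k0 σ Q Q' a)
      calc _ ≤ C1 * A * (Real.sqrt (8 * k0) / (P * (Y * U * V))) *
            (c5 * (m : ℝ) ^ (2 * (ε / 4))) * KB (Q * Q' * a) (thA m k0 σ Q Q' a) *
            (Real.sqrt (1 + m / (k0 * (Y * U * V))) + Real.sqrt ((V : ℝ) / (Y ^ 2 * U))) := by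
            gcongr
        _ = _ := by ring
    calc _ ≤ ∑ a ∈ F, (C1 * A * (Real.sqrt (8 * k0) / (P * (Y * U * V))) *
            (c5 * (m : ℝ) ^ (2 * (ε / 4))) *
          (Real.sqrt (1 + m / (k0 * (Y * U * V))) + Real.sqrt ((V : ℝ) / (Y ^ 2 * U)))) *
          KB (Q * Q' * a) (thA m k0 σ Q Q' a) := Finset.sum_le_sum hterm
      _ ≤ (C1 * A * (Real.sqrt (8 * k0) / (P * (Y * U * V))) *
            (c5 * (m : ℝ) ^ (2 * (ε / 4))) *
          (Real.sqrt (1 + m / (k0 * (Y * U * V))) + Real.sqrt ((V : ℝ) / (Y ^ 2 * U)))) *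
          (C3 * (c6 * (m : ℝ) ^ (ε / 4)) * (Y * U * Real.sqrt U)) := by
          rw [← Finset.mul_sum]
          gcongr
      _ = C1 * c5 * C3 * c6 * A * ((m : ℝ) ^ (ε / 4) * (m : ℝ) ^ (2 * (ε / 4))) *
          (Real.sqrt (8 * k0) / (P * (Y * U * V)) * (Y * U * Real.sqrt U) *
          (Real.sqrt (1 + m / (k0 * (Y * U * V))) + Real.sqrt ((V : ℝ) / (Y ^ 2 * U)))) := by ring
      _ ≤ C1 * c5 * C3 * c6 * A * (m : ℝ) ^ ε *
          (20 * ((m : ℝ) / ((P : ℝ) ^ 2 * (Y : ℝ) ^ 3 * (U * V)))) := by gcongr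
      _ = (C1 * c5 * C3 * c6 * 20) *
          (A * (m : ℝ) ^ ε * ((m : ℝ) / ((P : ℝ) ^ 2 * (Y : ℝ) ^ 3 * (U * V)))) := by ring
      _ ≤ (C1 * c5 * C3 * c6 * 20 + C2 * (C4 + C3 * c5) * c6 * 21) *
          (A * (m : ℝ) ^ ε * ((m : ℝ) / ((P : ℝ) ^ 2 * (Y : ℝ) ^ 3 * (U * V)))) := by
          apply mul_le_mul_of_nonneg_right _ hfinal0
          have : 0 ≤ C2 * (C4 + C3 * c5) * c6 * 21 := by positivity
          linarith
      _ = _ := by ring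
  · -- the long range
    have rlong : (Y : ℝ) ^ 2 * U * (8 * k0) ≤ V := by exact_mod_cast hcase
    have hnum := numA_long rP rZ rY rU rV r24 rbig rne rlong
    have hterm : ∀ a ∈ F, ‖∑ b ∈ Ico V (2 * V), FA m k0 n H y s X σ Q a b *
        conj (FA m k0 n H y s X σ Q' a b)‖ ≤
        C2 * A / (P * (Y * U * V)) *
          (V * (‖∑ x ∈ range (Q * Q' * a), eInv (Q * Q' * a) (thA m k0 σ Q Q' a) (x : ℤ)‖ /
            ((Q * Q' * a : ℕ) : ℝ)) +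
          (1 + m / (k0 * (Y * U * V))) * (8 * k0) * (c5 * (m : ℝ) ^ (2 * (ε / 4))) *
            KB (Q * Q' * a) (thA m k0 σ Q Q' a)) := by
      intro a ha
      obtain ⟨ha0, han, haU, hM0, hMk, hQak, hQ'ak, hMge, hc1, hc2, hlog⟩ := hone a ha
      obtain ⟨x1, hx1, hsum⟩ := offA_sum hp H y s X σ hQ hQ' ha0 hV han
      rw [← hm] at hsum
      rw [hsum]
      have hkey := h2 he hm1 hy s σ hM0 hMk (thA m k0 σ Q Q' a) (x0 := V - 1) (x1 := x1) (L := V)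
        (c0 := Y * U * V) hQak hQ'ak hV (by omega) hx1 hW0 hc1 hc2
      rw [rc0] at hkey
      refine hkey.trans ?_
      have hKB := KB_nonneg (Q * Q' * a) (thA m k0 σ Q Q' a)
      calc _ ≤ C2 * A / (P * (Y * U * V)) *
          (V * (‖∑ x ∈ range (Q * Q' * a), eInv (Q * Q' * a) (thA m k0 σ Q Q' a) (x : ℤ)‖ /
            ((Q * Q' * a : ℕ) : ℝ)) +
          (1 + m / (k0 * (Y * U * V))) * KB (Q * Q' * a) (thA m k0 σ Q Q' a) * (8 * k0) *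
            (c5 * (m : ℝ) ^ (2 * (ε / 4)))) := by gcongr
        _ = _ := by ring
    have hmm1 : (1 : ℝ) ≤ (m : ℝ) ^ (2 * (ε / 4)) := Real.one_le_rpow rm1 (by linarith)
    calc _ ≤ ∑ a ∈ F, C2 * A / (P * (Y * U * V)) *
          (V * (‖∑ x ∈ range (Q * Q' * a), eInv (Q * Q' * a) (thA m k0 σ Q Q' a) (x : ℤ)‖ /
            ((Q * Q' * a : ℕ) : ℝ)) +
          (1 + m / (k0 * (Y * U * V))) * (8 * k0) * (c5 * (m : ℝ) ^ (2 * (ε / 4))) *
            KB (Q * Q' * a) (thA m k0 σ Q Q' a)) := Finset.sum_le_sum hterm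
      _ = C2 * A / (P * (Y * U * V)) *
          (V * (∑ a ∈ F, ‖∑ x ∈ range (Q * Q' * a),
            eInv (Q * Q' * a) (thA m k0 σ Q Q' a) (x : ℤ)‖ / ((Q * Q' * a : ℕ) : ℝ)) +
          (1 + m / (k0 * (Y * U * V))) * (8 * k0) * (c5 * (m : ℝ) ^ (2 * (ε / 4))) *
            ∑ a ∈ F, KB (Q * Q' * a) (thA m k0 σ Q Q' a)) := by
          rw [← Finset.mul_sum, Finset.sum_add_distrib, ← Finset.mul_sum, ← Finset.mul_sum]
      _ ≤ C2 * A / (P * (Y * U * V)) *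
          (V * (C4 * (c6 * (m : ℝ) ^ (ε / 4)) / (Y : ℝ) ^ 2) +
          (1 + m / (k0 * (Y * U * V))) * (8 * k0) * (c5 * (m : ℝ) ^ (2 * (ε / 4))) *
            (C3 * (c6 * (m : ℝ) ^ (ε / 4)) * (Y * U * Real.sqrt U))) := by gcongr
      _ = C2 * A * c6 * (m : ℝ) ^ (ε / 4) * (1 / (P * (Y * U * V)) *
          (C4 * (V / Y ^ 2) + C3 * c5 * (m : ℝ) ^ (2 * (ε / 4)) *
            ((1 + m / (k0 * (Y * U * V))) * (Y * U * Real.sqrt U) * (8 * k0)))) := by ring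
      _ ≤ C2 * A * c6 * (m : ℝ) ^ (ε / 4) * (1 / (P * (Y * U * V)) *
          ((C4 + C3 * c5) * (m : ℝ) ^ (2 * (ε / 4)) * (V / Y ^ 2) +
            (C4 + C3 * c5) * (m : ℝ) ^ (2 * (ε / 4)) *
            ((1 + m / (k0 * (Y * U * V))) * (Y * U * Real.sqrt U) * (8 * k0)))) := by
          have e1 : C4 ≤ (C4 + C3 * c5) * (m : ℝ) ^ (2 * (ε / 4)) := by
            have e2 : 0 ≤ C3 * c5 := by positivity
            nlinarith
          have e3 : C3 * c5 ≤ C4 + C3 * c5 := by linarith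
          gcongr
      _ = C2 * A * (C4 + C3 * c5) * c6 * ((m : ℝ) ^ (ε / 4) * (m : ℝ) ^ (2 * (ε / 4))) *
          (1 / (P * (Y * U * V)) * (V / Y ^ 2 +
            (1 + m / (k0 * (Y * U * V))) * (Y * U * Real.sqrt U) * (8 * k0))) := by ring
      _ ≤ C2 * A * (C4 + C3 * c5) * c6 * (m : ℝ) ^ ε *
          (21 * ((m : ℝ) / ((P : ℝ) ^ 2 * (Y : ℝ) ^ 3 * (U * V)))) := by gcongr
      _ = (C2 * (C4 + C3 * c5) * c6 * 21) *
          (A * (m : ℝ) ^ ε * ((m : ℝ) / ((P : ℝ) ^ 2 * (Y : ℝ) ^ 3 * (U * V)))) := by ring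
      _ ≤ (C1 * c5 * C3 * c6 * 20 + C2 * (C4 + C3 * c5) * c6 * 21) *
          (A * (m : ℝ) ^ ε * ((m : ℝ) / ((P : ℝ) ^ 2 * (Y : ℝ) ^ 3 * (U * V)))) := by
          apply mul_le_mul_of_nonneg_right _ hfinal0
          have : 0 ≤ C1 * c5 * C3 * c6 * 20 := by positivity
          linarith
      _ = _ := by ring

end Pool.Agent.Work.MP_af11aa_nt.T
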