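import Mathlib
import Pool.Agent.Work.MP_af11aa_nt.T.Defs
import Pool.Agent.Work.MP_af11aa_nt.W.KCrt

/-!
MODULE PhaseB (the phases when the modulus is b).
(phaseB) k0, Q, Q', a are prime to b: ivz b (k0 Q a) ≡ ivz b (k0 Q) * ivz b a mod b, so eI b (4m) (k0 Q a) = ec b (4 m ivz b (k0 Q) ivz b a), and
the same for Q'; multiply by the conjugate. (phaseC) the same for one factor.
(gcd_thB) multiply by the unit k0 Q Q' of b: k0 Q Q' (ivz b (k0 Q) - ivz b (k0 Q')) ≡ Q' - Q mod b; 4 m is a unit mod b (Par.hn; n is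
even). (gcd_thC) all factors are units mod b.
-/

set_option autoImplicit false

namespace Pool.Agent.Work.MP_af11aa_nt.T

open Finset ComplexConjugate Pool.Agent.Work.MP_af11aa_nt.W

private lemma phaseB_conj_eI (c : ℕ) (z x : ℤ) : conj (eI c z x) = eI c (-z) x := by
  have := cj_eI false c z x
  unfold cj sg at this
  simpa using this

private lemma phaseB_ivz_mul {M : ℕ} (hM : M ≠ 0) {x y : ℤ} (hx : IsCoprime x (M : ℤ))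
    (hy : IsCoprime y (M : ℤ)) : (M : ℤ) ∣ ivz M x * ivz M y - ivz M (x * y) := by
  have h1 := kcrt_ivz hM hx
  have h2 := kcrt_ivz hM hy
  have h3 := kcrt_ivz hM (hx.mul_left hy)
  refine kcrt_inv_unique h3 ?_
  have : ivz M x * ivz M y * (x * y) - 1 =
      (ivz M x * x - 1) * (ivz M y * y) + (ivz M y * y - 1) := by ring
  rw [this]
  exact dvd_add (Dvd.dvd.mul_right h1 _) h2

private lemma phaseB_cop {P k0 m1 m2 n Y Z : ℕ} {S : Finset ℕ} (hp : Par P k0 m1 m2 n Y Z S)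
    {x : ℕ} (hx : x.Coprime n) : x.Coprime k0 ∧ x.Coprime (m2 * m1) ∧ x.Coprime 4 := by
  obtain ⟨h1, h2⟩ := (hp.hn x).1 hx
  refine ⟨Nat.Coprime.coprime_mul_left_right h1, h2, ?_⟩
  have h3 : x.Coprime 8 := Nat.Coprime.coprime_mul_right_right h1
  exact Nat.Coprime.coprime_dvd_right (by norm_num) h3

private lemma phaseB_gcd_congr {c : ℕ} {x y : ℤ} (h : (c : ℤ) ∣ y - x) :
    Int.gcd x c = Int.gcd y c := by
  have h' : x ≡ y [ZMOD c] := (Int.modEq_iff_dvd).2 h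
  rw [← Int.gcd_emod, ← Int.gcd_emod y]
  unfold Int.ModEq at h'
  rw [h']

private lemma phaseB_gcd_unit {c : ℕ} {u x : ℤ} (h : IsCoprime u (c : ℤ)) :
    Int.gcd (u * x) c = Int.gcd x c := by
  have h3 : u.natAbs.Coprime c := Int.isCoprime_iff_gcd_eq_one.1 h
  show Nat.gcd (u * x).natAbs ((c : ℤ)).natAbs = Nat.gcd x.natAbs ((c : ℤ)).natAbs
  rw [Int.natAbs_mul, Int.natAbs_natCast, Nat.Coprime.gcd_mul_left_cancel _ h3]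

private lemma phaseB_ivz_unit {c : ℕ} (hc : c ≠ 0) {x : ℤ} (h : IsCoprime x (c : ℤ)) :
    IsCoprime (ivz c x) (c : ℤ) := by
  obtain ⟨t, ht⟩ := kcrt_ivz hc h
  exact ⟨x, -t, by linarith⟩

private lemma phaseB_sg (σ : Bool) (c : ℤ) : IsCoprime (sg σ) c := by
  unfold sg
  cases σ
  · simpa using (isCoprime_one_left (x := c)).neg_left
  · simpa using (isCoprime_one_left (x := c))

theorem phaseB {P k0 m1 m2 n Y Z : ℕ} {S : Finset ℕ} (hp : Par P k0 m1 m2 n Y Z S)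
    (σ : Bool) {Q Q' : ℕ} (hQ : Q ∈ S) (hQ' : Q' ∈ S) {a b : ℕ} (hb : 0 < b)
    (hbn : b.Coprime n) (h1 : (Q * a).Coprime b) (h2 : (Q' * a).Coprime b) :
    cj σ (eI b (4 * ((m2 * m1 : ℕ) : ℤ)) ((k0 : ℤ) * ((Q * a : ℕ) : ℤ))) *
        conj (cj σ (eI b (4 * ((m2 * m1 : ℕ) : ℤ)) ((k0 : ℤ) * ((Q' * a : ℕ) : ℤ)))) =
      eInv b (thB (m2 * m1) k0 σ Q Q' b) (a : ℤ) := by
  obtain ⟨hbk, hbm, hb4⟩ := phaseB_cop hp hbn
  have hk : IsCoprime (k0 : ℤ) (b : ℤ) := Nat.isCoprime_iff_coprime.2 hbk.symm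
  have hQb : IsCoprime (Q : ℤ) (b : ℤ) :=
    Nat.isCoprime_iff_coprime.2 (Nat.Coprime.coprime_mul_right h1)
  have hQ'b : IsCoprime (Q' : ℤ) (b : ℤ) :=
    Nat.isCoprime_iff_coprime.2 (Nat.Coprime.coprime_mul_right h2)
  have hab : IsCoprime (a : ℤ) (b : ℤ) :=
    Nat.isCoprime_iff_coprime.2 (Nat.Coprime.coprime_mul_left h1)
  rw [cj_eI, cj_eI, phaseB_conj_eI]
  unfold eInv
  rw [if_pos hab]
  unfold eI
  rw [← kcrt_ec_add]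
  apply kcrt_ec_congr hb.ne'
  have d1 := phaseB_ivz_mul hb.ne' (hk.mul_left hQb) hab
  have d2 := phaseB_ivz_mul hb.ne' (hk.mul_left hQ'b) hab
  have e1 : (k0 : ℤ) * Q * a = (k0 : ℤ) * ((Q * a : ℕ) : ℤ) := by push_cast; ring
  have e2 : (k0 : ℤ) * Q' * a = (k0 : ℤ) * ((Q' * a : ℕ) : ℤ) := by push_cast; ring
  rw [e1] at d1
  rw [e2] at d2
  unfold thB
  have : sg σ * (4 * ((m2 * m1 : ℕ) : ℤ) * (ivz b ((k0 : ℤ) * Q) - ivz b ((k0 : ℤ) * Q'))) *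
        ivz b a -
      (sg σ * (4 * ((m2 * m1 : ℕ) : ℤ)) * ivz b ((k0 : ℤ) * ((Q * a : ℕ) : ℤ)) +
        -(sg σ * (4 * ((m2 * m1 : ℕ) : ℤ))) * ivz b ((k0 : ℤ) * ((Q' * a : ℕ) : ℤ))) =
      (sg σ * (4 * ((m2 * m1 : ℕ) : ℤ))) *
        ((ivz b ((k0 : ℤ) * Q) * ivz b a - ivz b ((k0 : ℤ) * ((Q * a : ℕ) : ℤ))) -
        (ivz b ((k0 : ℤ) * Q') * ivz b a - ivz b ((k0 : ℤ) * ((Q' * a : ℕ) : ℤ)))) := by ring
  rw [this]
  exact Dvd.dvd.mul_left (dvd_sub d1 d2) _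

theorem phaseC {P k0 m1 m2 n Y Z : ℕ} {S : Finset ℕ} (hp : Par P k0 m1 m2 n Y Z S)
    (σ : Bool) {Q : ℕ} (hQ : Q ∈ S) {a b : ℕ} (hb : 0 < b)
    (hbn : b.Coprime n) (h1 : (Q * a).Coprime b) :
    cj σ (eI b (4 * ((m2 * m1 : ℕ) : ℤ)) ((k0 : ℤ) * ((Q * a : ℕ) : ℤ))) =
      eInv b (thC (m2 * m1) k0 σ Q b) (a : ℤ) := by
  obtain ⟨hbk, hbm, hb4⟩ := phaseB_cop hp hbn
  have hk : IsCoprime (k0 : ℤ) (b : ℤ) := Nat.isCoprime_iff_coprime.2 hbk.symm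
  have hQb : IsCoprime (Q : ℤ) (b : ℤ) :=
    Nat.isCoprime_iff_coprime.2 (Nat.Coprime.coprime_mul_right h1)
  have hab : IsCoprime (a : ℤ) (b : ℤ) :=
    Nat.isCoprime_iff_coprime.2 (Nat.Coprime.coprime_mul_left h1)
  rw [cj_eI]
  unfold eInv
  rw [if_pos hab]
  unfold eI
  apply kcrt_ec_congr hb.ne'
  have d1 := phaseB_ivz_mul hb.ne' (hk.mul_left hQb) hab
  have e1 : (k0 : ℤ) * Q * a = (k0 : ℤ) * ((Q * a : ℕ) : ℤ) := by push_cast; ring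
  rw [e1] at d1
  unfold thC
  have : sg σ * (4 * ((m2 * m1 : ℕ) : ℤ) * ivz b ((k0 : ℤ) * Q)) * ivz b a -
      sg σ * (4 * ((m2 * m1 : ℕ) : ℤ)) * ivz b ((k0 : ℤ) * ((Q * a : ℕ) : ℤ)) =
      (sg σ * (4 * ((m2 * m1 : ℕ) : ℤ))) *
        (ivz b ((k0 : ℤ) * Q) * ivz b a - ivz b ((k0 : ℤ) * ((Q * a : ℕ) : ℤ))) := by ring
  rw [this]
  exact Dvd.dvd.mul_left d1 _

theorem gcd_thB {P k0 m1 m2 n Y Z : ℕ} {S : Finset ℕ} (hp : Par P k0 m1 m2 n Y Z S)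
    (σ : Bool) {Q Q' : ℕ} (hQ : Q ∈ S) (hQ' : Q' ∈ S) {b : ℕ} (hb : 0 < b)
    (hbn : b.Coprime n) (h1 : Q.Coprime b) (h2 : Q'.Coprime b) :
    Int.gcd (thB (m2 * m1) k0 σ Q Q' b) (b : ℤ) = Nat.gcd (((Q' : ℤ) - Q).natAbs) b := by
  obtain ⟨hbk, hbm, hb4⟩ := phaseB_cop hp hbn
  have hk : IsCoprime (k0 : ℤ) (b : ℤ) := Nat.isCoprime_iff_coprime.2 hbk.symm
  have hm : IsCoprime ((m2 * m1 : ℕ) : ℤ) (b : ℤ) := Nat.isCoprime_iff_coprime.2 hbm.symm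
  have h4 : IsCoprime (4 : ℤ) (b : ℤ) := by
    have := Nat.isCoprime_iff_coprime.2 hb4.symm
    exact_mod_cast this
  have hQb : IsCoprime (Q : ℤ) (b : ℤ) := Nat.isCoprime_iff_coprime.2 h1
  have hQ'b : IsCoprime (Q' : ℤ) (b : ℤ) := Nat.isCoprime_iff_coprime.2 h2
  have e0 : thB (m2 * m1) k0 σ Q Q' b = (sg σ * (4 * ((m2 * m1 : ℕ) : ℤ))) *
      (ivz b ((k0 : ℤ) * Q) - ivz b ((k0 : ℤ) * Q')) := by unfold thB; ring
  rw [e0, phaseB_gcd_unit ((phaseB_sg σ _).mul_left (h4.mul_left hm))]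
  rw [← phaseB_gcd_unit (u := (k0 : ℤ) * Q * Q') ((hk.mul_left hQb).mul_left hQ'b)]
  have d1 := kcrt_ivz hb.ne' (hk.mul_left hQb)
  have d2 := kcrt_ivz hb.ne' (hk.mul_left hQ'b)
  have e1 : Int.gcd ((k0 : ℤ) * Q * Q' * (ivz b ((k0 : ℤ) * Q) - ivz b ((k0 : ℤ) * Q'))) b =
      Int.gcd ((Q' : ℤ) - Q) b := by
    apply phaseB_gcd_congr
    have : (Q' : ℤ) - Q - (k0 : ℤ) * Q * Q' * (ivz b ((k0 : ℤ) * Q) - ivz b ((k0 : ℤ) * Q')) =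
        (ivz b ((k0 : ℤ) * Q') * ((k0 : ℤ) * Q') - 1) * Q -
          (ivz b ((k0 : ℤ) * Q) * ((k0 : ℤ) * Q) - 1) * Q' := by ring
    rw [this]
    exact dvd_sub (Dvd.dvd.mul_right d2 _) (Dvd.dvd.mul_right d1 _)
  rw [e1]
  rfl

theorem gcd_thC {P k0 m1 m2 n Y Z : ℕ} {S : Finset ℕ} (hp : Par P k0 m1 m2 n Y Z S)
    (σ : Bool) {Q : ℕ} (hQ : Q ∈ S) {b : ℕ} (hb : 0 < b)
    (hbn : b.Coprime n) (h1 : Q.Coprime b) :
    Int.gcd (thC (m2 * m1) k0 σ Q b) (b : ℤ) = 1 := by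
  obtain ⟨hbk, hbm, hb4⟩ := phaseB_cop hp hbn
  have hk : IsCoprime (k0 : ℤ) (b : ℤ) := Nat.isCoprime_iff_coprime.2 hbk.symm
  have hm : IsCoprime ((m2 * m1 : ℕ) : ℤ) (b : ℤ) := Nat.isCoprime_iff_coprime.2 hbm.symm
  have h4 : IsCoprime (4 : ℤ) (b : ℤ) := by
    have := Nat.isCoprime_iff_coprime.2 hb4.symm
    exact_mod_cast this
  have hQb : IsCoprime (Q : ℤ) (b : ℤ) := Nat.isCoprime_iff_coprime.2 h1
  rw [← Int.isCoprime_iff_gcd_eq_one]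
  unfold thC
  exact (phaseB_sg σ _).mul_left ((h4.mul_left hm).mul_left
    (phaseB_ivz_unit hb.ne' (hk.mul_left hQb)))

end Pool.Agent.Work.MP_af11aa_nt.T
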