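import Mathlib
import Pool.Agent.Work.MP_af11aa_nt.T.PhaseB
import Pool.Agent.Work.MP_af11aa_nt.T.AvgK
import Pool.Agent.Work.MP_af11aa_nt.T.Ram

/-!
MODULE KbB (sums of the Kloosterman bounds over the moduli b). d = |Q'-Q|, 0 < d ≤ 4Y.
KB b θ = 2 τ(b) √b √gcd(d,b) sfp(b)^{1/4} (PhaseB.gcd_thB), τ(b) ≤ C b^{ε/4} (MP_f2148a_nt.exists_card_divisors_le), √b ≤ 2 √V, AvgK.avg_kb with
A = 2V. (ram_sumB) Ram.ram_bound and AvgK.avg_gcd. (kb_sumC) gcd = 1: AvgK.avg_kb with d = 1.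
-/

set_option autoImplicit false

namespace Pool.Agent.Work.MP_af11aa_nt.T

open Finset ComplexConjugate Pool.Agent.Work.MP_af11aa_nt.W

private lemma kbB_pow {x W c δ : ℝ} (hx : 0 ≤ x) (hc : 0 ≤ c) (hW : 0 ≤ W) (h : x ≤ c * W)
    (hδ : 0 ≤ δ) : x ^ δ ≤ c ^ δ * W ^ δ := by
  rw [← Real.mul_rpow hc hW]
  exact Real.rpow_le_rpow hx h hδ

private lemma kbB_gen (ε : ℝ) (hε : 0 < ε) : ∃ C : ℝ, 0 < C ∧ ∀ (V D : ℕ) (_ : 0 < V)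
    (_ : 0 < D) (s : Finset ℕ) (_ : ∀ b ∈ s, b ∈ Ico V (2 * V)) (F : ℕ → ℝ) (d : ℕ)
    (_ : 0 < d) (_ : d ≤ 4 * D)
    (_ : ∀ b ∈ s, F b ≤ 2 * b.divisors.card * Real.sqrt b * Real.sqrt (Nat.gcd d b) *
      (sfp b : ℝ) ^ (1 / 4 : ℝ)),
    ∑ b ∈ s, F b ≤ C * ((D * V : ℕ) : ℝ) ^ ε * (V * Real.sqrt V) := by
  obtain ⟨C1, hC1, h1⟩ := Pool.Agent.Work.MP_f2148a_nt.exists_card_divisors_le (ε / 2) (by linarith)
  obtain ⟨C2, hC2, h2⟩ := avg_kb (ε / 2) (by linarith)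
  refine ⟨8 * C1 * C2 * ((8 : ℝ) ^ (ε / 2) * (8 : ℝ) ^ (ε / 2)), by positivity, ?_⟩
  intro V D hV hD s hs F d hd hdD hF
  have hVr : (1 : ℝ) ≤ V := by exact_mod_cast hV
  have hDr : (1 : ℝ) ≤ D := by exact_mod_cast hD
  have hdr : (d : ℝ) ≤ 4 * D := by exact_mod_cast hdD
  have hd0 : (0 : ℝ) ≤ d := by positivity
  set W : ℝ := ((D * V : ℕ) : ℝ) with hWdef
  have hWe : W = (D : ℝ) * V := by rw [hWdef]; push_cast; ring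
  have hW : 1 ≤ W := by rw [hWe]; nlinarith
  have hterm : ∀ b ∈ s, F b ≤ (2 * (C1 * ((8 : ℝ) ^ (ε / 2) * W ^ (ε / 2))) * (2 * Real.sqrt V)) *
      (Real.sqrt (Nat.gcd d b) * (sfp b : ℝ) ^ (1 / 4 : ℝ)) := by
    intro b hb
    have hb' := hs b hb
    rw [mem_Ico] at hb'
    have hb1 : 1 ≤ b := by omega
    have hbr : (b : ℝ) ≤ 2 * V := by
      have : b ≤ 2 * V := by omega
      exact_mod_cast this
    have hb0 : (0 : ℝ) ≤ b := by positivity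
    have e1 : (b.divisors.card : ℝ) ≤ C1 * ((8 : ℝ) ^ (ε / 2) * W ^ (ε / 2)) := by
      refine (h1 b hb1).trans ?_
      gcongr
      apply kbB_pow hb0 (by norm_num) (by linarith) _ (by linarith)
      rw [hWe]; nlinarith
    have e2 : Real.sqrt b ≤ 2 * Real.sqrt V := by
      apply Real.sqrt_le_iff.2
      refine ⟨by positivity, ?_⟩
      rw [mul_pow, Real.sq_sqrt (by linarith)]
      linarith
    calc F b ≤ 2 * b.divisors.card * Real.sqrt b * Real.sqrt (Nat.gcd d b) *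
      (sfp b : ℝ) ^ (1 / 4 : ℝ) := hF b hb
      _ = (2 * b.divisors.card * Real.sqrt b) * (Real.sqrt (Nat.gcd d b) *
      (sfp b : ℝ) ^ (1 / 4 : ℝ)) := by ring
      _ ≤ _ := by
        gcongr
  have hsub : s ⊆ Icc 1 (2 * V) := by
    intro b hb
    have hb' := hs b hb
    rw [mem_Ico] at hb'
    rw [mem_Icc]
    omega
  have hav := h2 (2 * V) d (by omega) hd
  have hav2 : ∑ b ∈ s, Real.sqrt (Nat.gcd d b) * (sfp b : ℝ) ^ (1 / 4 : ℝ) ≤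
      C2 * ((8 : ℝ) ^ (ε / 2) * W ^ (ε / 2)) * (2 * V) := by
    refine (Finset.sum_le_sum_of_subset_of_nonneg hsub fun b _ _ ↦ by positivity).trans ?_
    refine hav.trans ?_
    have e3 : ((d : ℝ) * ((2 * V : ℕ) : ℝ)) ^ (ε / 2) ≤ (8 : ℝ) ^ (ε / 2) * W ^ (ε / 2) := by
      apply kbB_pow (by positivity) (by norm_num) (by linarith) _ (by linarith)
      rw [hWe]; push_cast; nlinarith
    have e4 : ((2 * V : ℕ) : ℝ) = 2 * V := by push_cast; ring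
    calc C2 * ((d : ℝ) * ((2 * V : ℕ) : ℝ)) ^ (ε / 2) * ((2 * V : ℕ) : ℝ)
        ≤ C2 * ((8 : ℝ) ^ (ε / 2) * W ^ (ε / 2)) * ((2 * V : ℕ) : ℝ) := by gcongr
      _ = _ := by rw [e4]
  calc ∑ b ∈ s, F b ≤ ∑ b ∈ s, (2 * (C1 * ((8 : ℝ) ^ (ε / 2) * W ^ (ε / 2))) *
        (2 * Real.sqrt V)) * (Real.sqrt (Nat.gcd d b) * (sfp b : ℝ) ^ (1 / 4 : ℝ)) :=
        Finset.sum_le_sum hterm
    _ = (2 * (C1 * ((8 : ℝ) ^ (ε / 2) * W ^ (ε / 2))) * (2 * Real.sqrt V)) *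
        ∑ b ∈ s, (Real.sqrt (Nat.gcd d b) * (sfp b : ℝ) ^ (1 / 4 : ℝ)) := by
        rw [Finset.mul_sum]
    _ ≤ (2 * (C1 * ((8 : ℝ) ^ (ε / 2) * W ^ (ε / 2))) * (2 * Real.sqrt V)) *
        (C2 * ((8 : ℝ) ^ (ε / 2) * W ^ (ε / 2)) * (2 * V)) := by
        gcongr
    _ = 8 * C1 * C2 * ((8 : ℝ) ^ (ε / 2) * (8 : ℝ) ^ (ε / 2)) * (W ^ (ε / 2) * W ^ (ε / 2)) *
        (V * Real.sqrt V) := by ring
    _ = 8 * C1 * C2 * ((8 : ℝ) ^ (ε / 2) * (8 : ℝ) ^ (ε / 2)) * W ^ ε * (V * Real.sqrt V) := by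
        rw [← Real.rpow_add (by linarith : (0 : ℝ) < W)]
        congr 3
        ring

private lemma kbB_d {P k0 m1 m2 n Y Z : ℕ} {S : Finset ℕ} (hp : Par P k0 m1 m2 n Y Z S)
    {Q Q' : ℕ} (hQ : Q ∈ S) (hQ' : Q' ∈ S) (hne : Q ≠ Q') :
    0 < ((Q' : ℤ) - Q).natAbs ∧ ((Q' : ℤ) - Q).natAbs ≤ 4 * Y := by
  obtain ⟨_, h1, h2, _⟩ := hp.hS Q hQ
  obtain ⟨_, h3, h4, _⟩ := hp.hS Q' hQ'
  omega

private lemma kbB_Y {P k0 m1 m2 n Y Z : ℕ} {S : Finset ℕ} (hp : Par P k0 m1 m2 n Y Z S) :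
    0 < Y := by
  rw [hp.hY]; exact pow_pos hp.hZ 3

theorem kb_sumB (ε : ℝ) (hε : 0 < ε) : ∃ C : ℝ, 0 < C ∧ ∀ {P k0 m1 m2 n Y Z : ℕ} {S : Finset ℕ}
    (_ : Par P k0 m1 m2 n Y Z S) (σ : Bool) {Q Q' : ℕ} (_ : Q ∈ S) (_ : Q' ∈ S) (_ : Q ≠ Q')
    {V : ℕ} (_ : 0 < V),
    ∑ b ∈ (Ico V (2 * V)).filter (fun b : ℕ ↦ b.Coprime n ∧ Q.Coprime b ∧ Q'.Coprime b),
        KB b (thB (m2 * m1) k0 σ Q Q' b) ≤
      C * ((Y * V : ℕ) : ℝ) ^ ε * (V * Real.sqrt V) := by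
  obtain ⟨C, hC, h⟩ := kbB_gen ε hε
  refine ⟨C, hC, ?_⟩
  intro P k0 m1 m2 n Y Z S hp σ Q Q' hQ hQ' hne V hV
  obtain ⟨hd0, hd1⟩ := kbB_d hp hQ hQ' hne
  refine h V Y hV (kbB_Y hp) _ (fun b hb ↦ (mem_filter.1 hb).1) _ _ hd0 hd1 ?_
  intro b hb
  rw [mem_filter, mem_Ico] at hb
  obtain ⟨⟨hb1, _⟩, hbn, hQb, hQ'b⟩ := hb
  unfold KB
  rw [gcd_thB hp σ hQ hQ' (by omega) hbn hQb hQ'b]

theorem ram_sumB (ε : ℝ) (hε : 0 < ε) : ∃ C : ℝ, 0 < C ∧ ∀ {P k0 m1 m2 n Y Z : ℕ} {S : Finset ℕ}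
    (_ : Par P k0 m1 m2 n Y Z S) (σ : Bool) {Q Q' : ℕ} (_ : Q ∈ S) (_ : Q' ∈ S) (_ : Q ≠ Q')
    {V : ℕ} (_ : 0 < V),
    ∑ b ∈ (Ico V (2 * V)).filter (fun b : ℕ ↦ b.Coprime n ∧ Q.Coprime b ∧ Q'.Coprime b),
        ‖∑ x ∈ range b, eInv b (thB (m2 * m1) k0 σ Q Q' b) (x : ℤ)‖ / (b : ℝ) ≤
      C * ((Y * V : ℕ) : ℝ) ^ ε := by
  obtain ⟨C, hC, h⟩ := avg_gcd ε hε
  refine ⟨C * (8 : ℝ) ^ ε, by positivity, ?_⟩
  intro P k0 m1 m2 n Y Z S hp σ Q Q' hQ hQ' hne V hV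
  obtain ⟨hd0, hd1⟩ := kbB_d hp hQ hQ' hne
  set d := ((Q' : ℤ) - Q).natAbs with hd
  have hdr : (d : ℝ) ≤ 4 * Y := by exact_mod_cast hd1
  have hterm : ∀ b ∈ (Ico V (2 * V)).filter
      (fun b : ℕ ↦ b.Coprime n ∧ Q.Coprime b ∧ Q'.Coprime b),
      ‖∑ x ∈ range b, eInv b (thB (m2 * m1) k0 σ Q Q' b) (x : ℤ)‖ / (b : ℝ) ≤
        (Nat.gcd d b : ℝ) * (Nat.gcd d b).divisors.card / b := by
    intro b hb
    rw [mem_filter, mem_Ico] at hb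
    obtain ⟨⟨hb1, _⟩, hbn, hQb, hQ'b⟩ := hb
    have hr := ram_bound b (by omega) (thB (m2 * m1) k0 σ Q Q' b)
    rw [gcd_thB hp σ hQ hQ' (by omega) hbn hQb hQ'b] at hr
    exact div_le_div_of_nonneg_right hr (by positivity)
  have hsub : (Ico V (2 * V)).filter (fun b : ℕ ↦ b.Coprime n ∧ Q.Coprime b ∧ Q'.Coprime b) ⊆
      Icc 1 (2 * V) := by
    intro b hb
    rw [mem_filter, mem_Ico] at hb
    rw [mem_Icc]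
    omega
  refine (Finset.sum_le_sum hterm).trans ?_
  refine (Finset.sum_le_sum_of_subset_of_nonneg hsub fun b _ _ ↦ by positivity).trans ?_
  refine (h (2 * V) d (by omega) hd0).trans ?_
  have e3 : ((d : ℝ) * ((2 * V : ℕ) : ℝ)) ^ ε ≤ (8 : ℝ) ^ ε * ((Y * V : ℕ) : ℝ) ^ ε := by
    apply kbB_pow (by positivity) (by norm_num) (by positivity) _ hε.le
    push_cast
    have : (0 : ℝ) ≤ V := by positivity
    nlinarith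
  calc C * ((d : ℝ) * ((2 * V : ℕ) : ℝ)) ^ ε ≤ C * ((8 : ℝ) ^ ε * ((Y * V : ℕ) : ℝ) ^ ε) := by
        gcongr
    _ = _ := by ring

theorem kb_sumC (ε : ℝ) (hε : 0 < ε) : ∃ C : ℝ, 0 < C ∧ ∀ {P k0 m1 m2 n Y Z : ℕ} {S : Finset ℕ}
    (_ : Par P k0 m1 m2 n Y Z S) (σ : Bool) {Q : ℕ} (_ : Q ∈ S) {V : ℕ} (_ : 0 < V),
    ∑ b ∈ (Ico V (2 * V)).filter (fun b : ℕ ↦ b.Coprime n ∧ Q.Coprime b),
        KB b (thC (m2 * m1) k0 σ Q b) ≤ C * (V : ℝ) ^ ε * (V * Real.sqrt V) := by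
  obtain ⟨C, hC, h⟩ := kbB_gen ε hε
  refine ⟨C, hC, ?_⟩
  intro P k0 m1 m2 n Y Z S hp σ Q hQ V hV
  have := h V 1 hV one_pos ((Ico V (2 * V)).filter (fun b : ℕ ↦ b.Coprime n ∧ Q.Coprime b))
    (fun b hb ↦ (mem_filter.1 hb).1) (fun b ↦ KB b (thC (m2 * m1) k0 σ Q b)) 1 one_pos
    (by norm_num) (by
      intro b hb
      rw [mem_filter, mem_Ico] at hb
      obtain ⟨⟨hb1, _⟩, hbn, hQb⟩ := hb
      unfold KB
      rw [gcd_thC hp σ hQ (by omega) hbn hQb, Nat.gcd_one_left])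
  rw [one_mul] at this
  exact this

end Pool.Agent.Work.MP_af11aa_nt.T
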