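import Mathlib

/-!
MODULE NumB (numerical inequalities, type B; Mathlib only). W = Y U V; 16 P W ≤ m and Zg ≤ (5/2) m/(k0 W) as in NumA.
Y = Z³ and Z V ≤ Y U give V ≤ Z² U. m² ≥ (P³Z²¹)(16 P Z³ U V) = 16 P⁴ Z²⁴ U V. Hence
 (i) P² Y³ V² ≤ m U: (mU)² ≥ 16 P⁴ Z²⁴ U³ V ≥ 16 P⁴ Z¹⁸ V⁴;   (ii) P² Y³ V ≤ m: m² ≥ 16 P⁴ Z²⁴ U V ≥ 16 P⁴ Z²² V².
numB_short: multiply by P W: √(8k0) V √V (√Zg + √(U/V)) ≤ 20 m/(P Y²). First: V√V √(20 m/W) = √(20m) V/√(YU) ≤ √20 m/(PY²) by (i).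
 Second: √(8k0) V √U, square 8 k0 V² U = 8 (k0 W) V/Y ≤ 12 m V/Y ≤ 12 m²/(P²Y⁴) by (ii).
numB_long: U/(P W) ≤ m/(P²Y³UV) as P Y² U ≤ m; Zg 8k0 ≤ 20 m/W: need P Y √V ≤ U: U² ≥ 8k0 UV ≥ 192 P U V, and P Y² U V ≥ m ≥ P³Y⁷ gives
 U V ≥ P²Y⁵, so U² ≥ 192 P³Y⁵ ≥ (PY²)², U ≥ P Y², U² ≥ 192 P U V ≥ P²Y² V.
-/

set_option autoImplicit false

namespace Pool.Agent.Work.MP_af11aa_nt.T

private theorem sq_le {a b : ℝ} (hb : 0 ≤ b) (h : a ^ 2 ≤ b ^ 2) : a ≤ b :=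
  le_of_abs_le (abs_le_of_sq_le_sq h hb)

/-- `16 P W ≤ m` -/
private theorem core1 {P k0 m W : ℝ} (hW : 0 < W) (h24 : 24 * P ≤ k0)
    (hne : 2 * (k0 * W) ≤ 3 * m) : 16 * P * W ≤ m := by
  have h1 : 24 * P * W ≤ k0 * W := mul_le_mul_of_nonneg_right h24 hW.le
  linarith

/-- the factor with the fourth root -/
private theorem core2 {k0 m W : ℝ} (hk : 0 < k0) (hW : 0 < W) (hne : 2 * (k0 * W) ≤ 3 * m) :
    8 * k0 * (1 + m / (k0 * W)) ≤ 20 * (m / W) := by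
  have h1 : 8 * k0 * (1 + m / (k0 * W)) = (8 * (k0 * W) + 8 * m) / W := by
    field_simp
  rw [h1, ← mul_div_assoc]
  exact div_le_div_of_nonneg_right (by linarith) hW.le

private theorem core3 {P m Y W : ℝ} (hP : 1 ≤ P) (hY : 1 ≤ Y) (hm : 0 < m)
    (hbig : P ^ 3 * Y ^ 7 ≤ m) (h16 : 16 * P * W ≤ m) (hW : 0 < W) :
    16 * P ^ 4 * Y ^ 7 * W ≤ m ^ 2 := by
  calc 16 * P ^ 4 * Y ^ 7 * W = (P ^ 3 * Y ^ 7) * (16 * P * W) := by ring
    _ ≤ m * m := mul_le_mul hbig h16 (by positivity) hm.le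
    _ = m ^ 2 := by ring

theorem numB_short {P k0 m Y Z U V : ℝ} (hP : 1 ≤ P) (hZ : 1 ≤ Z) (hY : Y = Z ^ 3) (hU : 1 ≤ U)
    (hV : 1 ≤ V) (h24 : 24 * P ≤ k0) (hbig : P ^ 3 * Y ^ 7 ≤ m)
    (hne : 2 * (k0 * (Y * U * V)) ≤ 3 * m) (hAB : Z * V ≤ Y * U) :
    Real.sqrt (8 * k0) / (P * (Y * U * V)) * (V * Real.sqrt V) *
        (Real.sqrt (1 + m / (k0 * (Y * U * V))) + Real.sqrt (U / V)) ≤
      20 * (m / (P ^ 2 * Y ^ 3 * (U * V))) := by
  have hY1 : 1 ≤ Y := by rw [hY]; exact one_le_pow₀ hZ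
  have hP0 : 0 < P := by linarith
  have hY0 : 0 < Y := by linarith
  have hU0 : 0 < U := by linarith
  have hV0 : 0 < V := by linarith
  have hZ0 : 0 < Z := by linarith
  have hk : 0 < k0 := by linarith
  have hm : 0 < m := lt_of_lt_of_le (by positivity) hbig
  obtain ⟨W, hW⟩ : ∃ W, W = Y * U * V := ⟨_, rfl⟩
  have hW0 : 0 < W := by rw [hW]; positivity
  rw [← hW] at hne ⊢
  have h16 := core1 hW0 h24 hne
  have hZg := core2 hk hW0 hne
  have hsq := core3 hP hY1 hm hbig h16 hW0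
  have hVU : V ≤ Z ^ 2 * U := by
    have : Z * V ≤ Z * (Z ^ 2 * U) := by rw [hY] at hAB; nlinarith [hAB]
    exact le_of_mul_le_mul_left this hZ0
  have hV3 : V ^ 3 ≤ Y ^ 2 * U ^ 3 := by
    have h := pow_le_pow_left₀ hV0.le hVU 3
    calc V ^ 3 ≤ (Z ^ 2 * U) ^ 3 := h
      _ = Y ^ 2 * U ^ 3 := by rw [hY]; ring
  -- (i)
  have hi : P ^ 2 * Y ^ 3 * V ^ 2 ≤ m * U := by
    refine sq_le (by positivity) ?_
    calc (P ^ 2 * Y ^ 3 * V ^ 2) ^ 2 = P ^ 4 * Y ^ 6 * V * V ^ 3 := by ring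
      _ ≤ P ^ 4 * Y ^ 6 * V * (Y ^ 2 * U ^ 3) := by gcongr
      _ ≤ 16 * P ^ 4 * Y ^ 6 * V * (Y ^ 2 * U ^ 3) := by
          nlinarith [show 0 < P ^ 4 * Y ^ 6 * V * (Y ^ 2 * U ^ 3) by positivity]
      _ = (16 * P ^ 4 * Y ^ 7 * W) * U ^ 2 := by rw [hW]; ring
      _ ≤ m ^ 2 * U ^ 2 := by gcongr
      _ = (m * U) ^ 2 := by ring
  -- (ii)
  have hii : P ^ 2 * Y ^ 3 * V ≤ m := by
    refine sq_le hm.le ?_
    have h1 : Z ^ 2 ≤ Y ^ 2 := by
      refine pow_le_pow_left₀ hZ0.le ?_ 2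
      rw [hY]
      exact le_self_pow₀ hZ (by norm_num)
    calc (P ^ 2 * Y ^ 3 * V) ^ 2 = P ^ 4 * Y ^ 6 * V * V := by ring
      _ ≤ P ^ 4 * Y ^ 6 * V * (Z ^ 2 * U) := by gcongr
      _ ≤ P ^ 4 * Y ^ 6 * V * (Y ^ 2 * U) := by gcongr
      _ ≤ 16 * P ^ 4 * Y ^ 6 * V * (Y ^ 2 * U) := by
          nlinarith [show 0 < P ^ 4 * Y ^ 6 * V * (Y ^ 2 * U) by positivity]
      _ = 16 * P ^ 4 * Y ^ 7 * W := by rw [hW]; ring
      _ ≤ m ^ 2 := hsq
  set M := m / (P * Y ^ 2) with hM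
  have hM0 : 0 < M := by positivity
  have hMe : m = M * (P * Y ^ 2) := by rw [hM]; field_simp
  have hZg0 : 0 ≤ 1 + m / (k0 * W) := by positivity
  have T1 : Real.sqrt (8 * k0) * (V * Real.sqrt V) * Real.sqrt (1 + m / (k0 * W)) ≤ 5 * M := by
    refine sq_le (by positivity) ?_
    rw [mul_pow, mul_pow, mul_pow, Real.sq_sqrt (by positivity), Real.sq_sqrt hV0.le,
      Real.sq_sqrt hZg0]
    calc 8 * k0 * (V ^ 2 * V) * (1 + m / (k0 * W)) =
          (V ^ 2 * V) * (8 * k0 * (1 + m / (k0 * W))) := by ring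
      _ ≤ (V ^ 2 * V) * (20 * (m / W)) := by gcongr
      _ = 20 * (V ^ 2 * m / (Y * U)) := by rw [hW]; field_simp
      _ ≤ 20 * M ^ 2 := by
          gcongr
          rw [div_le_iff₀ (by positivity)]
          have h1 : (M * Y) * (P ^ 2 * Y ^ 3 * V ^ 2) ≤ (M * Y) * (m * U) := by gcongr
          rw [hMe] at h1 ⊢
          have h2 : (P * Y ^ 2) * (V ^ 2 * (M * (P * Y ^ 2))) ≤
              (P * Y ^ 2) * (M ^ 2 * (Y * U)) := by
            nlinarith [h1]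
          exact le_of_mul_le_mul_left h2 (by positivity)
      _ ≤ (5 * M) ^ 2 := by nlinarith [sq_nonneg M]
  have T2 : Real.sqrt (8 * k0) * (V * Real.sqrt V) * Real.sqrt (U / V) ≤ 4 * M := by
    refine sq_le (by positivity) ?_
    rw [mul_pow, mul_pow, mul_pow, Real.sq_sqrt (by positivity), Real.sq_sqrt hV0.le,
      Real.sq_sqrt (by positivity)]
    calc 8 * k0 * (V ^ 2 * V) * (U / V) = 4 * (2 * (k0 * W)) * V / Y := by
          rw [hW]; field_simp; ring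
      _ ≤ 4 * (3 * m) * V / Y := by gcongr
      _ = 12 * (m * V / Y) := by ring
      _ ≤ 12 * M ^ 2 := by
          gcongr
          rw [div_le_iff₀ hY0]
          have h1 : (Y * M) * (P ^ 2 * Y ^ 3 * V) ≤ (Y * M) * m := by gcongr
          rw [hMe] at h1 ⊢
          have h2 : (P * Y ^ 2) * (M * (P * Y ^ 2) * V) ≤ (P * Y ^ 2) * (M ^ 2 * Y) := by
            nlinarith [h1]
          exact le_of_mul_le_mul_left h2 (by positivity)
      _ ≤ (4 * M) ^ 2 := by nlinarith [sq_nonneg M]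
  have e1 : Real.sqrt (8 * k0) / (P * W) * (V * Real.sqrt V) *
        (Real.sqrt (1 + m / (k0 * W)) + Real.sqrt (U / V)) =
      (Real.sqrt (8 * k0) * (V * Real.sqrt V) * Real.sqrt (1 + m / (k0 * W)) +
        Real.sqrt (8 * k0) * (V * Real.sqrt V) * Real.sqrt (U / V)) / (P * W) := by
    ring
  rw [e1]
  calc _ ≤ (20 * M) / (P * W) := by
        refine div_le_div_of_nonneg_right ?_ (by positivity)
        linarith
    _ = 20 * (m / (P ^ 2 * Y ^ 3 * (U * V))) := by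
        rw [hM, hW]
        field_simp

theorem numB_long {P k0 m Y Z U V : ℝ} (hP : 1 ≤ P) (hZ : 1 ≤ Z) (hY : Y = Z ^ 3) (hU : 1 ≤ U)
    (hV : 1 ≤ V) (h24 : 24 * P ≤ k0) (hbig : P ^ 3 * Y ^ 7 ≤ m)
    (hne : 2 * (k0 * (Y * U * V)) ≤ 3 * m) (hact : m ≤ P * Y * (Y * U * V))
    (hC : P * Y * (Y * U) ≤ m) (hlong : V * (8 * k0) ≤ U) :
    1 / (P * (Y * U * V)) * (U + (1 + m / (k0 * (Y * U * V))) * (V * Real.sqrt V) * (8 * k0)) ≤
      21 * (m / (P ^ 2 * Y ^ 3 * (U * V))) := by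
  have hY1 : 1 ≤ Y := by rw [hY]; exact one_le_pow₀ hZ
  have hP0 : 0 < P := by linarith
  have hY0 : 0 < Y := by linarith
  have hU0 : 0 < U := by linarith
  have hV0 : 0 < V := by linarith
  have hk : 0 < k0 := by linarith
  have hm : 0 < m := lt_of_lt_of_le (by positivity) hbig
  -- `P Y √V ≤ U`
  have h192 : 192 * P * V ≤ U := by
    have h1 : V * (192 * P) ≤ V * (8 * k0) := by
      refine mul_le_mul_of_nonneg_left ?_ hV0.le
      linarith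
    linarith
  have hUV : P ^ 2 * Y ^ 5 ≤ U * V := by
    have h1 : (P * Y ^ 2) * (P ^ 2 * Y ^ 5) ≤ (P * Y ^ 2) * (U * V) := by
      calc (P * Y ^ 2) * (P ^ 2 * Y ^ 5) = P ^ 3 * Y ^ 7 := by ring
        _ ≤ m := hbig
        _ ≤ P * Y * (Y * U * V) := hact
        _ = (P * Y ^ 2) * (U * V) := by ring
    exact le_of_mul_le_mul_left h1 (by positivity)
  have hU2 : P * Y ^ 2 ≤ U := by
    refine sq_le hU0.le ?_
    calc (P * Y ^ 2) ^ 2 = P ^ 2 * Y ^ 4 * 1 := by ring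
      _ ≤ P ^ 2 * Y ^ 4 * (192 * P * Y) := by
          refine mul_le_mul_of_nonneg_left ?_ (by positivity)
          have : 1 ≤ P * Y := one_le_mul_of_one_le_of_one_le hP hY1
          nlinarith
      _ = 192 * P * (P ^ 2 * Y ^ 5) := by ring
      _ ≤ 192 * P * (U * V) := by gcongr
      _ = (192 * P * V) * U := by ring
      _ ≤ U * U := by gcongr
      _ = U ^ 2 := by ring
  have hPY : P * Y * Real.sqrt V ≤ U := by
    refine sq_le hU0.le ?_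
    rw [mul_pow, Real.sq_sqrt hV0.le]
    calc (P * Y) ^ 2 * V = (P * Y ^ 2) * (P * V) := by ring
      _ ≤ U * (192 * P * V) := by
          refine mul_le_mul hU2 ?_ (by positivity) hU0.le
          nlinarith [show 0 < P * V by positivity]
      _ ≤ U * U := by gcongr
      _ = U ^ 2 := by ring
  obtain ⟨W, hW⟩ : ∃ W, W = Y * U * V := ⟨_, rfl⟩
  have hW0 : 0 < W := by rw [hW]; positivity
  rw [← hW] at hne ⊢
  have hZg := core2 hk hW0 hne
  set M := m / (P * Y ^ 2) with hM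
  have hM0 : 0 < M := by positivity
  have hMe : m = M * (P * Y ^ 2) := by rw [hM]; field_simp
  have T1 : U ≤ M := by
    rw [hM, le_div_iff₀ (by positivity)]
    calc U * (P * Y ^ 2) = P * Y * (Y * U) := by ring
      _ ≤ m := hC
  have T2 : (1 + m / (k0 * W)) * (V * Real.sqrt V) * (8 * k0) ≤ 20 * M := by
    calc (1 + m / (k0 * W)) * (V * Real.sqrt V) * (8 * k0) =
          (8 * k0 * (1 + m / (k0 * W))) * (V * Real.sqrt V) := by ring
      _ ≤ (20 * (m / W)) * (V * Real.sqrt V) := by gcongr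
      _ = 20 * (m * Real.sqrt V / (Y * U)) := by rw [hW]; field_simp
      _ ≤ 20 * M := by
          gcongr
          rw [div_le_iff₀ (by positivity), hMe]
          calc M * (P * Y ^ 2) * Real.sqrt V = (M * Y) * (P * Y * Real.sqrt V) := by ring
            _ ≤ (M * Y) * U := by gcongr
            _ = M * (Y * U) := by ring
  calc 1 / (P * W) * (U + (1 + m / (k0 * W)) * (V * Real.sqrt V) * (8 * k0)) ≤
        1 / (P * W) * (21 * M) := by
        refine mul_le_mul_of_nonneg_left ?_ (by positivity)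
        linarith
    _ = 21 * (m / (P ^ 2 * Y ^ 3 * (U * V))) := by
        rw [hM, hW]
        field_simp

end Pool.Agent.Work.MP_af11aa_nt.T
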