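import Mathlib
import Pool.Agent.Work.MP_af11aa_nt.T.InnerShort
import Pool.Agent.Work.MP_af11aa_nt.T.InnerLong
import Pool.Agent.Work.MP_af11aa_nt.T.KbB
import Pool.Agent.Work.MP_af11aa_nt.T.NumB
import Pool.Agent.Work.MP_af11aa_nt.T.PhaseB

/-!
MODULE OffB (off-diagonal terms, type B: sum over a, modulus b).
Fix b. If b is not prime to n, or Q ∣ b or Q' ∣ b, all terms vanish. Otherwise for a ≤ x1 := min (2U-1) (min (X/(Qb)) (X/(Q'b))),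
FB Q a b * conj (FB Q' a b) = (H(Qab) wgt(Qab)) conj(H(Q'ab) wgt(Q'ab)) eInv b θ a by PhaseB.phaseB (both sides vanish if a is not prime to b).
So the sum over a ∈ Ico U (2U) is the sum over Ioc (U-1) x1 with L = U, c0 = Y U V, α = Q b, α' = Q' b; Q a b = (Q b) a.
Case U ≤ V 8k0 (≤ b 8k0): InnerShort.inner_short with √(U/b) ≤ √(U/V), then KbB.kb_sumB, NumB.numB_short.
Case V 8k0 ≤ U: InnerLong.inner_long, KbB.kb_sumB, KbB.ram_sumB (times L = U), NumB.numB_long.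
The logarithm: b 8k0 ≤ 16 V k0 ≤ 32 m, so 1 + log ≤ C m^{ε/2}; (Y V)^{ε/4} ≤ (2m)^{ε/4}.
-/

set_option autoImplicit false

namespace Pool.Agent.Work.MP_af11aa_nt.T

open Finset ComplexConjugate Pool.Agent.Work.MP_af11aa_nt.W

/-- the restriction `Q a b ≤ X` for `a` -/
private lemma offB_term {P k0 m1 m2 n Y Z : ℕ} {S : Finset ℕ} (hp : Par P k0 m1 m2 n Y Z S)
    (H : ℤ → ℂ) (y s : ℝ) (X : ℕ) (σ : Bool) {Q Q' : ℕ} (hQ : Q ∈ S) (hQ' : Q' ∈ S)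
    {a b : ℕ} (hb0 : 0 < b) (hbn : b.Coprime n) (hQb : Q.Coprime b) (hQ'b : Q'.Coprime b) :
    FB (m2 * m1) k0 n H y s X σ Q a b * conj (FB (m2 * m1) k0 n H y s X σ Q' a b) =
      if a ≤ X / (Q * b) ∧ a ≤ X / (Q' * b) then
        (H ((Q * b * a : ℕ) : ℤ) * wgt (m2 * m1) k0 y s σ ((Q * b * a : ℕ) : ℝ)) *
          conj (H ((Q' * b * a : ℕ) : ℤ) * wgt (m2 * m1) k0 y s σ ((Q' * b * a : ℕ) : ℝ)) *
            eInv b (thB (m2 * m1) k0 σ Q Q' b) (a : ℤ)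
      else 0 := by
  obtain ⟨hQp, _, _, hQn⟩ := hp.hS Q hQ
  obtain ⟨hQ'p, _, _, hQ'n⟩ := hp.hS Q' hQ'
  have hQb0 : 0 < Q * b := Nat.mul_pos hQp.pos hb0
  have hQ'b0 : 0 < Q' * b := Nat.mul_pos hQ'p.pos hb0
  have f1 : Q * b * a = Q * a * b := by ring
  have f2 : Q' * b * a = Q' * a * b := by ring
  have e1 : Q * a * b ≤ X ↔ a ≤ X / (Q * b) := by
    rw [Nat.le_div_iff_mul_le hQb0, ← f1, mul_comm a]
  have e2 : Q' * a * b ≤ X ↔ a ≤ X / (Q' * b) := by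
    rw [Nat.le_div_iff_mul_le hQ'b0, ← f2, mul_comm a]
  rw [f1, f2]
  unfold FB
  by_cases ha : a ≤ X / (Q * b) ∧ a ≤ X / (Q' * b)
  · rw [if_pos ha]
    by_cases hc : a.Coprime b
    · have h1 : (Q * a).Coprime b := Nat.Coprime.mul_left hQb hc
      have h2 : (Q' * a).Coprime b := Nat.Coprime.mul_left hQ'b hc
      rw [if_pos ⟨h1, Nat.Coprime.mul_left hQn hbn, e1.2 ha.1⟩,
        if_pos ⟨h2, Nat.Coprime.mul_left hQ'n hbn, e2.2 ha.2⟩, ← phaseB hp σ hQ hQ' hb0 hbn h1 h2]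
      simp only [map_mul]
      ring
    · have h0 : eInv b (thB (m2 * m1) k0 σ Q Q' b) (a : ℤ) = 0 := by
        unfold eInv
        rw [if_neg]
        intro hco
        exact hc (Nat.isCoprime_iff_coprime.1 hco)
      rw [h0, mul_zero]
      rw [if_neg (fun hh ↦ hc (Nat.Coprime.coprime_mul_left hh.1)), zero_mul]
  · rw [if_neg ha]
    rcases not_and_or.1 ha with h | h
    · rw [if_neg (fun hh ↦ h (e1.1 hh.2.2)), zero_mul]
    · rw [if_neg (c := (Q' * a).Coprime b ∧ (Q' * b).Coprime n ∧ Q' * a * b ≤ X)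
        (fun hh ↦ h (e2.1 hh.2.2)), map_zero, mul_zero]

private lemma offB_sum {P k0 m1 m2 n Y Z : ℕ} {S : Finset ℕ} (hp : Par P k0 m1 m2 n Y Z S)
    (H : ℤ → ℂ) (y s : ℝ) (X : ℕ) (σ : Bool) {Q Q' : ℕ} (hQ : Q ∈ S) (hQ' : Q' ∈ S)
    {b U : ℕ} (hb0 : 0 < b) (hU : 0 < U) (hbn : b.Coprime n) (hQb : Q.Coprime b)
    (hQ'b : Q'.Coprime b) :
    ∃ x1 : ℕ, x1 ≤ (U - 1) + U ∧
    ∑ a ∈ Ico U (2 * U), FB (m2 * m1) k0 n H y s X σ Q a b *
        conj (FB (m2 * m1) k0 n H y s X σ Q' a b) =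
      ∑ a ∈ Ioc (U - 1) x1,
        (H ((Q * b * a : ℕ) : ℤ) * wgt (m2 * m1) k0 y s σ ((Q * b * a : ℕ) : ℝ)) *
          conj (H ((Q' * b * a : ℕ) : ℤ) * wgt (m2 * m1) k0 y s σ ((Q' * b * a : ℕ) : ℝ)) *
            eInv b (thB (m2 * m1) k0 σ Q Q' b) (a : ℤ) := by
  refine ⟨min (2 * U - 1) (min (X / (Q * b)) (X / (Q' * b))), ?_, ?_⟩
  · have := min_le_left (2 * U - 1) (min (X / (Q * b)) (X / (Q' * b)))
    omega
  · rw [Finset.sum_congr rfl (fun a _ ↦ offB_term hp H y s X σ hQ hQ' hb0 hbn hQb hQ'b),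
      ← Finset.sum_filter]
    apply Finset.sum_congr _ (fun _ _ ↦ rfl)
    ext a
    simp only [mem_filter, mem_Ico, mem_Ioc, le_min_iff]
    omega

private lemma offB_log (δ : ℝ) (hδ : 0 < δ) {N m : ℕ} (hN : 0 < N) (h : N ≤ 512 * m ^ 2) :
    1 + Real.log (N : ℝ) ≤ (1 + 1 / δ) * (512 : ℝ) ^ δ * (m : ℝ) ^ (2 * δ) := by
  have hN1 : (1 : ℝ) ≤ N := by exact_mod_cast hN
  have hm0 : (0 : ℝ) ≤ m := by positivity
  have h1 : Real.log (N : ℝ) ≤ (N : ℝ) ^ δ / δ := Real.log_le_rpow_div (by linarith) hδ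
  have h2 : (1 : ℝ) ≤ (N : ℝ) ^ δ := Real.one_le_rpow hN1 hδ.le
  have h3 : (N : ℝ) ^ δ ≤ (512 : ℝ) ^ δ * (m : ℝ) ^ (2 * δ) := by
    calc (N : ℝ) ^ δ ≤ (512 * (m : ℝ) ^ 2) ^ δ := by
          apply Real.rpow_le_rpow (by positivity) _ hδ.le
          exact_mod_cast h
      _ = _ := by
          rw [Real.mul_rpow (by norm_num) (by positivity), ← Real.rpow_natCast (m : ℝ) 2,
            ← Real.rpow_mul hm0]
          norm_num
  calc 1 + Real.log (N : ℝ) ≤ (N : ℝ) ^ δ + (N : ℝ) ^ δ / δ := by linarith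
    _ = (1 + 1 / δ) * (N : ℝ) ^ δ := by ring
    _ ≤ (1 + 1 / δ) * ((512 : ℝ) ^ δ * (m : ℝ) ^ (2 * δ)) := by gcongr
    _ = _ := by ring

theorem offB (ε : ℝ) (hε : 0 < ε) : ∃ C : ℝ, 0 < C ∧ ∀ {P k0 m1 m2 n Y Z : ℕ} {S : Finset ℕ}
    (_ : Par P k0 m1 m2 n Y Z S) {A : ℝ} {H : ℤ → ℂ} {β : ℤ → ℝ} (_ : Env P k0 A H β) {y : ℝ}
    (_ : y ∈ Set.Ico (1 / ((m2 * m1 : ℕ) : ℝ)) (2 / ((m2 * m1 : ℕ) : ℝ))) (s : ℝ) (X : ℕ)
    (σ : Bool) {U V : ℕ} (_ : 0 < U) (_ : 0 < V) (_ : 2 * (k0 * (Y * U * V)) ≤ 3 * (m2 * m1))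
    (_ : Z * V ≤ Y * U) (_ : m2 * m1 ≤ P * Y * (Y * U * V)) (_ : P * Y * (Y * U) ≤ m2 * m1)
    {Q Q' : ℕ} (_ : Q ∈ S) (_ : Q' ∈ S) (_ : Q ≠ Q'),
    ∑ b ∈ Ico V (2 * V), ‖∑ a ∈ Ico U (2 * U), FB (m2 * m1) k0 n H y s X σ Q a b *
        conj (FB (m2 * m1) k0 n H y s X σ Q' a b)‖ ≤
      C * A * ((m2 * m1 : ℕ) : ℝ) ^ ε *
        (((m2 * m1 : ℕ) : ℝ) / ((P : ℝ) ^ 2 * (Y : ℝ) ^ 3 * (U * V))) := by
  obtain ⟨C1, hC1, h1⟩ := inner_short
  obtain ⟨C2, hC2, h2⟩ := inner_long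
  obtain ⟨C3, hC3, h3⟩ := kb_sumB (ε / 4) (by linarith)
  obtain ⟨C4, hC4, h4⟩ := ram_sumB (ε / 4) (by linarith)
  set c5 : ℝ := (1 + 1 / (ε / 4)) * (512 : ℝ) ^ (ε / 4) with hc5
  have hc50 : 0 < c5 := by positivity
  set c6 : ℝ := (2 : ℝ) ^ (ε / 4) with hc6
  have hc60 : 0 < c6 := by positivity
  refine ⟨C1 * c5 * C3 * c6 * 20 + C2 * (C4 + C3 * c5) * c6 * 21, by positivity, ?_⟩
  intro P k0 m1 m2 n Y Z S hp A H β he y hy s X σ U V hU hV hne hAB hact hCC Q Q' hQ hQ' hQQ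
  set m := m2 * m1 with hm
  obtain ⟨hQp, hQ1, hQ2, hQn⟩ := hp.hS Q hQ
  obtain ⟨hQ'p, hQ'1, hQ'2, hQ'n⟩ := hp.hS Q' hQ'
  have hZ := hp.hZ
  have hY1 : 1 ≤ Y := by rw [hp.hY]; exact Nat.one_le_pow _ _ hZ
  have hPp := hp.hP
  have hk0p := hp.hk0
  have hm1 : 1 ≤ m := by
    have : 1 ≤ P ^ 3 * Y ^ 7 := Nat.one_le_iff_ne_zero.2 (by positivity)
    exact this.trans hp.hbig
  -- sizes
  have hW0 : 0 < Y * U * V := by positivity
  have hkW : k0 * (Y * U * V) ≤ 2 * m := by omega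
  have hYV : Y * V ≤ 2 * m := by
    refine le_trans ?_ hkW
    calc Y * V ≤ Y * V * (k0 * U) := Nat.le_mul_of_pos_right _ (Nat.mul_pos hk0p hU)
      _ = k0 * (Y * U * V) := by ring
  have hkV : k0 * V ≤ 2 * m := by
    refine le_trans ?_ hkW
    calc k0 * V ≤ k0 * V * (Y * U) := Nat.le_mul_of_pos_right _ (Nat.mul_pos hY1 hU)
      _ = k0 * (Y * U * V) := by ring
  -- reals
  have rA := he.hA
  have rP : (1 : ℝ) ≤ P := by exact_mod_cast hPp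
  have rZ : (1 : ℝ) ≤ Z := by exact_mod_cast hZ
  have rY1 : (1 : ℝ) ≤ Y := by exact_mod_cast hY1
  have rY : (Y : ℝ) = (Z : ℝ) ^ 3 := by exact_mod_cast hp.hY
  have rU : (1 : ℝ) ≤ U := by exact_mod_cast hU
  have rV : (1 : ℝ) ≤ V := by exact_mod_cast hV
  have r24 : 24 * (P : ℝ) ≤ k0 := by exact_mod_cast Nat.le_of_dvd hk0p hp.h24
  have rbig : (P : ℝ) ^ 3 * (Y : ℝ) ^ 7 ≤ (m : ℝ) := by exact_mod_cast hp.hbig
  have rne : 2 * ((k0 : ℝ) * (Y * U * V)) ≤ 3 * (m : ℝ) := by exact_mod_cast hne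
  have rAB : (Z : ℝ) * V ≤ Y * U := by exact_mod_cast hAB
  have ract : (m : ℝ) ≤ P * Y * (Y * U * V) := by exact_mod_cast hact
  have rCC : (P : ℝ) * Y * (Y * U) ≤ m := by exact_mod_cast hCC
  have rm1 : (1 : ℝ) ≤ m := by exact_mod_cast hm1
  have rm0 : (0 : ℝ) < m := by linarith
  have rk0 : (0 : ℝ) < k0 := by exact_mod_cast hk0p
  have rP0 : (0 : ℝ) < P := by linarith
  have rY0 : (0 : ℝ) < Y := by linarith
  have rU0 : (0 : ℝ) < U := by linarith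
  have rV0 : (0 : ℝ) < V := by linarith
  have rc0 : (((Y * U * V : ℕ)) : ℝ) = (Y : ℝ) * U * V := by push_cast; ring
  -- the powers
  have hpow : (((Y * V : ℕ)) : ℝ) ^ (ε / 4) ≤ c6 * (m : ℝ) ^ (ε / 4) := by
    calc (((Y * V : ℕ)) : ℝ) ^ (ε / 4) ≤ (2 * (m : ℝ)) ^ (ε / 4) := by
          apply Real.rpow_le_rpow (by positivity) _ (by linarith)
          exact_mod_cast hYV
      _ = c6 * (m : ℝ) ^ (ε / 4) := by rw [Real.mul_rpow (by norm_num) rm0.le]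
  have hmm : (m : ℝ) ^ (ε / 4) * (m : ℝ) ^ (2 * (ε / 4)) ≤ (m : ℝ) ^ ε := by
    rw [← Real.rpow_add rm0]
    exact Real.rpow_le_rpow_of_exponent_le rm1 (by linarith)
  -- the filtered sum
  have hfil : ∑ b ∈ Ico V (2 * V), ‖∑ a ∈ Ico U (2 * U), FB m k0 n H y s X σ Q a b *
        conj (FB m k0 n H y s X σ Q' a b)‖ =
      ∑ b ∈ (Ico V (2 * V)).filter (fun b : ℕ ↦ b.Coprime n ∧ Q.Coprime b ∧ Q'.Coprime b),
        ‖∑ a ∈ Ico U (2 * U),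
          FB m k0 n H y s X σ Q a b * conj (FB m k0 n H y s X σ Q' a b)‖ := by
    rw [Finset.sum_filter]
    apply Finset.sum_congr rfl
    intro b _
    by_cases hbn : b.Coprime n ∧ Q.Coprime b ∧ Q'.Coprime b
    · rw [if_pos hbn]
    · rw [if_neg hbn, norm_eq_zero]
      apply Finset.sum_eq_zero
      intro a _
      by_cases h1 : b.Coprime n ∧ Q.Coprime b
      · have : FB m k0 n H y s X σ Q' a b = 0 := by
          unfold FB
          rw [if_neg]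
          rintro ⟨h, -, -⟩
          exact hbn ⟨h1.1, h1.2, Nat.Coprime.coprime_mul_right h⟩
        rw [this, map_zero, mul_zero]
      · have : FB m k0 n H y s X σ Q a b = 0 := by
          unfold FB
          rw [if_neg]
          rintro ⟨h, h', -⟩
          exact h1 ⟨Nat.Coprime.coprime_mul_left h', Nat.Coprime.coprime_mul_right h⟩
        rw [this, zero_mul]
  rw [hfil]
  -- facts on one b
  have hone : ∀ b ∈ (Ico V (2 * V)).filter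
      (fun b : ℕ ↦ b.Coprime n ∧ Q.Coprime b ∧ Q'.Coprime b),
      0 < b ∧ b.Coprime n ∧ Q.Coprime b ∧ Q'.Coprime b ∧ V ≤ b ∧ b.Coprime (8 * k0) ∧
      (Q * b).Coprime (8 * k0) ∧ (Q' * b).Coprime (8 * k0) ∧
      Y * U * V ≤ Q * b * (U - 1 + 1) ∧ Y * U * V ≤ Q' * b * (U - 1 + 1) ∧
      (1 + Real.log ((b * (8 * k0) : ℕ) : ℝ) ≤ c5 * (m : ℝ) ^ (2 * (ε / 4))) := by
    intro b hb
    rw [mem_filter, mem_Ico] at hb
    obtain ⟨⟨hb1, hb2⟩, hbn, hQb, hQ'b⟩ := hb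
    have hb0 : 0 < b := by omega
    have hQbn : (Q * b).Coprime n := Nat.Coprime.mul_left hQn hbn
    have hQ'bn : (Q' * b).Coprime n := Nat.Coprime.mul_left hQ'n hbn
    have hU1 : U - 1 + 1 = U := by omega
    refine ⟨hb0, hbn, hQb, hQ'b, hb1, ((hp.hn _).1 hbn).1, ((hp.hn _).1 hQbn).1,
      ((hp.hn _).1 hQ'bn).1, ?_, ?_, ?_⟩
    · rw [hU1]
      calc Y * U * V = Y * V * U := by ring
        _ ≤ Q * b * U := Nat.mul_le_mul_right _ (Nat.mul_le_mul hQ1.le hb1)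
    · rw [hU1]
      calc Y * U * V = Y * V * U := by ring
        _ ≤ Q' * b * U := Nat.mul_le_mul_right _ (Nat.mul_le_mul hQ'1.le hb1)
    · refine offB_log (ε / 4) (by linarith) (Nat.mul_pos hb0 (by omega)) ?_
      calc b * (8 * k0) ≤ (2 * V) * (8 * k0) := Nat.mul_le_mul_right _ hb2.le
        _ = 16 * (k0 * V) := by ring
        _ ≤ 16 * (2 * m) := Nat.mul_le_mul_left _ hkV
        _ ≤ 512 * m ^ 2 := by nlinarith
  have hkb := h3 hp σ hQ hQ' hQQ hV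
  have hram := h4 hp σ hQ hQ' hQQ hV
  rw [← hm] at hkb hram
  have hkb' : ∑ b ∈ (Ico V (2 * V)).filter
        (fun b : ℕ ↦ b.Coprime n ∧ Q.Coprime b ∧ Q'.Coprime b),
        KB b (thB m k0 σ Q Q' b) ≤
      C3 * (c6 * (m : ℝ) ^ (ε / 4)) * (V * Real.sqrt V) := hkb.trans (by gcongr)
  have hram' : ∑ b ∈ (Ico V (2 * V)).filter
        (fun b : ℕ ↦ b.Coprime n ∧ Q.Coprime b ∧ Q'.Coprime b),
        ‖∑ x ∈ range b, eInv b (thB m k0 σ Q Q' b) (x : ℤ)‖ / (b : ℝ) ≤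
      C4 * (c6 * (m : ℝ) ^ (ε / 4)) := hram.trans (by gcongr)
  set F := (Ico V (2 * V)).filter (fun b : ℕ ↦ b.Coprime n ∧ Q.Coprime b ∧ Q'.Coprime b) with hF
  have hfinal0 : 0 ≤ A * (m : ℝ) ^ ε * ((m : ℝ) / ((P : ℝ) ^ 2 * (Y : ℝ) ^ 3 * (U * V))) := by
    positivity
  rcases le_total U (V * (8 * k0)) with hcase | hcase
  · -- the short range
    have hnum := numB_short rP rZ rY rU rV r24 rbig rne rAB
    have hterm : ∀ b ∈ F, ‖∑ a ∈ Ico U (2 * U), FB m k0 n H y s X σ Q a b *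
        conj (FB m k0 n H y s X σ Q' a b)‖ ≤
        (C1 * A * (Real.sqrt (8 * k0) / (P * (Y * U * V))) * (c5 * (m : ℝ) ^ (2 * (ε / 4))) *
          (Real.sqrt (1 + m / (k0 * (Y * U * V))) + Real.sqrt ((U : ℝ) / V))) *
          KB b (thB m k0 σ Q Q' b) := by
      intro b hb
      obtain ⟨hb0, hbn, hQb, hQ'b, hbV, hbk, hQbk, hQ'bk, hc1, hc2, hlog⟩ := hone b hb
      obtain ⟨x1, hx1, hsum⟩ := offB_sum hp H y s X σ hQ hQ' hb0 hU hbn hQb hQ'b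
      rw [← hm] at hsum
      rw [hsum]
      have hkey := h1 he hm1 hy s σ hb0 hbk (thB m k0 σ Q Q' b) (x0 := U - 1) (x1 := x1) (L := U)
        (c0 := Y * U * V) hQbk hQ'bk hU (by omega) hx1 hW0 hc1 hc2
        (hcase.trans (Nat.mul_le_mul_right _ hbV))
      rw [rc0] at hkey
      refine hkey.trans ?_
      have hVM : Real.sqrt ((U : ℝ) / (b : ℝ)) ≤ Real.sqrt ((U : ℝ) / V) := by
        apply Real.sqrt_le_sqrt
        apply div_le_div_of_nonneg_left rU0.le rV0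
        exact_mod_cast hbV
      have hKB := KB_nonneg b (thB m k0 σ Q Q' b)
      calc _ ≤ C1 * A * (Real.sqrt (8 * k0) / (P * (Y * U * V))) *
            (c5 * (m : ℝ) ^ (2 * (ε / 4))) * KB b (thB m k0 σ Q Q' b) *
            (Real.sqrt (1 + m / (k0 * (Y * U * V))) + Real.sqrt ((U : ℝ) / V)) := by
            gcongr
        _ = _ := by ring
    calc _ ≤ ∑ b ∈ F, (C1 * A * (Real.sqrt (8 * k0) / (P * (Y * U * V))) *
            (c5 * (m : ℝ) ^ (2 * (ε / 4))) *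
          (Real.sqrt (1 + m / (k0 * (Y * U * V))) + Real.sqrt ((U : ℝ) / V))) *
          KB b (thB m k0 σ Q Q' b) := Finset.sum_le_sum hterm
      _ ≤ (C1 * A * (Real.sqrt (8 * k0) / (P * (Y * U * V))) *
            (c5 * (m : ℝ) ^ (2 * (ε / 4))) *
          (Real.sqrt (1 + m / (k0 * (Y * U * V))) + Real.sqrt ((U : ℝ) / V))) *
          (C3 * (c6 * (m : ℝ) ^ (ε / 4)) * (V * Real.sqrt V)) := by
          rw [← Finset.mul_sum]
          gcongr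
      _ = C1 * c5 * C3 * c6 * A * ((m : ℝ) ^ (ε / 4) * (m : ℝ) ^ (2 * (ε / 4))) *
          (Real.sqrt (8 * k0) / (P * (Y * U * V)) * (V * Real.sqrt V) *
          (Real.sqrt (1 + m / (k0 * (Y * U * V))) + Real.sqrt ((U : ℝ) / V))) := by ring
      _ ≤ C1 * c5 * C3 * c6 * A * (m : ℝ) ^ ε *
          (20 * ((m : ℝ) / ((P : ℝ) ^ 2 * (Y : ℝ) ^ 3 * (U * V)))) := by gcongr
      _ = (C1 * c5 * C3 * c6 * 20) *
          (A * (m : ℝ) ^ ε * ((m : ℝ) / ((P : ℝ) ^ 2 * (Y : ℝ) ^ 3 * (U * V)))) := by ring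
      _ ≤ (C1 * c5 * C3 * c6 * 20 + C2 * (C4 + C3 * c5) * c6 * 21) *
          (A * (m : ℝ) ^ ε * ((m : ℝ) / ((P : ℝ) ^ 2 * (Y : ℝ) ^ 3 * (U * V)))) := by
          apply mul_le_mul_of_nonneg_right _ hfinal0
          have : 0 ≤ C2 * (C4 + C3 * c5) * c6 * 21 := by positivity
          linarith
      _ = _ := by ring
  · -- the long range
    have rlong : (V : ℝ) * (8 * k0) ≤ U := by exact_mod_cast hcase
    have hnum := numB_long rP rZ rY rU rV r24 rbig rne ract rCC rlong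
    have hterm : ∀ b ∈ F, ‖∑ a ∈ Ico U (2 * U), FB m k0 n H y s X σ Q a b *
        conj (FB m k0 n H y s X σ Q' a b)‖ ≤
        C2 * A / (P * (Y * U * V)) *
          (U * (‖∑ x ∈ range b, eInv b (thB m k0 σ Q Q' b) (x : ℤ)‖ / (b : ℝ)) +
          (1 + m / (k0 * (Y * U * V))) * (8 * k0) * (c5 * (m : ℝ) ^ (2 * (ε / 4))) *
            KB b (thB m k0 σ Q Q' b)) := by
      intro b hb
      obtain ⟨hb0, hbn, hQb, hQ'b, hbV, hbk, hQbk, hQ'bk, hc1, hc2, hlog⟩ := hone b hb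
      obtain ⟨x1, hx1, hsum⟩ := offB_sum hp H y s X σ hQ hQ' hb0 hU hbn hQb hQ'b
      rw [← hm] at hsum
      rw [hsum]
      have hkey := h2 he hm1 hy s σ hb0 hbk (thB m k0 σ Q Q' b) (x0 := U - 1) (x1 := x1) (L := U)
        (c0 := Y * U * V) hQbk hQ'bk hU (by omega) hx1 hW0 hc1 hc2
      rw [rc0] at hkey
      refine hkey.trans ?_
      have hKB := KB_nonneg b (thB m k0 σ Q Q' b)
      calc _ ≤ C2 * A / (P * (Y * U * V)) *
          (U * (‖∑ x ∈ range b, eInv b (thB m k0 σ Q Q' b) (x : ℤ)‖ / (b : ℝ)) +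
          (1 + m / (k0 * (Y * U * V))) * KB b (thB m k0 σ Q Q' b) * (8 * k0) *
            (c5 * (m : ℝ) ^ (2 * (ε / 4)))) := by gcongr
        _ = _ := by ring
    have hmm1 : (1 : ℝ) ≤ (m : ℝ) ^ (2 * (ε / 4)) := Real.one_le_rpow rm1 (by linarith)
    calc _ ≤ ∑ b ∈ F, C2 * A / (P * (Y * U * V)) *
          (U * (‖∑ x ∈ range b, eInv b (thB m k0 σ Q Q' b) (x : ℤ)‖ / (b : ℝ)) +
          (1 + m / (k0 * (Y * U * V))) * (8 * k0) * (c5 * (m : ℝ) ^ (2 * (ε / 4))) *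
            KB b (thB m k0 σ Q Q' b)) := Finset.sum_le_sum hterm
      _ = C2 * A / (P * (Y * U * V)) *
          (U * (∑ b ∈ F, ‖∑ x ∈ range b, eInv b (thB m k0 σ Q Q' b) (x : ℤ)‖ / (b : ℝ)) +
          (1 + m / (k0 * (Y * U * V))) * (8 * k0) * (c5 * (m : ℝ) ^ (2 * (ε / 4))) *
            ∑ b ∈ F, KB b (thB m k0 σ Q Q' b)) := by
          rw [← Finset.mul_sum, Finset.sum_add_distrib, ← Finset.mul_sum, ← Finset.mul_sum]
      _ ≤ C2 * A / (P * (Y * U * V)) *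
          (U * (C4 * (c6 * (m : ℝ) ^ (ε / 4))) +
          (1 + m / (k0 * (Y * U * V))) * (8 * k0) * (c5 * (m : ℝ) ^ (2 * (ε / 4))) *
            (C3 * (c6 * (m : ℝ) ^ (ε / 4)) * (V * Real.sqrt V))) := by gcongr
      _ = C2 * A * c6 * (m : ℝ) ^ (ε / 4) * (1 / (P * (Y * U * V)) *
          (C4 * U + C3 * c5 * (m : ℝ) ^ (2 * (ε / 4)) *
            ((1 + m / (k0 * (Y * U * V))) * (V * Real.sqrt V) * (8 * k0)))) := by ring
      _ ≤ C2 * A * c6 * (m : ℝ) ^ (ε / 4) * (1 / (P * (Y * U * V)) *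
          ((C4 + C3 * c5) * (m : ℝ) ^ (2 * (ε / 4)) * U +
            (C4 + C3 * c5) * (m : ℝ) ^ (2 * (ε / 4)) *
            ((1 + m / (k0 * (Y * U * V))) * (V * Real.sqrt V) * (8 * k0)))) := by
          have e1 : C4 ≤ (C4 + C3 * c5) * (m : ℝ) ^ (2 * (ε / 4)) := by
            have e2 : 0 ≤ C3 * c5 := by positivity
            nlinarith
          have e3 : C3 * c5 ≤ C4 + C3 * c5 := by linarith
          gcongr
      _ = C2 * A * (C4 + C3 * c5) * c6 * ((m : ℝ) ^ (ε / 4) * (m : ℝ) ^ (2 * (ε / 4))) *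
          (1 / (P * (Y * U * V)) * (U +
            (1 + m / (k0 * (Y * U * V))) * (V * Real.sqrt V) * (8 * k0))) := by ring
      _ ≤ C2 * A * (C4 + C3 * c5) * c6 * (m : ℝ) ^ ε *
          (21 * ((m : ℝ) / ((P : ℝ) ^ 2 * (Y : ℝ) ^ 3 * (U * V)))) := by gcongr
      _ = (C2 * (C4 + C3 * c5) * c6 * 21) *
          (A * (m : ℝ) ^ ε * ((m : ℝ) / ((P : ℝ) ^ 2 * (Y : ℝ) ^ 3 * (U * V)))) := by ring
      _ ≤ (C1 * c5 * C3 * c6 * 20 + C2 * (C4 + C3 * c5) * c6 * 21) *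
          (A * (m : ℝ) ^ ε * ((m : ℝ) / ((P : ℝ) ^ 2 * (Y : ℝ) ^ 3 * (U * V)))) := by
          apply mul_le_mul_of_nonneg_right _ hfinal0
          have : 0 ≤ C1 * c5 * C3 * c6 * 20 := by positivity
          linarith
      _ = _ := by ring

end Pool.Agent.Work.MP_af11aa_nt.T
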