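import Mathlib
import Pool.Agent.Work.MP_af11aa_nt.T.OffB
import Pool.Agent.Work.MP_af11aa_nt.T.Diag
import Pool.Agent.Work.MP_af11aa_nt.T.CauchyQ

/-!
MODULE TypeB (blocks of type B).
As TypeA. By SwapH (u = Q a, v = b) the summand of Tb is c_Q J a b FB (m2 m1) k0 n (H (!σ)) y s X (!σ) Q a b with c_Q = jc Q m1,
J a b = if a.Coprime n then jc (a b) m1 else 0 (condition (Q b).Coprime n is inside FB). CauchyQ.cauchyQ; then
‖∑_a ∑_b FB conj FB‖ ≤ ∑_b ‖∑_a‖ (exchange the sums), OffB.offB for Q ≠ Q', Diag.diagB for Q = Q'.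
-/

set_option autoImplicit false

namespace Pool.Agent.Work.MP_af11aa_nt.T

open Finset ComplexConjugate Pool.Agent.Work.MP_af11aa_nt.W

private theorem tb_zero {m1 m2 k0 n : ℕ} (H : Bool → ℤ → ℂ) (y s : ℝ) (S : Finset ℕ) (X : ℕ)
    (σ : Bool) (U V Y : ℕ) (hS : ∀ Q ∈ S, Y < Q)
    (hX : 2 * (X * k0) ≤ 3 * (m2 * m1)) (hlt : 3 * (m2 * m1) < 2 * (k0 * (Y * U * V))) :
    Tb m1 m2 k0 n H y s S X σ U V = 0 := by
  unfold Tb
  refine Finset.sum_eq_zero fun Q hQ => Finset.sum_eq_zero fun a ha =>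
    Finset.sum_eq_zero fun b hb => ?_
  rw [if_neg]
  intro hle
  have hQ' := hS Q hQ
  rw [Finset.mem_Ico] at ha hb
  have h1 : Y * U * V ≤ Q * a * b := Nat.mul_le_mul (Nat.mul_le_mul hQ'.le ha.1) hb.1
  have h2 : Y * U * V ≤ X := h1.trans hle
  have h3 : k0 * (Y * U * V) ≤ k0 * X := Nat.mul_le_mul_left _ h2
  nlinarith

private theorem tb_card {P k0 m1 m2 n Y Z : ℕ} {S : Finset ℕ} (hp : Par P k0 m1 m2 n Y Z S) :
    (S.card : ℝ) ≤ 3 * Y := by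
  have h1 : S ⊆ Ioc Y (4 * Y) := by
    intro Q hQ
    have h := hp.hS Q hQ
    rw [Finset.mem_Ioc]
    exact ⟨h.2.1, h.2.2.1⟩
  have h2 := Finset.card_le_card h1
  rw [Nat.card_Ioc] at h2
  have h3 : S.card ≤ 3 * Y := by omega
  exact_mod_cast h3

theorem typeB (ε : ℝ) (hε : 0 < ε) : ∃ C : ℝ, 0 < C ∧ ∀ {P k0 m1 m2 n Y Z : ℕ} {S : Finset ℕ}
    (_ : Par P k0 m1 m2 n Y Z S) {A : ℝ} {H : Bool → ℤ → ℂ} {β : ℤ → ℝ}
    (_ : ∀ σ, Env P k0 A (H σ) β) (_ : SwapH k0 m1 m2 H) {y : ℝ}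
    (_ : y ∈ Set.Ico (1 / ((m2 * m1 : ℕ) : ℝ)) (2 / ((m2 * m1 : ℕ) : ℝ))) (s : ℝ) {X : ℕ}
    (_ : 2 * (X * k0) ≤ 3 * (m2 * m1)) (σ : Bool) {U V : ℕ} (_ : 0 < U) (_ : 0 < V)
    (_ : m2 * m1 ≤ P * Y * (Y * U * V)) (_ : Z * V ≤ Y * U)
    (_ : P * Y * (Y * U) ≤ m2 * m1),
    ‖Tb m1 m2 k0 n H y s S X σ U V‖ ^ 2 ≤
      C * A ^ 2 * ((m2 * m1 : ℕ) : ℝ) ^ ε * (((m2 * m1 : ℕ) : ℝ) / ((P : ℝ) ^ 2 * Y)) := by
  obtain ⟨C0, hC0, hoff⟩ := offB ε hε
  refine ⟨3 + 9 * C0, by positivity, ?_⟩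
  intro P k0 m1 m2 n Y Z S hp A H β he hsw y hy s X hX σ U V hU hV hact hAB hPYU
  have hP0 : 0 < P := hp.hP
  have hY0 : 0 < Y := by rw [hp.hY]; exact pow_pos hp.hZ 3
  have hPR : (0 : ℝ) < P := by exact_mod_cast hP0
  have hYR : (0 : ℝ) < Y := by exact_mod_cast hY0
  have hUR : (0 : ℝ) < U := by exact_mod_cast hU
  have hVR : (0 : ℝ) < V := by exact_mod_cast hV
  have hm0 : 0 < m2 * m1 := lt_of_lt_of_le (by positivity) hp.hbig
  have hmR : (1 : ℝ) ≤ ((m2 * m1 : ℕ) : ℝ) := by exact_mod_cast hm0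
  have hA1 : 1 ≤ A := (he σ).hA
  have hme : (1 : ℝ) ≤ ((m2 * m1 : ℕ) : ℝ) ^ ε := Real.one_le_rpow hmR hε.le
  set m := m2 * m1 with hm
  have hRHS0 : 0 ≤ (3 + 9 * C0) * A ^ 2 * (m : ℝ) ^ ε * ((m : ℝ) / ((P : ℝ) ^ 2 * Y)) := by
    positivity
  rcases Nat.lt_or_ge (3 * m) (2 * (k0 * (Y * U * V))) with hlt | hne
  · rw [tb_zero H y s S X σ U V Y (fun Q hQ => (hp.hS Q hQ).2.1) hX hlt]
    simpa using hRHS0
  -- the summand
  have hterm : ∀ Q ∈ S, ∀ a ∈ Ico U (2 * U), ∀ b ∈ Ico V (2 * V),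
      (if Q * a * b ≤ X then Fq m1 m2 k0 n H y s σ Q a b else 0) =
      jc (Q : ℤ) m1 * (if a.Coprime n then jc ((a : ℤ) * b) m1 else 0) *
        FB m k0 n (H (!σ)) y s X (!σ) Q a b := by
    intro Q hQ a ha b hb
    rw [Finset.mem_Ico] at ha hb
    have hQ0 : 0 < Q := (hp.hS Q hQ).1.pos
    unfold Fq FB
    rw [← hm]
    have hco : (Q * a * b).Coprime n ↔ (Q * b).Coprime n ∧ a.Coprime n := by
      rw [show Q * a * b = (Q * b) * a by ring]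
      exact Nat.coprime_mul_iff_left
    have hj : jc ((Q * a * b : ℕ) : ℤ) m1 = jc (Q : ℤ) m1 * jc ((a : ℤ) * b) m1 := by
      rw [← jc_mul]
      congr 1
      push_cast
      ring
    by_cases hall : (Q * a * b ≤ X ∧ (Q * a).Coprime b ∧ (Q * b).Coprime n) ∧ a.Coprime n
    · obtain ⟨⟨h1, h2, h3⟩, h4⟩ := hall
      have hcn : (Q * a * b).Coprime n := hco.2 ⟨h3, h4⟩
      have hck : (Q * a * b).Coprime k0 :=
        Nat.Coprime.coprime_dvd_right (Dvd.intro_left 8 rfl) ((hp.hn _).1 hcn).1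
      have hck' := Nat.coprime_mul_iff_left.1 hck
      have hs := hsw y s σ (Q * a) b (Nat.mul_pos hQ0 (by omega)) (by omega) h2 hck'.1 hck'.2
      rw [← hm] at hs
      rw [if_pos h1, if_pos (show (Q * a).Coprime b ∧ (Q * a * b).Coprime n from
        ⟨h2, hcn⟩), if_pos h4,
        if_pos (show (Q * a).Coprime b ∧ (Q * b).Coprime n ∧ Q * a * b ≤ X from ⟨h2, h3, h1⟩),
        hs, hj]
      ring
    · trans (0 : ℂ)
      · split_ifs with g1 g2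
        · exact absurd ⟨⟨g1, g2.1, (hco.1 g2.2).1⟩, (hco.1 g2.2).2⟩ hall
        · rfl
        · rfl
      · by_cases h4 : a.Coprime n
        · rw [if_neg (fun g : (Q * a).Coprime b ∧ (Q * b).Coprime n ∧ Q * a * b ≤ X =>
            hall ⟨⟨g.2.2, g.1, g.2.1⟩, h4⟩), mul_zero]
        · rw [if_neg h4]
          ring
  have hTb : Tb m1 m2 k0 n H y s S X σ U V = ∑ Q ∈ S, ∑ a ∈ Ico U (2 * U), ∑ b ∈ Ico V (2 * V),
      jc (Q : ℤ) m1 * (if a.Coprime n then jc ((a : ℤ) * b) m1 else 0) *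
        FB m k0 n (H (!σ)) y s X (!σ) Q a b := by
    unfold Tb
    exact Finset.sum_congr rfl fun Q hQ => Finset.sum_congr rfl fun a ha =>
      Finset.sum_congr rfl fun b hb => hterm Q hQ a ha b hb
  have hcau := cauchyQ S (Ico U (2 * U)) (Ico V (2 * V)) (fun Q => jc (Q : ℤ) m1)
    (fun Q => jc_norm _ _) (fun a b => if a.Coprime n then jc ((a : ℤ) * b) m1 else 0)
    (fun a b => by
      show ‖(if a.Coprime n then jc ((a : ℤ) * b) m1 else 0 : ℂ)‖ ≤ 1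
      split_ifs
      · exact jc_norm _ _
      · rw [norm_zero]; exact zero_le_one)
    (fun Q a b => FB m k0 n (H (!σ)) y s X (!σ) Q a b)
  rw [hTb]
  refine hcau.trans ?_
  rw [Nat.card_Ico, Nat.card_Ico, show 2 * U - U = U by omega, show 2 * V - V = V by omega]
  -- arithmetic facts
  have hPP : P ^ 2 ≤ U * V := by
    have h1 : P ^ 3 * Y ^ 7 ≤ P * Y * (Y * U * V) := hp.hbig.trans hact
    have h2 : (P * Y ^ 2) * (P ^ 2 * Y ^ 5) ≤ (P * Y ^ 2) * (U * V) := by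
      calc (P * Y ^ 2) * (P ^ 2 * Y ^ 5) = P ^ 3 * Y ^ 7 := by ring
        _ ≤ P * Y * (Y * U * V) := h1
        _ = (P * Y ^ 2) * (U * V) := by ring
    have h3 : P ^ 2 * Y ^ 5 ≤ U * V := Nat.le_of_mul_le_mul_left h2 (by positivity)
    have h4 : P ^ 2 * 1 ≤ P ^ 2 * Y ^ 5 := Nat.mul_le_mul_left _ (Nat.one_le_pow _ _ hY0)
    omega
  have h24 : 24 * P ≤ k0 := Nat.le_of_dvd hp.hk0 hp.h24
  have h16 : 16 * P * (Y * U * V) ≤ m := by
    have h1 : 24 * P * (Y * U * V) ≤ k0 * (Y * U * V) := Nat.mul_le_mul_right _ h24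
    have h2 : 2 * (24 * P * (Y * U * V)) ≤ 3 * m := by omega
    nlinarith
  have h16R : 16 * (P : ℝ) * (Y * U * V) ≤ m := by exact_mod_cast h16
  set B := (m : ℝ) / ((P : ℝ) ^ 2 * (Y : ℝ) ^ 3 * (U * V)) with hB
  have hB0 : 0 ≤ B := by positivity
  have hent : ∀ Q ∈ S, ∀ Q' ∈ S, ‖∑ a ∈ Ico U (2 * U), ∑ b ∈ Ico V (2 * V),
      FB m k0 n (H (!σ)) y s X (!σ) Q a b * conj (FB m k0 n (H (!σ)) y s X (!σ) Q' a b)‖ ≤
      (if Q' = Q then 16 * A / (P * Y) else 0) + C0 * A * (m : ℝ) ^ ε * B := by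
    intro Q hQ Q' hQ'
    have hpos : 0 ≤ C0 * A * (m : ℝ) ^ ε * B := by positivity
    split_ifs with hQQ
    · subst hQQ
      have h1 := diagB hp (he (!σ)) hy s X (!σ) hU hV hPP hQ
      rw [← hm] at h1
      have h2 : ‖∑ a ∈ Ico U (2 * U), ∑ b ∈ Ico V (2 * V),
          FB m k0 n (H (!σ)) y s X (!σ) Q' a b *
            conj (FB m k0 n (H (!σ)) y s X (!σ) Q' a b)‖ ≤
          ∑ a ∈ Ico U (2 * U), ∑ b ∈ Ico V (2 * V),
            ‖FB m k0 n (H (!σ)) y s X (!σ) Q' a b‖ ^ 2 := by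
        refine norm_sum_le_of_le _ fun a _ => norm_sum_le_of_le _ fun b _ => ?_
        rw [norm_mul, Complex.norm_conj, sq]
      linarith
    · rw [zero_add, Finset.sum_comm]
      refine (norm_sum_le _ _).trans ?_
      have h1 := hoff hp (he (!σ)) hy s X (!σ) hU hV (by rw [← hm]; exact hne) hAB hact hPYU hQ hQ'
        (fun h => hQQ h.symm)
      rw [← hm] at h1
      exact h1
  have hsum : ∑ Q ∈ S, ∑ Q' ∈ S, ‖∑ a ∈ Ico U (2 * U), ∑ b ∈ Ico V (2 * V),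
      FB m k0 n (H (!σ)) y s X (!σ) Q a b * conj (FB m k0 n (H (!σ)) y s X (!σ) Q' a b)‖ ≤
      S.card * (16 * A / (P * Y)) + S.card * (S.card * (C0 * A * (m : ℝ) ^ ε * B)) := by
    calc _ ≤ ∑ Q ∈ S, ∑ Q' ∈ S, ((if Q' = Q then 16 * A / (P * Y) else 0) +
          C0 * A * (m : ℝ) ^ ε * B) :=
          Finset.sum_le_sum fun Q hQ => Finset.sum_le_sum fun Q' hQ' => hent Q hQ Q' hQ'
      _ = ∑ Q ∈ S, (16 * A / (P * Y) + S.card * (C0 * A * (m : ℝ) ^ ε * B)) := by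
          refine Finset.sum_congr rfl fun Q hQ => ?_
          rw [Finset.sum_add_distrib, Finset.sum_ite_eq', if_pos hQ, Finset.sum_const,
            nsmul_eq_mul]
      _ = _ := by
          rw [Finset.sum_const, nsmul_eq_mul]
          ring
  have hcard := tb_card hp
  have hcard0 : (0 : ℝ) ≤ S.card := Nat.cast_nonneg _
  calc (U : ℝ) * V * _ ≤ U * V * (S.card * (16 * A / (P * Y)) +
        S.card * (S.card * (C0 * A * (m : ℝ) ^ ε * B))) :=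
        mul_le_mul_of_nonneg_left hsum (by positivity)
    _ ≤ U * V * (3 * Y * (16 * A / (P * Y)) +
        3 * Y * (3 * Y * (C0 * A * (m : ℝ) ^ ε * B))) := by
        have hAA : 0 ≤ A := by linarith
        gcongr
    _ = 3 * A * (16 * P * (Y * U * V) / (P ^ 2 * Y)) +
        9 * C0 * A * (m : ℝ) ^ ε * (m / (P ^ 2 * Y)) := by
        rw [hB]
        field_simp
        ring
    _ ≤ 3 * A * (m / (P ^ 2 * Y)) + 9 * C0 * A * (m : ℝ) ^ ε * (m / (P ^ 2 * Y)) := by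
        have hAA : 0 ≤ A := by linarith
        gcongr
    _ ≤ 3 * A ^ 2 * (m : ℝ) ^ ε * (m / (P ^ 2 * Y)) +
        9 * C0 * A ^ 2 * (m : ℝ) ^ ε * (m / (P ^ 2 * Y)) := by
        have hAA : A ≤ A ^ 2 := by nlinarith
        have hA0 : 0 ≤ A := by linarith
        have hAm : A ≤ A ^ 2 * (m : ℝ) ^ ε := by
          calc A ≤ A ^ 2 := hAA
            _ = A ^ 2 * 1 := (mul_one _).symm
            _ ≤ A ^ 2 * (m : ℝ) ^ ε := mul_le_mul_of_nonneg_left hme (by positivity)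
        refine add_le_add ?_ (by gcongr)
        refine mul_le_mul_of_nonneg_right ?_ (by positivity)
        linarith
    _ = _ := by ring

end Pool.Agent.Work.MP_af11aa_nt.T
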