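import Mathlib
import Pool.Agent.Work.MP_af11aa_nt.T.KloM

/-!
MODULE JacKlo (Kloosterman sums with a Jacobi symbol of coprime modulus). CRT modulo m' M: with μ inverse of M mod m' and δ inverse
of m' mod M, e(j x/(m' M)) = e(j μ x/m') e(j δ x/M), so the sum is (∑_{x<m'} (x/m') e(j μ x/m')) (∑_{x<M} eInv M θ x e(j δ x/M)).
Second factor ≤ KB M θ (klo_bound). First factor: Gauss sum of the Jacobi symbol modulo the odd squarefree m':
‖∑_{x<m'} (x/m') e(a x/m')‖ ≤ √m' for every a: by CRT it is a product over the primes l ∣ m' of ± ∑_{x<l} (x/l) e(a' x/l), which has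
norm √l if l ∤ a' and is 0 if l ∣ a' (Mathlib: gaussSum_sq, quadraticChar); or square directly: for squarefree odd m',
|∑|² = ... Induction on the primes of m' is fine.
-/

set_option autoImplicit false

namespace Pool.Agent.Work.MP_af11aa_nt.T

open Finset Pool.Agent.Work.MP_af11aa_nt.W

private lemma jk_jc_congr {n : ℕ} {x y : ℤ} (h : x ≡ y [ZMOD n]) : jc x n = jc y n := by
  unfold jc
  rw [jacobiSym.mod_left x, h, ← jacobiSym.mod_left]

private lemma jk_ec_congr {c : ℕ} (hc : 0 < c) (j : ℤ) {x y : ℤ} (h : x ≡ y [ZMOD c]) :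
    ec c (j * x) = ec c (j * y) := by
  refine r2_ec_congr hc.ne' ?_
  have : j * y - j * x = j * (y - x) := by ring
  rw [this]
  exact Dvd.dvd.mul_left h.dvd _

private lemma jk_prime (l : ℕ) (hl : l.Prime) (h2 : l ≠ 2) (a : ℤ) :
    ‖∑ x ∈ range l, jc (x : ℤ) l * ec l (a * x)‖ ≤ Real.sqrt l := by
  have : Fact l.Prime := ⟨hl⟩
  set χ : MulChar (ZMod l) ℂ := (quadraticChar (ZMod l)).ringHomComp (Int.castRingHom ℂ) with hχ
  have hinj : Function.Injective (Int.castRingHom ℂ) := Int.cast_injective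
  have hχ1 : χ ≠ 1 := by
    rw [hχ, MulChar.ringHomComp_ne_one_iff hinj]
    exact quadraticChar_ne_one (by rwa [ZMod.ringChar_zmod_n])
  have hχ2 : χ.IsQuadratic := (quadraticChar_isQuadratic (ZMod l)).comp _
  have h1 : ∑ x ∈ range l, jc (x : ℤ) l * ec l (a * x) =
      gaussSum χ (AddChar.mulShift (ZMod.stdAddChar (N := l)) (a : ZMod l)) := by
    unfold gaussSum
    rw [Pool.Agent.Work.MP_af11aa_nt.K.Salie.sum_zmod]
    refine Finset.sum_congr rfl fun x _ ↦ ?_
    rw [AddChar.mulShift_apply, ktr_std]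
    congr 1
    · unfold jc
      rw [← jacobiSym.legendreSym.to_jacobiSym, legendreSym, hχ, MulChar.ringHomComp_apply]
      simp
    · congr 1
      push_cast
      rfl
  rw [h1]
  by_cases ha : (a : ZMod l) = 0
  · rw [ha, AddChar.mulShift_zero]
    have h3 : gaussSum χ (1 : AddChar (ZMod l) ℂ) = 0 := by
      unfold gaussSum
      simp only [AddChar.one_apply, mul_one]
      exact MulChar.sum_eq_zero_of_ne_one hχ1
    rw [h3, norm_zero]
    exact Real.sqrt_nonneg _
  · have h3 := gaussSum_mulShift χ (ZMod.stdAddChar (N := l)) (Units.mk0 (a : ZMod l) ha)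
    rw [Units.val_mk0] at h3
    have h4 := gaussSum_sq hχ1 hχ2 (ZMod.isPrimitive_stdAddChar l)
    have hn : ∀ u : ZMod l, u ≠ 0 → ‖χ u‖ = 1 := by
      intro u hu
      rcases hχ2 u with h | h | h
      · exfalso
        rw [hχ, MulChar.ringHomComp_apply] at h
        have h5 : quadraticChar (ZMod l) u = 0 := hinj (by rw [h, map_zero])
        exact hu (quadraticChar_eq_zero_iff.1 h5)
      · rw [h, norm_one]
      · rw [h, norm_neg, norm_one]
    have h5 : ‖gaussSum χ (ZMod.stdAddChar (N := l))‖ ^ 2 = l := by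
      rw [← norm_pow, h4, norm_mul, hn (-1) (neg_ne_zero.2 one_ne_zero), one_mul, ZMod.card,
        Complex.norm_natCast]
    have h6 : ‖gaussSum χ (AddChar.mulShift (ZMod.stdAddChar (N := l)) (a : ZMod l))‖ =
        ‖gaussSum χ (ZMod.stdAddChar (N := l))‖ := by
      rw [← h3, norm_mul, hn _ ha, one_mul]
    rw [h6]
    refine Real.le_sqrt_of_sq_le ?_
    rw [h5]

theorem jac_gauss (m' : ℕ) (hodd : Odd m') (hsq : Squarefree m') (a : ℤ) :
    ‖∑ x ∈ range m', jc (x : ℤ) m' * ec m' (a * x)‖ ≤ Real.sqrt m' := by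
  induction m' using Nat.strong_induction_on generalizing a with
  | _ m' ih =>
    by_cases h1 : m' = 1
    · subst h1
      rw [sum_range_one]
      unfold jc
      rw [jacobiSym.one_right]
      simp [norm_ec]
    · obtain ⟨l, hl, n, rfl⟩ := Nat.exists_prime_and_dvd h1
      have hm : 0 < l * n := hodd.pos
      have hn : 0 < n := Nat.pos_of_mul_pos_left hm
      rw [Nat.odd_mul] at hodd
      have h2 : l ≠ 2 := by
        rintro rfl
        exact absurd hodd.1 (by decide)
      have hcop : l.Coprime n := Nat.coprime_of_squarefree_mul hsq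
      have hc : IsCoprime ((n : ℕ) : ℤ) (l : ℤ) := Nat.isCoprime_iff_coprime.2 hcop.symm
      have hu := r2_ivz hl.ne_zero hc
      have hv := r2_ivz hn.ne' hc.symm
      have hlt : n < l * n := by
        have := Nat.mul_le_mul_right n hl.two_le
        omega
      have : NeZero l := ⟨hl.ne_zero⟩
      have : NeZero n := ⟨hn.ne'⟩
      have key : ∑ x ∈ range (l * n), jc (x : ℤ) (l * n) * ec (l * n) (a * x) =
          (∑ x ∈ range l, jc (x : ℤ) l * ec l (a * ivz l n * x)) *
            ∑ x ∈ range n, jc (x : ℤ) n * ec n (a * ivz n l * x) := by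
        rw [← klom_crt hl.pos hn hcop (fun x ↦ jc x l * ec l (a * ivz l n * x))
          (fun x ↦ jc x n * ec n (a * ivz n l * x))
          (fun x y h ↦ by rw [jk_jc_congr h, jk_ec_congr hl.pos _ h])
          (fun x y h ↦ by rw [jk_jc_congr h, jk_ec_congr hn _ h])]
        refine Finset.sum_congr rfl fun x _ ↦ ?_
        rw [r2_two hl.ne_zero hn.ne' hcop hu hv]
        have e1 : a * (x : ℤ) * ivz l n = a * ivz l n * x := by ring
        have e2 : a * (x : ℤ) * ivz n l = a * ivz n l * x := by ring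
        have e3 : jc (x : ℤ) (l * n) = jc (x : ℤ) l * jc (x : ℤ) n := by
          unfold jc
          rw [jacobiSym.mul_right, Int.cast_mul]
        rw [e1, e2, e3]
        ring
      rw [key, norm_mul]
      push_cast
      rw [Real.sqrt_mul (Nat.cast_nonneg _)]
      exact mul_le_mul (jk_prime l hl h2 _)
        (ih n hlt hodd.2 (hsq.squarefree_of_dvd (dvd_mul_left _ _)) _) (norm_nonneg _)
        (Real.sqrt_nonneg _)

theorem jac_klo (m' M : ℕ) (hM : 0 < M) (hodd : Odd m') (hsq : Squarefree m')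
    (hc : m'.Coprime M) (θ j : ℤ) :
    ‖∑ x ∈ range (m' * M), (jc (x : ℤ) m' * eInv M θ (x : ℤ)) * ec (m' * M) (j * x)‖ ≤
      Real.sqrt m' * KB M θ := by
  have hm : 0 < m' := hodd.pos
  have hco : IsCoprime ((M : ℕ) : ℤ) (m' : ℤ) := Nat.isCoprime_iff_coprime.2 hc.symm
  have hu := r2_ivz hm.ne' hco
  have hv := r2_ivz hM.ne' hco.symm
  have key : ∑ x ∈ range (m' * M), (jc (x : ℤ) m' * eInv M θ (x : ℤ)) * ec (m' * M) (j * x) =
      (∑ x ∈ range m', jc (x : ℤ) m' * ec m' (j * ivz m' M * x)) *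
        ∑ x ∈ range M, eInv M θ (x : ℤ) * ec M (j * ivz M m' * x) := by
    rw [← klom_crt hm hM hc (fun x ↦ jc x m' * ec m' (j * ivz m' M * x))
      (fun x ↦ eInv M θ x * ec M (j * ivz M m' * x))
      (fun x y h ↦ by rw [jk_jc_congr h, jk_ec_congr hm _ h])
      (fun x y h ↦ by rw [eInv_congr _ h, jk_ec_congr hM _ h])]
    refine Finset.sum_congr rfl fun x _ ↦ ?_
    rw [r2_two hm.ne' hM.ne' hc hu hv]
    have e1 : j * (x : ℤ) * ivz m' M = j * ivz m' M * x := by ring
    have e2 : j * (x : ℤ) * ivz M m' = j * ivz M m' * x := by ring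
    rw [e1, e2]
    ring
  rw [key, norm_mul]
  exact mul_le_mul (jac_gauss m' hodd hsq _) (klo_bound M hM _ _) (norm_nonneg _)
    (Real.sqrt_nonneg _)

end Pool.Agent.Work.MP_af11aa_nt.T
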