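import Mathlib
import Pool.Agent.Work.MP_af11aa_nt.T.WPair
import Pool.Agent.Work.MP_af11aa_nt.T.HMom
import Pool.Agent.Work.MP_af11aa_nt.T.JacKlo
import Pool.Agent.Work.MP_af11aa_nt.T.ClShort

/-!
MODULE InnerC (the inner sum with the Jacobi symbol kept).
Put g1 = gcd(m1,k0), m' = m1/g1: m1 squarefree, so m' is prime to g1 and to k0; m' is odd, so prime to 8 k0; jc a m1 = jc a m' * jc a g1 and
jc · g1 has period g1 ∣ k0. Restrict to the support of the weight by WPair.wgt_one. Apply ClShort.cl_short with D = 8k0,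
h x = H(αx) jc x g1, k x = jc x m' eInv M θ x of period m' M, K = √m' KB M θ (JacKlo.jac_klo, m' prime to M), E = A (8k0) k0²/P (HMom.hmom2,
‖jc‖ ≤ 1), G = 2/(k0 √c0), Z = 41 Zg; L ≤ m1 = m' g1 ≤ m' M 8 k0. √E ≤ A √(8k0) k0/√P. The bound
5 K G √E (1+log)(√Z + √(L/(m'M))), and √m' (√(41 Zg) + √(L/(m' M))) ≤ 7 (√(m1 Zg) + √(L/M)); m' M 8k0 ≤ m1 M 8k0 in the log: C = 70.
-/

set_option autoImplicit false

namespace Pool.Agent.Work.MP_af11aa_nt.T

open Finset ComplexConjugate Pool.Agent.Work.MP_af11aa_nt.W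

private lemma innerC_per {P k0 : ℕ} {A : ℝ} {H : ℤ → ℂ} {β : ℤ → ℝ} (he : Env P k0 A H β)
    (x : ℤ) (n : ℕ) : H (x + n * (8 * k0)) = H x := by
  induction n with
  | zero => simp
  | succ n ih =>
    have : x + ((n + 1 : ℕ) : ℤ) * (8 * k0) = (x + n * (8 * k0)) + 8 * k0 := by push_cast; ring
    rw [this, he.per, ih]

private lemma innerC_jper (x : ℤ) {q : ℕ} {y : ℤ} (h : (q : ℤ) ∣ y) : jc (x + y) q = jc x q := by
  unfold jc
  rw [jacobiSym.mod_left (x + y), jacobiSym.mod_left x]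
  obtain ⟨t, rfl⟩ := h
  rw [Int.add_mul_emod_self_left]

private lemma innerC_num {A k0 P c0 K lg lg' Zg L M m' m1 : ℝ} (hA : 1 ≤ A) (hk : 0 < k0)
    (hP : 0 < P) (hc : 0 < c0) (hK : 0 ≤ K) (hlg : 0 ≤ lg) (hlg' : lg ≤ lg') (hZg : 0 ≤ Zg)
    (hL : 0 ≤ L) (hM : 0 < M) (hm' : 0 < m') (hmm : m' ≤ m1) :
    5 * (Real.sqrt m' * K) * (2 / (k0 * Real.sqrt c0)) * Real.sqrt (A * (8 * k0) * k0 ^ 2 / P) *
        (1 + lg) * (Real.sqrt (41 * Zg) + Real.sqrt (L / (m' * M))) ≤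
      70 * A * (Real.sqrt (8 * k0) / (Real.sqrt P * Real.sqrt c0)) * (1 + lg') * K *
        (Real.sqrt (m1 * Zg) + Real.sqrt (L / M)) := by
  have hA2 : A ≤ A ^ 2 := by nlinarith
  have hlg2 : 0 ≤ lg' := hlg.trans hlg'
  have hsc : 0 < Real.sqrt c0 := Real.sqrt_pos.2 hc
  have hsP : 0 < Real.sqrt P := Real.sqrt_pos.2 hP
  have hsm : 0 < Real.sqrt m' := Real.sqrt_pos.2 hm'
  have h1 : Real.sqrt (A * (8 * k0) * k0 ^ 2 / P) ≤ A * Real.sqrt (8 * k0) * k0 / Real.sqrt P := by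
    apply Real.sqrt_le_iff.2
    refine ⟨by positivity, ?_⟩
    have e1 : (A * Real.sqrt (8 * k0) * k0 / Real.sqrt P) ^ 2 =
        A ^ 2 * ((8 * k0) * k0 ^ 2) / P := by
      rw [div_pow, mul_pow, mul_pow, Real.sq_sqrt (by positivity), Real.sq_sqrt hP.le]
      ring
    have e0 : A * (8 * k0) * k0 ^ 2 / P = A * ((8 * k0) * k0 ^ 2) / P := by ring
    rw [e1, e0]
    apply div_le_div_of_nonneg_right _ hP.le
    exact mul_le_mul_of_nonneg_right hA2 (by positivity)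
  have h2 : Real.sqrt m' * (Real.sqrt (41 * Zg) + Real.sqrt (L / (m' * M))) ≤
      7 * (Real.sqrt (m1 * Zg) + Real.sqrt (L / M)) := by
    have a1 : Real.sqrt m' * Real.sqrt (41 * Zg) ≤ 7 * Real.sqrt (m1 * Zg) := by
      rw [← Real.sqrt_mul hm'.le]
      apply Real.sqrt_le_iff.2
      refine ⟨by positivity, ?_⟩
      rw [mul_pow, Real.sq_sqrt (by nlinarith)]
      have : m' * Zg ≤ m1 * Zg := mul_le_mul_of_nonneg_right hmm hZg
      nlinarith [mul_nonneg hm'.le hZg]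
    have a2 : Real.sqrt m' * Real.sqrt (L / (m' * M)) = Real.sqrt (L / M) := by
      rw [← Real.sqrt_mul hm'.le]
      congr 1
      field_simp
    have a3 : 0 ≤ Real.sqrt (L / M) := Real.sqrt_nonneg _
    rw [mul_add, a2]
    linarith
  calc 5 * (Real.sqrt m' * K) * (2 / (k0 * Real.sqrt c0)) *
        Real.sqrt (A * (8 * k0) * k0 ^ 2 / P) *
        (1 + lg) * (Real.sqrt (41 * Zg) + Real.sqrt (L / (m' * M)))
      = 5 * K * (2 / (k0 * Real.sqrt c0)) * Real.sqrt (A * (8 * k0) * k0 ^ 2 / P) *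
        (1 + lg) * (Real.sqrt m' * (Real.sqrt (41 * Zg) + Real.sqrt (L / (m' * M)))) := by ring
    _ ≤ 5 * K * (2 / (k0 * Real.sqrt c0)) * (A * Real.sqrt (8 * k0) * k0 / Real.sqrt P) *
        (1 + lg') * (7 * (Real.sqrt (m1 * Zg) + Real.sqrt (L / M))) := by
        gcongr
    _ = _ := by
        field_simp
        ring

theorem inner_c : ∃ C : ℝ, 0 < C ∧ ∀ {P k0 : ℕ} {A : ℝ} {H : ℤ → ℂ} {β : ℤ → ℝ}
    (_ : Env P k0 A H β) {m : ℕ} (_ : 0 < m) {y : ℝ} (_ : y ∈ Set.Ico (1 / (m : ℝ)) (2 / m))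
    (s : ℝ) (σ : Bool) {m1 : ℕ} (_ : Odd m1) (_ : Squarefree m1) {M : ℕ} (_ : 0 < M)
    (_ : M.Coprime (8 * k0)) (_ : M.Coprime m1) (θ : ℤ)
    {α x0 x1 L c0 : ℕ} (_ : α.Coprime (8 * k0)) (_ : 0 < L)
    (_ : L ≤ x0 + 1) (_ : x1 ≤ x0 + L) (_ : 0 < c0) (_ : c0 ≤ α * (x0 + 1)) (_ : L ≤ m1),
    ‖∑ a ∈ Ioc x0 x1, jc (a : ℤ) m1 * (H ((α * a : ℕ) : ℤ) * wgt m k0 y s σ ((α * a : ℕ) : ℝ)) *
        eInv M θ (a : ℤ)‖ ≤
      C * A * (Real.sqrt (8 * k0) / (Real.sqrt P * Real.sqrt c0)) *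
        (1 + Real.log ((m1 * M * (8 * k0) : ℕ) : ℝ)) * KB M θ *
        (Real.sqrt (m1 * (1 + m / (k0 * c0))) + Real.sqrt ((L : ℝ) / M)) := by
  refine ⟨70, by norm_num, ?_⟩
  intro P k0 A H β he m hm y hy s σ m1 hodd hsq M hM hMc hMm1 θ α x0 x1 L c0 hα hL hLx hx1 hc0
    h1 hLm
  obtain ⟨u0, u1, hu0, hu1, hout, hG, hv⟩ :=
    wgt_one m k0 hm he.hk0 hy s σ (α := α) (x0 := x0) (x1 := x1) hL hLx hc0 h1
  have hk0n : 0 < k0 := he.hk0
  have hk0 : (0 : ℝ) < k0 := by exact_mod_cast he.hk0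
  have hPr : (0 : ℝ) < P := by exact_mod_cast he.hP
  have hc0r : (0 : ℝ) < c0 := by exact_mod_cast hc0
  have hLr : (1 : ℝ) ≤ L := by exact_mod_cast hL
  have hMr : (0 : ℝ) < M := by exact_mod_cast hM
  have hm1 : 0 < m1 := hodd.pos
  -- the factorization
  obtain ⟨m', hm'⟩ : Nat.gcd m1 k0 ∣ m1 := Nat.gcd_dvd_left _ _
  set g1 := Nat.gcd m1 k0 with hg1
  have hg1pos : 0 < g1 := Nat.gcd_pos_of_pos_left _ hm1
  have hm'pos : 0 < m' := by
    rcases Nat.eq_zero_or_pos m' with h | h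
    · rw [h, mul_zero] at hm'; omega
    · exact h
  have hg1k : g1 ∣ k0 := Nat.gcd_dvd_right _ _
  have hcop : g1.Coprime m' := by
    have := hsq
    rw [hm'] at this
    exact Nat.coprime_of_squarefree_mul this
  have hm'k : m'.Coprime k0 := by
    rw [Nat.coprime_iff_gcd_eq_one]
    have hd : Nat.gcd m' k0 ∣ g1 := by
      rw [hg1]
      apply Nat.dvd_gcd
      · rw [hm']
        exact (Nat.gcd_dvd_left _ _).trans (dvd_mul_left _ _)
      · exact Nat.gcd_dvd_right _ _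
    have hd' : Nat.gcd m' k0 ∣ m' := Nat.gcd_dvd_left _ _
    have := Nat.dvd_gcd hd hd'
    rw [Nat.coprime_iff_gcd_eq_one.1 hcop] at this
    exact Nat.dvd_one.1 this
  have hm'odd : Odd m' := by
    rw [hm'] at hodd
    exact (Nat.odd_mul.1 hodd).2
  have hm'sq : Squarefree m' := by
    rw [hm'] at hsq
    exact hsq.of_mul_right
  have hm'8 : m'.Coprime (8 * k0) := by
    apply Nat.Coprime.mul_right _ hm'k
    have : (8 : ℕ) = 2 ^ 3 := by norm_num
    rw [this]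
    apply Nat.Coprime.pow_right
    exact (Nat.coprime_two_left.2 hm'odd).symm
  have hm'M : m'.Coprime M := by
    rw [hm'] at hMm1
    exact (Nat.Coprime.coprime_mul_left_right hMm1).symm
  have hjac : ∀ a : ℤ, jc a m1 = jc a g1 * jc a m' := by
    intro a
    unfold jc
    have : NeZero g1 := ⟨hg1pos.ne'⟩
    have : NeZero m' := ⟨hm'pos.ne'⟩
    conv_lhs => rw [hm']
    rw [jacobiSym.mul_right]
    push_cast
    rfl
  -- the sum restricted
  have hsum : ∑ a ∈ Ioc x0 x1, jc (a : ℤ) m1 *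
      (H ((α * a : ℕ) : ℤ) * wgt m k0 y s σ ((α * a : ℕ) : ℝ)) * eInv M θ (a : ℤ) =
      ∑ a ∈ Ioc u0 u1, (wgt m k0 y s σ ((α * a : ℕ) : ℝ)) *
        ((fun x : ℤ ↦ H ((α : ℤ) * x) * jc x g1) (a : ℤ) *
          (fun x : ℤ ↦ jc x m' * eInv M θ x) (a : ℤ)) := by
    symm
    have hsub : Ioc u0 u1 ⊆ Ioc x0 x1 := Ioc_subset_Ioc hu0 hu1
    rw [← Finset.sum_subset hsub]
    · apply Finset.sum_congr rfl
      intro b _
      rw [hjac]
      push_cast
      ring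
    · intro b hb hb'
      have h0 := hout b hb hb'
      rw [h0]
      ring
  rw [hsum]
  have key := cl_short (m' * M) (8 * k0) (Nat.mul_pos hm'pos hM)
    (Nat.mul_pos (by norm_num) he.hk0) (Nat.Coprime.mul_left hm'8 hMc)
    (fun x : ℤ ↦ H ((α : ℤ) * x) * jc x g1) (fun x : ℤ ↦ jc x m' * eInv M θ x)
    (by
      intro x
      have e1 : (α : ℤ) * (x + ((8 * k0 : ℕ) : ℤ)) = α * x + (α : ℕ) * (8 * k0) := by
        push_cast; ring
      have e2 : jc (x + ((8 * k0 : ℕ) : ℤ)) g1 = jc x g1 := by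
        apply innerC_jper
        exact_mod_cast hg1k.trans (dvd_mul_left _ _)
      simp only [e1, e2, innerC_per he])
    (by
      intro x
      have e2 : jc (x + ((m' * M : ℕ) : ℤ)) m' = jc x m' := by
        apply innerC_jper
        exact_mod_cast dvd_mul_right _ _
      have e3 : eInv M θ (x + ((m' * M : ℕ) : ℤ)) = eInv M θ x := by
        apply eInv_congr
        apply Int.ModEq.symm
        apply Int.modEq_of_dvd
        exact ⟨m', by push_cast; ring⟩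
      simp only [e2, e3])
    (Real.sqrt m' * KB M θ) (A * (8 * k0) * (k0 : ℝ) ^ 2 / P) (2 / (k0 * Real.sqrt c0))
    (41 * (1 + m / (k0 * c0))) (L : ℝ)
    (mul_nonneg (Real.sqrt_nonneg _) (KB_nonneg M θ))
    (fun j ↦ jac_klo m' M hM hm'odd hm'sq hm'M θ j)
    (by
      refine le_trans (Finset.sum_le_sum ?_) (hmom2 he α hα)
      intro x _
      rw [norm_mul]
      have b1 := jc_norm (x : ℤ) g1
      have b2 : ‖H ((α : ℤ) * x)‖ * ‖jc (x : ℤ) g1‖ ≤ ‖H ((α : ℤ) * x)‖ := by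
        have := mul_le_mul_of_nonneg_left b1 (norm_nonneg (H ((α : ℤ) * x)))
        simpa using this
      gcongr)
    (by positivity)
    (by
      have : (0 : ℝ) ≤ m / (k0 * c0) := by positivity
      linarith)
    hLr u0 u1
    (by
      have : u1 ≤ u0 + L := by omega
      exact_mod_cast this)
    (by
      have : L ≤ m' * M * (8 * k0) := by
        calc L ≤ m1 := hLm
          _ = g1 * m' := hm'
          _ ≤ k0 * m' := Nat.mul_le_mul_right _ (Nat.le_of_dvd hk0n hg1k)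
          _ ≤ (8 * k0) * m' := Nat.mul_le_mul_right _ (by omega)
          _ ≤ (8 * k0) * m' * M := Nat.le_mul_of_pos_right _ hM
          _ = m' * M * (8 * k0) := by ring
      exact_mod_cast this)
    (fun b ↦ wgt m k0 y s σ ((α * b : ℕ) : ℝ))
    hG hv
  refine key.trans ?_
  have hlg : 0 ≤ Real.log ((m' * M * (8 * k0) : ℕ) : ℝ) := Real.log_natCast_nonneg _
  have hm'm1 : m' ≤ m1 := by
    rw [hm']; exact Nat.le_mul_of_pos_left _ hg1pos
  have hlg' : Real.log ((m' * M * (8 * k0) : ℕ) : ℝ) ≤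
      Real.log ((m1 * M * (8 * k0) : ℕ) : ℝ) := by
    apply Real.log_le_log
    · have : 0 < m' * M * (8 * k0) := by positivity
      exact_mod_cast this
    · have : m' * M * (8 * k0) ≤ m1 * M * (8 * k0) := by gcongr
      exact_mod_cast this
  have hD : ((m' * M : ℕ) : ℝ) = (m' : ℝ) * M := by push_cast; ring
  rw [hD]
  exact innerC_num he.hA hk0 hPr hc0r (KB_nonneg M θ) hlg hlg' (by positivity)
    (by positivity) hMr (by exact_mod_cast hm'pos) (by exact_mod_cast hm'm1)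

end Pool.Agent.Work.MP_af11aa_nt.T
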