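import Mathlib

/-!
MODULE NumC (numerical inequality, type C; Mathlib only). W = Y U V; 16 P W ≤ m, Zg ≤ (5/2) m/(k0 W) as in NumA.
m ≤ P Y² U. Hence U ≥ m/(PY²) ≥ P²Y⁵, and 16 P Y U V ≤ m ≤ P Y² U gives 16 V ≤ Y.
Multiply by √P: need Y √(8k0) V√V (√(m Zg) + √(U/V))/√W ≤ 20 √(m/(PY)).
First: √(8k0) √(m Zg) ≤ √20 m/√W: Y V√V √20 m/W = √20 m √V/U, square 20 m² V/U² ≤ 20 m/(PY) iff P Y m V ≤ U², and
 P Y m V ≤ PY V PY²U ≤ P²Y³ V U ≤ P²Y⁴ U/16 ≤ U². Second: Y √(8k0) V √U/√(YUV) = √(8 k0 Y V), 8 k0 Y V ≤ 12 m/U ≤ 12 m/(PY).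
-/

set_option autoImplicit false

namespace Pool.Agent.Work.MP_af11aa_nt.T

private theorem sq_le {a b : ℝ} (hb : 0 ≤ b) (h : a ^ 2 ≤ b ^ 2) : a ≤ b :=
  le_of_abs_le (abs_le_of_sq_le_sq h hb)

/-- `16 P W ≤ m` -/
private theorem core1 {P k0 m W : ℝ} (hW : 0 < W) (h24 : 24 * P ≤ k0)
    (hne : 2 * (k0 * W) ≤ 3 * m) : 16 * P * W ≤ m := by
  have h1 : 24 * P * W ≤ k0 * W := mul_le_mul_of_nonneg_right h24 hW.le
  linarith

/-- the factor with the fourth root -/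
private theorem core2 {k0 m W : ℝ} (hk : 0 < k0) (hW : 0 < W) (hne : 2 * (k0 * W) ≤ 3 * m) :
    8 * k0 * (1 + m / (k0 * W)) ≤ 20 * (m / W) := by
  have h1 : 8 * k0 * (1 + m / (k0 * W)) = (8 * (k0 * W) + 8 * m) / W := by
    field_simp
  rw [h1, ← mul_div_assoc]
  exact div_le_div_of_nonneg_right (by linarith) hW.le

theorem numC {P k0 m Y Z U V : ℝ} (hP : 1 ≤ P) (hZ : 1 ≤ Z) (hY : Y = Z ^ 3) (hU : 1 ≤ U)
    (hV : 1 ≤ V) (h24 : 24 * P ≤ k0) (hbig : P ^ 3 * Y ^ 7 ≤ m)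
    (hne : 2 * (k0 * (Y * U * V)) ≤ 3 * m) (hC : m ≤ P * Y * (Y * U)) :
    Y * (Real.sqrt (8 * k0) / (Real.sqrt P * Real.sqrt (Y * U * V))) * (V * Real.sqrt V) *
        (Real.sqrt (m * (1 + m / (k0 * (Y * U * V)))) + Real.sqrt (U / V)) ≤
      20 * Real.sqrt (m / (P ^ 2 * Y)) := by
  have hY1 : 1 ≤ Y := by rw [hY]; exact one_le_pow₀ hZ
  have hP0 : 0 < P := by linarith
  have hY0 : 0 < Y := by linarith
  have hU0 : 0 < U := by linarith
  have hV0 : 0 < V := by linarith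
  have hk : 0 < k0 := by linarith
  have hm : 0 < m := lt_of_lt_of_le (by positivity) hbig
  obtain ⟨W, hW⟩ : ∃ W, W = Y * U * V := ⟨_, rfl⟩
  have hW0 : 0 < W := by rw [hW]; positivity
  rw [← hW] at hne ⊢
  have h16 := core1 hW0 h24 hne
  have hZg := core2 hk hW0 hne
  have hVY : 16 * V ≤ Y := by
    have h1 : (P * Y * U) * (16 * V) ≤ (P * Y * U) * Y := by
      calc (P * Y * U) * (16 * V) = 16 * P * W := by rw [hW]; ring
        _ ≤ m := h16
        _ ≤ P * Y * (Y * U) := hC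
        _ = (P * Y * U) * Y := by ring
    exact le_of_mul_le_mul_left h1 (by positivity)
  have hU5 : P ^ 2 * Y ^ 5 ≤ U := by
    have h1 : (P * Y ^ 2) * (P ^ 2 * Y ^ 5) ≤ (P * Y ^ 2) * U := by
      calc (P * Y ^ 2) * (P ^ 2 * Y ^ 5) = P ^ 3 * Y ^ 7 := by ring
        _ ≤ m := hbig
        _ ≤ P * Y * (Y * U) := hC
        _ = (P * Y ^ 2) * U := by ring
    exact le_of_mul_le_mul_left h1 (by positivity)
  have hi : P * Y * m * V ≤ U ^ 2 := by
    calc P * Y * m * V ≤ P * Y * (P * Y * (Y * U)) * V := by gcongr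
      _ = P ^ 2 * Y ^ 3 * U * V := by ring
      _ ≤ P ^ 2 * Y ^ 3 * U * Y := by
          gcongr
          linarith
      _ = P ^ 2 * Y ^ 4 * 1 * U := by ring
      _ ≤ P ^ 2 * Y ^ 4 * Y * U := by gcongr
      _ = (P ^ 2 * Y ^ 5) * U := by ring
      _ ≤ U * U := by gcongr
      _ = U ^ 2 := by ring
  have hPY : P * Y ≤ U := by
    calc P * Y = P * Y * 1 := by ring
      _ ≤ P * Y * (P * Y ^ 4) := by
          gcongr
          exact one_le_mul_of_one_le_of_one_le hP (one_le_pow₀ hY1)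
      _ = P ^ 2 * Y ^ 5 := by ring
      _ ≤ U := hU5
  obtain ⟨M, hM⟩ : ∃ M, M = m / (P ^ 2 * Y) := ⟨_, rfl⟩
  have hM0 : 0 < M := by rw [hM]; positivity
  rw [← hM]
  have hZg0 : 0 ≤ 1 + m / (k0 * W) := by positivity
  have T1 : Y * (Real.sqrt (8 * k0) / (Real.sqrt P * Real.sqrt W)) * (V * Real.sqrt V) *
      Real.sqrt (m * (1 + m / (k0 * W))) ≤ 5 * Real.sqrt M := by
    refine sq_le (by positivity) ?_
    rw [mul_pow, mul_pow, mul_pow, mul_pow, div_pow, mul_pow, mul_pow,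
      Real.sq_sqrt (by positivity), Real.sq_sqrt hP0.le,
      Real.sq_sqrt hW0.le, Real.sq_sqrt hV0.le, Real.sq_sqrt (by positivity), Real.sq_sqrt hM0.le]
    calc Y ^ 2 * (8 * k0 / (P * W)) * (V ^ 2 * V) * (m * (1 + m / (k0 * W))) =
          Y ^ 2 * (V ^ 2 * V) * m / (P * W) * (8 * k0 * (1 + m / (k0 * W))) := by ring
      _ ≤ Y ^ 2 * (V ^ 2 * V) * m / (P * W) * (20 * (m / W)) := by gcongr
      _ = 20 * (m ^ 2 * V / (P * U ^ 2)) := by rw [hW]; field_simp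
      _ ≤ 20 * M := by
          gcongr
          rw [hM, div_le_div_iff₀ (by positivity) (by positivity)]
          calc m ^ 2 * V * (P ^ 2 * Y) = (m * P) * (P * Y * m * V) := by ring
            _ ≤ (m * P) * U ^ 2 := by gcongr
            _ = m * (P * U ^ 2) := by ring
      _ ≤ 5 ^ 2 * M := by nlinarith
  have T2 : Y * (Real.sqrt (8 * k0) / (Real.sqrt P * Real.sqrt W)) * (V * Real.sqrt V) *
      Real.sqrt (U / V) ≤ 4 * Real.sqrt M := by
    refine sq_le (by positivity) ?_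
    rw [mul_pow, mul_pow, mul_pow, mul_pow, div_pow, mul_pow, mul_pow,
      Real.sq_sqrt (by positivity), Real.sq_sqrt hP0.le,
      Real.sq_sqrt hW0.le, Real.sq_sqrt hV0.le, Real.sq_sqrt (by positivity), Real.sq_sqrt hM0.le]
    calc Y ^ 2 * (8 * k0 / (P * W)) * (V ^ 2 * V) * (U / V) =
          4 * (2 * (k0 * W)) / (P * U) := by rw [hW]; field_simp; ring
      _ ≤ 4 * (3 * m) / (P * U) := by gcongr
      _ ≤ 4 * (3 * m) / (P * (P * Y)) := by gcongr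
      _ = 12 * M := by rw [hM]; field_simp; ring
      _ ≤ 4 ^ 2 * M := by nlinarith
  rw [mul_add]
  have h0 : 0 ≤ Real.sqrt M := Real.sqrt_nonneg _
  linarith

end Pool.Agent.Work.MP_af11aa_nt.T
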