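import Mathlib
import Pool.Agent.Work.MP_af11aa_nt.T.InnerC
import Pool.Agent.Work.MP_af11aa_nt.T.KbB
import Pool.Agent.Work.MP_af11aa_nt.T.NumC

/-!
MODULE TypeC (blocks of type C: a very long).
If 3m < 2 k0 (Y U V) then Tb = 0 (Q a b > Y U V ≥ X). Otherwise U ≤ m/16 ≤ m1 (k0 Y U V ≤ 3m/2, k0 ≥ 24, m ≤ 2 m1).
Fix Q, b. The terms vanish unless b is prime to n and Q ∤ b. By SwapH (u = Q a, v = b) and PhaseB.phaseC (with !σ) the summand is
jc (Q b) m1 * [ jc a m1 * (H(!σ)(Qb a) wgt(Qb a)) * eInv b θ a ], θ = thC m k0 (!σ) Q b, for a ≤ x1 := min (2U-1) (X/(Qb)), also when a is not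
prime to n (then a has a common factor with 8 k0 or with m2 m1, i.e. with 8 k0 or m1: H or jc vanishes) or not prime to b (eInv = 0).
InnerC.inner_c with M = b, α = Q b, L = U, c0 = Y U V (b is prime to 8 k0 and m1 by Par.hn), m1 ≤ m: ≤ C A (√(8k0)/(√P √(YUV))) (1 + log) KB b θ
(√(m Zg) + √(U/V)). KbB.kb_sumC for the sum over b, at most 4Y values of Q, NumC.numC; 1 + log (m1 b 8 k0) ≤ C m^{ε/4}. Square.
-/

set_option autoImplicit false

namespace Pool.Agent.Work.MP_af11aa_nt.T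

open Finset ComplexConjugate Pool.Agent.Work.MP_af11aa_nt.W

private theorem tc_zero {m1 m2 k0 n : ℕ} (H : Bool → ℤ → ℂ) (y s : ℝ) (S : Finset ℕ) (X : ℕ)
    (σ : Bool) (U V Y : ℕ) (hS : ∀ Q ∈ S, Y < Q)
    (hX : 2 * (X * k0) ≤ 3 * (m2 * m1)) (hlt : 3 * (m2 * m1) < 2 * (k0 * (Y * U * V))) :
    Tb m1 m2 k0 n H y s S X σ U V = 0 := by
  unfold Tb
  refine Finset.sum_eq_zero fun Q hQ => Finset.sum_eq_zero fun a ha =>
    Finset.sum_eq_zero fun b hb => ?_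
  rw [if_neg]
  intro hle
  have hQ' := hS Q hQ
  rw [Finset.mem_Ico] at ha hb
  have h1 : Y * U * V ≤ Q * a * b := Nat.mul_le_mul (Nat.mul_le_mul hQ'.le ha.1) hb.1
  have h2 : Y * U * V ≤ X := h1.trans hle
  have h3 : k0 * (Y * U * V) ≤ k0 * X := Nat.mul_le_mul_left _ h2
  nlinarith

private theorem tc_card {P k0 m1 m2 n Y Z : ℕ} {S : Finset ℕ} (hp : Par P k0 m1 m2 n Y Z S) :
    (S.card : ℝ) ≤ 3 * Y := by
  have h1 : S ⊆ Ioc Y (4 * Y) := by
    intro Q hQ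
    have h := hp.hS Q hQ
    rw [Finset.mem_Ioc]
    exact ⟨h.2.1, h.2.2.1⟩
  have h2 := Finset.card_le_card h1
  rw [Nat.card_Ioc] at h2
  have h3 : S.card ≤ 3 * Y := by omega
  exact_mod_cast h3

private theorem tc_log (ε : ℝ) (hε : 0 < ε) : ∃ C : ℝ, 0 < C ∧ ∀ m : ℝ, 1 ≤ m →
    1 + Real.log (24 * m ^ 2) ≤ C * m ^ ε := by
  refine ⟨1 + (24 : ℝ) ^ (ε / 2) / (ε / 2), by positivity, fun m hm => ?_⟩
  have hm0 : 0 < m := by linarith
  have h1 := Real.log_le_rpow_div (x := 24 * m ^ 2) (by positivity) (half_pos hε)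
  have h2 : (24 * m ^ 2) ^ (ε / 2) = (24 : ℝ) ^ (ε / 2) * m ^ ε := by
    rw [Real.mul_rpow (by norm_num) (by positivity), ← Real.rpow_natCast m 2,
      ← Real.rpow_mul hm0.le]
    congr 2
    push_cast
    ring
  rw [h2] at h1
  have h3 : (1 : ℝ) ≤ m ^ ε := Real.one_le_rpow hm hε.le
  calc 1 + Real.log (24 * m ^ 2) ≤ m ^ ε + (24 : ℝ) ^ (ε / 2) * m ^ ε / (ε / 2) :=
        add_le_add h3 h1
    _ = _ := by ring

/-- the sum over `a` for fixed `Q` and `b` -/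
private theorem tc_inner {P k0 m1 m2 n Y Z : ℕ} {S : Finset ℕ} (hp : Par P k0 m1 m2 n Y Z S)
    {A : ℝ} {H : Bool → ℤ → ℂ} {β : ℤ → ℝ} (he : ∀ σ, Env P k0 A (H σ) β)
    (hsw : SwapH k0 m1 m2 H) (y s : ℝ) (X : ℕ) (σ : Bool) {U : ℕ} (hU : 0 < U) {Q : ℕ}
    (hQ : Q ∈ S) {b : ℕ} (hb : 0 < b) (hbn : b.Coprime n) (hQb : Q.Coprime b) (hm1 : 0 < m1) :
    ∑ a ∈ Ico U (2 * U), (if Q * a * b ≤ X then Fq m1 m2 k0 n H y s σ Q a b else 0) =
      jc ((Q * b : ℕ) : ℤ) m1 * ∑ a ∈ Ioc (U - 1) (min (2 * U - 1) (X / (Q * b))),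
        jc (a : ℤ) m1 * (H (!σ) ((Q * b * a : ℕ) : ℤ) *
          wgt (m2 * m1) k0 y s (!σ) ((Q * b * a : ℕ) : ℝ)) *
        eInv b (thC (m2 * m1) k0 (!σ) Q b) (a : ℤ) := by
  have hQ0 : 0 < Q := (hp.hS Q hQ).1.pos
  have hQn : Q.Coprime n := (hp.hS Q hQ).2.2.2
  have hset : Ioc (U - 1) (min (2 * U - 1) (X / (Q * b))) =
      (Ico U (2 * U)).filter (fun a => Q * a * b ≤ X) := by
    ext a
    rw [Finset.mem_Ioc, Finset.mem_filter, Finset.mem_Ico, le_min_iff,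
      Nat.le_div_iff_mul_le (Nat.mul_pos hQ0 hb), show a * (Q * b) = Q * a * b by ring]
    constructor
    · rintro ⟨h1, h2, h3⟩
      exact ⟨⟨by omega, by omega⟩, h3⟩
    · rintro ⟨⟨h1, h2⟩, h3⟩
      exact ⟨by omega, by omega, h3⟩
  rw [hset, Finset.mul_sum, Finset.sum_filter]
  refine Finset.sum_congr rfl fun a ha => ?_
  rw [Finset.mem_Ico] at ha
  have ha0 : 0 < a := by omega
  split_ifs with hX
  swap
  · rfl
  have hcomm : Q * a * b = Q * b * a := by ring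
  unfold Fq
  split_ifs with hc
  · obtain ⟨hc1, hc2⟩ := hc
    have hck : (Q * a * b).Coprime k0 :=
      Nat.Coprime.coprime_dvd_right (Dvd.intro_left 8 rfl) ((hp.hn _).1 hc2).1
    have hck' := Nat.coprime_mul_iff_left.1 hck
    have hs := hsw y s σ (Q * a) b (Nat.mul_pos hQ0 ha0) hb hc1 hck'.1 hck'.2
    rw [hs, phaseC hp (!σ) hQ hb hbn hc1]
    have hj : jc ((Q * a * b : ℕ) : ℤ) m1 = jc ((Q * b : ℕ) : ℤ) m1 * jc (a : ℤ) m1 := by
      rw [← jc_mul]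
      congr 1
      push_cast
      ring
    rw [hj, hcomm]
    ring
  · by_cases hc1 : (Q * a).Coprime b
    · have hc2 : ¬ (Q * a * b).Coprime n := fun h => hc ⟨hc1, h⟩
      have han : ¬ a.Coprime n := fun h => hc2
        (Nat.Coprime.mul_left (Nat.Coprime.mul_left hQn h) hbn)
      have hzero : H (!σ) ((Q * b * a : ℕ) : ℤ) = 0 ∨ jc (a : ℤ) m1 = 0 := by
        by_cases h8 : a.Coprime (8 * k0)
        · right
          have hmm : ¬ a.Coprime (m2 * m1) := fun h => han ((hp.hn a).2 ⟨h8, h⟩)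
          have hm1a : ¬ a.Coprime m1 := by
            intro h
            apply hmm
            refine Nat.Coprime.mul_right ?_ h
            rcases hp.hm2 with h2 | h2
            · rw [h2]; exact Nat.coprime_one_right a
            · rw [h2]
              exact Nat.Coprime.coprime_dvd_right (Dvd.intro (4 * k0) (by ring)) h8
          apply jc_zero hm1
          intro h
          exact hm1a (Nat.isCoprime_iff_coprime.1 h)
        · left
          apply (he (!σ)).zero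
          intro h
          apply h8
          have h1 : IsCoprime ((Q * b * a : ℕ) : ℤ) ((8 * k0 : ℕ) : ℤ) := by
            push_cast at h ⊢
            exact h
          have h2 := Nat.isCoprime_iff_coprime.1 h1
          exact (Nat.coprime_mul_iff_left.1 h2).2
      rcases hzero with h | h
      · rw [h]; ring
      · rw [h]; ring
    · have hab : ¬ IsCoprime (a : ℤ) (b : ℤ) := by
        intro h
        exact hc1 (Nat.Coprime.mul_left hQb (Nat.isCoprime_iff_coprime.1 h))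
      have h0 : eInv b (thC (m2 * m1) k0 (!σ) Q b) (a : ℤ) = 0 := by
        unfold eInv
        rw [if_neg hab]
      rw [h0]
      ring

private theorem tc_inner0 {m1 m2 k0 n : ℕ} (H : Bool → ℤ → ℂ) (y s : ℝ) (X : ℕ) (σ : Bool)
    (U Q b : ℕ) (h : ¬ (b.Coprime n ∧ Q.Coprime b)) :
    ∑ a ∈ Ico U (2 * U), (if Q * a * b ≤ X then Fq m1 m2 k0 n H y s σ Q a b else 0) = 0 := by
  refine Finset.sum_eq_zero fun a _ => ?_
  split_ifs
  · unfold Fq
    rw [if_neg]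
    rintro ⟨h1, h2⟩
    exact h ⟨(Nat.coprime_mul_iff_left.1 h2).2, (Nat.coprime_mul_iff_left.1 h1).1⟩
  · rfl

theorem typeC (ε : ℝ) (hε : 0 < ε) : ∃ C : ℝ, 0 < C ∧ ∀ {P k0 m1 m2 n Y Z : ℕ} {S : Finset ℕ}
    (_ : Par P k0 m1 m2 n Y Z S) {A : ℝ} {H : Bool → ℤ → ℂ} {β : ℤ → ℝ}
    (_ : ∀ σ, Env P k0 A (H σ) β) (_ : SwapH k0 m1 m2 H) {y : ℝ}
    (_ : y ∈ Set.Ico (1 / ((m2 * m1 : ℕ) : ℝ)) (2 / ((m2 * m1 : ℕ) : ℝ))) (s : ℝ) {X : ℕ}
    (_ : 2 * (X * k0) ≤ 3 * (m2 * m1)) (σ : Bool) {U V : ℕ} (_ : 0 < U) (_ : 0 < V)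
    (_ : m2 * m1 ≤ P * Y * (Y * U)),
    ‖Tb m1 m2 k0 n H y s S X σ U V‖ ^ 2 ≤
      C * A ^ 2 * ((m2 * m1 : ℕ) : ℝ) ^ ε * (((m2 * m1 : ℕ) : ℝ) / ((P : ℝ) ^ 2 * Y)) := by
  obtain ⟨C1, hC1, hinner⟩ := inner_c
  obtain ⟨C2, hC2, hkb⟩ := kb_sumC (ε / 4) (by positivity)
  obtain ⟨C3, hC3, hlog⟩ := tc_log (ε / 4) (by positivity)
  refine ⟨(60 * C1 * C2 * C3) ^ 2, by positivity, ?_⟩
  intro P k0 m1 m2 n Y Z S hp A H β he hsw y hy s X hX σ U V hU hV hPYU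
  have hP0 : 0 < P := hp.hP
  have hY0 : 0 < Y := by rw [hp.hY]; exact pow_pos hp.hZ 3
  have hPR : (0 : ℝ) < P := by exact_mod_cast hP0
  have hYR : (0 : ℝ) < Y := by exact_mod_cast hY0
  have hUR : (0 : ℝ) < U := by exact_mod_cast hU
  have hVR : (0 : ℝ) < V := by exact_mod_cast hV
  have hm0 : 0 < m2 * m1 := lt_of_lt_of_le (by positivity) hp.hbig
  have hm10 : 0 < m1 := Nat.pos_of_mul_pos_left hm0
  have hm20 : 0 < m2 := Nat.pos_of_mul_pos_right hm0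
  have hmR : (1 : ℝ) ≤ ((m2 * m1 : ℕ) : ℝ) := by exact_mod_cast hm0
  have hA1 : 1 ≤ A := (he σ).hA
  have hm12 : m2 * m1 ≤ 2 * m1 := Nat.mul_le_mul_right _ (by rcases hp.hm2 with h | h <;> omega)
  have hm11 : m1 ≤ m2 * m1 := Nat.le_mul_of_pos_left _ hm20
  set m := m2 * m1 with hm
  have hRHS0 : 0 ≤ (60 * C1 * C2 * C3) ^ 2 * A ^ 2 * (m : ℝ) ^ ε *
      ((m : ℝ) / ((P : ℝ) ^ 2 * Y)) := by positivity
  rcases Nat.lt_or_ge (3 * m) (2 * (k0 * (Y * U * V))) with hlt | hne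
  · rw [tc_zero H y s S X σ U V Y (fun Q hQ => (hp.hS Q hQ).2.1) hX hlt]
    simpa using hRHS0
  have h24 : 24 * P ≤ k0 := Nat.le_of_dvd hp.hk0 hp.h24
  have hk24 : 24 ≤ k0 := by omega
  have hk0R : (0 : ℝ) < k0 := by exact_mod_cast hp.hk0
  have hYUV0 : 0 < Y * U * V := by positivity
  have h16 : 16 * (Y * U * V) ≤ m := by
    have h1 : 24 * (Y * U * V) ≤ k0 * (Y * U * V) := Nat.mul_le_mul_right _ hk24
    omega
  have hUYUV : U ≤ Y * U * V := by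
    calc U = 1 * U * 1 := by ring
      _ ≤ Y * U * V := Nat.mul_le_mul (Nat.mul_le_mul hY0 le_rfl) hV
  have hVYUV : V ≤ Y * U * V := by
    calc V = 1 * 1 * V := by ring
      _ ≤ Y * U * V := Nat.mul_le_mul (Nat.mul_le_mul hY0 hU) le_rfl
  have hUm1 : U ≤ m1 := by omega
  have hkV : k0 * V ≤ k0 * (Y * U * V) := Nat.mul_le_mul_left _ hVYUV
  -- the basic factor
  set W := Y * U * V with hW
  set c0 := Real.sqrt (8 * k0) / (Real.sqrt P * Real.sqrt ((W : ℕ) : ℝ)) with hc0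
  have hc00 : 0 ≤ c0 := by positivity
  set D := Real.sqrt (m * (1 + m / (k0 * (W : ℕ)))) + Real.sqrt ((U : ℝ) / V) with hD
  have hD0 : 0 ≤ D := by positivity
  have hAA : 0 ≤ A := by linarith
  have hone : ∀ Q ∈ S, ∀ b ∈ (Ico V (2 * V)).filter (fun b : ℕ ↦ b.Coprime n ∧ Q.Coprime b),
      ‖∑ a ∈ Ico U (2 * U), (if Q * a * b ≤ X then Fq m1 m2 k0 n H y s σ Q a b else 0)‖ ≤
      C1 * A * c0 * (C3 * (m : ℝ) ^ (ε / 4)) * D * KB b (thC m k0 (!σ) Q b) := by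
    intro Q hQ b hb
    rw [Finset.mem_filter, Finset.mem_Ico] at hb
    obtain ⟨⟨hb1, hb2⟩, hbn, hQb⟩ := hb
    have hb0 : 0 < b := lt_of_lt_of_le hV hb1
    have hQ0 : 0 < Q := (hp.hS Q hQ).1.pos
    have hQn : Q.Coprime n := (hp.hS Q hQ).2.2.2
    rw [tc_inner hp he hsw y s X σ hU hQ hb0 hbn hQb hm10, norm_mul, ← hm]
    have hb8 : b.Coprime (8 * k0) := ((hp.hn b).1 hbn).1
    have hbm : b.Coprime (m2 * m1) := ((hp.hn b).1 hbn).2
    have hbm1 : b.Coprime m1 := Nat.Coprime.coprime_dvd_right (Dvd.intro_left m2 rfl) hbm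
    have hQ8 : Q.Coprime (8 * k0) := ((hp.hn Q).1 hQn).1
    have h1 := hinner (he (!σ)) hm0 hy s (!σ) hp.hm1o hp.hm1s hb0 hb8 hbm1
      (thC m k0 (!σ) Q b) (α := Q * b) (x0 := U - 1) (x1 := min (2 * U - 1) (X / (Q * b)))
      (L := U) (c0 := W) (Nat.Coprime.mul_left hQ8 hb8) hU (by omega)
      (by have := min_le_left (2 * U - 1) (X / (Q * b)); omega) hYUV0
      (by
        rw [hW, show U - 1 + 1 = U by omega]
        calc Y * U * V = Y * V * U := by ring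
          _ ≤ Q * b * U := Nat.mul_le_mul (Nat.mul_le_mul (hp.hS Q hQ).2.1.le hb1) le_rfl)
      hUm1
    have hKB := KB_nonneg b (thC m k0 (!σ) Q b)
    have hlog1 : 1 + Real.log ((m1 * b * (8 * k0) : ℕ) : ℝ) ≤ C3 * (m : ℝ) ^ (ε / 4) := by
      refine le_trans ?_ (hlog m hmR)
      have h2 : m1 * b * (8 * k0) ≤ 24 * m ^ 2 := by
        have h3 : k0 * b ≤ 3 * m := by
          have : k0 * b ≤ k0 * (2 * V) := Nat.mul_le_mul_left _ hb2.le
          have h4 : k0 * (2 * V) = 2 * (k0 * V) := by ring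
          omega
        calc m1 * b * (8 * k0) = 8 * (m1 * (k0 * b)) := by ring
          _ ≤ 8 * (m * (3 * m)) := Nat.mul_le_mul_left _ (Nat.mul_le_mul hm11 h3)
          _ = 24 * m ^ 2 := by ring
      have h5 : 0 < m1 * b * (8 * k0) := by
        have := hp.hk0
        positivity
      have h6 : Real.log ((m1 * b * (8 * k0) : ℕ) : ℝ) ≤ Real.log (24 * (m : ℝ) ^ 2) := by
        apply Real.log_le_log (by exact_mod_cast h5)
        exact_mod_cast h2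
      linarith
    have hlog0 : 0 ≤ 1 + Real.log ((m1 * b * (8 * k0) : ℕ) : ℝ) := by
      have h5 : 1 ≤ m1 * b * (8 * k0) := by
        have := hp.hk0
        exact Nat.succ_le_of_lt (by positivity)
      have : 0 ≤ Real.log ((m1 * b * (8 * k0) : ℕ) : ℝ) := Real.log_nonneg (by exact_mod_cast h5)
      linarith
    have hDle : Real.sqrt (m1 * (1 + m / (k0 * (W : ℕ)))) + Real.sqrt ((U : ℝ) / b) ≤ D := by
      refine add_le_add (Real.sqrt_le_sqrt ?_) (Real.sqrt_le_sqrt ?_)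
      · refine mul_le_mul_of_nonneg_right ?_ (by positivity)
        exact_mod_cast hm11
      · apply div_le_div_of_nonneg_left hUR.le hVR
        exact_mod_cast hb1
    calc ‖jc ((Q * b : ℕ) : ℤ) m1‖ * _ ≤ 1 * _ :=
          mul_le_mul_of_nonneg_right (jc_norm _ _) (norm_nonneg _)
      _ = _ := one_mul _
      _ ≤ _ := h1
      _ ≤ C1 * A * c0 * (C3 * (m : ℝ) ^ (ε / 4)) * KB b (thC m k0 (!σ) Q b) * D := by
          refine mul_le_mul ?_ hDle (by positivity) (by positivity)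
          refine mul_le_mul_of_nonneg_right ?_ hKB
          refine mul_le_mul_of_nonneg_left hlog1 (by positivity)
      _ = _ := by ring
  have hQsum : ∀ Q ∈ S, ‖∑ a ∈ Ico U (2 * U), ∑ b ∈ Ico V (2 * V),
      (if Q * a * b ≤ X then Fq m1 m2 k0 n H y s σ Q a b else 0)‖ ≤
      C1 * A * c0 * (C3 * (m : ℝ) ^ (ε / 4)) * D * (C2 * (m : ℝ) ^ (ε / 4) *
        (V * Real.sqrt V)) := by
    intro Q hQ
    rw [Finset.sum_comm]
    refine (norm_sum_le _ _).trans ?_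
    have h1 : ∑ b ∈ Ico V (2 * V), ‖∑ a ∈ Ico U (2 * U),
        (if Q * a * b ≤ X then Fq m1 m2 k0 n H y s σ Q a b else 0)‖ =
        ∑ b ∈ (Ico V (2 * V)).filter (fun b : ℕ ↦ b.Coprime n ∧ Q.Coprime b),
        ‖∑ a ∈ Ico U (2 * U), (if Q * a * b ≤ X then Fq m1 m2 k0 n H y s σ Q a b else 0)‖ := by
      symm
      refine Finset.sum_subset (Finset.filter_subset _ _) fun b hb hb' => ?_
      rw [tc_inner0 H y s X σ U Q b (fun h => hb' (Finset.mem_filter.2 ⟨hb, h⟩)), norm_zero]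
    rw [h1]
    refine (Finset.sum_le_sum (hone Q hQ)).trans ?_
    rw [← Finset.mul_sum]
    refine mul_le_mul_of_nonneg_left ?_ (by positivity)
    refine (hkb hp (!σ) hQ hV).trans ?_
    refine mul_le_mul_of_nonneg_right ?_ (by positivity)
    refine mul_le_mul_of_nonneg_left ?_ hC2.le
    refine Real.rpow_le_rpow hVR.le ?_ (by positivity)
    exact_mod_cast (by omega : V ≤ m)
  have hnum := numC (P := P) (k0 := k0) (m := m) (Y := Y) (Z := Z) (U := U) (V := V)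
    (by exact_mod_cast hP0) (by exact_mod_cast hp.hZ) (by exact_mod_cast hp.hY)
    (by exact_mod_cast hU) (by exact_mod_cast hV) (by exact_mod_cast h24)
    (by exact_mod_cast hp.hbig) (by exact_mod_cast hne) (by exact_mod_cast hPYU)
  have hWc : ((W : ℕ) : ℝ) = (Y : ℝ) * U * V := by rw [hW]; push_cast; ring
  have hfin : ‖Tb m1 m2 k0 n H y s S X σ U V‖ ≤
      60 * C1 * C2 * C3 * A * (m : ℝ) ^ (ε / 2) * Real.sqrt ((m : ℝ) / ((P : ℝ) ^ 2 * Y)) := by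
    unfold Tb
    refine (norm_sum_le _ _).trans ((Finset.sum_le_sum hQsum).trans ?_)
    rw [Finset.sum_const, nsmul_eq_mul]
    have hme : (m : ℝ) ^ (ε / 4) * (m : ℝ) ^ (ε / 4) = (m : ℝ) ^ (ε / 2) := by
      rw [← Real.rpow_add (by linarith)]
      ring_nf
    calc (S.card : ℝ) * (C1 * A * c0 * (C3 * (m : ℝ) ^ (ε / 4)) * D *
          (C2 * (m : ℝ) ^ (ε / 4) * (V * Real.sqrt V)))
        ≤ 3 * Y * (C1 * A * c0 * (C3 * (m : ℝ) ^ (ε / 4)) * D *
          (C2 * (m : ℝ) ^ (ε / 4) * (V * Real.sqrt V))) :=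
          mul_le_mul_of_nonneg_right (tc_card hp) (by positivity)
      _ = 3 * C1 * C2 * C3 * A * ((m : ℝ) ^ (ε / 4) * (m : ℝ) ^ (ε / 4)) *
          (Y * c0 * (V * Real.sqrt V) * D) := by ring
      _ ≤ 3 * C1 * C2 * C3 * A * ((m : ℝ) ^ (ε / 4) * (m : ℝ) ^ (ε / 4)) *
          (20 * Real.sqrt ((m : ℝ) / ((P : ℝ) ^ 2 * Y))) := by
          refine mul_le_mul_of_nonneg_left ?_ (by positivity)
          rw [hc0, hD, hWc]
          exact hnum
      _ = _ := by rw [hme]; ring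
  calc ‖Tb m1 m2 k0 n H y s S X σ U V‖ ^ 2 ≤
      (60 * C1 * C2 * C3 * A * (m : ℝ) ^ (ε / 2) *
        Real.sqrt ((m : ℝ) / ((P : ℝ) ^ 2 * Y))) ^ 2 := pow_le_pow_left₀ (norm_nonneg _) hfin 2
    _ = (60 * C1 * C2 * C3) ^ 2 * A ^ 2 * ((m : ℝ) ^ (ε / 2) * (m : ℝ) ^ (ε / 2)) *
        (Real.sqrt ((m : ℝ) / ((P : ℝ) ^ 2 * Y)) ^ 2) := by ring
    _ = _ := by
        rw [Real.sq_sqrt (by positivity), ← Real.rpow_add (by linarith)]
        ring_nf

end Pool.Agent.Work.MP_af11aa_nt.T
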