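import Mathlib
import Pool.Agent.Work.MP_af11aa_nt.T.TypeA
import Pool.Agent.Work.MP_af11aa_nt.T.TypeB
import Pool.Agent.Work.MP_af11aa_nt.T.TypeC
import Pool.Agent.Work.MP_af11aa_nt.T.Inact

set_option autoImplicit false

namespace Pool.Agent.Work.MP_af11aa_nt.T

open Finset ComplexConjugate Pool.Agent.Work.MP_af11aa_nt.W

/-- dyadic decomposition. -/
private lemma dyadic_sum {X : ℕ} (g : ℕ → ℂ) (hg : ∀ a, X < a → g a = 0) (K : ℕ)
    (hK : X < 2 ^ K) :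
    ∑ a ∈ Icc 1 X, g a = ∑ i ∈ range K, ∑ a ∈ Ico (2 ^ i) (2 * 2 ^ i), g a := by
  have h1 : ∀ K : ℕ, ∑ i ∈ range K, ∑ a ∈ Ico (2 ^ i) (2 * 2 ^ i), g a =
      ∑ a ∈ Ico 1 (2 ^ K), g a := by
    intro K
    induction K with
    | zero => simp
    | succ K ih =>
      rw [sum_range_succ, ih]
      have : 2 * 2 ^ K = 2 ^ (K + 1) := by ring
      rw [this]
      exact sum_Ico_consecutive g Nat.one_le_two_pow (Nat.pow_le_pow_right (by norm_num) (by omega))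
  rw [h1]
  apply sum_subset
  · intro a ha
    rw [mem_Icc] at ha
    rw [mem_Ico]
    exact ⟨ha.1, by omega⟩
  · intro a ha hna
    rw [mem_Ico] at ha
    rw [mem_Icc] at hna
    apply hg
    by_contra h
    exact hna ⟨ha.1, by omega⟩

/-- the sum as a sum of dyadic blocks. -/
lemma sum_blocks (m1 m2 k0 n : ℕ) (H : Bool → ℤ → ℂ) (y s : ℝ) (S : Finset ℕ)
    (hS : ∀ Q ∈ S, 0 < Q) (X : ℕ) (σ : Bool) (K : ℕ) (hK : X < 2 ^ K) :
    ∑ Q ∈ S, ∑ a ∈ Icc 1 X, ∑ b ∈ Icc 1 X,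
        (if Q * a * b ≤ X then Fq m1 m2 k0 n H y s σ Q a b else 0) =
      ∑ x ∈ range K ×ˢ range K, Tb m1 m2 k0 n H y s S X σ (2 ^ x.1) (2 ^ x.2) := by
  rw [sum_product]
  unfold Tb
  have h1 : ∀ Q ∈ S, ∑ a ∈ Icc 1 X, ∑ b ∈ Icc 1 X,
        (if Q * a * b ≤ X then Fq m1 m2 k0 n H y s σ Q a b else 0) =
      ∑ i ∈ range K, ∑ j ∈ range K, ∑ a ∈ Ico (2 ^ i) (2 * 2 ^ i), ∑ b ∈ Ico (2 ^ j) (2 * 2 ^ j),
        (if Q * a * b ≤ X then Fq m1 m2 k0 n H y s σ Q a b else 0) := by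
    intro Q hQ
    have hQ0 := hS Q hQ
    rw [dyadic_sum (X := X) (fun a ↦ ∑ b ∈ Icc 1 X,
        (if Q * a * b ≤ X then Fq m1 m2 k0 n H y s σ Q a b else 0)) ?_ K hK]
    · refine sum_congr rfl fun i _ ↦ ?_
      rw [sum_comm]
      rw [← sum_comm]
      have h2 : ∀ a ∈ Ico (2 ^ i) (2 * 2 ^ i), ∑ b ∈ Icc 1 X,
          (if Q * a * b ≤ X then Fq m1 m2 k0 n H y s σ Q a b else 0) =
          ∑ j ∈ range K, ∑ b ∈ Ico (2 ^ j) (2 * 2 ^ j),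
            (if Q * a * b ≤ X then Fq m1 m2 k0 n H y s σ Q a b else 0) := by
        intro a ha
        rw [mem_Ico] at ha
        have ha0 : 0 < a := lt_of_lt_of_le (by positivity) ha.1
        apply dyadic_sum _ _ K hK
        intro b hb
        rw [if_neg]
        have : b ≤ Q * a * b := Nat.le_mul_of_pos_left b (Nat.mul_pos hQ0 ha0)
        omega
      rw [sum_congr rfl h2, sum_comm]
    · intro a ha
      apply sum_eq_zero
      intro b hb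
      rw [mem_Icc] at hb
      rw [if_neg]
      have h3 : a ≤ Q * a * b := by
        calc a = 1 * a * 1 := by ring
          _ ≤ Q * a * b := Nat.mul_le_mul (Nat.mul_le_mul hQ0 le_rfl) hb.1
      omega
  rw [sum_congr rfl h1, sum_comm]
  refine sum_congr rfl fun i _ ↦ ?_
  rw [sum_comm]

/-- the number of blocks. -/
private lemma log_pow (ε : ℝ) (hε : 0 < ε) : ∃ C : ℝ, 0 < C ∧ ∀ m : ℕ, 0 < m →
    ((Nat.log 2 m : ℝ) + 1) ^ 2 ≤ C * (m : ℝ) ^ ε := by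
  refine ⟨(2 / ε / Real.log 2 + 1) ^ 2, by positivity, ?_⟩
  intro m hm
  have hm1 : (1 : ℝ) ≤ m := by exact_mod_cast hm
  have hl2 : 0 < Real.log 2 := Real.log_pos (by norm_num)
  have h1 : (Nat.log 2 m : ℝ) * Real.log 2 ≤ Real.log m := by
    rw [← Real.log_pow]
    apply Real.log_le_log (by positivity)
    exact_mod_cast Nat.pow_log_le_self 2 hm.ne'
  have h2 : Real.log m ≤ (m : ℝ) ^ (ε / 2) / (ε / 2) := Real.log_le_rpow_div (by linarith)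
    (by linarith)
  have h3 : 1 ≤ (m : ℝ) ^ (ε / 2) := Real.one_le_rpow hm1 (by linarith)
  have h4 : (Nat.log 2 m : ℝ) + 1 ≤ (2 / ε / Real.log 2 + 1) * (m : ℝ) ^ (ε / 2) := by
    have h5 : (Nat.log 2 m : ℝ) ≤ (2 / ε / Real.log 2) * (m : ℝ) ^ (ε / 2) := by
      have e : 2 / ε / Real.log 2 * (m : ℝ) ^ (ε / 2) = (m : ℝ) ^ (ε / 2) / (ε / 2) / Real.log 2 := by
        field_simp
      rw [e, le_div_iff₀ hl2]
      exact h1.trans h2
    nlinarith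
  calc ((Nat.log 2 m : ℝ) + 1) ^ 2 ≤ ((2 / ε / Real.log 2 + 1) * (m : ℝ) ^ (ε / 2)) ^ 2 := by
        gcongr
    _ = (2 / ε / Real.log 2 + 1) ^ 2 * (m : ℝ) ^ ε := by
        rw [mul_pow, ← Real.rpow_natCast ((m : ℝ) ^ (ε / 2)), ← Real.rpow_mul (by linarith)]
        congr 2
        push_cast; ring

/-- the bound for the bilinear sum. -/
theorem blocks (ε : ℝ) (hε : 0 < ε) : ∃ C : ℝ, 0 < C ∧ ∀ {P k0 m1 m2 n Y Z : ℕ} {S : Finset ℕ}
    (_ : Par P k0 m1 m2 n Y Z S) {A : ℝ} {H : Bool → ℤ → ℂ} {β : ℤ → ℝ}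
    (_ : ∀ σ, Env P k0 A (H σ) β) (_ : SwapH k0 m1 m2 H) {y : ℝ}
    (_ : y ∈ Set.Ico (1 / ((m2 * m1 : ℕ) : ℝ)) (2 / ((m2 * m1 : ℕ) : ℝ))) (s : ℝ) {X : ℕ}
    (_ : 2 * (X * k0) ≤ 3 * (m2 * m1)) (σ : Bool),
    ‖∑ Q ∈ S, ∑ a ∈ Icc 1 X, ∑ b ∈ Icc 1 X,
        (if Q * a * b ≤ X then Fq m1 m2 k0 n H y s σ Q a b else 0)‖ ≤
      C * A * ((m2 * m1 : ℕ) : ℝ) ^ ε * Real.sqrt (((m2 * m1 : ℕ) : ℝ) / ((P : ℝ) ^ 2 * Y)) := by
  obtain ⟨CA, hCA, hA⟩ := typeA ε hε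
  obtain ⟨CB, hCB, hB⟩ := typeB ε hε
  obtain ⟨CC, hCC, hC⟩ := typeC ε hε
  obtain ⟨CI, hCI, hI⟩ := inact ε hε
  obtain ⟨CL, hCL, hL⟩ := log_pow (ε / 2) (by linarith)
  set CM := max CA (max CB CC) with hCM
  have hCM0 : 0 < CM := lt_of_lt_of_le hCA (le_max_left _ _)
  refine ⟨CI + CL * Real.sqrt CM, by positivity, ?_⟩
  intro P k0 m1 m2 n Y Z S hp A H β he hsw y hy s X hX σ
  have hm0 : 0 < m2 * m1 := by
    apply Nat.mul_pos
    · rcases hp.hm2 with h | h <;> omega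
    · exact hp.hm1o.pos
  set m := m2 * m1 with hm
  have hm1 : (1 : ℝ) ≤ (m : ℝ) := by exact_mod_cast hm0
  have hA1 : 1 ≤ A := (he true).hA
  have hY0 : 0 < Y := by rw [hp.hY]; exact Nat.pow_pos (by have := hp.hZ; omega)
  have hP0 := hp.hP
  set K := Nat.log 2 m + 1 with hK
  have hXm : X ≤ m := by
    have h24 : 24 ≤ k0 := by
      have := Nat.le_of_dvd hp.hk0 hp.h24
      have : 1 ≤ P := hP0
      omega
    have : X * 24 ≤ X * k0 := Nat.mul_le_mul_left X h24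
    omega
  have hXK : X < 2 ^ K := lt_of_le_of_lt hXm (Nat.lt_pow_succ_log_self (by norm_num) m)
  rw [sum_blocks m1 m2 k0 n H y s S (fun Q hQ ↦ (hp.hS Q hQ).1.pos) X σ K hXK]
  set R := Real.sqrt ((m : ℝ) / ((P : ℝ) ^ 2 * Y)) with hR
  have hR0 : 0 ≤ R := Real.sqrt_nonneg _
  set I := (range K ×ˢ range K).filter (fun x ↦ P * Y * (Y * 2 ^ x.1 * 2 ^ x.2) ≤ m) with hIdef
  set I' := (range K ×ˢ range K).filter (fun x ↦ ¬ P * Y * (Y * 2 ^ x.1 * 2 ^ x.2) ≤ m) with hI'def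
  have hmε : 0 < (m : ℝ) ^ ε := by positivity
  have hmε2 : 0 < (m : ℝ) ^ (ε / 2) := by positivity
  have hact : ∀ x ∈ I', ‖Tb m1 m2 k0 n H y s S X σ (2 ^ x.1) (2 ^ x.2)‖ ≤
      Real.sqrt CM * A * (m : ℝ) ^ (ε / 2) * R := by
    intro x hx
    rw [hI'def, mem_filter, not_le] at hx
    have hU : 0 < 2 ^ x.1 := by positivity
    have hV : 0 < 2 ^ x.2 := by positivity
    have hsq : ‖Tb m1 m2 k0 n H y s S X σ (2 ^ x.1) (2 ^ x.2)‖ ^ 2 ≤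
        CM * A ^ 2 * (m : ℝ) ^ ε * ((m : ℝ) / ((P : ℝ) ^ 2 * Y)) := by
      have hmono : ∀ c : ℝ, c ≤ CM → c * A ^ 2 * (m : ℝ) ^ ε * ((m : ℝ) / ((P : ℝ) ^ 2 * Y)) ≤
          CM * A ^ 2 * (m : ℝ) ^ ε * ((m : ℝ) / ((P : ℝ) ^ 2 * Y)) := by
        intro c hc
        gcongr
      by_cases h1 : m ≤ P * Y * (Y * 2 ^ x.1)
      · exact (hC hp he hsw hy s hX σ hU hV h1).trans
          (hmono _ ((le_max_right _ _).trans (le_max_right _ _)))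
      · push Not at h1
        by_cases h2 : Y * 2 ^ x.1 ≤ Z * 2 ^ x.2
        · exact (hA hp he hsw hy s hX σ hU hV hx.2.le h2).trans (hmono _ (le_max_left _ _))
        · push Not at h2
          exact (hB hp he hsw hy s hX σ hU hV hx.2.le h2.le h1.le).trans
            (hmono _ ((le_max_left _ _).trans (le_max_right _ _)))
    have e : Real.sqrt CM * A * (m : ℝ) ^ (ε / 2) * R =
        Real.sqrt (CM * A ^ 2 * (m : ℝ) ^ ε * ((m : ℝ) / ((P : ℝ) ^ 2 * Y))) := by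
      rw [hR, Real.sqrt_mul (by positivity), Real.sqrt_mul (by positivity),
        Real.sqrt_mul hCM0.le, Real.sqrt_sq (by linarith)]
      congr 2
      rw [Real.sqrt_eq_rpow, ← Real.rpow_mul (by linarith)]
      congr 1; ring
    rw [e]
    exact Real.le_sqrt_of_sq_le hsq
  have hsplit : ∑ x ∈ range K ×ˢ range K, Tb m1 m2 k0 n H y s S X σ (2 ^ x.1) (2 ^ x.2) =
      ∑ x ∈ I, Tb m1 m2 k0 n H y s S X σ (2 ^ x.1) (2 ^ x.2) +
        ∑ x ∈ I', Tb m1 m2 k0 n H y s S X σ (2 ^ x.1) (2 ^ x.2) :=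
    (sum_filter_add_sum_filter_not _ _ _).symm
  have h1 : ‖∑ x ∈ I, Tb m1 m2 k0 n H y s S X σ (2 ^ x.1) (2 ^ x.2)‖ ≤
      CI * A * (m : ℝ) ^ ε * R := by
    apply hI hp he hy s X σ I
    intro x hx
    rw [hIdef, mem_filter] at hx
    exact hx.2
  have hcard : (I'.card : ℝ) ≤ CL * (m : ℝ) ^ (ε / 2) := by
    have h2 : I'.card ≤ K ^ 2 := by
      calc I'.card ≤ (range K ×ˢ range K).card := card_filter_le _ _
        _ = K ^ 2 := by rw [card_product, card_range, sq]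
    calc (I'.card : ℝ) ≤ ((K ^ 2 : ℕ) : ℝ) := by exact_mod_cast h2
      _ = ((Nat.log 2 m : ℝ) + 1) ^ 2 := by rw [hK]; push_cast; ring
      _ ≤ _ := hL m hm0
  have h2 : ‖∑ x ∈ I', Tb m1 m2 k0 n H y s S X σ (2 ^ x.1) (2 ^ x.2)‖ ≤
      CL * Real.sqrt CM * A * (m : ℝ) ^ ε * R := by
    calc ‖∑ x ∈ I', Tb m1 m2 k0 n H y s S X σ (2 ^ x.1) (2 ^ x.2)‖
        ≤ ∑ x ∈ I', ‖Tb m1 m2 k0 n H y s S X σ (2 ^ x.1) (2 ^ x.2)‖ := norm_sum_le _ _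
      _ ≤ ∑ _x ∈ I', Real.sqrt CM * A * (m : ℝ) ^ (ε / 2) * R := sum_le_sum hact
      _ = I'.card * (Real.sqrt CM * A * (m : ℝ) ^ (ε / 2) * R) := by
          rw [sum_const, nsmul_eq_mul]
      _ ≤ (CL * (m : ℝ) ^ (ε / 2)) * (Real.sqrt CM * A * (m : ℝ) ^ (ε / 2) * R) := by
          gcongr
      _ = CL * Real.sqrt CM * A * ((m : ℝ) ^ (ε / 2) * (m : ℝ) ^ (ε / 2)) * R := by ring
      _ = _ := by
          rw [← Real.rpow_add (by linarith)]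
          congr 3; ring
  rw [hsplit]
  calc _ ≤ CI * A * (m : ℝ) ^ ε * R + CL * Real.sqrt CM * A * (m : ℝ) ^ ε * R :=
        (norm_add_le _ _).trans (add_le_add h1 h2)
    _ = _ := by ring

end Pool.Agent.Work.MP_af11aa_nt.T
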