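import Mathlib
import Pool.Agent.Work.MP_af11aa_nt.T.Defs
import Pool.Agent.Work.MP_af11aa_nt.W.JacFac

/-!
MODULE HEx (the periodic functions H_σ with the envelope). For each σ apply W.jac_fac with k1 = 1, k2 = k0, z = sg σ * (2 (m2 m1)),
B any bound of ‖V‖ (V is periodic, so bounded: take the sup over range k0): this gives H σ with the period 8 k0, the vanishing
and the identity. Pointwise bound ‖H σ x‖ ≤ B β x: if x is not prime to 8 k0 then H σ x = 0. Otherwise choose a natural c > 0 with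
c ≡ x mod 8 k0 and c prime to m1 (CRT: primes of m1 dividing 8 k0 do not divide c since x is prime to them; for the other primes
of m1 impose c ≡ 1). Then in the identity all factors except V c and H σ c have norm 1 (jacobi symbols ±1 because c is prime to
m2 m1 k0: m2 is 1 or 2 and c is odd as 8 k0 is even), so ‖H σ x‖ = ‖H σ c‖ = ‖V c‖ ≤ B β c = B β x because P ∣ k0.
-/

set_option autoImplicit false

namespace Pool.Agent.Work.MP_af11aa_nt.T

open Finset Pool.Agent.Work.MP_af11aa_nt.W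

theorem exists_H (P k0 m1 m2 : ℕ) (hk0 : 0 < k0) (hPk : P ∣ k0) (h4 : 4 ∣ k0) (hm1 : Odd m1)
    (hm2 : m2 = 1 ∨ m2 = 2) (V : ℕ → ℂ) (hV : ∀ a a' : ℕ, a ≡ a' [MOD k0] → V a = V a')
    (β : ℤ → ℝ) (hβ : ∀ x, β (x + P) = β x) (B : ℝ) (hB : 0 ≤ B) (hβ0 : ∀ x, 0 ≤ β x)
    (hVB : ∀ a : ℕ, ‖V a‖ ≤ B * β a) :
    ∃ H : Bool → ℤ → ℂ, (∀ σ x, H σ (x + 8 * k0) = H σ x) ∧
      (∀ σ x, ¬ IsCoprime x (8 * k0 : ℤ) → H σ x = 0) ∧ (∀ σ x, ‖H σ x‖ ≤ B * β x) ∧
      ∀ (σ : Bool) (c : ℕ), 0 < c → c.Coprime k0 →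
        ((jacobiSym (((m2 * m1) * k0 : ℕ) : ℤ) c : ℤ) : ℂ) * gs c * V c *
            eI k0 (sg σ * (2 * ((m2 * m1 : ℕ) : ℤ))) (c : ℤ) = H σ c * jc c m1 := by
  have hVb : ∀ a, ‖V a‖ ≤ ∑ b ∈ range k0, ‖V b‖ := by
    intro a
    rw [hV a (a % k0) (Nat.mod_modEq a k0).symm]
    exact Finset.single_le_sum (f := fun b => ‖V b‖) (fun _ _ => norm_nonneg _)
      (Finset.mem_range.2 (Nat.mod_lt _ hk0))
  have hex := fun σ : Bool => jac_fac 1 k0 m1 m2 odd_one hm1 hm2 h4 hk0 V hV _ hVb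
    (sg σ * (2 * ((m2 * m1 : ℕ) : ℤ)))
  choose H hper hnorm hzero hid using hex
  have hid' : ∀ (σ : Bool) (c : ℕ), 0 < c → c.Coprime k0 →
        ((jacobiSym (((m2 * m1) * k0 : ℕ) : ℤ) c : ℤ) : ℂ) * gs c * V c *
            eI k0 (sg σ * (2 * ((m2 * m1 : ℕ) : ℤ))) (c : ℤ) = H σ c * jc c m1 := by
    intro σ c hc hck
    have h := hid σ c hc hck
    rw [one_mul, mul_one, jacobiSym.one_right, Int.cast_one, mul_one] at h
    exact h
  refine ⟨H, hper, hzero, fun σ x => ?_, hid'⟩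
  by_cases hx : IsCoprime x (8 * k0 : ℤ)
  · have hne : NeZero (8 * k0) := ⟨by omega⟩
    have hu : IsUnit (x : ZMod (8 * k0)) := by
      rw [ZMod.coe_int_isUnit_iff_isCoprime]
      push_cast
      exact hx.symm
    obtain ⟨p, hp1, hp, hpx⟩ := Nat.forall_exists_prime_gt_and_eq_mod hu (m1 * k0)
    have hm1pos : 0 < m1 := hm1.pos
    have hpm : m1 < p := lt_of_le_of_lt (Nat.le_mul_of_pos_right _ hk0) hp1
    have hpk : k0 < p := lt_of_le_of_lt (Nat.le_mul_of_pos_left _ hm1pos) hp1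
    have hcm : p.Coprime m1 := (Nat.Prime.coprime_iff_not_dvd hp).2
      (fun h => absurd (Nat.le_of_dvd hm1pos h) (not_le.2 hpm))
    have hck : p.Coprime k0 := (Nat.Prime.coprime_iff_not_dvd hp).2
      (fun h => absurd (Nat.le_of_dvd hk0 h) (not_le.2 hpk))
    -- `x = p + t * (8 k0)`
    obtain ⟨t, ht⟩ : ∃ t : ℤ, x = p + t * (8 * k0 : ℤ) := by
      have h1 : ((p : ℤ) : ZMod (8 * k0)) = (x : ZMod (8 * k0)) := by
        rw [Int.cast_natCast]
        exact hpx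
      have h2 := (ZMod.intCast_eq_intCast_iff_dvd_sub _ _ _).1 h1
      obtain ⟨t, ht⟩ := h2
      refine ⟨t, ?_⟩
      push_cast at ht
      linear_combination ht
    have hHx : H σ x = H σ p := by
      have hP : Function.Periodic (H σ) (8 * k0 : ℤ) := hper σ
      have h3 := hP.int_mul t p
      rw [ht]
      exact h3
    have hβx : β x = β p := by
      obtain ⟨d, hd⟩ := hPk
      have hP : Function.Periodic β (P : ℤ) := hβ
      have h3 := hP.int_mul (t * 8 * d) p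
      rw [← h3, ht]
      congr 1
      rw [hd]
      push_cast
      ring
    have h := congrArg (fun z : ℂ => ‖z‖) (hid' σ p hp.pos hck)
    simp only [norm_mul, norm_eI, mul_one] at h
    have hj1 : ‖((jacobiSym (((m2 * m1) * k0 : ℕ) : ℤ) p : ℤ) : ℂ)‖ ≤ 1 := by
      rcases jacobiSym.trichotomy (((m2 * m1) * k0 : ℕ) : ℤ) p with h | h | h <;> rw [h] <;> simp
    have hg1 : ‖gs p‖ = 1 := by
      unfold gs
      split_ifs <;> simp
    have hj2 : ‖jc p m1‖ = 1 := by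
      unfold jc
      have hg : Int.gcd (p : ℤ) m1 = 1 := by
        rw [Int.gcd_natCast_natCast]
        exact hcm
      rcases jacobiSym.eq_one_or_neg_one hg with h | h <;> rw [h] <;> simp
    rw [hg1, hj2, mul_one, mul_one] at h
    rw [hHx, hβx, ← h]
    calc ‖((jacobiSym (((m2 * m1) * k0 : ℕ) : ℤ) p : ℤ) : ℂ)‖ * ‖V p‖ ≤ 1 * (B * β p) :=
          mul_le_mul hj1 (hVB p) (norm_nonneg _) zero_le_one
      _ = B * β p := one_mul _
  · rw [hzero σ x hx, norm_zero]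
    exact mul_nonneg hB (hβ0 x)

end Pool.Agent.Work.MP_af11aa_nt.T
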