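import Mathlib
import Pool.Agent.Work.MP_af11aa_nt.T.Defs

/-!
MODULE SwapQ (reciprocity: either factor may serve as the modulus). Put m = m2 m1, c = u v,
A = jacobiSym (m k0) c * gs c * V c, w0 = (√c/(k0 c)) psW m y s (k0 c) (see the definition of W.wgt). By hH,
 H σ c jc c m1 = A * eI k0 (sg σ (2m)) c, and wgt m k0 y s σ c = w0 * exp(∓ 2πi 2m/(k0 c)) (- for σ = true), so
 LHS = A w0 * cj σ (eI u (4m) (k0 v) * eI k0 (2m) c * exp(-2πi 2m/(k0 c))) = A w0 * cj σ (Ph k0 m u v)   (W.cj_eI, W.cj_mul).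
RHS = A w0 * cj (!σ) (Ph k0 m v u), and Ph k0 m v u = conj (Ph k0 m u v) (W.sqp_swap, W.sqp_Ph). See the proof of W.term_eq
(hpair, e3) for the manipulations.
-/

set_option autoImplicit false

namespace Pool.Agent.Work.MP_af11aa_nt.T

open Finset ComplexConjugate Pool.Agent.Work.MP_af11aa_nt.W

private lemma swapQ_one {k0 m c u v : ℕ} (hc : u * v = c) (J : ℂ) (Hc : Bool → ℂ) (y s : ℝ)
    (σ : Bool) (hH : J * eI k0 (sg σ * (2 * (m : ℤ))) (c : ℤ) = Hc σ) :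
    Hc σ * cj σ (eI u (4 * (m : ℤ)) ((k0 : ℤ) * v)) * wgt m k0 y s σ (c : ℝ) =
      J * (((Real.sqrt c / (k0 * c) : ℝ) : ℂ) * psW m y s (k0 * c)) * cj σ (Ph k0 m u v) := by
  have h3 : ((u : ℂ) * v) = (c : ℂ) := by exact_mod_cast hc
  have h3' : ((u : ℤ) * v) = (c : ℤ) := by exact_mod_cast hc
  have e3 : cj σ (Complex.exp (-(2 * Real.pi * Complex.I * (2 * m) / (k0 * (u * v))))) =
      Complex.exp ((if σ then (-1 : ℂ) else 1) *
        (2 * Real.pi * Complex.I * (2 * m) / (k0 * c))) := by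
    rw [h3]
    cases σ
    · change conj (Complex.exp _) = _
      rw [← Complex.exp_conj]
      congr 1
      simp only [map_neg, map_div₀, map_mul, Complex.conj_I, Complex.conj_ofReal, map_ofNat,
        map_natCast, Bool.false_eq_true, if_false]
      ring
    · change Complex.exp _ = _
      congr 1
      simp only [if_true]
      ring
  have hw : wgt m k0 y s σ c = ((Real.sqrt c / (k0 * c) : ℝ) : ℂ) *
      Complex.exp ((if σ then (-1 : ℂ) else 1) * (2 * Real.pi * Complex.I * (2 * m) / (k0 * c))) *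
      psW m y s (k0 * c) := by
    unfold wgt
    rfl
  unfold Ph
  rw [cj_mul, cj_mul, e3, h3', cj_eI σ k0, hw, ← hH]
  ring

private lemma swapQ_cj (σ : Bool) (z : ℂ) : cj (!σ) (conj z) = cj σ z := by
  cases σ
  · rfl
  · change conj (conj z) = z
    exact Complex.conj_conj z

theorem phi_swap {k0 m1 m2 : ℕ} (hk0 : 0 < k0) (V : ℕ → ℂ) (H : Bool → ℤ → ℂ)
    (hH : ∀ (σ : Bool) (c : ℕ), 0 < c → c.Coprime k0 →
        ((jacobiSym (((m2 * m1) * k0 : ℕ) : ℤ) c : ℤ) : ℂ) * gs c * V c *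
            eI k0 (sg σ * (2 * ((m2 * m1 : ℕ) : ℤ))) (c : ℤ) = H σ c * jc c m1) :
    SwapH k0 m1 m2 H := by
  intro y s σ u v hu hv huv huk hvk
  have hc : 0 < u * v := Nat.mul_pos hu hv
  have hck : (u * v).Coprime k0 := Nat.Coprime.mul_left huk hvk
  have h1 := swapQ_one (k0 := k0) (m := m2 * m1) (c := u * v) (u := u) (v := v) rfl
    (((jacobiSym (((m2 * m1) * k0 : ℕ) : ℤ) (u * v) : ℤ) : ℂ) * gs (u * v) * V (u * v))
    (fun τ ↦ H τ ((u * v : ℕ) : ℤ) * jc ((u * v : ℕ) : ℤ) m1) y s σ (hH σ (u * v) hc hck)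
  have h2 := swapQ_one (k0 := k0) (m := m2 * m1) (c := u * v) (u := v) (v := u) (mul_comm v u)
    (((jacobiSym (((m2 * m1) * k0 : ℕ) : ℤ) (u * v) : ℤ) : ℂ) * gs (u * v) * V (u * v))
    (fun τ ↦ H τ ((u * v : ℕ) : ℤ) * jc ((u * v : ℕ) : ℤ) m1) y s (!σ)
    (hH (!σ) (u * v) hc hck)
  rw [h1, h2]
  have h3 : Ph k0 (m2 * m1) v u = conj (Ph k0 (m2 * m1) u v) := by
    rw [← sqp_Ph hv.ne' hu.ne' hk0.ne' huv.symm hvk.symm huk.symm,
      ← sqp_Ph hu.ne' hv.ne' hk0.ne' huv huk.symm hvk.symm, sqp_swap]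
  rw [h3, swapQ_cj]

end Pool.Agent.Work.MP_af11aa_nt.T
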