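import Mathlib
import Pool.Agent.Work.MP_af11aa_nt.T.SwapQ

/-!
MODULE TermQ (the weighted sum over c as a sum over Q and factorizations c = (Q a) b).
For c prime to n, c > 1 (c is odd and prime to k0 and m2 m1 by Par.hn), W.term_eq with k1 = 1, k2 = k0, r = fun _ => 1 gives
  T c := salS c m k0 * V c / (c k0) * psW m y s (c k0) = ∑_{x ∈ prs c} ∑_σ Φ_σ(x1, x2),
  Φ_σ(u,v) := H σ (u v) jc(uv) m1 * cj σ (eI u (4m) (k0 v)) * wgt m k0 y s σ (u v)    (√1 = 1, kloo 1 = 1, kfun 1 = 1).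
By SwapQ.phi_swap: Φ_σ(u,v) = Φ_{!σ}(v,u), so T c = ∑ over all ordered coprime pairs (u,v), u v = c, of Φ_true(u,v)
(c > 1: a coprime pair has u ≠ v; prs c has u < v). The number of Q ∈ S dividing c = u v, (u,v) coprime, is #{Q ∣ u} + #{Q ∣ v}, and
∑_{(u,v)} #{Q ∣ v} Φ_true(u,v) = ∑_{(u,v)} #{Q ∣ u} Φ_true(v,u) = ∑_{(u,v)} #{Q ∣ u} Φ_false(u,v). So
  #{Q ∣ c} T c = ∑_σ ∑_{Q ∈ S} ∑_{(u,v), uv = c, Q ∣ u} Φ_σ(u,v); write u = Q a. For c = 1 both sides vanish (Q is prime).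
Finally sum over c ≤ X: (Q,a,b) with Q a b ≤ X, and Fq is the summand with the coprimality conditions (c prime to n).
-/

set_option autoImplicit false

namespace Pool.Agent.Work.MP_af11aa_nt.T

open Finset ComplexConjugate Pool.Agent.Work.MP_af11aa_nt.W

noncomputable section

/-- the summand of an ordered factorization -/
private def tqPhi (m1 m2 k0 : ℕ) (H : Bool → ℤ → ℂ) (y s : ℝ) (σ : Bool) (u v : ℕ) : ℂ :=
  H σ ((u * v : ℕ) : ℤ) * jc ((u * v : ℕ) : ℤ) m1 *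
    cj σ (eI u (4 * ((m2 * m1 : ℕ) : ℤ)) ((k0 : ℤ) * v)) *
    wgt (m2 * m1) k0 y s σ ((u * v : ℕ) : ℝ)

private def tqD (c : ℕ) : Finset (ℕ × ℕ) := c.divisorsAntidiagonal.filter (fun x ↦ x.1.Coprime x.2)

private lemma tq_ivz_one (x : ℤ) : ivz 1 x = 0 := by
  unfold ivz
  have h := ZMod.val_lt ((x : ZMod 1)⁻¹)
  have : ((x : ZMod 1)⁻¹).val = 0 := by omega
  rw [this]
  rfl

private lemma tq_ec_zero (c : ℕ) : ec c 0 = 1 := by
  unfold ec
  simp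

private lemma tq_eI_one (z x : ℤ) : eI 1 z x = 1 := by
  unfold eI
  rw [tq_ivz_one, mul_zero, tq_ec_zero]

private lemma tq_kloo_one (z x : ℤ) : kloo 1 z x = 1 := by
  unfold kloo
  have : (range 1).filter (fun y ↦ y.Coprime 1) = {0} := by decide
  rw [this, Finset.sum_singleton, tq_ivz_one, mul_zero, zero_mul, tq_ec_zero]

private lemma tq_kfun_one (w x : ℤ) : kfun 1 w x = 1 := by
  unfold kfun
  rw [if_pos (by simpa using isCoprime_one_right), tq_kloo_one, tq_eI_one]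
  simp

private lemma tq_swap {k0 m1 m2 : ℕ} {H : Bool → ℤ → ℂ} (hS : SwapH k0 m1 m2 H) (y s : ℝ)
    (σ : Bool) {u v : ℕ} (hu : 0 < u) (hv : 0 < v) (huv : u.Coprime v) (huk : u.Coprime k0)
    (hvk : v.Coprime k0) : tqPhi m1 m2 k0 H y s (!σ) v u = tqPhi m1 m2 k0 H y s σ u v := by
  have h := hS y s σ u v hu hv huv huk hvk
  unfold tqPhi
  rw [h, mul_comm v u]

private lemma tq_term {P k0 m1 m2 n Y Z : ℕ} {S : Finset ℕ} (hp : Par P k0 m1 m2 n Y Z S)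
    (V : ℕ → ℂ) (H : Bool → ℤ → ℂ)
    (hH : ∀ (σ : Bool) (c : ℕ), 0 < c → c.Coprime k0 →
        ((jacobiSym (((m2 * m1) * k0 : ℕ) : ℤ) c : ℤ) : ℂ) * gs c * V c *
            eI k0 (sg σ * (2 * ((m2 * m1 : ℕ) : ℤ))) (c : ℤ) = H σ c * jc c m1)
    (y s : ℝ) {c : ℕ} (hc : 1 < c) (hcn : c.Coprime n) :
    salS c ((m2 * m1 : ℕ) : ℤ) (k0 : ℤ) * V c / ((c * k0 : ℕ) : ℂ) *
        psW (m2 * m1) y s ((c * k0 : ℕ) : ℝ) =
      ∑ x ∈ prs c, (tqPhi m1 m2 k0 H y s true x.1 x.2 + tqPhi m1 m2 k0 H y s false x.1 x.2) := by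
  obtain ⟨h8, hm⟩ := (hp.hn c).1 hcn
  have hck : c.Coprime k0 := Nat.Coprime.coprime_dvd_right (Dvd.intro_left 8 rfl) h8
  have hodd : Odd c := by
    have h2 : c.Coprime 2 := Nat.Coprime.coprime_dvd_right
      (Dvd.dvd.mul_right (by norm_num : 2 ∣ 8) k0) h8
    exact Nat.coprime_two_right.1 h2
  have h := term_eq (k1 := 1) (k2 := k0) (m1 := m1) (m2 := m2) one_pos hp.hk0
    (Nat.coprime_one_left _) V H (fun _ => 1) (fun _ => one_pos) (fun _ _ _ => Nat.coprime_one_left _)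
    (by simp) hodd hc (Nat.coprime_one_right _) hck hm (fun σ => by
      rw [one_mul, mul_one, jacobiSym.one_right, Int.cast_one, mul_one]
      exact hH σ c (by omega) hck) y s
  simp only [one_mul, jacobiSym.one_right, Int.cast_one, mul_one, tq_kloo_one, tq_kfun_one,
    Finset.prod_const_one, Nat.cast_one, Real.sqrt_one, Complex.ofReal_one] at h
  rw [h]
  refine Finset.sum_congr rfl fun x hx => ?_
  have hxc : x.1 * x.2 = c := by
    unfold prs at hx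
    rw [mem_filter, Nat.mem_divisorsAntidiagonal] at hx
    exact hx.1.1
  have hcj : ∀ σ, cj σ 1 = 1 := by
    intro σ
    unfold cj
    split_ifs <;> simp
  rw [Fintype.sum_bool]
  unfold tqPhi jc
  rw [hxc, hcj, hcj]
  ring

private lemma tq_sumD {c : ℕ} (hc : 1 < c) (F : ℕ → ℕ → ℂ) :
    ∑ x ∈ tqD c, F x.1 x.2 = ∑ x ∈ prs c, (F x.1 x.2 + F x.2 x.1) := by
  rw [Finset.sum_add_distrib, ← Finset.sum_filter_add_sum_filter_not (tqD c) (fun x => x.1 < x.2)]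
  have e1 : (tqD c).filter (fun x => x.1 < x.2) = prs c := by
    unfold tqD prs
    rw [Finset.filter_filter]
  rw [e1]
  congr 1
  refine Finset.sum_nbij' (fun x => (x.2, x.1)) (fun x => (x.2, x.1)) ?_ ?_ ?_ ?_ ?_
  · rintro ⟨a, b⟩ hx
    unfold tqD at hx
    rw [mem_filter, mem_filter, Nat.mem_divisorsAntidiagonal] at hx
    obtain ⟨⟨⟨h1, h2⟩, h3⟩, h4⟩ := hx
    simp only at h1 h3 h4
    unfold prs
    rw [mem_filter, Nat.mem_divisorsAntidiagonal]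
    refine ⟨⟨by simp only; rw [mul_comm]; exact h1, h2⟩, h3.symm, ?_⟩
    simp only
    rcases lt_or_eq_of_le (not_lt.1 h4) with h | h
    · exact h
    · exfalso
      subst h
      have h5 : b = 1 := (Nat.coprime_self b).1 h3
      subst h5
      omega
  · rintro ⟨a, b⟩ hx
    unfold prs at hx
    rw [mem_filter, Nat.mem_divisorsAntidiagonal] at hx
    obtain ⟨⟨h1, h2⟩, h3, h4⟩ := hx
    simp only at h1 h3 h4
    unfold tqD
    rw [mem_filter, mem_filter, Nat.mem_divisorsAntidiagonal]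
    refine ⟨⟨⟨by simp only; rw [mul_comm]; exact h1, h2⟩, h3.symm⟩, ?_⟩
    simp only
    omega
  · rintro ⟨a, b⟩ _
    rfl
  · rintro ⟨a, b⟩ _
    rfl
  · rintro ⟨a, b⟩ _
    rfl

private lemma tq_count {S : Finset ℕ} (hS : ∀ Q ∈ S, Q.Prime) {u v : ℕ} (huv : u.Coprime v) :
    (S.filter (· ∣ u * v)).card = (S.filter (· ∣ u)).card + (S.filter (· ∣ v)).card := by
  rw [← Finset.card_union_of_disjoint]
  · congr 1
    ext Q
    rw [mem_union, mem_filter, mem_filter, mem_filter, ← and_or_left]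
    constructor
    · rintro ⟨h1, h2⟩
      exact ⟨h1, ((hS Q h1).dvd_mul).1 h2⟩
    · rintro ⟨h1, h2⟩
      exact ⟨h1, ((hS Q h1).dvd_mul).2 h2⟩
  · rw [Finset.disjoint_left]
    intro Q h1 h2
    rw [mem_filter] at h1 h2
    exact Nat.Prime.not_coprime_iff_dvd.2 ⟨Q, hS Q h1.1, h1.2, h2.2⟩ huv

private lemma tq_main {P k0 m1 m2 n Y Z : ℕ} {S : Finset ℕ} (hp : Par P k0 m1 m2 n Y Z S)
    (V : ℕ → ℂ) (H : Bool → ℤ → ℂ)
    (hH : ∀ (σ : Bool) (c : ℕ), 0 < c → c.Coprime k0 →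
        ((jacobiSym (((m2 * m1) * k0 : ℕ) : ℤ) c : ℤ) : ℂ) * gs c * V c *
            eI k0 (sg σ * (2 * ((m2 * m1 : ℕ) : ℤ))) (c : ℤ) = H σ c * jc c m1)
    (y s : ℝ) {c : ℕ} (hc : 0 < c) (hcn : c.Coprime n) :
    ((S.filter (· ∣ c)).card : ℂ) *
        (salS c ((m2 * m1 : ℕ) : ℤ) (k0 : ℤ) * V c / ((c * k0 : ℕ) : ℂ) *
          psW (m2 * m1) y s ((c * k0 : ℕ) : ℝ)) =
      ∑ σ : Bool, ∑ Q ∈ S, ∑ x ∈ (tqD c).filter (fun x => Q ∣ x.1), tqPhi m1 m2 k0 H y s σ x.1 x.2 := by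
  have hprime : ∀ Q ∈ S, Q.Prime := fun Q hQ => (hp.hS Q hQ).1
  rcases Nat.lt_or_ge 1 c with h1 | h1
  · rw [tq_term hp V H hH y s h1 hcn]
    have hsw := phi_swap hp.hk0 V H hH
    obtain ⟨h8, hm⟩ := (hp.hn c).1 hcn
    have hck : c.Coprime k0 := Nat.Coprime.coprime_dvd_right (Dvd.intro_left 8 rfl) h8
    have hre : ∀ σ : Bool, ∑ Q ∈ S, ∑ x ∈ (tqD c).filter (fun x => Q ∣ x.1),
        tqPhi m1 m2 k0 H y s σ x.1 x.2 =
        ∑ x ∈ tqD c, ((S.filter (· ∣ x.1)).card : ℂ) * tqPhi m1 m2 k0 H y s σ x.1 x.2 := by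
      intro σ
      simp only [Finset.sum_filter]
      rw [Finset.sum_comm]
      refine Finset.sum_congr rfl fun x _ => ?_
      rw [← Finset.sum_filter, Finset.sum_const, nsmul_eq_mul]
    rw [Fintype.sum_bool, hre, hre]
    rw [tq_sumD h1 (fun u v => ((S.filter (· ∣ u)).card : ℂ) * tqPhi m1 m2 k0 H y s true u v),
      tq_sumD h1 (fun u v => ((S.filter (· ∣ u)).card : ℂ) * tqPhi m1 m2 k0 H y s false u v),
      ← Finset.sum_add_distrib, Finset.mul_sum]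
    refine Finset.sum_congr rfl fun x hx => ?_
    unfold prs at hx
    rw [mem_filter, Nat.mem_divisorsAntidiagonal] at hx
    obtain ⟨⟨hxc, -⟩, hcop, -⟩ := hx
    have hx1 : 0 < x.1 := Nat.pos_of_ne_zero (fun h => by rw [h, zero_mul] at hxc; omega)
    have hx2 : 0 < x.2 := Nat.pos_of_ne_zero (fun h => by rw [h, mul_zero] at hxc; omega)
    have hk1 : x.1.Coprime k0 := Nat.Coprime.coprime_dvd_left (Dvd.intro _ hxc) hck
    have hk2 : x.2.Coprime k0 := Nat.Coprime.coprime_dvd_left (Dvd.intro_left _ hxc) hck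
    have s1 := tq_swap hsw y s true hx1 hx2 hcop hk1 hk2
    have s2 := tq_swap hsw y s false hx1 hx2 hcop hk1 hk2
    simp only [Bool.not_true, Bool.not_false] at s1 s2
    rw [s1, s2, ← hxc, tq_count hprime hcop]
    push_cast
    ring
  · have hc1 : c = 1 := by omega
    subst hc1
    have e0 : S.filter (· ∣ 1) = ∅ := by
      rw [Finset.filter_eq_empty_iff]
      intro Q hQ h
      exact (hprime Q hQ).one_lt.ne' (Nat.dvd_one.1 h)
    rw [e0, Finset.card_empty, Nat.cast_zero, zero_mul]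
    symm
    refine Finset.sum_eq_zero fun σ _ => Finset.sum_eq_zero fun Q hQ => Finset.sum_eq_zero fun x hx => ?_
    exfalso
    unfold tqD at hx
    rw [mem_filter, mem_filter, Nat.mem_divisorsAntidiagonal] at hx
    have h2 : x.1 = 1 := Nat.eq_one_of_mul_eq_one_right hx.1.1.1
    have h3 := hx.2
    rw [h2] at h3
    exact (hprime Q hQ).one_lt.ne' (Nat.dvd_one.1 h3)

theorem split_pairs {P k0 m1 m2 n Y Z : ℕ} {S : Finset ℕ} (hp : Par P k0 m1 m2 n Y Z S)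
    (V : ℕ → ℂ) (H : Bool → ℤ → ℂ)
    (hH : ∀ (σ : Bool) (c : ℕ), 0 < c → c.Coprime k0 →
        ((jacobiSym (((m2 * m1) * k0 : ℕ) : ℤ) c : ℤ) : ℂ) * gs c * V c *
            eI k0 (sg σ * (2 * ((m2 * m1 : ℕ) : ℤ))) (c : ℤ) = H σ c * jc c m1)
    (y s : ℝ) (X : ℕ) :
    ∑ c ∈ (Icc 1 X).filter (fun c : ℕ ↦ c.Coprime n), ((S.filter (· ∣ c)).card : ℂ) *
        (salS c ((m2 * m1 : ℕ) : ℤ) (k0 : ℤ) * V c / ((c * k0 : ℕ) : ℂ) *
          psW (m2 * m1) y s ((c * k0 : ℕ) : ℝ)) =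
      ∑ σ : Bool, ∑ Q ∈ S, ∑ a ∈ Icc 1 X, ∑ b ∈ Icc 1 X,
        if Q * a * b ≤ X then Fq m1 m2 k0 n H y s σ Q a b else 0 := by
  have hstep : ∀ c ∈ (Icc 1 X).filter (fun c : ℕ ↦ c.Coprime n), ((S.filter (· ∣ c)).card : ℂ) *
        (salS c ((m2 * m1 : ℕ) : ℤ) (k0 : ℤ) * V c / ((c * k0 : ℕ) : ℂ) *
          psW (m2 * m1) y s ((c * k0 : ℕ) : ℝ)) =
      ∑ σ : Bool, ∑ Q ∈ S, ∑ x ∈ (tqD c).filter (fun x => Q ∣ x.1),
        tqPhi m1 m2 k0 H y s σ x.1 x.2 := by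
    intro c hc
    rw [mem_filter, mem_Icc] at hc
    exact tq_main hp V H hH y s (by omega) hc.2
  rw [Finset.sum_congr rfl hstep, Finset.sum_comm]
  refine Finset.sum_congr rfl fun σ _ => ?_
  rw [Finset.sum_comm]
  refine Finset.sum_congr rfl fun Q hQ => ?_
  have hQ0 : 0 < Q := (hp.hS Q hQ).1.pos
  rw [Finset.sum_sigma', ← Finset.sum_product' (Icc 1 X) (Icc 1 X)
    (fun a b => if Q * a * b ≤ X then Fq m1 m2 k0 n H y s σ Q a b else 0)]
  have e2 : ∑ x ∈ Icc 1 X ×ˢ Icc 1 X, (if Q * x.1 * x.2 ≤ X then Fq m1 m2 k0 n H y s σ Q x.1 x.2 else 0)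
      = ∑ x ∈ (Icc 1 X ×ˢ Icc 1 X).filter (fun x => Q * x.1 * x.2 ≤ X ∧ (Q * x.1).Coprime x.2 ∧
          (Q * x.1 * x.2).Coprime n), tqPhi m1 m2 k0 H y s σ (Q * x.1) x.2 := by
    rw [Finset.sum_filter]
    refine Finset.sum_congr rfl fun x _ => ?_
    unfold Fq tqPhi
    by_cases h1 : Q * x.1 * x.2 ≤ X
    · by_cases h2 : (Q * x.1).Coprime x.2 ∧ (Q * x.1 * x.2).Coprime n
      · rw [if_pos h1, if_pos h2, if_pos ⟨h1, h2⟩]
      · rw [if_pos h1, if_neg h2, if_neg (fun h => h2 h.2)]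
    · rw [if_neg h1, if_neg (fun h => h1 h.1)]
  rw [e2]
  refine Finset.sum_nbij' (fun p => (p.2.1 / Q, p.2.2)) (fun x => ⟨Q * x.1 * x.2, (Q * x.1, x.2)⟩)
    ?_ ?_ ?_ ?_ ?_
  · rintro ⟨c, u, v⟩ hx
    rw [mem_sigma] at hx
    obtain ⟨h1, h2⟩ := hx
    unfold tqD at h2
    rw [mem_filter, mem_Icc] at h1
    rw [mem_filter, mem_filter, Nat.mem_divisorsAntidiagonal] at h2
    simp only at h1 h2
    obtain ⟨⟨⟨huv, -⟩, hcop⟩, ⟨a, rfl⟩⟩ := h2
    obtain ⟨⟨hc1, hcX⟩, hcn⟩ := h1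
    have ha0 : 0 < a := Nat.pos_of_ne_zero (fun h => by rw [h, mul_zero, zero_mul] at huv; omega)
    have hv0 : 0 < v := Nat.pos_of_ne_zero (fun h => by rw [h, mul_zero] at huv; omega)
    rw [mem_filter, mem_product, mem_Icc, mem_Icc]
    simp only [Nat.mul_div_cancel_left a hQ0]
    have ha : a ≤ Q * a * v := by
      calc a = 1 * a * 1 := by ring
        _ ≤ Q * a * v := Nat.mul_le_mul (Nat.mul_le_mul_right a hQ0) hv0
    have hv : v ≤ Q * a * v := Nat.le_mul_of_pos_left v (Nat.mul_pos hQ0 ha0)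
    refine ⟨⟨⟨ha0, by omega⟩, hv0, by omega⟩, by omega, hcop, ?_⟩
    rw [huv]
    exact hcn
  · rintro ⟨a, b⟩ hx
    rw [mem_filter, mem_product, mem_Icc, mem_Icc] at hx
    simp only at hx
    obtain ⟨⟨⟨ha, -⟩, hb, -⟩, hX, hcop, hn⟩ := hx
    rw [mem_sigma]
    have h0 : 0 < Q * a * b := Nat.mul_pos (Nat.mul_pos hQ0 ha) hb
    refine ⟨?_, ?_⟩
    · rw [mem_filter, mem_Icc]
      exact ⟨⟨h0, hX⟩, hn⟩
    · unfold tqD
      rw [mem_filter, mem_filter, Nat.mem_divisorsAntidiagonal]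
      exact ⟨⟨⟨rfl, h0.ne'⟩, hcop⟩, Dvd.intro _ rfl⟩
  · rintro ⟨c, u, v⟩ hx
    rw [mem_sigma] at hx
    obtain ⟨h1, h2⟩ := hx
    unfold tqD at h2
    rw [mem_filter, mem_filter, Nat.mem_divisorsAntidiagonal] at h2
    simp only at h2
    obtain ⟨⟨⟨huv, -⟩, hcop⟩, ⟨a, rfl⟩⟩ := h2
    simp only [Nat.mul_div_cancel_left a hQ0]
    rw [huv]
  · rintro ⟨a, b⟩ _
    simp only [Nat.mul_div_cancel_left a hQ0]
  · rintro ⟨c, u, v⟩ hx
    rw [mem_sigma] at hx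
    obtain ⟨h1, h2⟩ := hx
    rw [mem_filter] at h2
    simp only at h2
    obtain ⟨-, ⟨a, rfl⟩⟩ := h2
    simp only [Nat.mul_div_cancel_left a hQ0]

end

end Pool.Agent.Work.MP_af11aa_nt.T
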