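import Mathlib

/-!
MODULE Mom4 (elementary fourth moment of twisted Kloosterman sums modulo a prime).
Put S(a,b) = ∑_x ψ(x) e((a x + b x⁻¹)/p).
1. ∑_{a,b mod p} |S(a,b)|⁴ = p² ∑ ψ(x1)ψ(x2)conj ψ(x3)ψ(x4) over the solutions of x1+x2 = x3+x4, x1⁻¹+x2⁻¹ = x3⁻¹+x4⁻¹,
   hence ≤ p² N with N the number of solutions in units: if s = x1+x2 ≠ 0 then x1 x2 = x3 x4 so {x3,x4} = {x1,x2} (two choices);
   if s = 0 then x4 = -x3. So N ≤ 2 (p-1)² + (p-1)².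
2. S(a c, b c⁻¹) = ψ(c)⁻¹ S(a,b) (substitution x -> c⁻¹ x), so |S(a,b)| = |S(1,ab)| for a ≠ 0.
3. Hence (p-1) ∑_{t≠0} |S(1,t)|⁴ = ∑_{a,b≠0} |S(a,b)|⁴ ≤ 3 p² (p-1)².
4. |S(u,u)| = |S(1,u²)| and u -> u² is at most 2 to 1: ∑_u |S(u,u)|⁴ ≤ 6 p² (p-1) ≤ 16 p³.
(compare Work/MP_2dba45_nt/Kloost.lean: second_moment, fourth_moment, K_sq, which treat ψ = 1.)
-/

set_option autoImplicit false

namespace Pool.Agent.Work.MP_af11aa_nt.T

open Finset

private theorem mom4_second {ι : Type} [Fintype ι] [DecidableEq ι] (p : ℕ) [NeZero p]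
    (w : ι → ℂ) (hw : ∀ i, ‖w i‖ = 1) (u v : ι → ZMod p) :
    ∑ a : ZMod p, ∑ b : ZMod p,
      ‖∑ i : ι, w i * (ZMod.stdAddChar (a * u i + b * v i) : ℂ)‖ ^ 2 ≤
    (p : ℝ) ^ 2 * ((univ.filter (fun q : ι × ι ↦ u q.1 = u q.2 ∧ v q.1 = v q.2)).card : ℝ) := by
  have h1 : ∀ a b : ZMod p,
      ((‖∑ i : ι, w i * (ZMod.stdAddChar (a * u i + b * v i) : ℂ)‖ ^ 2 : ℝ) : ℂ) =
      ∑ q : ι × ι, (w q.1 * (starRingEnd ℂ) (w q.2)) *
        ((ZMod.stdAddChar (a * (u q.1 - u q.2)) : ℂ) *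
          ZMod.stdAddChar (b * (v q.1 - v q.2))) := by
    intro a b
    rw [← Complex.normSq_eq_norm_sq, Complex.normSq_eq_conj_mul_self, map_sum, mul_comm,
      Finset.sum_mul_sum, ← Finset.sum_product', Finset.univ_product_univ]
    refine Finset.sum_congr rfl fun q _ => ?_
    rw [map_mul, ← AddChar.map_neg_eq_conj, ← AddChar.map_add_eq_mul]
    have h3 : (ZMod.stdAddChar (a * (u q.1 - u q.2) + b * (v q.1 - v q.2)) : ℂ) =
        ZMod.stdAddChar (a * u q.1 + b * v q.1) * ZMod.stdAddChar (-(a * u q.2 + b * v q.2)) := by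
      rw [← AddChar.map_add_eq_mul]
      congr 1
      ring
    rw [h3]
    ring
  have h2 : ∀ x : ZMod p, ∑ a : ZMod p, (ZMod.stdAddChar (a * x) : ℂ) =
      if x = 0 then (p : ℂ) else 0 := by
    intro x
    rw [AddChar.sum_mulShift _ (ZMod.isPrimitive_stdAddChar p), ZMod.card]
    split_ifs <;> simp
  have key : ((∑ a : ZMod p, ∑ b : ZMod p,
      ‖∑ i : ι, w i * (ZMod.stdAddChar (a * u i + b * v i) : ℂ)‖ ^ 2 : ℝ) : ℂ) =
      ∑ q ∈ univ.filter (fun q : ι × ι ↦ u q.1 = u q.2 ∧ v q.1 = v q.2),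
        (w q.1 * (starRingEnd ℂ) (w q.2)) * (p : ℂ) ^ 2 := by
    rw [Complex.ofReal_sum]
    simp_rw [Complex.ofReal_sum, h1]
    have e1 : ∀ a : ZMod p, ∑ b : ZMod p, ∑ q : ι × ι, (w q.1 * (starRingEnd ℂ) (w q.2)) *
        ((ZMod.stdAddChar (a * (u q.1 - u q.2)) : ℂ) *
          ZMod.stdAddChar (b * (v q.1 - v q.2))) =
        ∑ q : ι × ι, (w q.1 * (starRingEnd ℂ) (w q.2)) *
        ((ZMod.stdAddChar (a * (u q.1 - u q.2)) : ℂ) *
          ∑ b : ZMod p, ZMod.stdAddChar (b * (v q.1 - v q.2))) := by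
      intro a
      rw [Finset.sum_comm]
      refine Finset.sum_congr rfl fun q _ => ?_
      rw [Finset.mul_sum, Finset.mul_sum]
    simp_rw [e1]
    rw [Finset.sum_comm, Finset.sum_filter]
    refine Finset.sum_congr rfl fun q _ => ?_
    rw [← Finset.mul_sum, ← Finset.sum_mul, h2, h2]
    by_cases h3 : u q.1 = u q.2 <;> by_cases h4 : v q.1 = v q.2 <;>
      simp [h3, h4, sub_eq_zero, sq]
  have hpos : 0 ≤ ∑ a : ZMod p, ∑ b : ZMod p,
      ‖∑ i : ι, w i * (ZMod.stdAddChar (a * u i + b * v i) : ℂ)‖ ^ 2 :=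
    Finset.sum_nonneg fun _ _ => Finset.sum_nonneg fun _ _ => by positivity
  have hn : ‖((∑ a : ZMod p, ∑ b : ZMod p,
      ‖∑ i : ι, w i * (ZMod.stdAddChar (a * u i + b * v i) : ℂ)‖ ^ 2 : ℝ) : ℂ)‖ =
      ∑ a : ZMod p, ∑ b : ZMod p,
      ‖∑ i : ι, w i * (ZMod.stdAddChar (a * u i + b * v i) : ℂ)‖ ^ 2 := by
    rw [Complex.norm_real, Real.norm_of_nonneg hpos]
  rw [← hn, key]
  refine (norm_sum_le _ _).trans ?_
  refine (Finset.sum_le_sum (g := fun _ => (p : ℝ) ^ 2) fun q _ => ?_).trans ?_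
  · rw [norm_mul, norm_mul, RCLike.norm_conj, hw, hw, norm_pow, Complex.norm_natCast]
    simp
  · rw [Finset.sum_const, nsmul_eq_mul, mul_comm]

private noncomputable def mom4S (p : ℕ) [NeZero p] (ψ : (ZMod p)ˣ →* ℂ) (a b : ZMod p) : ℂ :=
  ∑ x : (ZMod p)ˣ, ψ x * (ZMod.stdAddChar (a * (x : ZMod p) +
    b * ((x⁻¹ : (ZMod p)ˣ) : ZMod p)) : ℂ)

private theorem mom4_sq (p : ℕ) [NeZero p] (ψ : (ZMod p)ˣ →* ℂ) (a b : ZMod p) :
    (mom4S p ψ a b) ^ 2 = ∑ q : (ZMod p)ˣ × (ZMod p)ˣ, (ψ q.1 * ψ q.2) *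
      (ZMod.stdAddChar (a * ((q.1 : ZMod p) + (q.2 : ZMod p)) +
      b * (((q.1⁻¹ : (ZMod p)ˣ) : ZMod p) + ((q.2⁻¹ : (ZMod p)ˣ) : ZMod p))) : ℂ) := by
  rw [mom4S, sq, Finset.sum_mul_sum, ← Finset.sum_product', Finset.univ_product_univ]
  refine Finset.sum_congr rfl fun q _ => ?_
  have h3 : (ZMod.stdAddChar (a * ((q.1 : ZMod p) + (q.2 : ZMod p)) +
      b * (((q.1⁻¹ : (ZMod p)ˣ) : ZMod p) + ((q.2⁻¹ : (ZMod p)ˣ) : ZMod p))) : ℂ) =
      ZMod.stdAddChar (a * (q.1 : ZMod p) + b * ((q.1⁻¹ : (ZMod p)ˣ) : ZMod p)) *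
      ZMod.stdAddChar (a * (q.2 : ZMod p) + b * ((q.2⁻¹ : (ZMod p)ˣ) : ZMod p)) := by
    rw [← AddChar.map_add_eq_mul]
    congr 1
    ring
  rw [h3]
  ring

private theorem mom4_sol (p : ℕ) [Fact p.Prime] :
    (univ.filter (fun q : ((ZMod p)ˣ × (ZMod p)ˣ) × ((ZMod p)ˣ × (ZMod p)ˣ) ↦
      (q.1.1 : ZMod p) + (q.1.2 : ZMod p) = (q.2.1 : ZMod p) + (q.2.2 : ZMod p) ∧
      ((q.1.1⁻¹ : (ZMod p)ˣ) : ZMod p) + ((q.1.2⁻¹ : (ZMod p)ˣ) : ZMod p) =
      ((q.2.1⁻¹ : (ZMod p)ˣ) : ZMod p) + ((q.2.2⁻¹ : (ZMod p)ˣ) : ZMod p))).card ≤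
      3 * (p - 1) ^ 2 := by
  classical
  have hcard : Fintype.card ((ZMod p)ˣ × (ZMod p)ˣ) = (p - 1) ^ 2 := by
    rw [Fintype.card_prod, ZMod.card_units_eq_totient, Nat.totient_prime Fact.out, sq]
  let f1 : (ZMod p)ˣ × (ZMod p)ˣ → ((ZMod p)ˣ × (ZMod p)ˣ) × ((ZMod p)ˣ × (ZMod p)ˣ) :=
    fun q => (q, q)
  let f2 : (ZMod p)ˣ × (ZMod p)ˣ → ((ZMod p)ˣ × (ZMod p)ˣ) × ((ZMod p)ˣ × (ZMod p)ˣ) :=
    fun q => (q, (q.2, q.1))
  let f3 : (ZMod p)ˣ × (ZMod p)ˣ → ((ZMod p)ˣ × (ZMod p)ˣ) × ((ZMod p)ˣ × (ZMod p)ˣ) :=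
    fun q => ((q.1, -q.1), (q.2, -q.2))
  have hsub : univ.filter (fun q : ((ZMod p)ˣ × (ZMod p)ˣ) × ((ZMod p)ˣ × (ZMod p)ˣ) ↦
      (q.1.1 : ZMod p) + (q.1.2 : ZMod p) = (q.2.1 : ZMod p) + (q.2.2 : ZMod p) ∧
      ((q.1.1⁻¹ : (ZMod p)ˣ) : ZMod p) + ((q.1.2⁻¹ : (ZMod p)ˣ) : ZMod p) =
      ((q.2.1⁻¹ : (ZMod p)ˣ) : ZMod p) + ((q.2.2⁻¹ : (ZMod p)ˣ) : ZMod p)) ⊆
      (univ.image f1 ∪ univ.image f2) ∪ univ.image f3 := by
    rintro ⟨⟨x1, x2⟩, ⟨x3, x4⟩⟩ hq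
    rw [mem_filter] at hq
    obtain ⟨-, h1, h2⟩ := hq
    simp only at h1 h2
    rw [Units.val_inv_eq_inv_val, Units.val_inv_eq_inv_val, Units.val_inv_eq_inv_val,
      Units.val_inv_eq_inv_val] at h2
    have n1 : (x1 : ZMod p) ≠ 0 := x1.ne_zero
    have n2 : (x2 : ZMod p) ≠ 0 := x2.ne_zero
    have n3 : (x3 : ZMod p) ≠ 0 := x3.ne_zero
    have n4 : (x4 : ZMod p) ≠ 0 := x4.ne_zero
    have h3 : ((x1 : ZMod p) + x2) * (x3 * x4) = (x3 + x4) * (x1 * x2) := by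
      field_simp at h2
      linear_combination h2
    rw [← h1] at h3
    simp only [mem_union, mem_image, mem_univ, true_and]
    by_cases hs : (x1 : ZMod p) + x2 = 0
    · right
      refine ⟨(x1, x3), ?_⟩
      have e2 : x2 = -x1 := by
        apply Units.ext
        rw [Units.val_neg]
        linear_combination hs
      have e4 : x4 = -x3 := by
        apply Units.ext
        rw [Units.val_neg]
        linear_combination hs - h1
      rw [e2, e4]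
    · left
      have h4 : (x3 : ZMod p) * x4 = x1 * x2 := mul_left_cancel₀ hs h3
      have h5 : ((x3 : ZMod p) - x1) * (x3 - x2) = 0 := by
        linear_combination -x3 * h1 + -h4
      rcases mul_eq_zero.1 h5 with h6 | h6
      · left
        have e3 : x3 = x1 := Units.ext (sub_eq_zero.1 h6)
        have e4 : x4 = x2 := by
          apply Units.ext
          rw [e3] at h1
          exact (add_left_cancel h1).symm
        exact ⟨(x1, x2), by rw [e3, e4]⟩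
      · right
        have e3 : x3 = x2 := Units.ext (sub_eq_zero.1 h6)
        have e4 : x4 = x1 := by
          apply Units.ext
          rw [e3] at h1
          linear_combination -h1
        exact ⟨(x1, x2), by rw [e3, e4]⟩
  calc _ ≤ ((univ.image f1 ∪ univ.image f2) ∪ univ.image f3).card := card_le_card hsub
    _ ≤ (univ.image f1 ∪ univ.image f2).card + (univ.image f3).card := card_union_le _ _
    _ ≤ ((univ.image f1).card + (univ.image f2).card) + (univ.image f3).card := by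
        have := card_union_le (univ.image f1) (univ.image f2)
        omega
    _ ≤ 3 * (p - 1) ^ 2 := by
        have c1 := (card_image_le (s := univ) (f := f1))
        have c2 := (card_image_le (s := univ) (f := f2))
        have c3 := (card_image_le (s := univ) (f := f3))
        rw [card_univ, hcard] at c1 c2 c3
        omega

private theorem mom4_fourth (p : ℕ) [Fact p.Prime] (ψ : (ZMod p)ˣ →* ℂ)
    (hψ : ∀ x, ‖ψ x‖ = 1) :
    ∑ a : ZMod p, ∑ b : ZMod p, ‖mom4S p ψ a b‖ ^ 4 ≤ (p : ℝ) ^ 2 * (3 * ((p : ℝ) - 1) ^ 2) := by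
  classical
  have h := mom4_second (ι := (ZMod p)ˣ × (ZMod p)ˣ) p (fun q => ψ q.1 * ψ q.2)
    (fun q => by rw [norm_mul, hψ, hψ, mul_one])
    (fun q => (q.1 : ZMod p) + (q.2 : ZMod p))
    (fun q => ((q.1⁻¹ : (ZMod p)ˣ) : ZMod p) + ((q.2⁻¹ : (ZMod p)ˣ) : ZMod p))
  have h1 : ∑ a : ZMod p, ∑ b : ZMod p, ‖mom4S p ψ a b‖ ^ 4 =
      ∑ a : ZMod p, ∑ b : ZMod p,
      ‖∑ q : (ZMod p)ˣ × (ZMod p)ˣ, (ψ q.1 * ψ q.2) *
      (ZMod.stdAddChar (a * ((q.1 : ZMod p) + (q.2 : ZMod p)) +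
      b * (((q.1⁻¹ : (ZMod p)ˣ) : ZMod p) + ((q.2⁻¹ : (ZMod p)ˣ) : ZMod p))) : ℂ)‖ ^ 2 := by
    refine Finset.sum_congr rfl fun a _ => Finset.sum_congr rfl fun b _ => ?_
    rw [← mom4_sq, norm_pow, ← pow_mul]
  rw [h1]
  refine h.trans ?_
  refine mul_le_mul_of_nonneg_left ?_ (by positivity)
  have h2 : (((univ.filter (fun q : ((ZMod p)ˣ × (ZMod p)ˣ) × ((ZMod p)ˣ × (ZMod p)ˣ) ↦
      (q.1.1 : ZMod p) + (q.1.2 : ZMod p) = (q.2.1 : ZMod p) + (q.2.2 : ZMod p) ∧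
      ((q.1.1⁻¹ : (ZMod p)ˣ) : ZMod p) + ((q.1.2⁻¹ : (ZMod p)ˣ) : ZMod p) =
      ((q.2.1⁻¹ : (ZMod p)ˣ) : ZMod p) + ((q.2.2⁻¹ : (ZMod p)ˣ) : ZMod p))).card : ℕ) : ℝ) ≤
      ((3 * (p - 1) ^ 2 : ℕ) : ℝ) := by exact_mod_cast mom4_sol p
  refine h2.trans ?_
  have hp1 : 1 ≤ p := (Fact.out : p.Prime).one_lt.le
  push_cast [Nat.cast_sub hp1]
  exact le_rfl

private theorem mom4_twist (p : ℕ) [NeZero p] (ψ : (ZMod p)ˣ →* ℂ) (hψ : ∀ x, ‖ψ x‖ = 1)
    (a b : ZMod p) (c : (ZMod p)ˣ) :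
    ‖mom4S p ψ (a * (c : ZMod p)) (b * ((c⁻¹ : (ZMod p)ˣ) : ZMod p))‖ = ‖mom4S p ψ a b‖ := by
  have h : ψ c * mom4S p ψ (a * (c : ZMod p)) (b * ((c⁻¹ : (ZMod p)ˣ) : ZMod p)) =
      mom4S p ψ a b := by
    unfold mom4S
    rw [Finset.mul_sum]
    apply Fintype.sum_equiv (Equiv.mulLeft c)
    intro x
    rw [Equiv.coe_mulLeft, map_mul, ← mul_assoc]
    congr 2
    rw [mul_inv, Units.val_mul, Units.val_mul]
    ring
  rw [← h, norm_mul, hψ, one_mul]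

theorem mom4 (p : ℕ) [Fact p.Prime] (ψ : (ZMod p)ˣ →* ℂ) (hψ : ∀ x, ‖ψ x‖ = 1) :
    ∑ u : (ZMod p)ˣ, ‖∑ x : (ZMod p)ˣ, ψ x * (ZMod.stdAddChar ((u : ZMod p) *
      ((x : ZMod p) + ((x⁻¹ : (ZMod p)ˣ) : ZMod p))) : ℂ)‖ ^ 4 ≤ 16 * (p : ℝ) ^ 3 := by
  classical
  have hp2 : (2 : ℝ) ≤ p := by exact_mod_cast (Fact.out : p.Prime).two_le
  have hp1 : 1 ≤ p := (Fact.out : p.Prime).one_lt.le
  have h0 : ∀ u : (ZMod p)ˣ, ∑ x : (ZMod p)ˣ, ψ x * (ZMod.stdAddChar ((u : ZMod p) *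
      ((x : ZMod p) + ((x⁻¹ : (ZMod p)ˣ) : ZMod p))) : ℂ) = mom4S p ψ u u := by
    intro u
    unfold mom4S
    refine Finset.sum_congr rfl fun x _ => ?_
    rw [mul_add]
  simp_rw [h0]
  set F : ZMod p × ZMod p → ℝ := fun y => ‖mom4S p ψ y.1 y.2‖ ^ 4 with hF
  set f : (ZMod p)ˣ × (ZMod p)ˣ → ZMod p × ZMod p := fun q =>
    ((q.1 : ZMod p) * (q.2 : ZMod p), (q.1 : ZMod p) * ((q.2⁻¹ : (ZMod p)ˣ) : ZMod p)) with hf
  have h1 : ((p : ℝ) - 1) * ∑ u : (ZMod p)ˣ, ‖mom4S p ψ u u‖ ^ 4 =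
      ∑ q : (ZMod p)ˣ × (ZMod p)ˣ, F (f q) := by
    rw [← Finset.univ_product_univ, Finset.sum_product, Finset.mul_sum]
    refine Finset.sum_congr rfl fun u _ => ?_
    have e : ∀ c : (ZMod p)ˣ, F (f (u, c)) = ‖mom4S p ψ u u‖ ^ 4 := by
      intro c
      rw [hF, hf]
      simp only
      rw [mom4_twist p ψ hψ]
    rw [Finset.sum_congr rfl fun c _ => e c, Finset.sum_const, Finset.card_univ,
      ZMod.card_units_eq_totient, Nat.totient_prime Fact.out, nsmul_eq_mul, Nat.cast_sub hp1,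
      Nat.cast_one]
  have hfib : ∀ y : ZMod p × ZMod p, (univ.filter fun q => f q = y).card ≤ 2 := by
    intro y
    rcases Finset.eq_empty_or_nonempty (univ.filter fun q => f q = y) with he | ⟨⟨u0, c0⟩, hq0⟩
    · rw [he]; simp
    · rw [mem_filter, hf] at hq0
      have hq1 := hq0.2
      simp only at hq1
      have hsub : (univ.filter fun q => f q = y) ⊆ {(u0, c0), (-u0, -c0)} := by
        rintro ⟨u, c⟩ hq
        rw [mem_filter, hf] at hq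
        have hq2 := hq.2
        simp only at hq2
        rw [← hq1, Prod.mk.injEq, Units.val_inv_eq_inv_val, Units.val_inv_eq_inv_val] at hq2
        obtain ⟨g1, g2⟩ := hq2
        have n1 : (c : ZMod p) ≠ 0 := c.ne_zero
        have n2 : (c0 : ZMod p) ≠ 0 := c0.ne_zero
        have n3 : (u0 : ZMod p) ≠ 0 := u0.ne_zero
        have g3 : (u : ZMod p) * u = u0 * u0 := by
          have : ((u : ZMod p) * c) * (u * (c : ZMod p)⁻¹) =
              ((u0 : ZMod p) * c0) * (u0 * (c0 : ZMod p)⁻¹) := by rw [g1, g2]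
          field_simp at this
          linear_combination this
        rcases mul_self_eq_mul_self_iff.1 g3 with g4 | g4
        · have e1 : u = u0 := Units.ext g4
          have e2 : c = c0 := by
            apply Units.ext
            rw [g4] at g1
            exact mul_left_cancel₀ n3 g1
          rw [e1, e2]
          simp
        · have e1 : u = -u0 := by
            apply Units.ext
            rw [Units.val_neg]
            exact g4
          have e2 : c = -c0 := by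
            apply Units.ext
            rw [Units.val_neg]
            rw [g4] at g1
            apply mul_left_cancel₀ n3
            linear_combination -g1
          rw [e1, e2]
          simp
      exact (card_le_card hsub).trans card_le_two
  have h2 : ∑ q : (ZMod p)ˣ × (ZMod p)ˣ, F (f q) ≤ 2 * ∑ y : ZMod p × ZMod p, F y := by
    rw [← Finset.sum_fiberwise (s := (univ : Finset ((ZMod p)ˣ × (ZMod p)ˣ))) (g := f),
      Finset.mul_sum]
    refine Finset.sum_le_sum fun y _ => ?_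
    have e : ∀ q ∈ (univ : Finset ((ZMod p)ˣ × (ZMod p)ˣ)).filter (fun q => f q = y),
        F (f q) = F y := by
      intro q hq
      rw [(mem_filter.1 hq).2]
    rw [Finset.sum_congr rfl e, Finset.sum_const, nsmul_eq_mul]
    refine mul_le_mul_of_nonneg_right ?_ (by rw [hF]; positivity)
    exact_mod_cast hfib y
  have h3 : ∑ y : ZMod p × ZMod p, F y ≤ (p : ℝ) ^ 2 * (3 * ((p : ℝ) - 1) ^ 2) := by
    rw [← Finset.univ_product_univ, Finset.sum_product]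
    exact mom4_fourth p ψ hψ
  have h4 : ((p : ℝ) - 1) * ∑ u : (ZMod p)ˣ, ‖mom4S p ψ u u‖ ^ 4 ≤
      ((p : ℝ) - 1) * (16 * (p : ℝ) ^ 3) := by
    rw [h1]
    refine h2.trans ?_
    have h5 : 2 * ((p : ℝ) ^ 2 * (3 * ((p : ℝ) - 1) ^ 2)) ≤
        ((p : ℝ) - 1) * (16 * (p : ℝ) ^ 3) := by
      have h6 : 2 * ((p : ℝ) ^ 2 * (3 * ((p : ℝ) - 1) ^ 2)) =
          ((p : ℝ) - 1) * (p : ℝ) ^ 2 * (6 * ((p : ℝ) - 1)) := by ring
      have h7 : ((p : ℝ) - 1) * (16 * (p : ℝ) ^ 3) =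
          ((p : ℝ) - 1) * (p : ℝ) ^ 2 * (16 * p) := by ring
      rw [h6, h7]
      refine mul_le_mul_of_nonneg_left (by linarith) ?_
      exact mul_nonneg (by linarith) (by positivity)
    linarith
  exact le_of_mul_le_mul_left h4 (by linarith)

end Pool.Agent.Work.MP_af11aa_nt.T
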