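import Mathlib
import Pool.Agent.Work.MP_af11aa_nt.T.Defs
import Pool.Agent.Work.MP_af11aa_nt.T.Mom4
import Pool.Agent.Work.MP_af11aa_nt.W.KFac

/-!
MODULE VEnv (the part of the Kloosterman sum at the primes of 6 p r, with its envelope).
-/

set_option autoImplicit false

namespace Pool.Agent.Work.MP_af11aa_nt.T

open Finset Pool.Agent.Work.MP_af11aa_nt Pool.Agent.Work.MP_af11aa_nt.W

section

variable {p : ℕ} (χ : DirichletCharacter ℂ (24 * p)) (m k0 : ℕ)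

/-- the part of the sum at `k0`. -/
private noncomputable def vV [NeZero k0] (a : ℕ) : ℂ :=
  if a.Coprime k0 then
    ∑ z : (ZMod k0)ˣ, K.wFac (24 * p) 1 k0 χ (decide (a % 4 = 3)) z * ZMod.stdAddChar
      ((((a : ZMod k0))⁻¹ * (m : ZMod k0)) *
        ((z : ZMod k0) + ((z⁻¹ : (ZMod k0)ˣ) : ZMod k0))) else 0

private lemma vV_congr [NeZero k0] (h4 : 4 ∣ k0) (a a' : ℕ) (h : a ≡ a' [MOD k0]) :
    vV χ m k0 a = vV χ m k0 a' := by
  have e1 : a % 4 = a' % 4 := h.of_dvd h4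
  have e2 : (a : ZMod k0) = (a' : ZMod k0) := (ZMod.natCast_eq_natCast_iff _ _ _).2 h
  have e3 : a.Coprime k0 ↔ a'.Coprime k0 := by
    rw [Nat.Coprime, Nat.Coprime, h.gcd_eq]
  unfold vV
  simp only [e1, e2, e3]

private lemma vV_eq [NeZero k0] [NeZero (24 * p)] (hN : 24 * p ∣ k0) {a : ℕ} (ha0 : 0 < a)
    (hac : a.Coprime k0) :
    K.kTot m (K.mS (24 * p) 1 χ) (a * k0) = salS a m (k0 : ℤ) * vV χ m k0 a := by
  have i5 : NeZero a := ⟨ha0.ne'⟩
  have h4 : 4 ∣ 24 * p := ⟨6 * p, by ring⟩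
  have hN1 : 24 * p * 1 ∣ k0 := by rw [mul_one]; exact hN
  rw [K.kTot_eq, K.kSum_units]
  rw [kf_outer hac m (K.wFac (24 * p) 1 k0 χ (decide (a % 4 = 3))), ← kf_sal]
  · congr 1
    unfold vV
    rw [if_pos hac]
  · intro x
    set j := (x : ZMod (a * k0)).val with hj
    have hcopj : j.Coprime (a * k0) := ZMod.val_coe_unit_coprime x
    have e0 : K.mS (24 * p) 1 χ ((a * k0 : ℕ) : ℤ) (j : ℤ) = K.mS (24 * p) 1 χ (a * k0 : ℕ) j := rfl
    rw [K.mS_split h4 hN1 ha0 hac hcopj]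
    have e1 : ((ZMod.unitsMap (dvd_mul_right a k0) x : (ZMod a)ˣ) : ZMod a).val =
        j % a := by
      rw [ZMod.unitsMap_val, ZMod.cast_eq_val, ZMod.val_natCast]
    have e2 : ((ZMod.unitsMap (dvd_mul_left k0 a) x : (ZMod k0)ˣ) :
        ZMod k0).val = j % k0 := by
      rw [ZMod.unitsMap_val, ZMod.cast_eq_val, ZMod.val_natCast]
    rw [e1]
    unfold K.wFac
    rw [e2, K.wNat_mod hN h4 hN1
      (Nat.Coprime.coprime_dvd_right (dvd_mul_left k0 a) hcopj)]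
    congr 2
    push_cast
    rw [jacobiSym.mod_left]

private lemma vV_triv [NeZero k0] [NeZero (24 * p)] (hN : 24 * p ∣ k0) (a : ℕ) :
    ‖vV χ m k0 a‖ ≤ k0 := by
  have hN1 : 24 * p * 1 ∣ k0 := by rw [mul_one]; exact hN
  unfold vV
  split_ifs
  · refine (norm_sum_le _ _).trans ?_
    calc ∑ z : (ZMod k0)ˣ, ‖K.wFac (24 * p) 1 k0 χ (decide (a % 4 = 3)) z *
            (ZMod.stdAddChar ((((a : ZMod k0))⁻¹ * (m : ZMod k0)) *
              ((z : ZMod k0) + ((z⁻¹ : (ZMod k0)ˣ) : ZMod k0))) : ℂ)‖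
        ≤ ∑ _z : (ZMod k0)ˣ, (1 : ℝ) := by
          refine Finset.sum_le_sum fun z _ ↦ ?_
          rw [norm_mul, AddChar.norm_apply, mul_one]
          exact K.wFac_norm hN1 _ z
      _ = (Fintype.card (ZMod k0)ˣ : ℝ) := by
          rw [Finset.sum_const, Finset.card_univ, nsmul_eq_mul, mul_one]
      _ ≤ k0 := by
          rw [ZMod.card_units_eq_totient]
          exact_mod_cast Nat.totient_le k0
  · simp

end

/-- case `p² ∣ k0`. -/
private lemma wNat_congr_b {p k' : ℕ} (χ : DirichletCharacter ℂ (24 * p)) (hp : 0 < p)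
    (h24 : 24 ∣ k') {j j' : ℕ} (hj : j.Coprime (p * (p * k'))) (hj' : j'.Coprime (p * (p * k')))
    (h : j ≡ j' [MOD p * k']) (t : Bool) :
    K.wNat (24 * p) 1 (p * (p * k')) χ t j = K.wNat (24 * p) 1 (p * (p * k')) χ t j' := by
  have h4 : 4 ∣ k' := (show 4 ∣ 24 by norm_num).trans h24
  have hN : 24 * p ∣ p * k' := by rw [mul_comm 24 p]; exact Nat.mul_dvd_mul_left p h24
  unfold K.wNat
  have e1 : ((j : ℕ) : ZMod (24 * p)) = ((j' : ℕ) : ZMod (24 * p)) :=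
    (ZMod.natCast_eq_natCast_iff _ _ _).2 (h.of_dvd hN)
  have h44 : 4 ∣ p * k' := h4.mul_left p
  have e2 : epsilon (j : ℤ) = epsilon (j' : ℤ) := by
    apply epsilon_congr
    have := (Int.natCast_modEq_iff).2 (h.of_dvd h44)
    exact_mod_cast this
  have e3 : K.sg t j = K.sg t j' := by
    unfold K.sg
    have : j % 4 = j' % 4 := h.of_dvd h44
    rw [this]
  have e4 : shimuraSymbol (((1 : ℕ) : ℤ) * ((p * (p * k') : ℕ) : ℤ)) (j : ℤ) =
      shimuraSymbol (((1 : ℕ) : ℤ) * ((p * (p * k') : ℕ) : ℤ)) (j' : ℤ) := by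
    have hkk : ((1 : ℕ) : ℤ) * ((p * (p * k') : ℕ) : ℤ) = (p : ℤ) * ((p : ℤ) * (k' : ℤ)) := by
      push_cast; ring
    have c1 : IsCoprime ((p : ℤ) * ((p : ℤ) * (k' : ℤ))) (j : ℤ) := by
      rw [← hkk, Nat.cast_one, one_mul]
      exact (Nat.isCoprime_iff_coprime.2 hj).symm
    have c2 : IsCoprime ((p : ℤ) * ((p : ℤ) * (k' : ℤ))) (j' : ℤ) := by
      rw [← hkk, Nat.cast_one, one_mul]
      exact (Nat.isCoprime_iff_coprime.2 hj').symm
    rw [hkk]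
    exact shimura_sq_congr hp (Int.natCast_dvd_natCast.2 h4) c1 c2
      (Int.natCast_modEq_iff.2 (h.of_dvd (dvd_mul_left k' p)))
  rw [e1, e2, e3, e4]

private lemma vV_b {p k' m : ℕ} [NeZero p] [NeZero k'] (χ : DirichletCharacter ℂ (24 * p))
    (hpp : p.Prime) (hodd : Odd p) (h24 : 24 ∣ k') [NeZero (p * (p * k'))]
    (hm : m.Coprime p) (a : ℕ) :
    ‖vV χ m (p * (p * k')) a‖ ≤ ((p * k' : ℕ) : ℝ) * 2 := by
  have hp := hpp.pos
  have iN : NeZero (24 * p) := ⟨by omega⟩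
  have iL : NeZero (p * k') := ⟨Nat.mul_ne_zero (NeZero.ne p) (NeZero.ne k')⟩
  have hN : 24 * p ∣ p * (p * k') := by
    have : 24 * p ∣ p * k' := by rw [mul_comm 24 p]; exact Nat.mul_dvd_mul_left p h24
    exact this.mul_left p
  have hN1 : 24 * p * 1 ∣ p * (p * k') := by rw [mul_one]; exact hN
  by_cases ha : a.Coprime (p * (p * k'))
  · unfold vV
    rw [if_pos ha]
    have h1 := kf_V_bound (g := p) (L := p * k') (dvd_mul_right p k') hodd
      (K.wFac (24 * p) 1 (p * (p * k')) χ (decide (a % 4 = 3))) (fun z ↦ K.wFac_norm hN1 _ z)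
      (by
        intro z z' h
        unfold K.wFac
        apply wNat_congr_b χ hp h24 (ZMod.val_coe_unit_coprime z) (ZMod.val_coe_unit_coprime z')
        rw [← ZMod.natCast_zmod_val (z : ZMod (p * (p * k'))),
          ← ZMod.natCast_zmod_val (z' : ZMod (p * (p * k'))), map_natCast, map_natCast,
          ZMod.natCast_eq_natCast_iff] at h
        exact h) (((a : ZMod (p * (p * k'))))⁻¹ * (m : ZMod (p * (p * k')))) (by
        rw [map_mul, map_natCast]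
        have h1 : IsUnit ((a : ZMod (p * (p * k')))) := (ZMod.isUnit_iff_coprime _ _).2 ha
        have h2 : IsUnit (((a : ZMod (p * (p * k'))))⁻¹) :=
          IsUnit.of_mul_eq_one_right _ (ZMod.mul_inv_of_unit _ h1)
        exact (h2.map _).mul ((ZMod.isUnit_iff_coprime _ _).2 hm))
    refine h1.trans (le_of_eq ?_)
    rw [Nat.Prime.divisors hpp, Finset.card_insert_of_notMem, Finset.card_singleton]
    · push_cast; ring
    · rw [Finset.mem_singleton]; exact hpp.one_lt.ne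
  · unfold vV
    rw [if_neg ha, norm_zero]
    positivity

/-- the symbol as a function of the unit. -/
private noncomputable def vS {p : ℕ} (χ : DirichletCharacter ℂ (24 * p)) (k0 : ℕ)
    (z : (ZMod k0)ˣ) : ℂ :=
  (χ (((z : ZMod k0).val : ℕ) : ZMod (24 * p)))⁻¹ *
    ((shimuraSymbol (((1 : ℕ) : ℤ) * (k0 : ℤ)) ((z : ZMod k0).val : ℤ) : ℤ) : ℂ)

private lemma val_mul_modEq {k0 : ℕ} [NeZero k0] (z z' : (ZMod k0)ˣ) :
    ((z * z' : (ZMod k0)ˣ) : ZMod k0).val ≡ (z : ZMod k0).val * (z' : ZMod k0).val [MOD k0] := by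
  rw [Units.val_mul, ZMod.val_mul]
  exact Nat.mod_modEq _ _

private lemma sym_mul {k0 : ℕ} [NeZero k0] (h4 : 4 ∣ k0) (z z' : (ZMod k0)ˣ) :
    shimuraSymbol (((1 : ℕ) : ℤ) * (k0 : ℤ)) (((z * z' : (ZMod k0)ˣ) : ZMod k0).val : ℤ) =
      shimuraSymbol (((1 : ℕ) : ℤ) * (k0 : ℤ)) ((z : ZMod k0).val : ℤ) *
        shimuraSymbol (((1 : ℕ) : ℤ) * (k0 : ℤ)) ((z' : ZMod k0).val : ℤ) := by
  rw [Nat.cast_one, one_mul]
  have hz : (z : ZMod k0).val.Coprime k0 := ZMod.val_coe_unit_coprime z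
  have hz' : (z' : ZMod k0).val.Coprime k0 := ZMod.val_coe_unit_coprime z'
  have hzz : ((z * z' : (ZMod k0)ˣ) : ZMod k0).val.Coprime k0 := ZMod.val_coe_unit_coprime _
  have o1 : Odd ((((z * z' : (ZMod k0)ˣ) : ZMod k0).val : ℕ) : ℤ) := by
    exact_mod_cast K.odd_of_coprime h4 hzz
  have o2 : Odd (((((z : ZMod k0).val * (z' : ZMod k0).val : ℕ)) : ℕ) : ℤ) := by
    exact_mod_cast K.odd_of_coprime h4 (Nat.Coprime.mul_left hz hz')
  have e1 := shimura_period (m := (k0 : ℤ)) (Int.natCast_dvd_natCast.2 h4) o1 o2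
    ((Nat.isCoprime_iff_coprime.2 hzz).symm) (Int.natCast_modEq_iff.2 (val_mul_modEq z z'))
  rw [e1]
  unfold shimuraSymbol
  have n1 : ¬ ((k0 : ℤ) < 0) := by omega
  simp only [n1, false_and, if_false]
  push_cast
  rw [Int.natAbs_mul, Int.natAbs_natCast, Int.natAbs_natCast]
  have i1 : NeZero (z : ZMod k0).val := ⟨by
    intro h0
    have := K.odd_of_coprime h4 hz
    rw [h0] at this
    simp at this⟩
  have i2 : NeZero (z' : ZMod k0).val := ⟨by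
    intro h0
    have := K.odd_of_coprime h4 hz'
    rw [h0] at this
    simp at this⟩
  exact jacobiSym.mul_right _ _ _

private lemma vS_mul {p : ℕ} (χ : DirichletCharacter ℂ (24 * p)) {k0 : ℕ} [NeZero k0]
    (hN : 24 * p ∣ k0) (z z' : (ZMod k0)ˣ) :
    vS χ k0 (z * z') = vS χ k0 z * vS χ k0 z' := by
  have h4 : 4 ∣ k0 := (show 4 ∣ 24 * p from ⟨6 * p, by ring⟩).trans hN
  unfold vS
  rw [sym_mul h4]
  have e1 : ((((z * z' : (ZMod k0)ˣ) : ZMod k0).val : ℕ) : ZMod (24 * p)) =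
      (((z : ZMod k0).val : ℕ) : ZMod (24 * p)) * (((z' : ZMod k0).val : ℕ) : ZMod (24 * p)) := by
    rw [← Nat.cast_mul]
    exact (ZMod.natCast_eq_natCast_iff _ _ _).2 ((val_mul_modEq z z').of_dvd hN)
  rw [e1, map_mul, mul_inv]
  push_cast
  ring

private lemma vS_norm {p : ℕ} (χ : DirichletCharacter ℂ (24 * p)) {k0 : ℕ} [NeZero k0]
    [NeZero (24 * p)] (hN : 24 * p ∣ k0) (z : (ZMod k0)ˣ) : ‖vS χ k0 z‖ = 1 := by
  have hz : (z : ZMod k0).val.Coprime k0 := ZMod.val_coe_unit_coprime z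
  unfold vS
  have hu : IsUnit ((((z : ZMod k0).val : ℕ)) : ZMod (24 * p)) :=
    (ZMod.isUnit_iff_coprime _ _).2 (Nat.Coprime.coprime_dvd_right hN hz)
  have h1 : ‖χ ((((z : ZMod k0).val : ℕ)) : ZMod (24 * p))‖ = 1 := by
    simpa using DirichletCharacter.unit_norm_eq_one χ hu.unit
  rw [norm_mul, norm_inv, h1, norm_shimura (K.cop_qk (one_dvd k0) hz)]
  norm_num

/-- multiplication by a unit which is `1` modulo `24`. -/
private lemma wFac_mul {p : ℕ} (χ : DirichletCharacter ℂ (24 * p)) {k0 : ℕ} [NeZero k0]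
    [NeZero (24 * p)] (hN : 24 * p ∣ k0) (t : Bool) (z z' : (ZMod k0)ˣ)
    (hz : (z : ZMod k0).val ≡ 1 [MOD 4]) :
    K.wFac (24 * p) 1 k0 χ t (z * z') = vS χ k0 z * K.wFac (24 * p) 1 k0 χ t z' := by
  have h4 : 4 ∣ k0 := (show 4 ∣ 24 * p from ⟨6 * p, by ring⟩).trans hN
  have hmod4 : ((z * z' : (ZMod k0)ˣ) : ZMod k0).val ≡ (z' : ZMod k0).val [MOD 4] := by
    have h1 := (val_mul_modEq z z').of_dvd h4
    have h2 := hz.mul_right (z' : ZMod k0).val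
    rw [one_mul] at h2
    exact h1.trans h2
  unfold K.wFac K.wNat
  have e2 : epsilon (((((z * z' : (ZMod k0)ˣ) : ZMod k0).val : ℕ)) : ℤ) =
      epsilon (((z' : ZMod k0).val : ℕ) : ℤ) := by
    apply epsilon_congr
    have := (Int.natCast_modEq_iff).2 hmod4
    exact_mod_cast this
  have e3 : K.sg t ((z * z' : (ZMod k0)ˣ) : ZMod k0).val = K.sg t (z' : ZMod k0).val := by
    unfold K.sg
    have : ((z * z' : (ZMod k0)ˣ) : ZMod k0).val % 4 = (z' : ZMod k0).val % 4 := hmod4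
    rw [this]
  have e1 : ((((z * z' : (ZMod k0)ˣ) : ZMod k0).val : ℕ) : ZMod (24 * p)) =
      (((z : ZMod k0).val : ℕ) : ZMod (24 * p)) * (((z' : ZMod k0).val : ℕ) : ZMod (24 * p)) := by
    rw [← Nat.cast_mul]
    exact (ZMod.natCast_eq_natCast_iff _ _ _).2 ((val_mul_modEq z z').of_dvd hN)
  rw [e2, e3, sym_mul h4, e1, map_mul, mul_inv]
  unfold vS
  push_cast
  ring

/-- the character of the units modulo `p`. -/
private noncomputable def vPsi {p k' : ℕ} (χ : DirichletCharacter ℂ (24 * p)) [NeZero (p * k')]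
    [NeZero (24 * p)] (hN : 24 * p ∣ p * k') (h : p.Coprime k') : (ZMod p)ˣ →* ℂ where
  toFun x := vS χ (p * k') ((K.crtU h).symm (x, 1))
  map_one' := by
    have h1 := vS_mul χ hN ((K.crtU h).symm (1, 1)) ((K.crtU h).symm (1, 1))
    have h2 : (K.crtU h).symm (1, 1) * (K.crtU h).symm (1, 1) = (K.crtU h).symm (1, 1) := by
      rw [← map_mul]; simp
    rw [h2] at h1
    have h3 : vS χ (p * k') ((K.crtU h).symm (1, 1)) ≠ 0 := by
      rw [← norm_pos_iff, vS_norm χ hN]; norm_num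
    exact (mul_eq_left₀ h3).1 h1.symm
  map_mul' x y := by
    have : (K.crtU h).symm (x * y, 1) = (K.crtU h).symm (x, 1) * (K.crtU h).symm (y, 1) := by
      rw [← map_mul]; simp
    rw [this, vS_mul χ hN]

private lemma vV_c {p k' m : ℕ} [NeZero p] [NeZero k'] (χ : DirichletCharacter ℂ (24 * p))
    [NeZero (p * k')] [NeZero (24 * p)] (hN : 24 * p ∣ p * k') (h : p.Coprime k') (h4 : 4 ∣ k')
    (a : ℕ) (ha : a.Coprime (p * k')) :
    ‖vV χ m (p * k') a‖ ≤ (k' : ℝ) * ‖∑ x : (ZMod p)ˣ, vPsi χ hN h x *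
      (ZMod.stdAddChar ((((k' : ℕ) : ZMod p)⁻¹ * (((a : ZMod p))⁻¹ * (m : ZMod p))) *
        ((x : ZMod p) + ((x⁻¹ : (ZMod p)ˣ) : ZMod p))) : ℂ)‖ := by
  have hN1 : 24 * p * 1 ∣ p * k' := by rw [mul_one]; exact hN
  set t := decide (a % 4 = 3) with ht
  set v : ZMod (p * k') := ((a : ZMod (p * k')))⁻¹ * (m : ZMod (p * k')) with hv
  set u : ZMod p := ((k' : ZMod p))⁻¹ * ZMod.castHom (dvd_mul_right p k') (ZMod p) v with hu
  set u' : ZMod k' := ((p : ZMod k'))⁻¹ * ZMod.castHom (dvd_mul_left k' p) (ZMod k') v with hu'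
  have huu : u = ((k' : ℕ) : ZMod p)⁻¹ * (((a : ZMod p))⁻¹ * (m : ZMod p)) := by
    rw [hu, hv, kf_castHom_inv _ a m ha]
  let F : (ZMod p)ˣ → (ZMod k')ˣ → ℂ := fun x w ↦
        (vPsi χ hN h x * (ZMod.stdAddChar (u * ((x : ZMod p) + ((x⁻¹ : (ZMod p)ˣ) : ZMod p))) : ℂ)) *
        (K.wFac (24 * p) 1 (p * k') χ t ((K.crtU h).symm (1, w)) *
          (ZMod.stdAddChar (u' * ((w : ZMod k') + ((w⁻¹ : (ZMod k')ˣ) : ZMod k'))) : ℂ))
  have hval : ∀ x : (ZMod p)ˣ, (((K.crtU h).symm (x, 1) : (ZMod (p * k'))ˣ) :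
      ZMod (p * k')).val ≡ 1 [MOD 4] := by
    intro x
    have e1 : ZMod.unitsMap (dvd_mul_left k' p) ((K.crtU h).symm (x, 1)) = 1 := by
      rw [← K.crtU_snd h, MulEquiv.apply_symm_apply]
    have e2 : ((ZMod.unitsMap (dvd_mul_left k' p) ((K.crtU h).symm (x, 1)) : (ZMod k')ˣ) :
        ZMod k') = 1 := by rw [e1]; rfl
    rw [ZMod.unitsMap_val, ZMod.cast_eq_val, ← Nat.cast_one, ZMod.natCast_eq_natCast_iff] at e2
    exact e2.of_dvd h4
  have h1 : ∀ z : (ZMod (p * k'))ˣ, K.wFac (24 * p) 1 (p * k') χ t z * (ZMod.stdAddChar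
        (v * ((z : ZMod (p * k')) + ((z⁻¹ : (ZMod (p * k'))ˣ) : ZMod (p * k')))) : ℂ) =
      F (ZMod.unitsMap (dvd_mul_right p k') z) (ZMod.unitsMap (dvd_mul_left k' p) z) := by
    intro z
    simp only [F]
    have c1 : ZMod.castHom (dvd_mul_right p k') (ZMod p)
        (v * ((z : ZMod (p * k')) + ((z⁻¹ : (ZMod (p * k'))ˣ) : ZMod (p * k')))) =
        ZMod.castHom (dvd_mul_right p k') (ZMod p) v *
          (((ZMod.unitsMap (dvd_mul_right p k') z : (ZMod p)ˣ) : ZMod p) +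
            (((ZMod.unitsMap (dvd_mul_right p k') z)⁻¹ : (ZMod p)ˣ) : ZMod p)) := by
      rw [map_mul, map_add, K.castHom_unit, K.castHom_unit, map_inv]
    have c2 : ZMod.castHom (dvd_mul_left k' p) (ZMod k')
        (v * ((z : ZMod (p * k')) + ((z⁻¹ : (ZMod (p * k'))ˣ) : ZMod (p * k')))) =
        ZMod.castHom (dvd_mul_left k' p) (ZMod k') v *
          (((ZMod.unitsMap (dvd_mul_left k' p) z : (ZMod k')ˣ) : ZMod k') +
            (((ZMod.unitsMap (dvd_mul_left k' p) z)⁻¹ : (ZMod k')ˣ) : ZMod k')) := by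
      rw [map_mul, map_add, K.castHom_unit, K.castHom_unit, map_inv]
    have e3 : z = (K.crtU h).symm (ZMod.unitsMap (dvd_mul_right p k') z, 1) *
        (K.crtU h).symm (1, ZMod.unitsMap (dvd_mul_left k' p) z) := by
      apply (K.crtU h).injective
      rw [map_mul, MulEquiv.apply_symm_apply, MulEquiv.apply_symm_apply]
      apply Prod.ext
      · rw [K.crtU_fst]; simp
      · rw [K.crtU_snd]; simp
    have e4 : K.wFac (24 * p) 1 (p * k') χ t z =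
        vPsi χ hN h (ZMod.unitsMap (dvd_mul_right p k') z) *
          K.wFac (24 * p) 1 (p * k') χ t
            ((K.crtU h).symm (1, ZMod.unitsMap (dvd_mul_left k' p) z)) := by
      conv_lhs => rw [e3]
      rw [wFac_mul χ hN t _ _ (hval _)]
      rfl
    rw [e4, K.std_crt h, c1, c2, ← mul_assoc ((k' : ZMod p))⁻¹, ← hu,
      ← mul_assoc ((p : ZMod k'))⁻¹, ← hu']
    ring
  unfold vV
  rw [if_pos ha, Finset.sum_congr rfl fun z _ ↦ h1 z, K.crt_sum h F]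
  simp only [F]
  simp_rw [← Finset.mul_sum]
  rw [← Finset.sum_mul, norm_mul, mul_comm]
  have h2 : ‖∑ w : (ZMod k')ˣ, K.wFac (24 * p) 1 (p * k') χ t ((K.crtU h).symm (1, w)) *
          (ZMod.stdAddChar (u' * ((w : ZMod k') + ((w⁻¹ : (ZMod k')ˣ) : ZMod k'))) : ℂ)‖ ≤ k' := by
    refine (norm_sum_le _ _).trans ?_
    calc ∑ w : (ZMod k')ˣ, ‖K.wFac (24 * p) 1 (p * k') χ t ((K.crtU h).symm (1, w)) *
          (ZMod.stdAddChar (u' * ((w : ZMod k') + ((w⁻¹ : (ZMod k')ˣ) : ZMod k'))) : ℂ)‖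
        ≤ ∑ _w : (ZMod k')ˣ, (1 : ℝ) := by
          refine Finset.sum_le_sum fun z _ ↦ ?_
          rw [norm_mul, AddChar.norm_apply, mul_one]
          exact K.wFac_norm hN1 _ _
      _ = (Fintype.card (ZMod k')ˣ : ℝ) := by
          rw [Finset.sum_const, Finset.card_univ, nsmul_eq_mul, mul_one]
      _ ≤ k' := by
          rw [ZMod.card_units_eq_totient]
          exact_mod_cast Nat.totient_le k'
  rw [← huu]
  gcongr

open Classical in
/-- the envelope. -/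
private noncomputable def vB {p : ℕ} [NeZero p] (ψ : (ZMod p)ˣ →* ℂ) (c : ZMod p) (m : ℕ)
    (z : ZMod p) : ℝ :=
  if IsUnit z then ‖∑ x : (ZMod p)ˣ, ψ x *
      (ZMod.stdAddChar ((c⁻¹ * (z⁻¹ * (m : ZMod p))) *
        ((x : ZMod p) + ((x⁻¹ : (ZMod p)ˣ) : ZMod p))) : ℂ)‖ else 0

private lemma vB_nonneg {p : ℕ} [NeZero p] (ψ : (ZMod p)ˣ →* ℂ) (c : ZMod p) (m : ℕ)
    (z : ZMod p) : 0 ≤ vB ψ c m z := by
  unfold vB
  split_ifs
  · exact norm_nonneg _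
  · exact le_rfl

private lemma vB_unit {p : ℕ} [NeZero p] (ψ : (ZMod p)ˣ →* ℂ) (c : ZMod p) (m : ℕ)
    {z : ZMod p} (hz : IsUnit z) : vB ψ c m z = ‖∑ x : (ZMod p)ˣ, ψ x *
      (ZMod.stdAddChar ((c⁻¹ * (z⁻¹ * (m : ZMod p))) *
        ((x : ZMod p) + ((x⁻¹ : (ZMod p)ˣ) : ZMod p))) : ℂ)‖ := by
  unfold vB
  rw [if_pos hz]

private lemma vB_mom {p : ℕ} [Fact p.Prime] [NeZero p] (ψ : (ZMod p)ˣ →* ℂ)
    (hψ : ∀ x, ‖ψ x‖ = 1) (c : ZMod p)
    (hc : IsUnit c) (m : ℕ) (hm : m.Coprime p) :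
    ∑ x ∈ range p, vB ψ c m (((x : ℕ) : ℤ) : ZMod p) ^ 4 ≤ 16 * (p : ℝ) ^ 3 := by
  classical
  have h1 : ∑ x ∈ range p, vB ψ c m (((x : ℕ) : ℤ) : ZMod p) ^ 4 = ∑ z : ZMod p, vB ψ c m z ^ 4 := by
    have h2 := sum_zmod_val p (fun j : ℕ ↦ vB ψ c m (((j : ℕ) : ℤ) : ZMod p) ^ 4)
    rw [← h2]
    refine Finset.sum_congr rfl fun z _ ↦ ?_
    rw [Int.cast_natCast, ZMod.natCast_zmod_val]
  have h3 : ∑ z : ZMod p, vB ψ c m z ^ 4 = ∑ u : (ZMod p)ˣ, vB ψ c m (u : ZMod p) ^ 4 := by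
    symm
    refine Fintype.sum_of_injective (fun x : (ZMod p)ˣ ↦ (x : ZMod p)) Units.val_injective _ _ ?_ ?_
    · intro x hx
      unfold vB
      rw [if_neg]
      · norm_num
      · intro hu
        exact hx ⟨hu.unit, hu.unit_spec⟩
    · intro x; rfl
  have hmu : IsUnit ((m : ZMod p)) := (ZMod.isUnit_iff_coprime _ _).2 hm
  set G : (ZMod p)ˣ → ℝ := fun w ↦ ‖∑ x : (ZMod p)ˣ, ψ x *
      (ZMod.stdAddChar ((w : ZMod p) * ((x : ZMod p) + ((x⁻¹ : (ZMod p)ˣ) : ZMod p))) : ℂ)‖ ^ 4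
    with hG
  have h4 : ∀ u : (ZMod p)ˣ, vB ψ c m (u : ZMod p) ^ 4 =
      G (((Equiv.inv (ZMod p)ˣ).trans (Equiv.mulLeft (hc.unit⁻¹ * hmu.unit))) u) := by
    intro u
    unfold vB
    rw [if_pos u.isUnit, hG]
    simp only [Equiv.trans_apply, Equiv.inv_apply, Equiv.coe_mulLeft, Units.val_mul,
      IsUnit.unit_spec]
    have e1 : c⁻¹ = ((hc.unit⁻¹ : (ZMod p)ˣ) : ZMod p) := by
      rw [← ZMod.inv_coe_unit, IsUnit.unit_spec]
    have e2 : (u : ZMod p)⁻¹ = ((u⁻¹ : (ZMod p)ˣ) : ZMod p) := ZMod.inv_coe_unit u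
    rw [e1, e2]
    congr 2
    refine Finset.sum_congr rfl fun x _ ↦ ?_
    congr 2
    ring
  rw [h1, h3, Finset.sum_congr rfl fun u _ ↦ h4 u, Equiv.sum_comp]
  exact mom4 p ψ hψ

theorem kTot_env (p : ℕ) (hp : p.Prime) (χ : DirichletCharacter ℂ (24 * p)) (m k0 : ℕ)
    (hm : m.Coprime p) (hk0 : 0 < k0) (h24 : 24 * p ∣ k0) :
    ∃ (V : ℕ → ℂ) (β : ℤ → ℝ), (∀ a a' : ℕ, a ≡ a' [MOD k0] → V a = V a') ∧
      (∀ x, β (x + p) = β x) ∧ (∀ x, 0 ≤ β x) ∧ ∑ x ∈ range p, β x ^ 4 ≤ 16 * (p : ℝ) ^ 3 ∧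
      (∀ a : ℕ, ‖V a‖ ≤ (k0 : ℝ) / p * β a) ∧
      ∀ a : ℕ, 0 < a → a.Coprime k0 → a.Coprime m →
        K.kTot m (K.mS (24 * p) 1 χ) (a * k0) = salS a m (k0 : ℤ) * V a := by
  have hp0 := hp.pos
  have i0 : NeZero k0 := ⟨hk0.ne'⟩
  have i1 : NeZero (24 * p) := ⟨by omega⟩
  have i2 : NeZero p := ⟨hp0.ne'⟩
  have hpR : (0 : ℝ) < p := by exact_mod_cast hp0
  have h4 : 4 ∣ k0 := (show 4 ∣ 24 * p from ⟨6 * p, by ring⟩).trans h24
  by_cases hp3 : p ≤ 3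
  · refine ⟨vV χ m k0, fun _ ↦ p, vV_congr χ m k0 h4, fun _ ↦ rfl, fun _ ↦ hpR.le, ?_, ?_,
      fun a ha0 hac _ ↦ vV_eq χ m k0 h24 ha0 hac⟩
    · rw [Finset.sum_const, Finset.card_range, nsmul_eq_mul]
      have h3 : (p : ℝ) ≤ 3 := by exact_mod_cast hp3
      have h5 : (p : ℝ) ^ 2 ≤ 16 := by nlinarith
      calc (p : ℝ) * (p : ℝ) ^ 4 = (p : ℝ) ^ 2 * (p : ℝ) ^ 3 := by ring
        _ ≤ 16 * (p : ℝ) ^ 3 := by gcongr
    · intro a
      have := vV_triv χ m k0 h24 a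
      rw [div_mul_cancel₀ _ hpR.ne']
      exact this
  push Not at hp3
  have hodd : Odd p := hp.odd_of_ne_two (by omega)
  have hcop : (24 : ℕ).Coprime p := by
    have e : (24 : ℕ) = 2 ^ 3 * 3 := by norm_num
    rw [e]
    refine Nat.Coprime.mul_left (Nat.Coprime.pow_left 3 ?_) ?_
    · exact (Nat.coprime_primes Nat.prime_two hp).2 (by omega)
    · exact (Nat.coprime_primes Nat.prime_three hp).2 (by omega)
  obtain ⟨k1, hk1⟩ : p ∣ k0 := (Dvd.intro_left _ rfl).trans h24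
  have h24k : 24 ∣ k1 := by
    have h1 : 24 * p ∣ k1 * p := by rw [mul_comm k1 p, ← hk1]; exact h24
    exact Nat.dvd_of_mul_dvd_mul_right hp0 h1
  by_cases hpk : p ∣ k1
  · obtain ⟨k', hk'⟩ := hpk
    subst hk'
    subst hk1
    have i3 : NeZero k' := ⟨by
      rintro rfl
      simp at hk0⟩
    have h24' : 24 ∣ k' := hcop.dvd_of_dvd_mul_left h24k
    refine ⟨vV χ m (p * (p * k')), fun _ ↦ 2, vV_congr χ m _ h4, fun _ ↦ rfl,
      fun _ ↦ by norm_num, ?_, ?_, fun a ha0 hac _ ↦ vV_eq χ m _ h24 ha0 hac⟩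
    · rw [Finset.sum_const, Finset.card_range, nsmul_eq_mul]
      have h3 : (1 : ℝ) ≤ p := by exact_mod_cast hp0
      nlinarith [pow_le_pow_right₀ h3 (show 1 ≤ 3 by norm_num)]
    · intro a
      have h1 := vV_b χ hp hodd h24' hm a
      refine h1.trans (le_of_eq ?_)
      push_cast
      field_simp
  · subst hk1
    have hc : p.Coprime k1 := (Nat.Prime.coprime_iff_not_dvd hp).2 hpk
    have i3 : NeZero k1 := ⟨by
      rintro rfl
      simp at hk0⟩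
    have i4 : Fact p.Prime := ⟨hp⟩
    have h4k : 4 ∣ k1 := (show 4 ∣ 24 by norm_num).trans h24k
    have hcu : IsUnit (((k1 : ℕ) : ZMod p)) := (ZMod.isUnit_iff_coprime _ _).2 hc.symm
    refine ⟨vV χ m (p * k1), fun x ↦ vB (vPsi χ h24 hc) ((k1 : ℕ) : ZMod p) m (x : ZMod p),
      vV_congr χ m _ h4, ?_, ?_, ?_, ?_, fun a ha0 hac _ ↦ vV_eq χ m _ h24 ha0 hac⟩
    · intro x
      simp
    · intro x
      exact vB_nonneg _ _ _ _
    · exact vB_mom _ (fun x ↦ vS_norm χ h24 _) _ hcu m hm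
    · intro a
      have e1 : ((p * k1 : ℕ) : ℝ) / p = k1 := by
        push_cast
        field_simp
      rw [e1]
      by_cases ha : a.Coprime (p * k1)
      · have h1 := vV_c (m := m) χ h24 hc h4k a ha
        refine h1.trans (le_of_eq ?_)
        have hau : IsUnit ((((a : ℕ) : ℤ)) : ZMod p) := by
          rw [Int.cast_natCast]
          exact (ZMod.isUnit_iff_coprime _ _).2 (ha.coprime_dvd_right (dvd_mul_right p k1))
        show _ = (k1 : ℝ) * vB (vPsi χ h24 hc) ((k1 : ℕ) : ZMod p) m (((a : ℕ) : ℤ) : ZMod p)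
        rw [vB_unit _ _ _ hau, Int.cast_natCast]
      · unfold vV
        rw [if_neg ha, norm_zero]
        exact mul_nonneg (Nat.cast_nonneg _) (vB_nonneg _ _ _ _)

end Pool.Agent.Work.MP_af11aa_nt.T
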