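import Mathlib
import Pool.Agent.Work.MP_af11aa_nt.T.Blocks
import Pool.Agent.Work.MP_af11aa_nt.T.VEnv
import Pool.Agent.Work.MP_af11aa_nt.T.HEx
import Pool.Agent.Work.MP_af11aa_nt.T.TermQ

set_option autoImplicit false

namespace Pool.Agent.Work.MP_af11aa_nt.T

open Finset ComplexConjugate Pool.Agent.Work.MP_af11aa_nt Pool.Agent.Work.MP_af11aa_nt.W

/-- the bound for a fixed part of the modulus. -/
theorem perK (ε : ℝ) (hε : 0 < ε) : ∃ C : ℝ, 0 < C ∧ ∀ {p k0 m1 m2 n Y Z : ℕ} {S : Finset ℕ}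
    (_ : p.Prime) (_ : Par p k0 m1 m2 n Y Z S) (χ : DirichletCharacter ℂ (24 * p)) {y : ℝ}
    (_ : y ∈ Set.Ico (1 / ((m2 * m1 : ℕ) : ℝ)) (2 / ((m2 * m1 : ℕ) : ℝ))) (s : ℝ) {X : ℕ}
    (_ : 2 * (X * k0) ≤ 3 * (m2 * m1)),
    ‖∑ a ∈ (Icc 1 X).filter (fun a : ℕ ↦ a.Coprime n), ((S.filter (· ∣ a)).card : ℂ) *
        (K.kTot (m2 * m1) (K.mS (24 * p) 1 χ) (a * k0) / ((a * k0 : ℕ) : ℂ) *
          psW (m2 * m1) y s ((a * k0 : ℕ) : ℝ))‖ ≤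
      C * ((m2 * m1 : ℕ) : ℝ) ^ ε * Real.sqrt (((m2 * m1 : ℕ) : ℝ) / ((p : ℝ) ^ 2 * Y)) := by
  obtain ⟨C, hC, hB⟩ := blocks ε hε
  refine ⟨32 * C, by positivity, ?_⟩
  intro p k0 m1 m2 n Y Z S hpp hp χ y hy s X hX
  obtain ⟨V, β, hV1, hβ1, hβ0, hβ4, hVβ, hVeq⟩ := kTot_env p hpp χ (m2 * m1) k0 hp.hmP hp.hk0 hp.h24
  have hpk : p ∣ k0 := (Dvd.intro_left _ rfl).trans hp.h24
  have h4k : 4 ∣ k0 := (show 4 ∣ 24 * p from ⟨6 * p, by ring⟩).trans hp.h24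
  obtain ⟨H, hH1, hH2, hH3, hH4⟩ := exists_H p k0 m1 m2 hp.hk0 hpk h4k hp.hm1o hp.hm2 V hV1 β hβ1
    ((k0 : ℝ) / p) (by positivity) hβ0 hVβ
  have he : ∀ σ, Env p k0 16 (H σ) β := fun σ ↦
    { hP := hp.hP
      hk0 := hp.hk0
      h24 := hp.h24
      hA := by norm_num
      per := hH1 σ
      zero := hH2 σ
      bper := hβ1
      bnn := hβ0
      mom := hβ4
      bd := hH3 σ }
  have hsw := phi_swap hp.hk0 V H hH4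
  have h1 := split_pairs hp V H hH4 y s X
  have h2 : ∑ a ∈ (Icc 1 X).filter (fun a : ℕ ↦ a.Coprime n), ((S.filter (· ∣ a)).card : ℂ) *
        (K.kTot (m2 * m1) (K.mS (24 * p) 1 χ) (a * k0) / ((a * k0 : ℕ) : ℂ) *
          psW (m2 * m1) y s ((a * k0 : ℕ) : ℝ)) =
      ∑ c ∈ (Icc 1 X).filter (fun c : ℕ ↦ c.Coprime n), ((S.filter (· ∣ c)).card : ℂ) *
        (salS c ((m2 * m1 : ℕ) : ℤ) (k0 : ℤ) * V c / ((c * k0 : ℕ) : ℂ) *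
          psW (m2 * m1) y s ((c * k0 : ℕ) : ℝ)) := by
    refine sum_congr rfl fun c hc ↦ ?_
    rw [mem_filter, mem_Icc] at hc
    obtain ⟨⟨hc1, -⟩, hcn⟩ := hc
    obtain ⟨hc8, hcm⟩ := (hp.hn c).1 hcn
    rw [hVeq c hc1 (hc8.coprime_dvd_right ⟨8, by ring⟩) hcm]
  rw [h2, h1]
  calc _ ≤ ∑ σ : Bool, ‖∑ Q ∈ S, ∑ a ∈ Icc 1 X, ∑ b ∈ Icc 1 X,
        (if Q * a * b ≤ X then Fq m1 m2 k0 n H y s σ Q a b else 0)‖ := norm_sum_le _ _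
    _ ≤ ∑ _σ : Bool, C * 16 * ((m2 * m1 : ℕ) : ℝ) ^ ε *
          Real.sqrt (((m2 * m1 : ℕ) : ℝ) / ((p : ℝ) ^ 2 * Y)) :=
        sum_le_sum fun σ _ ↦ hB hp he hsw hy s hX σ
    _ = _ := by
        rw [sum_const, nsmul_eq_mul]
        simp
        ring

end Pool.Agent.Work.MP_af11aa_nt.T
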