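import Mathlib
import Pool.Agent.Work.MP_af11aa_nt.T.PerK
import Pool.Agent.Work.MP_af11aa_nt.W.Split
import Pool.Agent.Work.MP_af11aa_nt.K.Hybrid

set_option autoImplicit false

namespace Pool.Agent.Work.MP_af11aa_nt.T

open Finset ComplexConjugate Pool.Agent.Work.MP_af11aa_nt Pool.Agent.Work.MP_af11aa_nt.W

/-- the auxiliary primes. -/
def SQ (n Y : ℕ) : Finset ℕ := (Ioc Y (4 * Y)).filter (fun Q ↦ Q.Prime ∧ Q.Coprime n)

/-- the bound for the complete sum over the moduli. -/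
theorem total (ε : ℝ) (hε : 0 < ε) : ∃ C : ℝ, 0 < C ∧ ∀ {p m1 m2 Y Z : ℕ} (_ : p.Prime)
    (_ : m2 = 1 ∨ m2 = 2) (_ : Odd m1) (_ : Squarefree m1) (_ : (m2 * m1).Coprime p)
    (_ : 1 ≤ Z) (_ : Y = Z ^ 3) (_ : p ^ 3 * Y ^ 7 ≤ m2 * m1)
    (χ : DirichletCharacter ℂ (24 * p)) (y s : ℝ)
    (_ : y ∈ Set.Ico (1 / ((m2 * m1 : ℕ) : ℝ)) (2 / ((m2 * m1 : ℕ) : ℝ))),
    ‖∑ c ∈ (Finset.Icc 1 ⌊Real.sqrt 2 * ((m2 * m1 : ℕ) : ℝ)⌋₊).filter (24 * p ∣ ·),
      (((SQ (6 * (p * (m2 * m1))) Y).filter (· ∣ c)).card : ℂ) *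
      (K.kTot (m2 * m1) (K.mS (24 * p) 1 χ) c / c * psW (m2 * m1) y s c)‖ ≤
      C * ((p * (m2 * m1) : ℕ) : ℝ) ^ (4 * ε) *
        Real.sqrt (((m2 * m1 : ℕ) : ℝ) / ((p : ℝ) ^ 2 * Y)) := by
  obtain ⟨C1, hC1, hP⟩ := perK ε hε
  obtain ⟨C2, hC2, hcount⟩ := K.count_factored ε hε
  refine ⟨C2 * (12 : ℝ) ^ ε * C1, by positivity, ?_⟩
  intro p m1 m2 Y Z hp hm2 hm1o hm1s hmp hZ hY hbig χ y s hy
  have hm0 : 0 < m2 * m1 := by
    apply Nat.mul_pos
    · rcases hm2 with h | h <;> omega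
    · exact hm1o.pos
  set m := m2 * m1 with hm
  have hp0 := hp.pos
  set n : ℕ := 6 * (p * m) with hn
  have hn0 : 0 < n := by
    have := Nat.mul_pos hp0 hm0
    omega
  have hD0 : 0 < 24 * p := by positivity
  have hDn : (24 * p).primeFactors ⊆ n.primeFactors := by
    intro l hl
    have hlp := Nat.prime_of_mem_primeFactors hl
    have hld := Nat.dvd_of_mem_primeFactors hl
    refine Nat.mem_primeFactors.2 ⟨hlp, ?_, hn0.ne'⟩
    have h24 : 24 * p = 4 * (6 * p) := by ring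
    rw [h24] at hld
    rcases (hlp.dvd_mul).1 hld with h | h
    · have : l ∣ 2 ^ 2 := by norm_num; exact h
      have h2 := hlp.dvd_of_dvd_pow this
      exact h2.trans ⟨3 * (p * m), by rw [hn]; ring⟩
    · exact h.trans ⟨m, by rw [hn]; ring⟩
  set X0 : ℕ := ⌊Real.sqrt 2 * (m : ℝ)⌋₊ with hX0
  have hmR : (1 : ℝ) ≤ (m : ℝ) := by exact_mod_cast hm0
  have hs2' : Real.sqrt 2 ≤ 3 / 2 := by
    rw [Real.sqrt_le_left (by norm_num)]; norm_num
  have hs2 : 1 ≤ Real.sqrt 2 := by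
    rw [Real.one_le_sqrt]; norm_num
  have hX0le : (X0 : ℝ) ≤ 3 / 2 * m := by
    calc (X0 : ℝ) ≤ Real.sqrt 2 * (m : ℝ) := Nat.floor_le (by positivity)
      _ ≤ 3 / 2 * (m : ℝ) := by gcongr
  have hX0N : 2 * X0 ≤ 3 * m := by
    have : ((2 * X0 : ℕ) : ℝ) ≤ ((3 * m : ℕ) : ℝ) := by push_cast; linarith
    exact_mod_cast this
  rw [split_sum (n := n) (D := 24 * p) (X0 := X0) hn0 hD0 hDn
    (fun c ↦ (((SQ n Y).filter (· ∣ c)).card : ℂ) *
      (K.kTot m (K.mS (24 * p) 1 χ) c / c * psW m y s c))]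
  set T := (Finset.Icc 1 X0).filter (fun k ↦ k.primeFactors ⊆ n.primeFactors ∧ 24 * p ∣ k)
    with hT
  have hmn : m ∣ n := ⟨6 * p, by rw [hn]; ring⟩
  have h2n : 2 ∣ n := ⟨3 * (p * m), by rw [hn]; ring⟩
  set RR := C1 * (m : ℝ) ^ ε * Real.sqrt ((m : ℝ) / ((p : ℝ) ^ 2 * Y)) with hRR
  have hRR0 : 0 ≤ RR := by positivity
  have hinner : ∀ k ∈ T, ‖∑ a ∈ (Finset.Icc 1 (X0 / k)).filter (fun a : ℕ ↦ a.Coprime n),
      (((SQ n Y).filter (· ∣ a * k)).card : ℂ) *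
        (K.kTot m (K.mS (24 * p) 1 χ) (a * k) / ((a * k : ℕ) : ℂ) *
        psW m y s ((a * k : ℕ) : ℝ))‖ ≤ RR := by
    intro k hk
    rw [hT, Finset.mem_filter, Finset.mem_Icc] at hk
    obtain ⟨⟨hk1, hkX⟩, hkn, hkD⟩ := hk
    have hk0 : 0 < k := hk1
    have hcopk : ∀ x : ℕ, x.Coprime n → x.Coprime k := by
      intro x hx
      apply Nat.coprime_of_dvd
      intro l hl hlx hlk
      have h1 : l ∈ n.primeFactors := hkn (Nat.mem_primeFactors.2 ⟨hl, hlk, hk0.ne'⟩)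
      exact Nat.not_coprime_of_dvd_of_dvd hl.one_lt hlx (Nat.dvd_of_mem_primeFactors h1) hx
    have hpar : Par p k m1 m2 n Y Z (SQ n Y) :=
      { hP := hp0
        hk0 := hk0
        h24 := hkD
        hn := by
          intro x
          constructor
          · intro hx
            refine ⟨?_, hx.coprime_dvd_right hmn⟩
            have h8 : x.Coprime (2 ^ 3) := (hx.coprime_dvd_right h2n).pow_right 3
            exact Nat.Coprime.mul_right h8 (hcopk x hx)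
          · rintro ⟨h1, h2⟩
            have h3 : x.Coprime (24 * p) := (h1.coprime_dvd_right ⟨8, by ring⟩).coprime_dvd_right hkD
            have h4 : x.Coprime (6 * p) := h3.coprime_dvd_right ⟨4, by ring⟩
            have h5 : n = 6 * p * m := by rw [hn]; ring
            rw [h5]
            exact Nat.Coprime.mul_right h4 h2
        hm2 := hm2
        hm1o := hm1o
        hm1s := hm1s
        hmP := hmp
        hZ := hZ
        hY := hY
        hS := by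
          intro Q hQ
          unfold SQ at hQ
          rw [mem_filter, mem_Ioc] at hQ
          exact ⟨hQ.2.1, hQ.1.1, hQ.1.2, hQ.2.2⟩
        hbig := hbig }
    have h1 := hP hp hpar χ hy s (X := X0 / k) (by
      have : X0 / k * k ≤ X0 := Nat.div_mul_le_self X0 k
      omega)
    refine le_trans (le_of_eq ?_) h1
    congr 1
    refine sum_congr rfl fun a _ ↦ ?_
    congr 2
    congr 1
    apply filter_congr
    intro Q hQ
    unfold SQ at hQ
    rw [mem_filter] at hQ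
    have h5 : Q.Coprime k := hcopk Q hQ.2.2
    constructor
    · intro h; exact h5.dvd_of_dvd_mul_right h
    · intro h; exact h.mul_right k
  have hX0pos : 0 < X0 := by
    rw [hX0, Nat.floor_pos]
    calc (1 : ℝ) ≤ 1 * 1 := by norm_num
      _ ≤ Real.sqrt 2 * (m : ℝ) := by gcongr
  have hX01 : (1 : ℝ) ≤ X0 := by exact_mod_cast hX0pos
  have hpR : (1 : ℝ) ≤ p := by exact_mod_cast hp0
  set D : ℝ := ((p * m : ℕ) : ℝ) with hD
  have hDe : D = p * m := by rw [hD]; push_cast; ring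
  have hD1 : 1 ≤ D := by rw [hDe]; nlinarith
  have hmD : (m : ℝ) ≤ D := by rw [hDe]; nlinarith
  have hcard : (T.card : ℝ) ≤ C2 * (12 : ℝ) ^ ε * D ^ (3 * ε) := by
    have h1 : (T.card : ℝ) ≤ (((Finset.Icc 1 ⌊(X0 : ℝ)⌋₊).filter
        (fun k ↦ k.primeFactors ⊆ n.primeFactors)).card : ℝ) := by
      have : T ⊆ (Finset.Icc 1 ⌊(X0 : ℝ)⌋₊).filter (fun k ↦ k.primeFactors ⊆ n.primeFactors) := by
        rw [Nat.floor_natCast]
        intro k hk
        rw [hT, Finset.mem_filter] at hk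
        rw [Finset.mem_filter]
        exact ⟨hk.1, hk.2.1⟩
      exact_mod_cast Finset.card_le_card this
    refine h1.trans ((hcount n hn0 X0 hX01).trans ?_)
    have h2 : (n : ℝ) * X0 ≤ 12 * (D ^ 3) := by
      have h3 : (n : ℝ) = 6 * D := by
        rw [hDe, hn]; push_cast; ring
      rw [h3]
      calc 6 * D * (X0 : ℝ) ≤ 6 * D * (3 / 2 * D) := by gcongr; linarith
        _ = 9 * D ^ 2 := by ring
        _ ≤ 12 * D ^ 3 := by nlinarith [sq_nonneg D, pow_le_pow_right₀ hD1 (show 2 ≤ 3 by norm_num)]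
    calc C2 * ((n : ℝ) * X0) ^ ε ≤ C2 * (12 * D ^ 3) ^ ε := by gcongr
      _ = C2 * ((12 : ℝ) ^ ε * D ^ (3 * ε)) := by
          rw [Real.mul_rpow (by norm_num) (by positivity), ← Real.rpow_natCast D 3,
            ← Real.rpow_mul (by linarith)]
          norm_num
      _ = _ := by ring
  have hDε : 0 < D ^ (3 * ε) := Real.rpow_pos_of_pos (by linarith) _
  calc ‖∑ k ∈ T, ∑ a ∈ (Finset.Icc 1 (X0 / k)).filter (fun a : ℕ ↦ a.Coprime n),
      (((SQ n Y).filter (· ∣ a * k)).card : ℂ) *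
        (K.kTot m (K.mS (24 * p) 1 χ) (a * k) / ((a * k : ℕ) : ℂ) *
        psW m y s ((a * k : ℕ) : ℝ))‖
      ≤ ∑ k ∈ T, ‖∑ a ∈ (Finset.Icc 1 (X0 / k)).filter (fun a : ℕ ↦ a.Coprime n),
      (((SQ n Y).filter (· ∣ a * k)).card : ℂ) *
        (K.kTot m (K.mS (24 * p) 1 χ) (a * k) / ((a * k : ℕ) : ℂ) *
        psW m y s ((a * k : ℕ) : ℝ))‖ := norm_sum_le _ _
    _ ≤ ∑ _k ∈ T, RR := Finset.sum_le_sum hinner
    _ = T.card * RR := by rw [Finset.sum_const, nsmul_eq_mul]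
    _ ≤ (C2 * (12 : ℝ) ^ ε * D ^ (3 * ε)) * (C1 * D ^ ε *
          Real.sqrt ((m : ℝ) / ((p : ℝ) ^ 2 * Y))) := by
        rw [hRR]
        gcongr
    _ = C2 * (12 : ℝ) ^ ε * C1 * (D ^ (3 * ε) * D ^ ε) *
          Real.sqrt ((m : ℝ) / ((p : ℝ) ^ 2 * Y)) := by ring
    _ = _ := by
        rw [← Real.rpow_add (by linarith)]; congr 3; ring

end Pool.Agent.Work.MP_af11aa_nt.T
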