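import Mathlib
import Pool.Agent.Work.MP_af11aa_nt.T.Total
import Pool.Agent.Work.MP_af11aa_nt.T.QLevel
import Pool.Agent.Work.MP_af11aa_nt.T.Cheb

set_option autoImplicit false

namespace Pool.Agent.Work.MP_af11aa_nt.T

open Finset ComplexConjugate Pool.Agent.Work.MP_af11aa_nt Pool.Agent.Work.MP_af11aa_nt.W
open UpperHalfPlane

noncomputable section

/-- a squarefree number is `m2 * m1` with `m2` at most `2` and `m1` odd. -/
private lemma split_two {r : ℕ} (hr : Squarefree r) : ∃ m1 m2 : ℕ, r = m2 * m1 ∧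
    (m2 = 1 ∨ m2 = 2) ∧ Odd m1 ∧ Squarefree m1 := by
  rcases Nat.even_or_odd r with hev | hodd
  · obtain ⟨m1, hm1⟩ := hev.two_dvd
    refine ⟨m1, 2, hm1, Or.inr rfl, ?_, hr.squarefree_of_dvd ⟨2, by rw [hm1]; ring⟩⟩
    rw [← Nat.not_even_iff_odd]
    intro hev1
    obtain ⟨m3, hm3⟩ := hev1.two_dvd
    have h1 : 2 * 2 ∣ r := ⟨m3, by rw [hm1, hm3]; ring⟩
    have h2 := hr 2 h1
    exact absurd h2 (by norm_num [Nat.isUnit_iff])
  · exact ⟨r, 1, by ring, Or.inl rfl, hodd, hr⟩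

/-- the bound when the auxiliary level is not small. -/
private theorem single_big (ε : ℝ) (hε : 0 < ε) : ∃ C1 C : ℝ, 0 < C1 ∧ 0 < C ∧
    ∀ {p r Y Z : ℕ} (_ : p.Prime)
    (_ : Squarefree r) (_ : r.Coprime p) (_ : 1 ≤ Z) (_ : Y = Z ^ 3) (_ : p ^ 3 * Y ^ 7 ≤ r)
    (_ : C1 * ((p * r : ℕ) : ℝ) ^ ε ≤ Y)
    (χ : DirichletCharacter ℂ (24 * p)) (f : ℍ → ℂ), IsCuspForm (24 * p) χ f →
    ‖fourierCoeff f r‖ ^ 2 ≤ C * ((p * r : ℕ) : ℝ) ^ (5 * ε) * Real.sqrt r *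
      (Y + Real.sqrt ((r : ℝ) / ((p : ℝ) ^ 2 * Y))) * petNorm (24 * p) f := by
  obtain ⟨CT, hCT, hT⟩ := total ε hε
  obtain ⟨CC, hCC, hCh⟩ := cheb ε hε
  refine ⟨CC * 6 ^ ε, 2 * Real.exp (16 * Real.pi) * 5 * (4 + 6 * CT * (CC * 6 ^ ε)),
    by positivity, by positivity, ?_⟩
  intro p r Y Z hp hr hrp hZ hY hbig hYC χ f hf
  have hr0 : 0 < r := Nat.pos_of_ne_zero hr.ne_zero
  have hp0 := hp.pos
  have hY0 : 0 < Y := by rw [hY]; exact Nat.pow_pos (by omega)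
  have : NeZero (24 * p) := ⟨by omega⟩
  obtain ⟨m1, m2, hrm, hm2, hm1o, hm1s⟩ := split_two hr
  set D : ℝ := ((p * r : ℕ) : ℝ) with hD
  have hD1 : 1 ≤ D := by
    rw [hD]; exact_mod_cast Nat.mul_pos hp0 hr0
  have hDε : 1 ≤ D ^ ε := Real.one_le_rpow hD1 hε.le
  set n := 6 * (p * r) with hn
  have hn0 : 0 < n := by
    have := Nat.mul_pos hp0 hr0
    omega
  have hnε : (n : ℝ) ^ ε = 6 ^ ε * D ^ ε := by
    rw [hn, Nat.cast_mul, Real.mul_rpow (by norm_num) (Nat.cast_nonneg _), ← hD]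
    norm_num
  have hYn : Y ≤ n := by
    have h1 : Y ≤ Y ^ 7 := Nat.le_self_pow (by norm_num) Y
    have h2 : Y ^ 7 ≤ p ^ 3 * Y ^ 7 := Nat.le_mul_of_pos_left _ (by positivity)
    have h3 : r ≤ p * r := Nat.le_mul_of_pos_left _ hp0
    omega
  have hch := hCh n Y hn0 (by rw [hnε]; nlinarith) hYn
  set S := SQ n Y with hS
  have hSc : (Y : ℝ) ≤ CC * 6 ^ ε * D ^ ε * S.card := by
    rw [hnε] at hch
    calc (Y : ℝ) ≤ _ := hch
      _ = _ := by rw [hS]; unfold SQ; ring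
  have hScard : 0 < (S.card : ℝ) := by
    rcases Nat.eq_zero_or_pos S.card with h | h
    · rw [h, Nat.cast_zero, mul_zero] at hSc
      have : (0 : ℝ) < Y := by exact_mod_cast hY0
      linarith
    · exact_mod_cast h
  set R := Real.sqrt ((r : ℝ) / ((p : ℝ) ^ 2 * Y)) with hR
  have hR0 : 0 ≤ R := Real.sqrt_nonneg _
  set B : ℝ := CT * D ^ (4 * ε) * R with hB
  have hB0 : 0 ≤ B := by positivity
  have h2n : 2 ∣ n := ⟨3 * (p * r), by rw [hn]; ring⟩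
  have h1 := qlevel hf ⟨6 * p, by ring⟩ S (4 * Y + 1) (by
      intro Q hQ
      rw [hS] at hQ
      unfold SQ at hQ
      rw [mem_filter, mem_Ioc] at hQ
      refine ⟨hQ.2.1, ?_, by omega⟩
      have h8 : Q.Coprime (2 ^ 2) := (hQ.2.2.coprime_dvd_right h2n).pow_right 2
      have h6 : Q.Coprime (6 * p) := hQ.2.2.coprime_dvd_right ⟨r, by rw [hn]; ring⟩
      have : 24 * p = 2 ^ 2 * (6 * p) := by ring
      rw [this]
      exact Nat.Coprime.mul_right h8 h6) hr0 hB0 (by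
      intro y hy s _
      have h2 := hT (Y := Y) (Z := Z) hp hm2 hm1o hm1s (by rw [← hrm]; exact hrp) hZ hY
        (by rw [← hrm]; exact hbig) χ y s (by rw [← hrm]; exact hy)
      rw [← hrm] at h2
      exact h2)
  have hP := petNorm_nonneg (N := 24 * p) f
  set a := ‖fourierCoeff f r‖ ^ 2 with ha
  have hY1 : (1 : ℝ) ≤ Y := by exact_mod_cast hY0
  have hdiv : a ≤ 2 * Real.exp (16 * Real.pi) * Real.sqrt r * ((4 * Y + 1 : ℕ) : ℝ) *
      (4 + 6 * (B / S.card)) * petNorm (24 * p) f := by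
    have h2 : (S.card : ℝ) * a ≤ (S.card : ℝ) * (2 * Real.exp (16 * Real.pi) * Real.sqrt r *
        ((4 * Y + 1 : ℕ) : ℝ) * (4 + 6 * (B / S.card)) * petNorm (24 * p) f) := by
      refine h1.trans (le_of_eq ?_)
      field_simp
    exact le_of_mul_le_mul_left h2 hScard
  have hBS : B / S.card ≤ CT * (CC * 6 ^ ε) * D ^ (5 * ε) * R / Y := by
    have hYp : (0 : ℝ) < Y := by linarith
    rw [div_le_div_iff₀ hScard hYp]
    calc B * Y ≤ B * (CC * 6 ^ ε * D ^ ε * S.card) := by gcongr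
      _ = CT * (CC * 6 ^ ε) * (D ^ (4 * ε) * D ^ ε) * R * S.card := by rw [hB]; ring
      _ = _ := by
          rw [← Real.rpow_add (by linarith)]; congr 4; ring
  have hD5 : 1 ≤ D ^ (5 * ε) := Real.one_le_rpow hD1 (by linarith)
  have hWY : ((4 * Y + 1 : ℕ) : ℝ) ≤ 5 * Y := by push_cast; linarith
  have hfin : ((4 * Y + 1 : ℕ) : ℝ) * (4 + 6 * (B / S.card)) ≤
      5 * (4 + 6 * CT * (CC * 6 ^ ε)) * D ^ (5 * ε) * (Y + R) := by
    have h3 : 4 + 6 * (B / S.card) ≤ 4 * D ^ (5 * ε) + 6 * (CT * (CC * 6 ^ ε) * D ^ (5 * ε) * R / Y) := by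
      have : (4 : ℝ) ≤ 4 * D ^ (5 * ε) := by linarith
      linarith
    calc ((4 * Y + 1 : ℕ) : ℝ) * (4 + 6 * (B / S.card))
        ≤ (5 * Y) * (4 * D ^ (5 * ε) + 6 * (CT * (CC * 6 ^ ε) * D ^ (5 * ε) * R / Y)) := by
          apply mul_le_mul hWY h3 (by positivity) (by positivity)
      _ = 5 * (4 * D ^ (5 * ε) * Y + 6 * (CT * (CC * 6 ^ ε) * D ^ (5 * ε)) * R) := by
          field_simp
      _ ≤ 5 * ((4 + 6 * CT * (CC * 6 ^ ε)) * D ^ (5 * ε) * Y +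
            (4 + 6 * CT * (CC * 6 ^ ε)) * D ^ (5 * ε) * R) := by
          have e1 : 0 ≤ CT * (CC * 6 ^ ε) := by positivity
          have e2 : 0 ≤ D ^ (5 * ε) * Y := by positivity
          have e3 : 0 ≤ D ^ (5 * ε) * R := by positivity
          nlinarith [mul_nonneg e1 e2, mul_nonneg e1 e3]
      _ = _ := by ring
  calc a ≤ 2 * Real.exp (16 * Real.pi) * Real.sqrt r * (((4 * Y + 1 : ℕ) : ℝ) *
      (4 + 6 * (B / S.card))) * petNorm (24 * p) f := by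
        refine hdiv.trans (le_of_eq ?_); ring
    _ ≤ 2 * Real.exp (16 * Real.pi) * Real.sqrt r *
        (5 * (4 + 6 * CT * (CC * 6 ^ ε)) * D ^ (5 * ε) * (Y + R)) * petNorm (24 * p) f := by
        gcongr
    _ = _ := by ring

/-- the choice of the auxiliary level. -/
private lemma choose_Z {r p : ℕ} (hp : 0 < p) (h : p ^ 3 ≤ r) : ∃ Z : ℕ, 1 ≤ Z ∧
    p ^ 3 * (Z ^ 3) ^ 7 ≤ r ∧ r < p ^ 3 * (2 * Z) ^ 21 := by
  have hex : ∃ Z : ℕ, ¬ p ^ 3 * (Z + 1) ^ 21 ≤ r := by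
    refine ⟨r, ?_⟩
    rw [not_le]
    calc r < r + 1 := Nat.lt_succ_self r
      _ ≤ (r + 1) ^ 21 := Nat.le_self_pow (by norm_num) _
      _ ≤ p ^ 3 * (r + 1) ^ 21 := Nat.le_mul_of_pos_left _ (by positivity)
  classical
  set Z := Nat.find hex with hZ
  have h1 : ¬ p ^ 3 * (Z + 1) ^ 21 ≤ r := Nat.find_spec hex
  have hZ1 : 1 ≤ Z := by
    by_contra h0
    have : Z = 0 := by omega
    rw [this] at h1
    simp at h1
    omega
  have h2 : p ^ 3 * Z ^ 21 ≤ r := by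
    have h3 := Nat.find_min hex (m := Z - 1) (by omega)
    push Not at h3
    have h4 : Z - 1 + 1 = Z := by omega
    rw [h4] at h3
    exact h3
  refine ⟨Z, hZ1, ?_, ?_⟩
  · rw [← pow_mul]; exact h2
  · rw [not_le] at h1
    refine h1.trans_le ?_
    gcongr
    omega

/-- the bound for a single form. -/
theorem single (ε : ℝ) (hε : 0 < ε) : ∃ C : ℝ, 0 < C ∧ ∀ {p r : ℕ} (_ : p.Prime)
    (_ : Squarefree r) (_ : r.Coprime p)
    (χ : DirichletCharacter ℂ (24 * p)) (f : ℍ → ℂ), IsCuspForm (24 * p) χ f →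
    ‖fourierCoeff f r‖ ^ 2 ≤ C * ((p * r : ℕ) : ℝ) ^ ε *
      (Real.sqrt r + (r : ℝ) ^ (13 / 14 : ℝ) * (p : ℝ) ^ (-(11 / 14) : ℝ)) *
        petNorm (24 * p) f := by
  have hε5 : 0 < ε / 5 := by linarith
  obtain ⟨C1, C, hC1, hC, hbigc⟩ := single_big (ε / 5) hε5
  obtain ⟨C2, hC2, hhyb⟩ := K.hybrid_single (ε / 2) (by linarith)
  refine ⟨C * 16 + C2 * (3 + 3 * C1), by positivity, ?_⟩
  intro p r hp hr hrp χ f hf
  have hr0 : 0 < r := Nat.pos_of_ne_zero hr.ne_zero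
  have hp0 := hp.pos
  have : NeZero (24 * p) := ⟨by omega⟩
  have hP := petNorm_nonneg (N := 24 * p) f
  have hrR : (1 : ℝ) ≤ r := by exact_mod_cast hr0
  have hpR : (1 : ℝ) ≤ p := by exact_mod_cast hp0
  have hrpos : (0 : ℝ) < r := by linarith
  have hppos : (0 : ℝ) < p := by linarith
  set D : ℝ := ((p * r : ℕ) : ℝ) with hD
  have hDe : D = p * r := by rw [hD]; push_cast; ring
  have hD1 : 1 ≤ D := by rw [hDe]; nlinarith
  have hDpos : 0 < D := by linarith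
  set M : ℝ := (r : ℝ) ^ (13 / 14 : ℝ) * (p : ℝ) ^ (-(11 / 14) : ℝ) with hM
  have hM0 : 0 < M := by positivity
  have hDε1 : 1 ≤ D ^ (ε / 2) := Real.one_le_rpow hD1 (by linarith)
  have hDε2 : 1 ≤ D ^ ε := Real.one_le_rpow hD1 (by linarith)
  -- the hybrid bound
  have hh := hhyb p hp χ f hf 1 squarefree_one (Nat.coprime_one_left _) r hr0
  have hg : r.gcd (p * 1) = 1 := by rw [mul_one]; exact hrp
  rw [one_mul, hg] at hh
  have hh2 : ‖fourierCoeff f r‖ ^ 2 ≤ C2 * D ^ (ε / 2) * (Real.sqrt r + (r : ℝ) / p) *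
      petNorm (24 * p) f := by
    refine hh.trans (le_of_eq ?_)
    congr 1
    rw [mul_one]
    push_cast
    rw [one_mul, mul_one, hD]
    push_cast
    have : Real.sqrt r * Real.sqrt r = r := Real.mul_self_sqrt hrpos.le
    calc C2 * ((p : ℝ) * r) ^ (ε / 2) * Real.sqrt r * (1 + Real.sqrt r / p)
        = C2 * ((p : ℝ) * r) ^ (ε / 2) * (Real.sqrt r + (Real.sqrt r * Real.sqrt r) / p) := by ring
      _ = _ := by rw [this]
  have hsr : 0 ≤ Real.sqrt r := Real.sqrt_nonneg _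
  -- `r / p` in terms of `M`
  have hrM : (r : ℝ) / p = M * ((r : ℝ) / (p : ℝ) ^ 3) ^ (1 / 14 : ℝ) := by
    rw [hM, Real.div_rpow hrpos.le (by positivity), ← Real.rpow_natCast (p : ℝ) 3,
      ← Real.rpow_mul hppos.le, Real.rpow_neg hppos.le]
    have e1 : (r : ℝ) ^ (13 / 14 : ℝ) * (r : ℝ) ^ (1 / 14 : ℝ) = r := by
      rw [← Real.rpow_add hrpos]; norm_num
    have e2 : (p : ℝ) ^ (11 / 14 : ℝ) * (p : ℝ) ^ (((3 : ℕ) : ℝ) * (1 / 14)) = p := by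
      rw [← Real.rpow_add hppos]; norm_num
    calc (r : ℝ) / p = ((r : ℝ) ^ (13 / 14 : ℝ) * (r : ℝ) ^ (1 / 14 : ℝ)) /
          ((p : ℝ) ^ (11 / 14 : ℝ) * (p : ℝ) ^ (((3 : ℕ) : ℝ) * (1 / 14))) := by rw [e1, e2]
      _ = _ := by
          rw [mul_div_mul_comm, div_eq_mul_inv ((r : ℝ) ^ (13 / 14 : ℝ))]
  by_cases hc : p ^ 3 ≤ r
  swap
  · push Not at hc
    have h1 : ((r : ℝ) / (p : ℝ) ^ 3) ^ (1 / 14 : ℝ) ≤ 1 := by
      apply Real.rpow_le_one (by positivity) _ (by norm_num)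
      rw [div_le_one (by positivity)]
      exact_mod_cast hc.le
    have h2 : (r : ℝ) / p ≤ M := by
      rw [hrM]; nlinarith
    calc ‖fourierCoeff f r‖ ^ 2 ≤ C2 * D ^ (ε / 2) * (Real.sqrt r + (r : ℝ) / p) *
      petNorm (24 * p) f := hh2
      _ ≤ (C * 16 + C2 * (3 + 3 * C1)) * D ^ ε * (Real.sqrt r + M) * petNorm (24 * p) f := by
          gcongr
          · have : 0 < C2 * C1 := by positivity
            nlinarith
          · linarith
  obtain ⟨Z, hZ1, hZ2, hZ3⟩ := choose_Z hp0 hc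
  set Y := Z ^ 3 with hY
  have hY0 : 0 < Y := by rw [hY]; positivity
  have hYR : (1 : ℝ) ≤ Y := by exact_mod_cast hY0
  -- `(r / p³)^(1/7) ≤ 8 Y` and `Y ≤ (r / p³)^(1/7)`
  set E : ℝ := (r : ℝ) / (p : ℝ) ^ 3 with hE
  have hE0 : 0 < E := by positivity
  have hp3 : (0 : ℝ) < (p : ℝ) ^ 3 := by positivity
  have hE1 : 1 ≤ E := by
    rw [hE, le_div_iff₀ hp3, one_mul]; exact_mod_cast hc
  have hEY : (Y : ℝ) ^ 7 ≤ E := by
    rw [hE, le_div_iff₀ hp3]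
    have : ((p ^ 3 * Y ^ 7 : ℕ) : ℝ) ≤ (r : ℝ) := by exact_mod_cast hZ2
    push_cast at this
    linarith
  have hEY2 : E ≤ (8 * (Y : ℝ)) ^ 7 := by
    rw [hE, div_le_iff₀ hp3]
    have h1 : ((r : ℕ) : ℝ) ≤ ((p ^ 3 * (2 * Z) ^ 21 : ℕ) : ℝ) := by exact_mod_cast hZ3.le
    have h2 : (8 * (Y : ℝ)) ^ 7 = (2 * (Z : ℝ)) ^ 21 := by
      rw [hY]; push_cast; ring
    rw [h2]
    push_cast at h1
    linarith
  have hY7 : (Y : ℝ) ≤ E ^ (1 / 7 : ℝ) := by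
    calc (Y : ℝ) = ((Y : ℝ) ^ 7) ^ (1 / 7 : ℝ) := by
          rw [← Real.rpow_natCast (Y : ℝ) 7, ← Real.rpow_mul (by linarith)]
          norm_num
      _ ≤ _ := by
          apply Real.rpow_le_rpow (by positivity) hEY (by norm_num)
  have hY8 : E ^ (1 / 7 : ℝ) ≤ 8 * Y := by
    calc E ^ (1 / 7 : ℝ) ≤ ((8 * (Y : ℝ)) ^ 7) ^ (1 / 7 : ℝ) :=
          Real.rpow_le_rpow hE0.le hEY2 (by norm_num)
      _ = _ := by
          rw [← Real.rpow_natCast (8 * (Y : ℝ)) 7, ← Real.rpow_mul (by positivity)]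
          norm_num
  have hE14 : E ^ (1 / 14 : ℝ) = Real.sqrt (E ^ (1 / 7 : ℝ)) := by
    rw [Real.sqrt_eq_rpow, ← Real.rpow_mul hE0.le]; norm_num
  by_cases hc2 : C1 * D ^ (ε / 5) ≤ Y
  · have h1 := hbigc hp hr hrp hZ1 hY hZ2 hc2 χ f hf
    have e5 : 5 * (ε / 5) = ε := by ring
    rw [e5] at h1
    -- first term
    have t1 : Real.sqrt r * Y ≤ M := by
      have h2 : Real.sqrt r * Y ≤ (r : ℝ) ^ (1 / 2 : ℝ) * E ^ (1 / 7 : ℝ) := by
        rw [Real.sqrt_eq_rpow]; gcongr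
      refine h2.trans ?_
      have h3 : (r : ℝ) ^ (1 / 2 : ℝ) * E ^ (1 / 7 : ℝ) =
          M * ((r : ℝ) ^ (-(2 / 7) : ℝ) * (p : ℝ) ^ (5 / 14 : ℝ)) := by
        rw [hM, hE, Real.div_rpow hrpos.le hp3.le, ← Real.rpow_natCast (p : ℝ) 3,
          ← Real.rpow_mul hppos.le, div_eq_mul_inv ((r : ℝ) ^ (1 / 7 : ℝ)),
          ← Real.rpow_neg hppos.le]
        have e1 : (r : ℝ) ^ (13 / 14 : ℝ) * (r : ℝ) ^ (-(2 / 7) : ℝ) =
            (r : ℝ) ^ (1 / 2 : ℝ) * (r : ℝ) ^ (1 / 7 : ℝ) := by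
          rw [← Real.rpow_add hrpos, ← Real.rpow_add hrpos]; norm_num
        have e2 : (p : ℝ) ^ (-(11 / 14) : ℝ) * (p : ℝ) ^ (5 / 14 : ℝ) =
            (p : ℝ) ^ (-(((3 : ℕ) : ℝ) * (1 / 7))) := by
          rw [← Real.rpow_add hppos]; norm_num
        calc (r : ℝ) ^ (1 / 2 : ℝ) * ((r : ℝ) ^ (1 / 7 : ℝ) * (p : ℝ) ^ (-(((3 : ℕ) : ℝ) * (1 / 7))))
            = ((r : ℝ) ^ (1 / 2 : ℝ) * (r : ℝ) ^ (1 / 7 : ℝ)) *
              (p : ℝ) ^ (-(((3 : ℕ) : ℝ) * (1 / 7))) := by ring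
          _ = _ := by rw [← e1, ← e2]; ring
      rw [h3]
      have h4 : (r : ℝ) ^ (-(2 / 7) : ℝ) * (p : ℝ) ^ (5 / 14 : ℝ) ≤ 1 := by
        have h5 : (r : ℝ) ^ (-(2 / 7) : ℝ) ≤ ((p : ℝ) ^ 3) ^ (-(2 / 7) : ℝ) := by
          apply Real.rpow_le_rpow_of_nonpos hp3 _ (by norm_num)
          exact_mod_cast hc
        calc (r : ℝ) ^ (-(2 / 7) : ℝ) * (p : ℝ) ^ (5 / 14 : ℝ)
            ≤ ((p : ℝ) ^ 3) ^ (-(2 / 7) : ℝ) * (p : ℝ) ^ (5 / 14 : ℝ) := by gcongr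
          _ = (p : ℝ) ^ (-(1 / 2) : ℝ) := by
              rw [← Real.rpow_natCast (p : ℝ) 3, ← Real.rpow_mul hppos.le, ← Real.rpow_add hppos]
              norm_num
          _ ≤ 1 := Real.rpow_le_one_of_one_le_of_nonpos hpR (by norm_num)
      nlinarith
    have t2 : Real.sqrt r * Real.sqrt ((r : ℝ) / ((p : ℝ) ^ 2 * Y)) ≤ 3 * M := by
      have h2 : Real.sqrt r * Real.sqrt ((r : ℝ) / ((p : ℝ) ^ 2 * Y)) =
          (r : ℝ) / p / Real.sqrt Y := by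
        rw [Real.sqrt_div hrpos.le, Real.sqrt_mul (by positivity), Real.sqrt_sq hppos.le,
          ← mul_div_assoc, Real.mul_self_sqrt hrpos.le, div_div]
      rw [h2, hrM, div_le_iff₀ (Real.sqrt_pos.2 (by linarith))]
      have h3 : E ^ (1 / 14 : ℝ) ≤ 3 * Real.sqrt Y := by
        rw [hE14]
        calc Real.sqrt (E ^ (1 / 7 : ℝ)) ≤ Real.sqrt (3 ^ 2 * Y) := by
              apply Real.sqrt_le_sqrt; linarith
          _ = 3 * Real.sqrt Y := by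
              rw [Real.sqrt_mul (by norm_num), Real.sqrt_sq (by norm_num)]
      calc M * ((r : ℝ) / (p : ℝ) ^ 3) ^ (1 / 14 : ℝ) = M * E ^ (1 / 14 : ℝ) := by rw [hE]
        _ ≤ M * (3 * Real.sqrt Y) := by gcongr
        _ = _ := by ring
    calc ‖fourierCoeff f r‖ ^ 2 ≤ C * D ^ ε * Real.sqrt r *
      (Y + Real.sqrt ((r : ℝ) / ((p : ℝ) ^ 2 * Y))) * petNorm (24 * p) f := h1
      _ = C * D ^ ε * (Real.sqrt r * Y + Real.sqrt r * Real.sqrt ((r : ℝ) / ((p : ℝ) ^ 2 * Y))) *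
          petNorm (24 * p) f := by ring
      _ ≤ C * D ^ ε * (M + 3 * M) * petNorm (24 * p) f := by gcongr
      _ ≤ (C * 16 + C2 * (3 + 3 * C1)) * D ^ ε * (Real.sqrt r + M) * petNorm (24 * p) f := by
          have e1 : C * D ^ ε * (M + 3 * M) ≤ (C * 16) * D ^ ε * (Real.sqrt r + M) := by
            have : 0 ≤ C * D ^ ε := by positivity
            nlinarith [mul_nonneg this hM0.le, mul_nonneg this hsr]
          have e2 : 0 ≤ C2 * (3 + 3 * C1) * D ^ ε * (Real.sqrt r + M) := by positivity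
          apply mul_le_mul_of_nonneg_right _ hP
          calc _ ≤ (C * 16) * D ^ ε * (Real.sqrt r + M) := e1
            _ ≤ (C * 16) * D ^ ε * (Real.sqrt r + M) +
                C2 * (3 + 3 * C1) * D ^ ε * (Real.sqrt r + M) := by linarith
            _ = _ := by ring
  · push Not at hc2
    have h3 : E ^ (1 / 14 : ℝ) ≤ 3 * (1 + C1) * D ^ (ε / 2) := by
      rw [hE14]
      have h4 : E ^ (1 / 7 : ℝ) ≤ (3 * (1 + C1) * D ^ (ε / 2)) ^ 2 := by
        have h5 : E ^ (1 / 7 : ℝ) ≤ 8 * (C1 * D ^ (ε / 5)) := by linarith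
        have h6 : D ^ (ε / 5) ≤ D ^ (ε / 2) := Real.rpow_le_rpow_of_exponent_le hD1 (by linarith)
        have h7 : D ^ (ε / 2) ≤ D ^ (ε / 2) * D ^ (ε / 2) := by nlinarith
        calc E ^ (1 / 7 : ℝ) ≤ 8 * (C1 * D ^ (ε / 5)) := h5
          _ ≤ 8 * (C1 * (D ^ (ε / 2) * D ^ (ε / 2))) := by
              gcongr; linarith
          _ = (8 * C1) * (D ^ (ε / 2) * D ^ (ε / 2)) := by ring
          _ ≤ (9 * (1 + C1) ^ 2) * (D ^ (ε / 2) * D ^ (ε / 2)) := by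
              apply mul_le_mul_of_nonneg_right _ (by positivity)
              nlinarith
          _ = _ := by ring
      calc Real.sqrt (E ^ (1 / 7 : ℝ)) ≤ Real.sqrt ((3 * (1 + C1) * D ^ (ε / 2)) ^ 2) :=
            Real.sqrt_le_sqrt h4
        _ = _ := Real.sqrt_sq (by positivity)
    have h4 : (r : ℝ) / p ≤ 3 * (1 + C1) * D ^ (ε / 2) * M := by
      rw [hrM]
      calc M * ((r : ℝ) / (p : ℝ) ^ 3) ^ (1 / 14 : ℝ) = M * E ^ (1 / 14 : ℝ) := by rw [hE]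
        _ ≤ M * (3 * (1 + C1) * D ^ (ε / 2)) := by gcongr
        _ = _ := by ring
    calc ‖fourierCoeff f r‖ ^ 2 ≤ C2 * D ^ (ε / 2) * (Real.sqrt r + (r : ℝ) / p) *
      petNorm (24 * p) f := hh2
      _ ≤ C2 * D ^ (ε / 2) * ((3 + 3 * C1) * D ^ (ε / 2) * Real.sqrt r +
            3 * (1 + C1) * D ^ (ε / 2) * M) * petNorm (24 * p) f := by
          apply mul_le_mul_of_nonneg_right _ hP
          apply mul_le_mul_of_nonneg_left _ (by positivity)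
          have h5 : 1 * Real.sqrt r ≤ ((3 + 3 * C1) * D ^ (ε / 2)) * Real.sqrt r := by
            apply mul_le_mul_of_nonneg_right _ hsr
            nlinarith
          linarith
      _ = C2 * (3 + 3 * C1) * (D ^ (ε / 2) * D ^ (ε / 2)) * (Real.sqrt r + M) *
            petNorm (24 * p) f := by ring
      _ = C2 * (3 + 3 * C1) * D ^ ε * (Real.sqrt r + M) * petNorm (24 * p) f := by
          rw [← Real.rpow_add hDpos]; congr 4; ring
      _ ≤ _ := by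
          have e1 : 0 ≤ C * 16 * D ^ ε * (Real.sqrt r + M) := by positivity
          apply mul_le_mul_of_nonneg_right _ hP
          calc C2 * (3 + 3 * C1) * D ^ ε * (Real.sqrt r + M)
              ≤ C * 16 * D ^ ε * (Real.sqrt r + M) +
                C2 * (3 + 3 * C1) * D ^ ε * (Real.sqrt r + M) := by linarith
            _ = _ := by ring

/-- the bound for an orthonormal family. -/
theorem hybridIwaniec (ε : ℝ) (hε : 0 < ε) : ∃ C : ℝ, 0 < C ∧ ∀ p : ℕ, p.Prime →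
    ∀ (χ : DirichletCharacter ℂ (24 * p)) (K : ℕ) (φ : Fin K → ℍ → ℂ),
    (∀ k, IsCuspForm (24 * p) χ (φ k)) →
    (∀ j k, peterssonInner (24 * p) (φ j) (φ k) = if j = k then 1 else 0) →
    ∀ r : ℕ, Squarefree r → r.Coprime p →
      ∑ k, ‖fourierCoeff (φ k) r‖ ^ 2 ≤
        C * ((p * r : ℕ) : ℝ) ^ ε *
          (Real.sqrt r + (r : ℝ) ^ (13 / 14 : ℝ) * (p : ℝ) ^ (-(11 / 14) : ℝ)) := by
  obtain ⟨C, hC, h⟩ := single ε hε
  refine ⟨C, hC, ?_⟩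
  intro p hp χ K φ hφ hon r hsq hrp
  have hp0 := hp.pos
  have hr0 : 0 < r := Nat.pos_of_ne_zero hsq.ne_zero
  have : NeZero (24 * p) := ⟨by omega⟩
  have h1 := duality hφ hon {r} (L := C * ((p * r : ℕ) : ℝ) ^ ε *
      (Real.sqrt r + (r : ℝ) ^ (13 / 14 : ℝ) * (p : ℝ) ^ (-(11 / 14) : ℝ)))
    (by positivity) (fun f hf ↦ by
            rw [Finset.sum_singleton]
            exact h hp hsq hrp χ f hf) (fun _ ↦ 1)
  simpa using h1

end

end Pool.Agent.Work.MP_af11aa_nt.T
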